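import Pool.Agent.H71RE.APP4

/-!
# The piece APP: relative embeddability gives approximations
-/

set_option autoImplicit false

open scoped InnerProductSpace ComplexOrder CStarAlgebra
open Filter Topology

namespace Pool.Agent.H71RE

open Pool.Agent.N557.QWX (Op IsTracial IsHom tr)
open Pool.Agent.N859.QW (l2 LG vN)
open Pool.Agent.N557.QW (lam)

noncomputable section

section est

variable {X : Type} [NormedAddCommGroup X] [InnerProductSpace ℂ X] [CompleteSpace X]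
  {Y : Type} [NormedAddCommGroup Y] [InnerProductSpace ℂ Y] [CompleteSpace Y]
  {Γ : Type} [Group Γ] {G₀ : Type} [Group G₀]
  {A : VonNeumannAlgebra X} {α : X} {C : VonNeumannAlgebra Y} {ζ : Y}
  {i : Op X → Op Y} {j : Op (l2 Γ) → Op Y}

/-- the final estimates at one index -/
theorem app_fin (hA : IsTracial A α) (hQ : Pool.Agent.N859.QX.QWEP A) (hT : TT A α Γ C ζ i j)
    (K₀ : Subgroup G₀) (E : Finset G₀) (g₁ : G₀) (δ : ℝ) (M d : ℝ) (hM : 1 ≤ M) (hd : 0 < d)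
    (hd1 : d ≤ 1) (hd2 : 8 * (3 * M + 3) ^ 2 * d ≤ δ)
    (c : G₀ → Op Y) (hc : ∀ g, c g ∈ C) (hcM : ∀ g ∈ E, ‖c g‖ ≤ M) (hcM1 : ‖c g₁‖ ≤ M)
    (s : G₀ → MonoidAlgebra A.toStarSubalgebra Γ)
    (hs : ∀ g, ‖Psi hT (s g)‖ ≤ 2 * ‖c g‖) (hs' : ∀ g, ‖(c g - Psi hT (s g)) ζ‖ < d)
    (D : StarSubalgebra ℂ (Op X)) (hfin : FiniteDimensional ℂ D) (hD : ∀ y ∈ D, y ∈ A)
    (hb : ∀ g ∈ E, g ∈ K₀ → ∃ b : MonoidAlgebra A.toStarSubalgebra Γ, cD D b ∧
      ‖(c g - Psi hT b) ζ‖ ≤ 2 * d)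
    (e o : MonoidAlgebra A.toStarSubalgebra Γ) (hdec : s g₁ = e + o) (he : cD D e)
    (ho : ∀ h, ∀ y ∈ D, ⟪y α, ((o.coeff h : A.toStarSubalgebra) : Op X) α⟫_ℂ = 0)
    (hen : ‖Psi hT e‖ ≤ ‖Psi hT (s g₁)‖)
    (hee : ⟪Psi hT e ζ, Psi hT (s g₁) ζ⟫_ℂ = (n2 α e : ℂ))
    (a1 : ‖(c 1 - 1) ζ‖ < d) (a2 : ∀ g ∈ E, ∀ h ∈ E, ‖(c g * c h - c (g * h)) ζ‖ < d)
    (a3 : ∀ g ∈ E, ‖(star (c g) * c g - 1) ζ‖ < d) (a4 : ∀ g ∈ E, ‖c g ζ‖ ≤ 1 + d)
    (a5 : ‖⟪Psi hT e ζ, c g₁ ζ⟫_ℂ‖ < d) : App K₀ E g₁ δ A α D s e o := by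
  have hsq : ∀ t : ℝ, 0 ≤ t → t ≤ (3 * M + 3) * d → t ^ 2 ≤ δ := by
    intro t ht0 ht
    have h1 : t ^ 2 ≤ ((3 * M + 3) * d) ^ 2 := by gcongr
    have h2 : ((3 * M + 3) * d) ^ 2 = (3 * M + 3) ^ 2 * d * d := by ring
    have h3 : (3 * M + 3) ^ 2 * d * d ≤ (3 * M + 3) ^ 2 * d * 1 := by gcongr
    have h4 : (3 * M + 3) ^ 2 * d * 1 ≤ 8 * (3 * M + 3) ^ 2 * d := by
      have : 0 ≤ (3 * M + 3) ^ 2 * d := by positivity
      nlinarith
    linarith
  have hsM : ∀ g ∈ E, ‖Psi hT (s g)‖ ≤ 2 * M := fun g hg =>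
    (hs g).trans (by linarith [hcM g hg])
  have hsC : ∀ g, Psi hT (s g) ∈ C := fun g => Psi_mem hT _
  have hs'' : ∀ g, ‖(Psi hT (s g) - c g) ζ‖ < d := by
    intro g
    have : Psi hT (s g) - c g = -(c g - Psi hT (s g)) := by abel
    rw [this]
    show ‖-((c g - Psi hT (s g)) ζ)‖ < d
    rw [norm_neg]
    exact hs' g
  have tri : ∀ x y : Op Y, ‖(x + y) ζ‖ ≤ ‖x ζ‖ + ‖y ζ‖ := fun x y => norm_add_le _ _
  refine ⟨hA, hQ, hfin, hD, ?_, ?_, ?_, ?_, ?_, hdec, he, ?_, ho⟩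
  · rw [n2_eq hT, map_sub, map_one]
    refine hsq _ (norm_nonneg _) ?_
    have e1 : Psi hT (s 1) - 1 = (Psi hT (s 1) - c 1) + (c 1 - 1) := by abel
    rw [e1]
    have := tri (Psi hT (s 1) - c 1) (c 1 - 1)
    have := hs'' 1
    nlinarith
  · intro g hg
    rw [n2_eq hT]
    have e1 : Psi hT (s g) = (Psi hT (s g) - c g) + c g := by abel
    have h1 : ‖Psi hT (s g) ζ‖ ≤ 1 + 2 * d := by
      rw [e1]
      have := tri (Psi hT (s g) - c g) (c g)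
      have := hs'' g
      have := a4 g hg
      linarith
    calc ‖Psi hT (s g) ζ‖ ^ 2 ≤ (1 + 2 * d) ^ 2 := by gcongr
      _ ≤ 1 + 8 * d := by nlinarith
      _ ≤ 1 + 8 * (3 * M + 3) ^ 2 * d := by
        have : (1 : ℝ) ≤ (3 * M + 3) ^ 2 := by nlinarith
        nlinarith
      _ ≤ 1 + δ := by linarith
  · intro g hg h hh
    rw [n2_eq hT, map_sub, map_mul]
    refine hsq _ (norm_nonneg _) ?_
    have e1 : Psi hT (s g) * Psi hT (s h) - Psi hT (s (g * h)) =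
        Psi hT (s g) * (Psi hT (s h) - c h) + ((Psi hT (s g) - c g) * c h +
          ((c g * c h - c (g * h)) + (c (g * h) - Psi hT (s (g * h))))) := by noncomm_ring
    rw [e1]
    have t1 := tri (Psi hT (s g) * (Psi hT (s h) - c h)) ((Psi hT (s g) - c g) * c h +
          ((c g * c h - c (g * h)) + (c (g * h) - Psi hT (s (g * h)))))
    have t2 := tri ((Psi hT (s g) - c g) * c h)
          ((c g * c h - c (g * h)) + (c (g * h) - Psi hT (s (g * h))))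
    have t3 := tri (c g * c h - c (g * h)) (c (g * h) - Psi hT (s (g * h)))
    have t4 : ‖(Psi hT (s g) * (Psi hT (s h) - c h)) ζ‖ ≤ 2 * M * d := by
      refine (nleft _ _ _).trans ?_
      exact mul_le_mul (hsM g hg) (hs'' h).le (norm_nonneg _) (by linarith)
    have t5 : ‖((Psi hT (s g) - c g) * c h) ζ‖ ≤ M * d := by
      refine (nright hT.tracial _ _ (sub_mem (hsC g) (hc g)) (hc h)).trans ?_
      exact mul_le_mul (hcM h hh) (hs'' g).le (norm_nonneg _) (by linarith)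
    have t6 := a2 g hg h hh
    have t7 := hs' (g * h)
    nlinarith
  · intro g hg
    rw [n2_eq hT, map_sub, map_mul, map_one, Psi_adj]
    refine hsq _ (norm_nonneg _) ?_
    have e1 : star (Psi hT (s g)) * Psi hT (s g) - 1 =
        star (Psi hT (s g)) * (Psi hT (s g) - c g) + (star (Psi hT (s g) - c g) * c g +
          (star (c g) * c g - 1)) := by
      rw [star_sub]
      noncomm_ring
    rw [e1]
    have t1 := tri (star (Psi hT (s g)) * (Psi hT (s g) - c g)) (star (Psi hT (s g) - c g) * c g +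
          (star (c g) * c g - 1))
    have t2 := tri (star (Psi hT (s g) - c g) * c g) (star (c g) * c g - 1)
    have t4 : ‖(star (Psi hT (s g)) * (Psi hT (s g) - c g)) ζ‖ ≤ 2 * M * d := by
      refine (nleft _ _ _).trans ?_
      rw [norm_star]
      exact mul_le_mul (hsM g hg) (hs'' g).le (norm_nonneg _) (by linarith)
    have t5 : ‖(star (Psi hT (s g) - c g) * c g) ζ‖ ≤ M * d := by
      refine (nright hT.tracial _ _ (star_mem (sub_mem (hsC g) (hc g))) (hc g)).trans ?_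
      rw [nstar hT.tracial _ (sub_mem (hsC g) (hc g))]
      exact mul_le_mul (hcM g hg) (hs'' g).le (norm_nonneg _) (by linarith)
    have t6 := a3 g hg
    nlinarith
  · intro g hg hgK
    obtain ⟨b, hb1, hb2⟩ := hb g hg hgK
    refine ⟨b, hb1, ?_⟩
    rw [n2_eq hT, map_sub]
    refine hsq _ (norm_nonneg _) ?_
    have e1 : Psi hT (s g) - Psi hT b = (Psi hT (s g) - c g) + (c g - Psi hT b) := by abel
    rw [e1]
    have t1 := tri (Psi hT (s g) - c g) (c g - Psi hT b)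
    have t2 := hs'' g
    nlinarith
  · have h1 : ⟪Psi hT e ζ, Psi hT (s g₁) ζ⟫_ℂ =
        ⟪Psi hT e ζ, (Psi hT (s g₁) - c g₁) ζ⟫_ℂ + ⟪Psi hT e ζ, c g₁ ζ⟫_ℂ := by
      rw [← inner_add_right]
      congr 1
      show _ = (Psi hT (s g₁) ζ - c g₁ ζ) + c g₁ ζ
      abel
    have h2 : ‖Psi hT e ζ‖ ≤ 2 * M := by
      calc ‖Psi hT e ζ‖ ≤ ‖Psi hT e‖ * ‖ζ‖ := (Psi hT e).le_opNorm _
        _ = ‖Psi hT e‖ := by rw [hT.tracial.unit, mul_one]
        _ ≤ ‖Psi hT (s g₁)‖ := hen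
        _ ≤ 2 * ‖c g₁‖ := hs g₁
        _ ≤ 2 * M := by linarith
    have h3 : ‖⟪Psi hT e ζ, (Psi hT (s g₁) - c g₁) ζ⟫_ℂ‖ ≤ 2 * M * d := by
      refine (norm_inner_le_norm _ _).trans ?_
      exact mul_le_mul h2 (hs'' g₁).le (norm_nonneg _) (by linarith)
    have h4 : ‖(n2 α e : ℂ)‖ ≤ 2 * M * d + d := by
      rw [← hee, h1]
      exact (norm_add_le _ _).trans (add_le_add h3 a5.le)
    have h5 : n2 α e ≤ ‖(n2 α e : ℂ)‖ := by
      rw [Complex.norm_real]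
      exact le_abs_self _
    have h6 : 2 * M * d + d ≤ 8 * (3 * M + 3) ^ 2 * d := by
      have : 2 * M + 1 ≤ 8 * (3 * M + 3) ^ 2 := by nlinarith
      nlinarith
    linarith

end est

theorem app (h1 : S_DBL) (h2 : S_KAP) (h3 : S_BND) : S_APP := by
  intro G₀ G _ _ K₀ H ι hι hRE E g₁ hg₁ δ hδ
  classical
  obtain ⟨U, X, A, B, α, tracial, qwep, le, hyp, Y, C, ζ, i, j, tensor, Z, Mh, η, Θ, ultra, π,
    hom, trace, sub, square⟩ := hRE
  -- the sequences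
  have hT : ∀ k, TT (A k) (α k) H (C k) (ζ k) (i k) (j k) := tensor
  have hBA : ∀ k, ∀ y ∈ (B k).toStarSubalgebra, y ∈ A k := fun k y hy => le k hy
  have ex : ∀ g : G₀, ∃ c : ∀ k, Op (Y k), Bd C c ∧ Θ c = π (lam (ι g)) ∧
      (g ∈ K₀ → ∀ k, c k ∈ Tens (B k) (LG H) (i k) (j k)) := by
    intro g
    by_cases hg : g ∈ K₀
    · obtain ⟨x, hx, hx'⟩ := sub (lam (ι g)) (lam_memLH H _ ((hι g).2 hg))
      exact ⟨x, ⟨hx.bound, fun k => Tens_le (hT k) (B k) (hBA k) _ (hx.mem k)⟩, hx',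
        fun _ => hx.mem⟩
    · obtain ⟨x, hx, hx'⟩ := ultra.onto (π (lam (ι g))) (hom.mem _ (lam_memLG _))
      exact ⟨x, hx, hx', fun h => absurd h hg⟩
  choose c hcB hcΘ hcT using ex
  have exR : ∀ g : G₀, ∃ R : ℝ, ∀ k, ‖c g k‖ ≤ R := fun g => (hcB g).bound
  choose R hR using exR
  set M : ℝ := 1 + ∑ g ∈ insert g₁ E, |R g| with hM
  have hsum0 : 0 ≤ ∑ g ∈ insert g₁ E, |R g| := Finset.sum_nonneg fun _ _ => abs_nonneg _
  have hM1 : 1 ≤ M := by rw [hM]; linarith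
  have hMg : ∀ g ∈ insert g₁ E, ∀ k, ‖c g k‖ ≤ M := by
    intro g hg k
    have e1 : |R g| ≤ ∑ g ∈ insert g₁ E, |R g| :=
      Finset.single_le_sum (f := fun g => |R g|) (fun _ _ => abs_nonneg _) hg
    have e2 := hR g k
    have e3 := le_abs_self (R g)
    rw [hM]; linarith
  clear_value M
  set d : ℝ := min 1 (δ / (8 * (3 * M + 3) ^ 2)) with hd
  have hd0 : 0 < d := by rw [hd]; exact lt_min one_pos (by positivity)
  have hd1 : d ≤ 1 := min_le_left _ _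
  have hd2 : 8 * (3 * M + 3) ^ 2 * d ≤ δ := by
    have : d ≤ δ / (8 * (3 * M + 3) ^ 2) := min_le_right _ _
    rw [le_div_iff₀ (by positivity)] at this
    linarith
  clear_value d
  -- the approximations
  have exs : ∀ k, ∀ g : G₀, ∃ s : MonoidAlgebra (A k).toStarSubalgebra H,
      ‖Psi (hT k) s‖ ≤ 2 * ‖c g k‖ ∧ ‖(c g k - Psi (hT k) s) (ζ k)‖ < d := fun k g =>
    kapPsi h1 h2 (tracial k) (hT k) (c g k) ((hcB g).mem k) d hd0
  choose s hs hs' using exs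
  have exb : ∀ k, ∀ g : G₀, ∃ b : MonoidAlgebra (A k).toStarSubalgebra H,
      g ∈ K₀ → cD (B k).toStarSubalgebra b ∧ ‖(c g k - Psi (hT k) b) (ζ k)‖ < d := by
    intro k g
    by_cases hg : g ∈ K₀
    · obtain ⟨b, hb, hb'⟩ := dense h1 (tracial k) (hT k) (B k) (hBA k) (c g k) (hcT g hg k) d hd0
      exact ⟨b, fun _ => ⟨hb, hb'⟩⟩
    · exact ⟨0, fun h => absurd h hg⟩
  choose b hb using exb
  have exD : ∀ k, ∃ D : StarSubalgebra ℂ (Op (X k)), FiniteDimensional ℂ D ∧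
      (∀ y ∈ D, y ∈ B k) ∧ ∀ g ∈ E, g ∈ K₀ → ∃ b' : MonoidAlgebra (A k).toStarSubalgebra H,
        cD D b' ∧ ‖(c g k - Psi (hT k) b') (ζ k)‖ ≤ 2 * d := by
    intro k
    obtain ⟨D, hfin, hDB, hD⟩ := hypa (B k) (hyp k) (hBA k) (E.filter fun g => g ∈ K₀) (b k)
      (fun g hg => (hb k g (Finset.mem_filter.1 hg).2).1) d hd0
    refine ⟨D, hfin, hDB, fun g hg hgK => ?_⟩
    obtain ⟨b', hb', hn⟩ := hD g (Finset.mem_filter.2 ⟨hg, hgK⟩)
    refine ⟨b', hb', ?_⟩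
    rw [n2_eq (hT k), map_sub] at hn
    have hn' : ‖(Psi (hT k) (b k g) - Psi (hT k) b') (ζ k)‖ ≤ d :=
      le_of_sq_le_sq hn hd0.le
    have e1 : c g k - Psi (hT k) b' =
        (c g k - Psi (hT k) (b k g)) + (Psi (hT k) (b k g) - Psi (hT k) b') := by abel
    rw [e1]
    calc ‖((c g k - Psi (hT k) (b k g)) + (Psi (hT k) (b k g) - Psi (hT k) b')) (ζ k)‖
        ≤ ‖(c g k - Psi (hT k) (b k g)) (ζ k)‖ +
          ‖(Psi (hT k) (b k g) - Psi (hT k) b') (ζ k)‖ := norm_add_le _ _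
      _ ≤ 2 * d := by linarith [(hb k g hgK).2]
  choose D hfin hDB hD using exD
  have exe : ∀ k, ∃ e o : MonoidAlgebra (A k).toStarSubalgebra H, s k g₁ = e + o ∧ cD (D k) e ∧
      (∀ h, ∀ y ∈ D k, ⟪y (α k), ((o.coeff h : (A k).toStarSubalgebra) : Op (X k)) (α k)⟫_ℂ = 0) ∧
      ‖Psi (hT k) e‖ ≤ ‖Psi (hT k) (s k g₁)‖ ∧
      ⟪Psi (hT k) e (ζ k), Psi (hT k) (s k g₁) (ζ k)⟫_ℂ = (n2 (α k) e : ℂ) := fun k =>
    decomp h3 (tracial k) (hT k) (D k) (hfin k) (fun y hy => hBA k y (hDB k y hy)) (s k g₁)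
  choose e o hdec he ho hen hee using exe
  -- the sequence `p`
  let p : ∀ k, Op (Y k) := fun k => Psi (hT k) (e k)
  have hpT : BddIn (fun k => Tens (B k) (LG H) (i k) (j k)) p := by
    refine ⟨⟨2 * M, fun k => ?_⟩, fun k => Psi_Tens (hT k) (B k) _ fun h => hDB k _ (he k h)⟩
    calc ‖Psi (hT k) (e k)‖ ≤ ‖Psi (hT k) (s k g₁)‖ := hen k
      _ ≤ 2 * ‖c g₁ k‖ := hs k g₁
      _ ≤ 2 * M := by linarith [hMg g₁ (Finset.mem_insert_self _ _) k]
  have hpC : Bd C p := ⟨hpT.bound, fun k => Psi_mem (hT k) _⟩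
  -- the limits
  have hΘmul : ∀ x y, x ∈ LG G → y ∈ LG G → π (x * y) = π x * π y := fun x y hx hy =>
    hom.mul x hx y hy
  have L1 : Θ (c 1 - 1) = 0 := by
    rw [th_sub ultra (hcB 1) bd_one, hcΘ, ultra.one, map_one, Pool.Agent.N557.QW.lam_one]
    have : π (1 : Op (l2 G)) = 1 := hom.one
    show π (1 : Op (l2 G)) - 1 = 0
    rw [this, sub_self]
  have L2 : ∀ g h, Θ (c g * c h - c (g * h)) = 0 := by
    intro g h
    rw [th_sub ultra (bd_mul (hcB g) (hcB h)) (hcB _), ultra.mul _ _ (hcB g) (hcB h), hcΘ, hcΘ,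
      hcΘ, map_mul, Pool.Agent.N557.QW.lam_mul]
    show π (lam (ι g)) * π (lam (ι h)) - π (lam (ι g) * lam (ι h)) = 0
    rw [hΘmul _ _ (lam_memLG _) (lam_memLG _), sub_self]
  have Lss : ∀ g, star (π (lam (ι g))) * π (lam (ι g)) = 1 := by
    intro g
    rw [← hom.star _ (lam_memLG _), ← hΘmul _ _ (star_mem (lam_memLG _)) (lam_memLG _),
      Pool.Agent.N557.QW.star_lam]
    have : (lam (ι g)⁻¹ : Op (l2 G)) * lam (ι g) = 1 := by
      have h := Pool.Agent.N557.QW.lam_mul (ι g)⁻¹ (ι g)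
      rw [inv_mul_cancel, Pool.Agent.N557.QW.lam_one] at h
      exact h.symm
    rw [this]
    exact hom.one
  have L3 : ∀ g, Θ (star (c g) * c g - 1) = 0 := by
    intro g
    rw [th_sub ultra (bd_mul (bd_star (hcB g)) (hcB g)) bd_one,
      ultra.mul _ _ (bd_star (hcB g)) (hcB g), ultra.star _ (hcB g), hcΘ, Lss, ultra.one, sub_self]
  have L4 : ∀ g, ‖Θ (c g) η‖ ^ 2 = 1 := by
    intro g
    have h : ((‖Θ (c g) η‖ ^ 2 : ℝ) : ℂ) = ((1 : ℝ) : ℂ) := by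
      rw [nsq, hcΘ, Lss]
      show ⟪η, η⟫_ℂ = _
      rw [inner_self_eq_norm_sq_to_K, ultra.tracial.unit]
      simp
    exact_mod_cast h
  have L5 : ⟪Θ p η, Θ (c g₁) η⟫_ℂ = 0 := by
    rw [hcΘ]
    have hx : π (lam (ι g₁)) ∈ Mh := hom.mem _ (lam_memLG _)
    have sq := square _ hx
    rw [l2proj_self (π '' (LG G : Set _)) η (π (lam (ι g₁))) ⟨_, lam_memLG _, rfl⟩] at sq
    have z : l2proj (π '' (LH H : Set (Op (l2 G)))) η (π (lam (ι g₁)) η) = 0 := by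
      refine l2proj_orth _ _ _ ?_
      rintro _ ⟨n, hn, rfl⟩
      have hnG : n ∈ LG G := LH_le_LG H hn
      rw [← tr_star_mul, ← hom.star _ hnG, ← hΘmul _ _ (star_mem hnG) (lam_memLG _),
        trace _ (mul_mem (star_mem hnG) (lam_memLG _)), tr_star_mul]
      exact LH_orth H hn _ fun h => hg₁ ((hι g₁).1 h)
    rw [z] at sq
    exact orth_of_l2proj _ _ _ sq.symm _ ⟨p, hpT, rfl⟩
  -- the eventual estimates
  have E1 : ∀ᶠ k in (U : Filter ℕ), ‖(c 1 k - 1) (ζ k)‖ < d :=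
    ev0 ultra (bd_sub (hcB 1) bd_one) L1 d hd0
  have E2 : ∀ᶠ k in (U : Filter ℕ), ∀ g ∈ E, ∀ h ∈ E,
      ‖(c g k * c h k - c (g * h) k) (ζ k)‖ < d := by
    rw [Filter.eventually_all_finset]
    intro g _
    rw [Filter.eventually_all_finset]
    intro h _
    exact ev0 ultra (bd_sub (bd_mul (hcB g) (hcB h)) (hcB _)) (L2 g h) d hd0
  have E3 : ∀ᶠ k in (U : Filter ℕ), ∀ g ∈ E, ‖(star (c g k) * c g k - 1) (ζ k)‖ < d := by
    rw [Filter.eventually_all_finset]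
    intro g _
    exact ev0 ultra (bd_sub (bd_mul (bd_star (hcB g)) (hcB g)) bd_one) (L3 g) d hd0
  have E4 : ∀ᶠ k in (U : Filter ℕ), ∀ g ∈ E, ‖c g k (ζ k)‖ ≤ 1 + d := by
    rw [Filter.eventually_all_finset]
    intro g _
    have h := tend_norm ultra (hcB g)
    rw [L4] at h
    have h2 : ∀ᶠ k in (U : Filter ℕ), ‖c g k (ζ k)‖ ^ 2 < 1 + d :=
      h.eventually (eventually_lt_nhds (by linarith))
    filter_upwards [h2] with k hk
    by_contra hcon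
    rw [not_le] at hcon
    nlinarith
  have E5 : ∀ᶠ k in (U : Filter ℕ), ‖⟪Psi (hT k) (e k) (ζ k), c g₁ k (ζ k)⟫_ℂ‖ < d := by
    have h := (tend_inner ultra hpC (hcB g₁)).norm
    rw [L5, norm_zero] at h
    exact h.eventually (eventually_lt_nhds hd0)
  obtain ⟨k, k1, k2, k3, k4, k5⟩ := (E1.and (E2.and (E3.and (E4.and E5)))).exists
  exact ⟨X k, inferInstance, inferInstance, inferInstance, A k, α k, D k, s k, e k, o k,
    app_fin (tracial k) (qwep k) (hT k) K₀ E g₁ δ M d hM1 hd0 hd1 hd2 (fun g => c g k)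
      (fun g => (hcB g).mem k) (fun g hg => hMg g (Finset.mem_insert_of_mem hg) k)
      (hMg g₁ (Finset.mem_insert_self _ _) k) (s k) (hs k) (hs' k) (D k) (hfin k)
      (fun y hy => hBA k y (hDB k y hy)) (hD k) (e k) (o k) (hdec k) (he k) (ho k) (hen k)
      (hee k) k1 k2 k3 k4 k5⟩

end

end Pool.Agent.H71RE
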