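import Pool.Agent.H71RE.Stm

set_option autoImplicit false

open scoped InnerProductSpace ComplexOrder CStarAlgebra
open Filter Topology

namespace Pool.Agent.H71RE

open Pool.Agent.N557.QWX (Op IsTracial IsHom tr)

noncomputable section

theorem vna_isClosed {K : Type} [NormedAddCommGroup K] [InnerProductSpace ℂ K] [CompleteSpace K]
    (C : VonNeumannAlgebra K) : IsClosed (C : Set (Op K)) := by
  have h := C.centralizer_centralizer'
  have h2 : (C : Set (Op K)) = Set.centralizer (Set.centralizer (C : Set (Op K))) := h.symm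
  rw [h2]
  exact Set.isClosed_centralizer _

theorem bnd : S_BND := by
  intro K _ _ _ C ζ hC S hS p hp s hs horth
  by_contra hcon
  rw [not_le] at hcon
  set r : ℝ := ‖s‖ with hr
  have hr0 : 0 ≤ r := norm_nonneg _
  have hadj : ∀ (x : Op K) (u v : K), ⟪star x u, v⟫_ℂ = ⟪u, x v⟫_ℂ := by
    intro x u v
    rw [ContinuousLinearMap.star_eq_adjoint, ContinuousLinearMap.adjoint_inner_left]
  have hadj' : ∀ (x : Op K) (u v : K), ⟪u, star x v⟫_ℂ = ⟪x u, v⟫_ℂ := by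
    intro x u v
    rw [ContinuousLinearMap.star_eq_adjoint, ContinuousLinearMap.adjoint_inner_right]
  -- the trace
  have htr : ∀ x ∈ C, ∀ y ∈ C, ⟪ζ, (x * y) ζ⟫_ℂ = ⟪ζ, (y * x) ζ⟫_ℂ := hC.tracial
  have hpC : p ∈ C := hS p hp
  have h0 : ∀ a ∈ S, ∀ b ∈ S, ⟪b ζ, (p * a) ζ⟫_ℂ = ⟪b ζ, (s * a) ζ⟫_ℂ := by
    intro a ha b hb
    have key : ∀ x ∈ C, ⟪b ζ, (x * a) ζ⟫_ℂ = ⟪(b * star a) ζ, x ζ⟫_ℂ := by
      intro x hx
      have e1 : ⟪b ζ, (x * a) ζ⟫_ℂ = ⟪ζ, ((star b * x) * a) ζ⟫_ℂ := by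
        show _ = ⟪ζ, star b ((x * a) ζ)⟫_ℂ
        rw [hadj']
      have e2 : ⟪(b * star a) ζ, x ζ⟫_ℂ = ⟪ζ, (a * (star b * x)) ζ⟫_ℂ := by
        show ⟪b (star a ζ), x ζ⟫_ℂ = ⟪ζ, a (star b (x ζ))⟫_ℂ
        rw [← hadj a, hadj' b]
      rw [e1, e2]
      exact htr _ (mul_mem (star_mem (hS b hb)) hx) _ (hS a ha)
    rw [key p hpC, key s hs]
    have := horth (b * star a) (mul_mem hb (star_mem ha))
    rw [ContinuousLinearMap.sub_apply, inner_sub_right, sub_eq_zero] at this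
    exact this.symm
  have h1 : ∀ a ∈ S, ‖(p * a) ζ‖ ≤ r * ‖a ζ‖ := by
    intro a ha
    have e := h0 a ha (p * a) (mul_mem hp ha)
    have e1 : ‖(p * a) ζ‖ ^ 2 = ‖⟪(p * a) ζ, (p * a) ζ⟫_ℂ‖ := by
      rw [inner_self_eq_norm_sq_to_K]
      simp
    have e2 : ‖⟪(p * a) ζ, (s * a) ζ⟫_ℂ‖ ≤ ‖(p * a) ζ‖ * (r * ‖a ζ‖) := by
      refine (norm_inner_le_norm _ _).trans ?_
      gcongr
      exact s.le_opNorm (a ζ)
    rw [e] at e1
    by_cases hz : ‖(p * a) ζ‖ = 0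
    · rw [hz]; positivity
    · have hpos : 0 < ‖(p * a) ζ‖ := lt_of_le_of_ne (norm_nonneg _) (Ne.symm hz)
      have : ‖(p * a) ζ‖ * ‖(p * a) ζ‖ ≤ ‖(p * a) ζ‖ * (r * ‖a ζ‖) := by
        calc ‖(p * a) ζ‖ * ‖(p * a) ζ‖ = ‖(p * a) ζ‖ ^ 2 := by ring
          _ = _ := e1
          _ ≤ _ := e2
      exact le_of_mul_le_mul_left this hpos
  have h2 : ∀ a ∈ S.topologicalClosure, ‖(p * a) ζ‖ ≤ r * ‖a ζ‖ := by
    intro a ha
    have hcl : IsClosed {a : Op K | ‖(p * a) ζ‖ ≤ r * ‖a ζ‖} := by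
      refine isClosed_le ?_ ?_
      · have : Continuous fun a : Op K => p (a ζ) :=
          p.continuous.comp (ContinuousLinearMap.apply ℂ K ζ).continuous
        exact this.norm
      · exact continuous_const.mul (ContinuousLinearMap.apply ℂ K ζ).continuous.norm
    have : (S.topologicalClosure : Set (Op K)) ⊆ {a : Op K | ‖(p * a) ζ‖ ≤ r * ‖a ζ‖} := by
      rw [StarSubalgebra.topologicalClosure_coe]
      exact closure_minimal (fun a ha => h1 a ha) hcl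
    exact this ha
  -- the functional calculus
  set T : Op K := star p * p with hT
  have hTn : ‖T‖ = ‖p‖ * ‖p‖ := CStarRing.norm_star_mul_self
  have hTpos : 0 ≤ T := star_mul_self_nonneg p
  have hTsa : IsSelfAdjoint T := IsSelfAdjoint.star_mul_self p
  have hTS : T ∈ S.topologicalClosure :=
    S.le_topologicalClosure (mul_mem (star_mem hp) hp)
  have hlt : r * r < ‖T‖ := by
    rw [hTn]; nlinarith
  obtain ⟨t, ht1, ht2⟩ := exists_between hlt
  let f : ℝ → ℝ := fun x => max (x - t) 0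
  have hf : Continuous f := by fun_prop
  set b : Op K := cfc f T with hb
  have hbS : b ∈ S.topologicalClosure := by
    haveI : IsClosed ((S.topologicalClosure : StarSubalgebra ℂ (Op K)) : Set (Op K)) :=
      S.isClosed_topologicalClosure
    exact cfc_mem (𝕜' := ℂ) f hTS
  have hbC : b ∈ C := by
    have hle : (S.topologicalClosure : Set (Op K)) ⊆ (C : Set (Op K)) := by
      rw [StarSubalgebra.topologicalClosure_coe]
      exact closure_minimal (fun a ha => hS a ha) (vna_isClosed C)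
    exact hle hbS
  have hnt : Nontrivial (Op K) := by
    refine ⟨⟨T, 0, ?_⟩⟩
    intro h
    rw [h, norm_zero] at hlt
    nlinarith
  have hb0 : b ≠ 0 := by
    intro h
    have hmem : ‖T‖ ∈ spectrum ℝ T := CStarAlgebra.norm_mem_spectrum_of_nonneg
    have hsp : spectrum ℝ b = f '' spectrum ℝ T := cfc_map_spectrum f T (ha := hTsa)
    have : f ‖T‖ ∈ spectrum ℝ b := by rw [hsp]; exact ⟨_, hmem, rfl⟩
    rw [h, spectrum.zero_eq, Set.mem_singleton_iff] at this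
    have h3 : f ‖T‖ = ‖T‖ - t := max_eq_left (by linarith)
    rw [h3] at this
    linarith
  have hbsa : star b = b := by
    have : IsSelfAdjoint b := cfc_predicate f T
    exact this
  have hcomb : t • (b * b) ≤ b * T * b := by
    have e1 : b * b = cfc (fun x => f x * f x) T := by
      rw [cfc_mul f f T]
    have e2 : b * T * b = cfc (fun x => f x * x * f x) T := by
      have hid : cfc (fun x : ℝ => x) T = T := cfc_id' ℝ T
      rw [cfc_mul (fun x => f x * x) f T (by fun_prop) (by fun_prop), cfc_mul f (fun x => x) T (by fun_prop) (by fun_prop), hid]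
    rw [e1, e2, ← cfc_smul t (fun x => f x * f x) T (by fun_prop)]
    refine cfc_mono ?_ (by fun_prop) (by fun_prop)
    intro x hx
    show t • (f x * f x) ≤ f x * x * f x
    rw [smul_eq_mul]
    by_cases h : x ≤ t
    · have : f x = 0 := max_eq_right (by linarith)
      rw [this]; simp
    · rw [not_le] at h
      nlinarith [mul_self_nonneg (f x)]
  have hfin : t * ‖b ζ‖ ^ 2 ≤ r * r * ‖b ζ‖ ^ 2 := by
    have hpos : 0 ≤ b * T * b - t • (b * b) := sub_nonneg.2 hcomb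
    have hpos' := (ContinuousLinearMap.nonneg_iff_isPositive _).1 hpos
    have hre : 0 ≤ (⟪ζ, (b * T * b - t • (b * b)) ζ⟫_ℂ).re := by
      have := hpos'.inner_nonneg_right ζ
      exact (Complex.le_def.1 this).1
    have ea : ⟪ζ, (b * T * b) ζ⟫_ℂ = ⟪(p * b) ζ, (p * b) ζ⟫_ℂ := by
      show ⟪ζ, b (star p (p (b ζ)))⟫_ℂ = ⟪p (b ζ), p (b ζ)⟫_ℂ
      conv_lhs => rw [← hbsa]
      rw [hadj', hbsa, hadj']
    have eb : ⟪ζ, (b * b) ζ⟫_ℂ = ⟪b ζ, b ζ⟫_ℂ := by
      show ⟪ζ, b (b ζ)⟫_ℂ = ⟪b ζ, b ζ⟫_ℂ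
      conv_lhs => rw [← hbsa]
      rw [hadj', hbsa]
    rw [ContinuousLinearMap.sub_apply, inner_sub_right, ea] at hre
    have ec : ⟪ζ, (t • (b * b)) ζ⟫_ℂ = (t : ℂ) * ⟪b ζ, b ζ⟫_ℂ := by
      rw [← eb, ← inner_smul_right]
      congr 1
    rw [ec, inner_self_eq_norm_sq_to_K, inner_self_eq_norm_sq_to_K, Complex.sub_re] at hre
    have e3 : (((‖(p * b) ζ‖ : ℝ) : ℂ) ^ 2).re = ‖(p * b) ζ‖ ^ 2 := by
      rw [← Complex.ofReal_pow, Complex.ofReal_re]
    have e4 : ((t : ℂ) * ((‖b ζ‖ : ℝ) : ℂ) ^ 2).re = t * ‖b ζ‖ ^ 2 := by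
      rw [← Complex.ofReal_pow, ← Complex.ofReal_mul, Complex.ofReal_re]
    have e5 : t * ‖b ζ‖ ^ 2 ≤ ‖(p * b) ζ‖ ^ 2 := by
      have := hre
      simp only [Complex.coe_algebraMap] at this
      rw [e3, e4] at this
      linarith
    have e6 := h2 b hbS
    calc t * ‖b ζ‖ ^ 2 ≤ ‖(p * b) ζ‖ ^ 2 := e5
      _ ≤ (r * ‖b ζ‖) ^ 2 := by gcongr
      _ = r * r * ‖b ζ‖ ^ 2 := by ring
  have hbz : ‖b ζ‖ ^ 2 = 0 := by
    have : 0 ≤ ‖b ζ‖ ^ 2 := by positivity
    nlinarith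
  have hbζ : b ζ = 0 := by
    rw [pow_eq_zero_iff two_ne_zero, norm_eq_zero] at hbz
    exact hbz
  apply hb0
  refine hC.faithful b hbC ?_
  show ⟪ζ, star b (b ζ)⟫_ℂ = 0
  rw [hbζ, map_zero, inner_zero_right]

end

end Pool.Agent.H71RE
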