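import Pool.Agent.H71RE.Stm
import Pool.Agent.H71RE.BND
import Pool.Agent.N557.QW.Base

/-!
# Tools for the piece APP: the group ring `A[Γ]` inside of `A ⊗̄ L(Γ)`
-/

set_option autoImplicit false

open scoped InnerProductSpace ComplexOrder CStarAlgebra
open Filter Topology

namespace Pool.Agent.H71RE

open Pool.Agent.N557.QWX (Op IsTracial IsHom tr)
open Pool.Agent.N859.QW (l2 LG vN)
open Pool.Agent.N557.QW (lam)

noncomputable section

section gen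

variable {K : Type} [NormedAddCommGroup K] [InnerProductSpace ℂ K] [CompleteSpace K]

theorem in_star_l (x : Op K) (u v : K) : ⟪star x u, v⟫_ℂ = ⟪u, x v⟫_ℂ := by
  rw [ContinuousLinearMap.star_eq_adjoint, ContinuousLinearMap.adjoint_inner_left]

theorem in_star_r (x : Op K) (u v : K) : ⟪u, star x v⟫_ℂ = ⟪x u, v⟫_ℂ := by
  rw [ContinuousLinearMap.star_eq_adjoint, ContinuousLinearMap.adjoint_inner_right]

theorem nsq (ζ : K) (x : Op K) : ((‖x ζ‖ ^ 2 : ℝ) : ℂ) = tr ζ (star x * x) := by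
  show _ = ⟪ζ, star x (x ζ)⟫_ℂ
  rw [in_star_r, inner_self_eq_norm_sq_to_K]
  simp

theorem tr_star_mul (ζ : K) (x y : Op K) : tr ζ (star x * y) = ⟪x ζ, y ζ⟫_ℂ := by
  show ⟪ζ, star x (y ζ)⟫_ℂ = _
  rw [in_star_r]

theorem nstar {C : VonNeumannAlgebra K} {ζ : K} (hC : IsTracial C ζ) (x : Op K) (hx : x ∈ C) :
    ‖(star x : Op K) ζ‖ = ‖x ζ‖ := by
  have h : ((‖(star x : Op K) ζ‖ ^ 2 : ℝ) : ℂ) = ((‖x ζ‖ ^ 2 : ℝ) : ℂ) := by
    rw [nsq, nsq, star_star]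
    exact hC.tracial _ hx _ (star_mem hx)
  have h2 : ‖(star x : Op K) ζ‖ ^ 2 = ‖x ζ‖ ^ 2 := by exact_mod_cast h
  exact (pow_left_inj₀ (norm_nonneg _) (norm_nonneg _) two_ne_zero).1 h2

/-- left bound -/
theorem nleft (ζ : K) (x y : Op K) : ‖(x * y) ζ‖ ≤ ‖x‖ * ‖y ζ‖ := x.le_opNorm _

/-- right bound -/
theorem nright {C : VonNeumannAlgebra K} {ζ : K} (hC : IsTracial C ζ) (x y : Op K) (hx : x ∈ C)
    (hy : y ∈ C) : ‖(x * y) ζ‖ ≤ ‖y‖ * ‖x ζ‖ := by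
  rw [← nstar hC _ (mul_mem hx hy), star_mul, ← nstar hC x hx, ← norm_star y]
  exact nleft _ _ _

theorem mem_vN {S : Set (Op K)} {T : Op K} (h : T ∈ S) : T ∈ vN S := by
  unfold Pool.Agent.N859.QW.vN
  rw [VonNeumannAlgebra.mem_commutant_iff]
  intro g hg
  have hg' : g ∈ StarSubalgebra.centralizer ℂ S := hg
  rw [StarSubalgebra.mem_centralizer_iff] at hg'
  exact ((hg' T h).1).symm

/-- an operator in `vN S` commutes with every operator commuting with `S` and `star S` -/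
theorem vN_comm {S : Set (Op K)} {x q : Op K} (hx : x ∈ vN S)
    (hq : ∀ s ∈ S, s * q = q * s ∧ star s * q = q * star s) : q * x = x * q := by
  unfold Pool.Agent.N859.QW.vN at hx
  rw [VonNeumannAlgebra.mem_commutant_iff] at hx
  apply hx
  show q ∈ StarSubalgebra.centralizer ℂ S
  rw [StarSubalgebra.mem_centralizer_iff]
  exact hq

theorem vN_le {S : Set (Op K)} (P : VonNeumannAlgebra K) (h : ∀ s ∈ S, s ∈ P) {x : Op K}
    (hx : x ∈ vN S) : x ∈ P := by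
  have h2 : x ∈ Set.centralizer (Set.centralizer (P : Set (Op K))) := by
    rw [Set.mem_centralizer_iff]
    intro q hq
    refine vN_comm hx fun s hs => ⟨?_, ?_⟩
    · exact hq s (h s hs)
    · exact hq _ (star_mem (h s hs))
  have h3 := P.centralizer_centralizer'
  have h4 : Set.centralizer (Set.centralizer (P : Set (Op K))) = (P : Set (Op K)) := h3
  rw [h4] at h2
  exact h2

end gen

section lamL

variable {Γ : Type} [Group Γ]

theorem lam_coord (g : Γ) (ζ : l2 Γ) (x : Γ) :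
    (lam g ζ : ∀ _ : Γ, ℂ) x = (ζ : ∀ _ : Γ, ℂ) (g⁻¹ * x) := by
  rw [lam, Pool.Agent.H494R3.GT.UU_apply]
  rfl

theorem lam_memLG (g : Γ) : (lam g : Op (l2 Γ)) ∈ LG Γ :=
  mem_vN ⟨g, fun ζ x => lam_coord g ζ x⟩

theorem lam_memLH (H : Subgroup Γ) (g : Γ) (hg : g ∈ H) : (lam g : Op (l2 Γ)) ∈ LH H :=
  mem_vN ⟨g, hg, fun ζ x => lam_coord g ζ x⟩

theorem eq_lam (g : Γ) (T : Op (l2 Γ))
    (h : ∀ (ζ : l2 Γ) (x : Γ), (T ζ : ∀ _ : Γ, ℂ) x = (ζ : ∀ _ : Γ, ℂ) (g⁻¹ * x)) :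
    T = lam g := by
  ext ζ x
  rw [h, lam_coord]

theorem LH_le_LG (H : Subgroup Γ) {x : Op (l2 Γ)} (hx : x ∈ LH H) : x ∈ LG Γ :=
  vN_le _ (by
    rintro s ⟨h, hh, hs⟩
    rw [eq_lam h s hs]
    exact lam_memLG h) hx

theorem dl_eq : Pool.Agent.N859.QW.dl Γ = (Pool.Agent.H494R3.GT.dl (1 : Γ) : l2 Γ) := rfl

theorem lam_dl1 (g : Γ) : lam g (Pool.Agent.N859.QW.dl Γ) = (Pool.Agent.H494R3.GT.dl g : l2 Γ) := by
  rw [dl_eq, Pool.Agent.N557.QW.lam_dl, mul_one]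

theorem tr_lam (g : Γ) [Decidable (g = 1)] :
    tr (Pool.Agent.N859.QW.dl Γ) (lam g) = if g = 1 then 1 else 0 := by
  unfold tr
  rw [lam_dl1, dl_eq]
  classical
  rw [Pool.Agent.H494R3.GT.dl_inner]
  by_cases h : g = 1
  · rw [if_pos h, if_pos h.symm]
  · rw [if_neg h, if_neg (fun h2 => h h2.symm)]

theorem LH_orth (H : Subgroup Γ) {n : Op (l2 Γ)} (hn : n ∈ LH H) (g : Γ) (hg : g ∉ H) :
    ⟪n (Pool.Agent.N859.QW.dl Γ), lam g (Pool.Agent.N859.QW.dl Γ)⟫_ℂ = 0 := by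
  classical
  have hcom : Pool.Agent.H494R3.GT.MM (H : Set Γ) * n = n * Pool.Agent.H494R3.GT.MM (H : Set Γ) := by
    refine vN_comm hn ?_
    rintro s ⟨h, hh, hs⟩
    rw [eq_lam h s hs]
    have key : ∀ h ∈ H, lam h * Pool.Agent.H494R3.GT.MM (H : Set Γ) =
        Pool.Agent.H494R3.GT.MM (H : Set Γ) * lam h := by
      intro h hh
      rw [lam, Pool.Agent.H494R3.GT.UU_MM]
      congr 2
      ext x
      constructor
      · rintro ⟨y, hy, rfl⟩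
        exact H.mul_mem hh hy
      · intro hx
        exact ⟨h⁻¹ * x, H.mul_mem (H.inv_mem hh) hx, by simp⟩
    refine ⟨key h hh, ?_⟩
    rw [Pool.Agent.N557.QW.star_lam]
    exact key _ (H.inv_mem hh)
  have h1 : n (Pool.Agent.N859.QW.dl Γ) =
      Pool.Agent.H494R3.GT.MM (H : Set Γ) (n (Pool.Agent.N859.QW.dl Γ)) := by
    have h2 : (Pool.Agent.H494R3.GT.MM (H : Set Γ) * n) (Pool.Agent.N859.QW.dl Γ) =
        (n * Pool.Agent.H494R3.GT.MM (H : Set Γ)) (Pool.Agent.N859.QW.dl Γ) := by rw [hcom]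
    rw [Pool.Agent.H494R3.GT.mul_ap, Pool.Agent.H494R3.GT.mul_ap, dl_eq,
      Pool.Agent.H494R3.GT.MM_dl_mem (show (1 : Γ) ∈ (H : Set Γ) from H.one_mem)] at h2
    exact h2.symm
  rw [h1, lam_dl1]
  have h3 : Pool.Agent.H494R3.GT.MM (H : Set Γ) (Pool.Agent.H494R3.GT.dl g : l2 Γ) = 0 :=
    Pool.Agent.H494R3.GT.MM_dl_notMem hg
  rw [← in_star_r, Pool.Agent.H494R3.GT.star_MM, h3, inner_zero_right]

end lamL

end

end Pool.Agent.H71RE
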