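import Pool.Agent.H71RE.APP1

/-!
# Tools for the piece APP: the group ring `A[Γ]` inside of `A ⊗̄ L(Γ)`, the map `Ψ`
-/

set_option autoImplicit false

open scoped InnerProductSpace ComplexOrder CStarAlgebra
open Filter Topology

namespace Pool.Agent.H71RE

open Pool.Agent.N557.QWX (Op IsTracial IsHom tr)
open Pool.Agent.N859.QW (l2 LG vN)
open Pool.Agent.N557.QW (lam)

noncomputable section

variable {X : Type} [NormedAddCommGroup X] [InnerProductSpace ℂ X] [CompleteSpace X]
  {Y : Type} [NormedAddCommGroup Y] [InnerProductSpace ℂ Y] [CompleteSpace Y]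
  {Γ : Type} [Group Γ]
  {A : VonNeumannAlgebra X} {α : X} {C : VonNeumannAlgebra Y} {ζ : Y}
  {i : Op X → Op Y} {j : Op (l2 Γ) → Op Y}

/-- the abbreviation for the tensor product with `L(Γ)` -/
abbrev TT (A : VonNeumannAlgebra X) (α : X) (Γ : Type) [Group Γ] (C : VonNeumannAlgebra Y) (ζ : Y)
    (i : Op X → Op Y) (j : Op (l2 Γ) → Op Y) : Prop :=
  IsTensor A α (LG Γ) (Pool.Agent.N859.QW.dl Γ) C ζ i j

theorem hom_zero {A : VonNeumannAlgebra X} {C : VonNeumannAlgebra Y} {f : Op X → Op Y}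
    (hf : IsHom A C f) : f 0 = 0 := by
  have := hf.smul 0 0 (zero_mem A)
  rw [zero_smul, zero_smul] at this
  exact this

theorem hom_sub {A : VonNeumannAlgebra X} {C : VonNeumannAlgebra Y} {f : Op X → Op Y}
    (hf : IsHom A C f) {x y : Op X} (hx : x ∈ A) (hy : y ∈ A) : f (x - y) = f x - f y := by
  have h1 := hf.add (x - y) (sub_mem hx hy) y hy
  rw [sub_add_cancel] at h1
  rw [h1, add_sub_cancel_right]

/-- `i` as a ring homomorphism -/
def iA (hf : IsHom A C i) : A.toStarSubalgebra →+* Op Y where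
  toFun x := i x
  map_one' := hf.one
  map_mul' x y := hf.mul _ x.2 _ y.2
  map_zero' := hom_zero hf
  map_add' x y := hf.add _ x.2 _ y.2

/-- `j ∘ λ` as a homomorphism -/
def jL (hf : IsHom (LG Γ) C j) : Γ →* Op Y where
  toFun g := j (lam g)
  map_one' := by
    rw [Pool.Agent.N557.QW.lam_one]
    exact hf.one
  map_mul' g h := by
    rw [Pool.Agent.N557.QW.lam_mul]
    exact hf.mul _ (lam_memLG g) _ (lam_memLG h)

/-- The group ring inside the tensor product. -/
def Psi (hT : TT A α Γ C ζ i j) : MonoidAlgebra A.toStarSubalgebra Γ →+* Op Y :=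
  MonoidAlgebra.liftNCRingHom (iA hT.left) (jL hT.right)
    (fun x g => hT.comm _ x.2 _ (lam_memLG g))

theorem Psi_single (hT : TT A α Γ C ζ i j) (g : Γ) (x : A.toStarSubalgebra) :
    Psi hT (MonoidAlgebra.single g x) = i x * j (lam g) :=
  MonoidAlgebra.liftNCRingHom_single _ _ _ _ _

theorem Psi_mem (hT : TT A α Γ C ζ i j) (s : MonoidAlgebra A.toStarSubalgebra Γ) :
    Psi hT s ∈ C := by
  induction s using MonoidAlgebra.induction_linear with
  | zero => rw [map_zero]; exact zero_mem C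
  | add f g hf hg => rw [map_add]; exact add_mem hf hg
  | single g x =>
    rw [Psi_single]
    exact mul_mem (hT.left.mem _ x.2) (hT.right.mem _ (lam_memLG g))

/-- coefficients in `T` -/
def cD (T : StarSubalgebra ℂ (Op X)) (s : MonoidAlgebra A.toStarSubalgebra Γ) : Prop :=
  ∀ h, ((s.coeff h : A.toStarSubalgebra) : Op X) ∈ T

section cd

variable {T : StarSubalgebra ℂ (Op X)}

theorem cD_zero : cD T (0 : MonoidAlgebra A.toStarSubalgebra Γ) := fun h => by
  show (((0 : A.toStarSubalgebra)) : Op X) ∈ T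
  exact zero_mem T

theorem cD_add {s t : MonoidAlgebra A.toStarSubalgebra Γ} (hs : cD T s) (ht : cD T t) :
    cD T (s + t) := fun h => by
  have : (((s + t).coeff h : A.toStarSubalgebra) : Op X) = (s.coeff h : Op X) + (t.coeff h : Op X) := rfl
  rw [this]
  exact add_mem (hs h) (ht h)

theorem cD_neg {s : MonoidAlgebra A.toStarSubalgebra Γ} (hs : cD T s) : cD T (-s) := fun h => by
  have : (((-s).coeff h : A.toStarSubalgebra) : Op X) = -(s.coeff h : Op X) := rfl
  rw [this]
  exact neg_mem (hs h)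

theorem cD_sub {s t : MonoidAlgebra A.toStarSubalgebra Γ} (hs : cD T s) (ht : cD T t) :
    cD T (s - t) := by
  rw [sub_eq_add_neg]
  exact cD_add hs (cD_neg ht)

theorem cD_single (g : Γ) (x : A.toStarSubalgebra) (hx : (x : Op X) ∈ T) :
    cD T (MonoidAlgebra.single g x) := fun h => by
  classical
  rw [MonoidAlgebra.coeff_single_apply]
  split_ifs
  · exact hx
  · exact zero_mem T

theorem cD_sum {ι : Type} (F : Finset ι) (f : ι → MonoidAlgebra A.toStarSubalgebra Γ)
    (h : ∀ k ∈ F, cD T (f k)) : cD T (∑ k ∈ F, f k) := by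
  classical
  induction F using Finset.induction_on with
  | empty => exact cD_zero
  | insert a F ha ih =>
    rw [Finset.sum_insert ha]
    exact cD_add (h _ (Finset.mem_insert_self _ _))
      (ih fun k hk => h k (Finset.mem_insert_of_mem hk))

theorem cD_mul {s t : MonoidAlgebra A.toStarSubalgebra Γ} (hs : cD T s) (ht : cD T t) :
    cD T (s * t) := by
  rw [MonoidAlgebra.mul_def]
  refine cD_sum _ _ fun h _ => cD_sum _ _ fun k _ => cD_single _ _ ?_
  exact mul_mem (hs h) (ht k)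

theorem cD_adj {s : MonoidAlgebra A.toStarSubalgebra Γ} (hs : cD T s) : cD T (adj s) := by
  unfold adj
  refine cD_sum _ _ fun h _ => cD_single _ _ ?_
  exact star_mem (hs h)

end cd

theorem Psi_adj (hT : TT A α Γ C ζ i j) (s : MonoidAlgebra A.toStarSubalgebra Γ) :
    Psi hT (adj s) = star (Psi hT s) := by
  unfold adj
  rw [Finsupp.sum, map_sum]
  conv_rhs => rw [← MonoidAlgebra.sum_coeff_single s, Finsupp.sum, map_sum, star_sum]
  refine Finset.sum_congr rfl fun h _ => ?_
  rw [Psi_single, Psi_single, star_mul, ← hT.left.star _ (s.coeff h).2,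
    ← hT.right.star _ (lam_memLG h), Pool.Agent.N557.QW.star_lam]
  exact hT.comm _ (star_mem (s.coeff h).2) _ (lam_memLG h⁻¹)

theorem ip_eq (hT : TT A α Γ C ζ i j) (s t : MonoidAlgebra A.toStarSubalgebra Γ) :
    ⟪Psi hT s ζ, Psi hT t ζ⟫_ℂ =
      ∑ h ∈ s.coeff.support, ⟪((s.coeff h : A.toStarSubalgebra) : Op X) α,
        ((t.coeff h : A.toStarSubalgebra) : Op X) α⟫_ℂ := by
  classical
  have base : ∀ (g k : Γ) (x y : A.toStarSubalgebra),
      ⟪Psi hT (MonoidAlgebra.single g x) ζ, Psi hT (MonoidAlgebra.single k y) ζ⟫_ℂ =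
        ⟪(x : Op X) α, (((MonoidAlgebra.single k y : MonoidAlgebra A.toStarSubalgebra Γ).coeff g :
          A.toStarSubalgebra) : Op X) α⟫_ℂ := by
    intro g k x y
    rw [← tr_star_mul, Psi_single, Psi_single, star_mul, ← hT.left.star _ x.2,
      ← hT.right.star _ (lam_memLG g), Pool.Agent.N557.QW.star_lam]
    have e1 : j (lam g⁻¹) * i (star (x : Op X)) * (i y * j (lam k)) =
        i (star (x : Op X) * y) * j (lam (g⁻¹ * k)) := by
      rw [hT.left.mul _ (star_mem x.2) _ y.2, Pool.Agent.N557.QW.lam_mul,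
        hT.right.mul _ (lam_memLG _) _ (lam_memLG _)]
      have c1 := hT.comm _ (star_mem x.2) _ (lam_memLG g⁻¹)
      have c2 := hT.comm _ y.2 _ (lam_memLG g⁻¹)
      rw [← c1, mul_assoc, ← mul_assoc (j (lam g⁻¹)), ← c2]
      simp only [mul_assoc]
    rw [e1, hT.trace _ (mul_mem (star_mem x.2) y.2) _ (lam_memLG _), tr_lam, tr_star_mul,
      MonoidAlgebra.coeff_single_apply]
    by_cases h : k = g
    · subst h
      rw [if_pos (inv_mul_cancel k), if_pos rfl, mul_one]
    · rw [if_neg (fun h2 => h (by rw [inv_mul_eq_one] at h2; exact h2.symm)), if_neg h, mul_zero]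
      show _ = ⟪(x : Op X) α, ((0 : A.toStarSubalgebra) : Op X) α⟫_ℂ
      have : ((0 : A.toStarSubalgebra) : Op X) α = 0 := rfl
      rw [this, inner_zero_right]
  have step : ∀ (g : Γ) (x : A.toStarSubalgebra),
      ⟪Psi hT (MonoidAlgebra.single g x) ζ, Psi hT t ζ⟫_ℂ =
        ⟪(x : Op X) α, ((t.coeff g : A.toStarSubalgebra) : Op X) α⟫_ℂ := by
    intro g x
    induction t using MonoidAlgebra.induction_linear with
    | zero =>
      rw [map_zero]
      show ⟪_, (0 : Y)⟫_ℂ = ⟪_, (0 : X)⟫_ℂ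
      rw [inner_zero_right, inner_zero_right]
    | add f f' hf hf' =>
      rw [map_add]
      show ⟪_, Psi hT f ζ + Psi hT f' ζ⟫_ℂ =
        ⟪_, ((f.coeff g : A.toStarSubalgebra) : Op X) α + ((f'.coeff g : A.toStarSubalgebra) : Op X) α⟫_ℂ
      rw [inner_add_right, inner_add_right, hf, hf']
    | single k y => exact base g k x y
  conv_lhs => rw [← MonoidAlgebra.sum_coeff_single s, Finsupp.sum, map_sum]
  rw [ContinuousLinearMap.sum_apply, sum_inner]
  exact Finset.sum_congr rfl fun h _ => step h _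

theorem n2_eq (hT : TT A α Γ C ζ i j) (s : MonoidAlgebra A.toStarSubalgebra Γ) :
    n2 α s = ‖Psi hT s ζ‖ ^ 2 := by
  have h := ip_eq hT s s
  rw [inner_self_eq_norm_sq_to_K] at h
  have h2 : ((‖Psi hT s ζ‖ ^ 2 : ℝ) : ℂ) = ((n2 α s : ℝ) : ℂ) := by
    rw [Complex.ofReal_pow]
    refine h.trans ?_
    unfold n2
    rw [Complex.ofReal_sum]
    refine Finset.sum_congr rfl fun k _ => ?_
    rw [inner_self_eq_norm_sq_to_K, Complex.ofReal_pow]
    rfl
  have h3 : ‖Psi hT s ζ‖ ^ 2 = n2 α s := by exact_mod_cast h2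
  exact h3.symm

/-- the image of the elements with coefficients in `T` -/
def imgS (hT : TT A α Γ C ζ i j) (T : StarSubalgebra ℂ (Op X)) (hle : ∀ y ∈ T, y ∈ A) :
    StarSubalgebra ℂ (Op Y) where
  carrier := {y | ∃ s, cD T s ∧ Psi hT s = y}
  mul_mem' := by
    rintro _ _ ⟨s, hs, rfl⟩ ⟨t, ht, rfl⟩
    exact ⟨s * t, cD_mul hs ht, map_mul _ _ _⟩
  one_mem' := ⟨1, by
    rw [MonoidAlgebra.one_def]
    exact cD_single _ _ (one_mem T), map_one _⟩
  add_mem' := by
    rintro _ _ ⟨s, hs, rfl⟩ ⟨t, ht, rfl⟩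
    exact ⟨s + t, cD_add hs ht, map_add _ _ _⟩
  zero_mem' := ⟨0, cD_zero, map_zero _⟩
  algebraMap_mem' c := by
    refine ⟨MonoidAlgebra.single 1 (algebraMap ℂ _ c), cD_single _ _ ?_, ?_⟩
    · exact algebraMap_mem T c
    · rw [Psi_single, Pool.Agent.N557.QW.lam_one]
      have h1 : ((algebraMap ℂ A.toStarSubalgebra c : A.toStarSubalgebra) : Op X) = c • 1 :=
        Algebra.algebraMap_eq_smul_one c
      have h2 : j 1 = 1 := hT.right.one
      rw [h1, hT.left.smul c 1 (one_mem A), hT.left.one, Algebra.algebraMap_eq_smul_one]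
      have h3 : j (1 : Op (l2 Γ)) = 1 := h2
      show (c • (1 : Op Y)) * j (1 : Op (l2 Γ)) = _
      rw [h3, mul_one]
  star_mem' := by
    rintro _ ⟨s, hs, rfl⟩
    exact ⟨adj s, cD_adj hs, Psi_adj hT s⟩

theorem mem_imgS (hT : TT A α Γ C ζ i j) {T : StarSubalgebra ℂ (Op X)} {hle : ∀ y ∈ T, y ∈ A}
    {y : Op Y} : y ∈ imgS hT T hle ↔ ∃ s, cD T s ∧ Psi hT s = y := Iff.rfl

end

end Pool.Agent.H71RE
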