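import Pool.Agent.H71RE.APP2

/-!
# Tools for the piece APP: density of the group ring
-/

set_option autoImplicit false

open scoped InnerProductSpace ComplexOrder CStarAlgebra
open Filter Topology

namespace Pool.Agent.H71RE

open Pool.Agent.N557.QWX (Op IsTracial IsHom tr)
open Pool.Agent.N859.QW (l2 LG vN)
open Pool.Agent.N557.QW (lam)

noncomputable section

section apx

variable {Y : Type} [NormedAddCommGroup Y] [InnerProductSpace ℂ Y] [CompleteSpace Y]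
  {C : VonNeumannAlgebra Y} {ζ : Y}

/-- the elements of `C` which are limits of elements of `S` in the 2-norm -/
def apxS (hC : IsTracial C ζ) (S : StarSubalgebra ℂ (Op Y)) (hS : ∀ s ∈ S, s ∈ C) :
    StarSubalgebra ℂ (Op Y) where
  carrier := {c | c ∈ C ∧ ∀ ε : ℝ, 0 < ε → ∃ s ∈ S, ‖(c - s) ζ‖ < ε}
  mul_mem' := by
    rintro a b ⟨ha, ha'⟩ ⟨hb, hb'⟩
    refine ⟨mul_mem ha hb, fun ε hε => ?_⟩
    obtain ⟨t, ht, ht'⟩ := hb' (ε / 2 / (‖a‖ + 1)) (by positivity)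
    obtain ⟨s, hs, hs'⟩ := ha' (ε / 2 / (‖t‖ + 1)) (by positivity)
    refine ⟨s * t, mul_mem hs ht, ?_⟩
    have e : a * b - s * t = a * (b - t) + (a - s) * t := by noncomm_ring
    rw [e]
    have h1 : ‖(a * (b - t)) ζ‖ < ε / 2 := by
      calc ‖(a * (b - t)) ζ‖ ≤ ‖a‖ * ‖(b - t) ζ‖ := nleft _ _ _
        _ ≤ (‖a‖ + 1) * ‖(b - t) ζ‖ := by gcongr; linarith
        _ < (‖a‖ + 1) * (ε / 2 / (‖a‖ + 1)) := by gcongr
        _ = ε / 2 := by field_simp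
    have h2 : ‖((a - s) * t) ζ‖ < ε / 2 := by
      calc ‖((a - s) * t) ζ‖ ≤ ‖t‖ * ‖(a - s) ζ‖ := nright hC _ _ (sub_mem ha (hS s hs)) (hS t ht)
        _ ≤ (‖t‖ + 1) * ‖(a - s) ζ‖ := by gcongr; linarith
        _ < (‖t‖ + 1) * (ε / 2 / (‖t‖ + 1)) := by gcongr
        _ = ε / 2 := by field_simp
    calc ‖(a * (b - t) + (a - s) * t) ζ‖ ≤ ‖(a * (b - t)) ζ‖ + ‖((a - s) * t) ζ‖ := norm_add_le _ _
      _ < ε := by linarith
  one_mem' := ⟨one_mem C, fun ε hε => ⟨1, one_mem S, by simpa using hε⟩⟩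
  add_mem' := by
    rintro a b ⟨ha, ha'⟩ ⟨hb, hb'⟩
    refine ⟨add_mem ha hb, fun ε hε => ?_⟩
    obtain ⟨t, ht, ht'⟩ := hb' (ε / 2) (by positivity)
    obtain ⟨s, hs, hs'⟩ := ha' (ε / 2) (by positivity)
    refine ⟨s + t, add_mem hs ht, ?_⟩
    have e : a + b - (s + t) = (a - s) + (b - t) := by abel
    rw [e]
    calc ‖((a - s) + (b - t)) ζ‖ ≤ ‖(a - s) ζ‖ + ‖(b - t) ζ‖ := norm_add_le _ _
      _ < ε := by linarith
  zero_mem' := ⟨zero_mem C, fun ε hε => ⟨0, zero_mem S, by simpa using hε⟩⟩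
  algebraMap_mem' c := ⟨algebraMap_mem C.toStarSubalgebra c,
    fun ε hε => ⟨algebraMap ℂ _ c, algebraMap_mem S c, by simpa using hε⟩⟩
  star_mem' := by
    rintro a ⟨ha, ha'⟩
    refine ⟨star_mem ha, fun ε hε => ?_⟩
    obtain ⟨s, hs, hs'⟩ := ha' ε hε
    refine ⟨star s, star_mem hs, ?_⟩
    rw [← star_sub, nstar hC _ (sub_mem ha (hS s hs))]
    exact hs'

theorem mem_apxS {hC : IsTracial C ζ} {S : StarSubalgebra ℂ (Op Y)} {hS : ∀ s ∈ S, s ∈ C}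
    {c : Op Y} : c ∈ apxS hC S hS ↔ c ∈ C ∧ ∀ ε : ℝ, 0 < ε → ∃ s ∈ S, ‖(c - s) ζ‖ < ε := Iff.rfl

end apx

variable {X : Type} [NormedAddCommGroup X] [InnerProductSpace ℂ X] [CompleteSpace X]
  {Y : Type} [NormedAddCommGroup Y] [InnerProductSpace ℂ Y] [CompleteSpace Y]
  {Γ : Type} [Group Γ]
  {A : VonNeumannAlgebra X} {α : X} {C : VonNeumannAlgebra Y} {ζ : Y}
  {i : Op X → Op Y} {j : Op (l2 Γ) → Op Y}

theorem jn (hA : IsTracial A α) (hT : TT A α Γ C ζ i j) (n : Op (l2 Γ)) (hn : n ∈ LG Γ) :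
    ‖j n ζ‖ = ‖n (Pool.Agent.N859.QW.dl Γ)‖ := by
  have h : ((‖j n ζ‖ ^ 2 : ℝ) : ℂ) = ((‖n (Pool.Agent.N859.QW.dl Γ)‖ ^ 2 : ℝ) : ℂ) := by
    rw [nsq, nsq]
    have h1 := hT.trace 1 (one_mem A) (star n * n) (mul_mem (star_mem hn) hn)
    rw [hT.left.one, one_mul, hT.right.mul _ (star_mem hn) _ hn, hT.right.star _ hn] at h1
    rw [h1]
    have h2 : tr α 1 = 1 := by
      show ⟪α, α⟫_ℂ = 1
      rw [inner_self_eq_norm_sq_to_K, hA.unit]
      simp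
    rw [h2, one_mul]
  have h2 : ‖j n ζ‖ ^ 2 = ‖n (Pool.Agent.N859.QW.dl Γ)‖ ^ 2 := by exact_mod_cast h
  exact (pow_left_inj₀ (norm_nonneg _) (norm_nonneg _) two_ne_zero).1 h2

theorem imgS_le (hT : TT A α Γ C ζ i j) {T : StarSubalgebra ℂ (Op X)} {hle : ∀ y ∈ T, y ∈ A}
    {y : Op Y} (hy : y ∈ imgS hT T hle) : y ∈ C := by
  obtain ⟨s, _, rfl⟩ := hy
  exact Psi_mem hT s

/-- `Tens B (LG Γ)` is approximable -/
theorem dense (h1 : S_DBL) (hA : IsTracial A α) (hT : TT A α Γ C ζ i j) (B : VonNeumannAlgebra X)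
    (hB : ∀ y ∈ B.toStarSubalgebra, y ∈ A) (c : Op Y) (hc : c ∈ Tens B (LG Γ) i j) :
    ∀ ε : ℝ, 0 < ε → ∃ s : MonoidAlgebra A.toStarSubalgebra Γ, cD B.toStarSubalgebra s ∧
      ‖(c - Psi hT s) ζ‖ < ε := by
  intro ε hε
  set W := apxS hT.tracial (imgS hT B.toStarSubalgebra hB) (fun s hs => imgS_le hT hs) with hW
  -- the generators
  have g1 : ∀ b ∈ B, i b ∈ W := by
    intro b hb
    refine mem_apxS.2 ⟨hT.left.mem _ (hB b hb), fun ε hε => ⟨i b, ?_, by simpa using hε⟩⟩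
    refine (mem_imgS hT).2 ⟨MonoidAlgebra.single 1 ⟨b, hB b hb⟩, cD_single _ _ hb, ?_⟩
    rw [Psi_single, Pool.Agent.N557.QW.lam_one]
    have h3 : j (1 : Op (l2 Γ)) = 1 := hT.right.one
    show i b * j (1 : Op (l2 Γ)) = _
    rw [h3, mul_one]
  have g2 : ∀ n ∈ LG Γ, j n ∈ W := by
    intro n hn
    refine mem_apxS.2 ⟨hT.right.mem _ hn, fun ε hε => ?_⟩
    set R : StarSubalgebra ℂ (Op (l2 Γ)) := StarAlgebra.adjoin ℂ (Set.range (lam : Γ → Op (l2 Γ)))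
      with hR
    obtain ⟨r, hr, hr'⟩ := h1 (l2 Γ) R (Pool.Agent.N859.QW.dl Γ) n (by
      intro P hP
      refine vN_le P ?_ hn
      rintro s ⟨h, hs⟩
      rw [eq_lam h s hs]
      exact hP _ (StarAlgebra.subset_adjoin ℂ _ ⟨h, rfl⟩)) ε hε
    have key : ∀ r ∈ R, r ∈ LG Γ ∧ j r ∈ imgS hT B.toStarSubalgebra hB := by
      intro r hr
      refine StarAlgebra.adjoin_induction (s := Set.range (lam : Γ → Op (l2 Γ)))
        (p := fun r _ => r ∈ LG Γ ∧ j r ∈ imgS hT B.toStarSubalgebra hB) ?_ ?_ ?_ ?_ ?_ hr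
      · rintro _ ⟨g, rfl⟩
        refine ⟨lam_memLG g, (mem_imgS hT).2 ⟨MonoidAlgebra.single g 1, cD_single _ _ ?_, ?_⟩⟩
        · exact one_mem B.toStarSubalgebra
        · rw [Psi_single]
          have : i ((1 : A.toStarSubalgebra) : Op X) = 1 := hT.left.one
          rw [this, one_mul]
      · intro c
        refine ⟨algebraMap_mem (LG Γ).toStarSubalgebra c, ?_⟩
        have : j (algebraMap ℂ _ c) = algebraMap ℂ _ c := by
          rw [Algebra.algebraMap_eq_smul_one, hT.right.smul _ _ (one_mem _), hT.right.one,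
            Algebra.algebraMap_eq_smul_one]
        rw [this]
        exact algebraMap_mem _ c
      · rintro x y _ _ ⟨hx, hx'⟩ ⟨hy, hy'⟩
        refine ⟨add_mem hx hy, ?_⟩
        rw [hT.right.add _ hx _ hy]
        exact add_mem hx' hy'
      · rintro x y _ _ ⟨hx, hx'⟩ ⟨hy, hy'⟩
        refine ⟨mul_mem hx hy, ?_⟩
        rw [hT.right.mul _ hx _ hy]
        exact mul_mem hx' hy'
      · rintro x _ ⟨hx, hx'⟩
        refine ⟨star_mem hx, ?_⟩
        rw [hT.right.star _ hx]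
        exact star_mem hx'
    obtain ⟨k1, k2⟩ := key r hr
    refine ⟨j r, k2, ?_⟩
    rw [← hom_sub hT.right hn k1, jn hA hT _ (sub_mem hn k1)]
    exact hr'
  set S₀ : StarSubalgebra ℂ (Op Y) := StarAlgebra.adjoin ℂ (i '' (B : Set (Op X)) ∪ j '' (LG Γ : Set _))
    with hS₀
  have hle : S₀ ≤ W := by
    rw [hS₀, StarAlgebra.adjoin_le_iff]
    rintro _ (⟨b, hb, rfl⟩ | ⟨n, hn, rfl⟩)
    · exact g1 b hb
    · exact g2 n hn
  obtain ⟨s, hs, hs'⟩ := h1 Y S₀ ζ c (by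
    intro P hP
    refine hc P ?_ ?_
    · intro b hb
      exact hP _ (StarAlgebra.subset_adjoin ℂ _ (Or.inl ⟨b, hb, rfl⟩))
    · intro n hn
      exact hP _ (StarAlgebra.subset_adjoin ℂ _ (Or.inr ⟨n, hn, rfl⟩))) (ε / 2) (by positivity)
  obtain ⟨_, hsW⟩ := mem_apxS.1 (hle hs)
  obtain ⟨t, ht, ht'⟩ := hsW (ε / 2) (by positivity)
  obtain ⟨u, hu, rfl⟩ := (mem_imgS hT).1 ht
  refine ⟨u, hu, ?_⟩
  have e : c - Psi hT u = (c - s) + (s - Psi hT u) := by abel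
  rw [e]
  calc ‖((c - s) + (s - Psi hT u)) ζ‖ ≤ ‖(c - s) ζ‖ + ‖(s - Psi hT u) ζ‖ := norm_add_le _ _
    _ < ε := by linarith

theorem Tens_le (hT : TT A α Γ C ζ i j) (B : VonNeumannAlgebra X)
    (hB : ∀ y ∈ B.toStarSubalgebra, y ∈ A) (c : Op Y) (hc : c ∈ Tens B (LG Γ) i j) : c ∈ C :=
  hc C (fun b hb => hT.left.mem _ (hB b hb)) (fun n hn => hT.right.mem _ hn)

theorem mem_TensA (hT : TT A α Γ C ζ i j) (c : Op Y) (hc : c ∈ C) : c ∈ Tens A (LG Γ) i j :=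
  fun P h1 h2 => hT.generates P h1 h2 hc

theorem Psi_Tens (hT : TT A α Γ C ζ i j) (B : VonNeumannAlgebra X)
    (s : MonoidAlgebra A.toStarSubalgebra Γ) (hs : cD B.toStarSubalgebra s) :
    Psi hT s ∈ Tens B (LG Γ) i j := by
  intro P h1 h2
  rw [← MonoidAlgebra.sum_coeff_single s, Finsupp.sum, map_sum]
  refine sum_mem fun h _ => ?_
  rw [Psi_single]
  exact mul_mem (h1 _ (hs h)) (h2 _ (lam_memLG h))

/-- bounded approximations -/
theorem kapPsi (h1 : S_DBL) (h2 : S_KAP) (hA : IsTracial A α) (hT : TT A α Γ C ζ i j) (c : Op Y)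
    (hc : c ∈ C) (ε : ℝ) (hε : 0 < ε) : ∃ s : MonoidAlgebra A.toStarSubalgebra Γ,
      ‖Psi hT s‖ ≤ 2 * ‖c‖ ∧ ‖(c - Psi hT s) ζ‖ < ε := by
  obtain ⟨_, ⟨s, _, rfl⟩, h, h'⟩ := h2 Y C ζ hT.tracial
    (imgS hT A.toStarSubalgebra (fun y hy => hy)) (fun s hs => imgS_le hT hs) (by
      intro c hc ε hε
      obtain ⟨s, hs, hs'⟩ := dense h1 hA hT A (fun y hy => hy) c (mem_TensA hT c hc) ε hε
      exact ⟨_, ⟨s, hs, rfl⟩, hs'⟩) c hc ε hε
  exact ⟨s, h, h'⟩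

/-- The decomposition with respect to a finite-dimensional `D`. -/
theorem decomp (h3 : S_BND) (hA : IsTracial A α) (hT : TT A α Γ C ζ i j)
    (D : StarSubalgebra ℂ (Op X)) (hfin : FiniteDimensional ℂ D) (hD : ∀ y ∈ D, y ∈ A)
    (s : MonoidAlgebra A.toStarSubalgebra Γ) :
    ∃ e o : MonoidAlgebra A.toStarSubalgebra Γ, s = e + o ∧ cD D e ∧
      (∀ h, ∀ y ∈ D, ⟪y α, ((o.coeff h : A.toStarSubalgebra) : Op X) α⟫_ℂ = 0) ∧
      ‖Psi hT e‖ ≤ ‖Psi hT s‖ ∧ ⟪Psi hT e ζ, Psi hT s ζ⟫_ℂ = (n2 α e : ℂ) := by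
  classical
  -- projection of one element
  have pr : ∀ x : A.toStarSubalgebra, ∃ y : A.toStarSubalgebra, (y : Op X) ∈ D ∧
      ∀ z ∈ D, ⟪z α, ((x : Op X) - (y : Op X)) α⟫_ℂ = 0 := by
    intro x
    let ev : Op X →ₗ[ℂ] X :=
      { toFun := fun x => x α
        map_add' := fun _ _ => rfl
        map_smul' := fun _ _ => rfl }
    let M : Submodule ℂ X := (Subalgebra.toSubmodule D.toSubalgebra).map ev
    haveI : FiniteDimensional ℂ (Subalgebra.toSubmodule D.toSubalgebra) := hfin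
    haveI : FiniteDimensional ℂ M := Module.Finite.map _ _
    obtain ⟨y, hy, hy'⟩ : ∃ y ∈ D, y α = M.starProjection ((x : Op X) α) := by
      obtain ⟨y, hy, hy'⟩ := Submodule.starProjection_apply_mem M ((x : Op X) α)
      exact ⟨y, hy, hy'⟩
    refine ⟨⟨y, hD y hy⟩, hy, fun z hz => ?_⟩
    have h1 : (x : Op X) α - M.starProjection ((x : Op X) α) ∈ Mᗮ :=
      Submodule.sub_starProjection_mem_orthogonal _
    rw [Submodule.mem_orthogonal] at h1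
    have h2 := h1 (z α) ⟨z, hz, rfl⟩
    rw [← hy'] at h2
    exact h2
  choose q hq hq' using pr
  let e : MonoidAlgebra A.toStarSubalgebra Γ :=
    ∑ h ∈ s.coeff.support, MonoidAlgebra.single h (q (s.coeff h))
  have he : cD D e := cD_sum _ _ fun h _ => cD_single _ _ (hq _)
  have hec : ∀ h, e.coeff h = if h ∈ s.coeff.support then q (s.coeff h) else 0 := by
    intro h
    show (∑ k ∈ s.coeff.support, MonoidAlgebra.single k (q (s.coeff k)) :
      MonoidAlgebra A.toStarSubalgebra Γ).coeff h = _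
    rw [MonoidAlgebra.coeff_sum, Finsupp.finset_sum_apply]
    simp only [MonoidAlgebra.coeff_single, Finsupp.single_apply]
    rw [Finset.sum_ite_eq']
  have ho : ∀ h, ∀ y ∈ D, ⟪y α, (((s - e).coeff h : A.toStarSubalgebra) : Op X) α⟫_ℂ = 0 := by
    intro h y hy
    have e1 : (((s - e).coeff h : A.toStarSubalgebra) : Op X) =
        (s.coeff h : Op X) - (e.coeff h : Op X) := rfl
    rw [e1, hec]
    split_ifs with hh
    · exact hq' _ y hy
    · rw [Finsupp.notMem_support_iff.1 hh]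
      show ⟪y α, ((0 : Op X) - (0 : Op X)) α⟫_ℂ = 0
      rw [sub_zero]
      show ⟪y α, (0 : X)⟫_ℂ = 0
      exact inner_zero_right _
  refine ⟨e, s - e, by abel, he, ho, ?_, ?_⟩
  · refine h3 Y C ζ hT.tracial (imgS hT D hD) (fun s hs => imgS_le hT hs) _ ⟨e, he, rfl⟩ _
      (Psi_mem hT s) ?_
    rintro _ ⟨t, ht, rfl⟩
    rw [← map_sub, ip_eq]
    exact Finset.sum_eq_zero fun h _ => ho h _ (ht h)
  · have e1 : Psi hT s ζ = Psi hT e ζ + Psi hT (s - e) ζ := by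
      rw [map_sub]
      show _ = Psi hT e ζ + (Psi hT s ζ - Psi hT e ζ)
      abel
    rw [e1, inner_add_right, ip_eq hT e (s - e), Finset.sum_eq_zero fun h _ => ho h _ (he h),
      add_zero, n2_eq hT, inner_self_eq_norm_sq_to_K]
    simp

end

end Pool.Agent.H71RE
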