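import Pool.Agent.H71RE.APP3

/-!
# Tools for the piece APP: ultraproducts, projections, hyperfiniteness
-/

set_option autoImplicit false

open scoped InnerProductSpace ComplexOrder CStarAlgebra
open Filter Topology

namespace Pool.Agent.H71RE

open Pool.Agent.N557.QWX (Op IsTracial IsHom tr)
open Pool.Agent.N859.QW (l2 LG vN)
open Pool.Agent.N557.QW (lam)

noncomputable section

section proj

variable {K : Type} [NormedAddCommGroup K] [InnerProductSpace ℂ K] [CompleteSpace K]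

theorem l2proj_self (S : Set (Op K)) (η : K) (x : Op K) (hx : x ∈ S) :
    l2proj S η (x η) = x η := by
  unfold l2proj
  rw [Submodule.starProjection_eq_self_iff]
  exact Submodule.le_topologicalClosure _ (Submodule.subset_span ⟨x, hx, rfl⟩)

theorem l2proj_orth (S : Set (Op K)) (η v : K) (h : ∀ s ∈ S, ⟪s η, v⟫_ℂ = 0) :
    l2proj S η v = 0 := by
  unfold l2proj
  rw [Submodule.starProjection_apply_eq_zero_iff]
  have h1 : (Submodule.span ℂ {v : K | ∃ s ∈ S, v = s η}).topologicalClosure ≤ (ℂ ∙ v)ᗮ := by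
    apply Submodule.topologicalClosure_minimal
    · rw [Submodule.span_le]
      rintro _ ⟨s, hs, rfl⟩
      rw [SetLike.mem_coe, Submodule.mem_orthogonal_singleton_iff_inner_left]
      exact h s hs
    · exact Submodule.isClosed_orthogonal _
  rw [Submodule.mem_orthogonal]
  intro u hu
  have h2 := h1 hu
  rw [Submodule.mem_orthogonal_singleton_iff_inner_left] at h2
  exact h2

theorem orth_of_l2proj (S : Set (Op K)) (η v : K) (h : l2proj S η v = 0) (s : Op K) (hs : s ∈ S) :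
    ⟪s η, v⟫_ℂ = 0 := by
  unfold l2proj at h
  rw [Submodule.starProjection_apply_eq_zero_iff, Submodule.mem_orthogonal] at h
  exact h _ (Submodule.le_topologicalClosure _ (Submodule.subset_span ⟨s, hs, rfl⟩))

end proj

section ultra

variable {K : ℕ → Type} [∀ k, NormedAddCommGroup (K k)] [∀ k, InnerProductSpace ℂ (K k)]
  [∀ k, CompleteSpace (K k)]
  {L : Type} [NormedAddCommGroup L] [InnerProductSpace ℂ L] [CompleteSpace L]
  {U : Ultrafilter ℕ} {C : ∀ k, VonNeumannAlgebra (K k)} {ζ : ∀ k, K k}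
  {M : VonNeumannAlgebra L} {η : L} {Θ : (∀ k, Op (K k)) → Op L}

/-- bounded sequences in `C` -/
abbrev Bd (C : ∀ k, VonNeumannAlgebra (K k)) (x : ∀ k, Op (K k)) : Prop :=
  BddIn (fun k => (C k : Set (Op (K k)))) x

theorem bd_mul {x y : ∀ k, Op (K k)} (hx : Bd C x) (hy : Bd C y) : Bd C (x * y) := by
  obtain ⟨⟨R, hR⟩, hx2⟩ := hx
  obtain ⟨⟨Q, hQ⟩, hy2⟩ := hy
  refine ⟨⟨R * Q, fun k => ?_⟩, fun k => mul_mem (S := VonNeumannAlgebra (K k)) (hx2 k) (hy2 k)⟩
  have h0 : 0 ≤ R := (norm_nonneg _).trans (hR k)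
  calc ‖(x * y) k‖ = ‖x k * y k‖ := rfl
    _ ≤ ‖x k‖ * ‖y k‖ := norm_mul_le _ _
    _ ≤ R * Q := mul_le_mul (hR k) (hQ k) (norm_nonneg _) h0

theorem bd_star {x : ∀ k, Op (K k)} (hx : Bd C x) : Bd C (star x) := by
  obtain ⟨⟨R, hR⟩, hx2⟩ := hx
  refine ⟨⟨R, fun k => ?_⟩, fun k => star_mem (S := VonNeumannAlgebra (K k)) (hx2 k)⟩
  have : (star x) k = star (x k) := rfl
  rw [this, norm_star]
  exact hR k

theorem bd_smul (c : ℂ) {x : ∀ k, Op (K k)} (hx : Bd C x) : Bd C (c • x) := by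
  obtain ⟨⟨R, hR⟩, hx2⟩ := hx
  refine ⟨⟨‖c‖ * R, fun k => ?_⟩, fun k => (C k).toStarSubalgebra.smul_mem (hx2 k) c⟩
  have : (c • x) k = c • (x k) := rfl
  rw [this, norm_smul]
  exact mul_le_mul_of_nonneg_left (hR k) (norm_nonneg _)

theorem bd_add {x y : ∀ k, Op (K k)} (hx : Bd C x) (hy : Bd C y) : Bd C (x + y) := by
  obtain ⟨⟨R, hR⟩, hx2⟩ := hx
  obtain ⟨⟨Q, hQ⟩, hy2⟩ := hy
  refine ⟨⟨R + Q, fun k => ?_⟩, fun k => add_mem (S := VonNeumannAlgebra (K k)) (hx2 k) (hy2 k)⟩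
  calc ‖(x + y) k‖ = ‖x k + y k‖ := rfl
    _ ≤ ‖x k‖ + ‖y k‖ := norm_add_le _ _
    _ ≤ R + Q := add_le_add (hR k) (hQ k)

theorem bd_one : Bd C 1 := by
  refine ⟨⟨1, fun k => ?_⟩, fun k => one_mem (S := VonNeumannAlgebra (K k)) (C k)⟩
  show ‖(1 : Op (K k))‖ ≤ 1
  exact ContinuousLinearMap.norm_id_le

theorem bd_sub {x y : ∀ k, Op (K k)} (hx : Bd C x) (hy : Bd C y) : Bd C (x - y) := by
  have : x - y = x + (-1 : ℂ) • y := by
    rw [neg_one_smul, sub_eq_add_neg]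
  rw [this]
  exact bd_add hx (bd_smul _ hy)

theorem th_sub (hu : IsUltraproduct U C ζ M η Θ) {x y : ∀ k, Op (K k)} (hx : Bd C x)
    (hy : Bd C y) : Θ (x - y) = Θ x - Θ y := by
  have : x - y = x + (-1 : ℂ) • y := by
    rw [neg_one_smul, sub_eq_add_neg]
  rw [this, hu.add _ _ hx (bd_smul _ hy), hu.smul _ _ hy, neg_one_smul, ← sub_eq_add_neg]

theorem tend_inner (hu : IsUltraproduct U C ζ M η Θ) {x y : ∀ k, Op (K k)} (hx : Bd C x)
    (hy : Bd C y) :
    Tendsto (fun k => ⟪x k (ζ k), y k (ζ k)⟫_ℂ) U (𝓝 ⟪Θ x η, Θ y η⟫_ℂ) := by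
  have h := hu.trace (star x * y) (bd_mul (bd_star hx) hy)
  rw [hu.mul _ _ (bd_star hx) hy, hu.star _ hx, tr_star_mul] at h
  refine h.congr fun k => ?_
  exact tr_star_mul _ _ _

theorem tend_norm (hu : IsUltraproduct U C ζ M η Θ) {x : ∀ k, Op (K k)} (hx : Bd C x) :
    Tendsto (fun k => ‖x k (ζ k)‖ ^ 2) U (𝓝 (‖Θ x η‖ ^ 2)) := by
  have h := (tend_inner hu hx hx).norm
  have e : ∀ {V : Type} [NormedAddCommGroup V] [InnerProductSpace ℂ V] (v : V),
      ‖⟪v, v⟫_ℂ‖ = ‖v‖ ^ 2 := by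
    intro V _ _ v
    rw [inner_self_eq_norm_sq_to_K]
    simp
  rw [e] at h
  refine h.congr fun k => ?_
  exact e _

theorem ev0 (hu : IsUltraproduct U C ζ M η Θ) {x : ∀ k, Op (K k)} (hx : Bd C x) (h0 : Θ x = 0)
    (ε : ℝ) (hε : 0 < ε) : ∀ᶠ k in (U : Filter ℕ), ‖x k (ζ k)‖ < ε := by
  have h := tend_norm hu hx
  rw [h0] at h
  have e : ‖(0 : Op L) η‖ ^ 2 = 0 := by
    show ‖(0 : L)‖ ^ 2 = 0
    simp
  rw [e] at h
  have h2 : ∀ᶠ k in (U : Filter ℕ), ‖x k (ζ k)‖ ^ 2 < ε ^ 2 :=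
    h.eventually (eventually_lt_nhds (by positivity))
  filter_upwards [h2] with k hk
  exact lt_of_pow_lt_pow_left₀ 2 hε.le hk

end ultra

section hyp

variable {X : Type} [NormedAddCommGroup X] [InnerProductSpace ℂ X] [CompleteSpace X]
  {Γ : Type} [Group Γ] {A : VonNeumannAlgebra X} {α : X}

theorem hypa {G₀ : Type} (B : VonNeumannAlgebra X) (hH : Hyperfinite B α)
    (hBA : ∀ y ∈ B.toStarSubalgebra, y ∈ A) (F : Finset G₀)
    (b : G₀ → MonoidAlgebra A.toStarSubalgebra Γ) (hb : ∀ g ∈ F, cD B.toStarSubalgebra (b g))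
    (ε : ℝ) (hε : 0 < ε) : ∃ D : StarSubalgebra ℂ (Op X), FiniteDimensional ℂ D ∧
      (∀ y ∈ D, y ∈ B) ∧ ∀ g ∈ F, ∃ b' : MonoidAlgebra A.toStarSubalgebra Γ, cD D b' ∧
        n2 α (b g - b') ≤ ε ^ 2 := by
  classical
  set N : ℝ := ((∑ g ∈ F, (b g).coeff.support.card : ℕ) : ℝ) with hN
  have hN0 : 0 ≤ N := by rw [hN]; exact Nat.cast_nonneg _
  have hcard : ∀ g ∈ F, ((b g).coeff.support.card : ℝ) ≤ N := by
    intro g hg
    rw [hN]
    have h1 : (b g).coeff.support.card ≤ ∑ g ∈ F, (b g).coeff.support.card :=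
      Finset.single_le_sum (f := fun g => (b g).coeff.support.card) (fun _ _ => Nat.zero_le _) hg
    exact Nat.cast_le.2 h1
  clear_value N
  obtain ⟨D, hfin, hDB, hD⟩ := hH
    (F.biUnion fun g => (b g).coeff.support.image fun h =>
      (((b g).coeff h : A.toStarSubalgebra) : Op X)) (by
      intro x hx
      rw [Finset.mem_biUnion] at hx
      obtain ⟨g, hg, hx⟩ := hx
      rw [Finset.mem_image] at hx
      obtain ⟨h, _, rfl⟩ := hx
      exact hb g hg h) (ε / (N + 1)) (by positivity)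
  refine ⟨D, hfin, hDB, fun g hg => ?_⟩
  have pr : ∀ h, ∃ y : A.toStarSubalgebra, (y : Op X) ∈ D ∧ (h ∈ (b g).coeff.support →
      ‖((((b g).coeff h : A.toStarSubalgebra) : Op X) - (y : Op X)) α‖ < ε / (N + 1)) := by
    intro h
    by_cases hh : h ∈ (b g).coeff.support
    · obtain ⟨y, hy, hy'⟩ := hD _ (Finset.mem_biUnion.2 ⟨g, hg, Finset.mem_image.2 ⟨h, hh, rfl⟩⟩)
      exact ⟨⟨y, hBA y (hDB y hy)⟩, hy, fun _ => hy'⟩
    · exact ⟨0, zero_mem D, fun h2 => absurd h2 hh⟩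
  choose q hq hq' using pr
  let e : MonoidAlgebra A.toStarSubalgebra Γ :=
    ∑ h ∈ (b g).coeff.support, MonoidAlgebra.single h (q h)
  have he : cD D e := cD_sum _ _ fun h _ => cD_single _ _ (hq _)
  have hec : ∀ h, e.coeff h = if h ∈ (b g).coeff.support then q h else 0 := by
    intro h
    show (∑ k ∈ (b g).coeff.support, MonoidAlgebra.single k (q k) :
      MonoidAlgebra A.toStarSubalgebra Γ).coeff h = _
    rw [MonoidAlgebra.coeff_sum, Finsupp.finsetSum_apply]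
    simp only [MonoidAlgebra.coeff_single, Finsupp.single_apply]
    rw [Finset.sum_ite_eq']
  refine ⟨e, he, ?_⟩
  have hcoe : ∀ h, (((b g - e).coeff h : A.toStarSubalgebra) : Op X) =
      ((b g).coeff h : Op X) - (e.coeff h : Op X) := fun h => rfl
  have hsupp : (b g - e).coeff.support ⊆ (b g).coeff.support := by
    intro h hh
    by_contra hcon
    rw [Finsupp.mem_support_iff] at hh
    apply hh
    have : (b g - e).coeff h = (b g).coeff h - e.coeff h := rfl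
    rw [this, hec, if_neg hcon, Finsupp.notMem_support_iff.1 hcon, sub_zero]
  have hcardN := hcard g hg
  unfold n2
  calc ∑ h ∈ (b g - e).coeff.support, ‖(((b g - e).coeff h : A.toStarSubalgebra) : Op X) α‖ ^ 2
      ≤ ∑ h ∈ (b g).coeff.support, ‖(((b g - e).coeff h : A.toStarSubalgebra) : Op X) α‖ ^ 2 :=
        Finset.sum_le_sum_of_subset_of_nonneg hsupp fun h _ _ => by positivity
    _ ≤ ∑ h ∈ (b g).coeff.support, (ε / (N + 1)) ^ 2 := by
        refine Finset.sum_le_sum fun h hh => ?_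
        rw [hcoe, hec, if_pos hh]
        have := hq' h hh
        gcongr
    _ = ((b g).coeff.support.card : ℝ) * (ε / (N + 1)) ^ 2 := by
        rw [Finset.sum_const, nsmul_eq_mul]
    _ ≤ N * (ε / (N + 1)) ^ 2 := mul_le_mul_of_nonneg_right hcardN (by positivity)
    _ ≤ ε ^ 2 := by
        have e1 : N * (ε / (N + 1)) ^ 2 = (N / (N + 1) ^ 2) * ε ^ 2 := by
          rw [div_pow]; ring
        rw [e1]
        have e2 : N / (N + 1) ^ 2 ≤ 1 := by
          rw [div_le_one (by positivity)]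
          nlinarith
        calc (N / (N + 1) ^ 2) * ε ^ 2 ≤ 1 * ε ^ 2 := by gcongr
          _ = ε ^ 2 := one_mul _

end hyp

end

end Pool.Agent.H71RE
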