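import Pool.Agent.H71RE.Stm

set_option autoImplicit false

open scoped InnerProductSpace ComplexOrder CStarAlgebra
open Filter Topology

namespace Pool.Agent.H71RE

open Pool.Agent.N557.QWX (Op IsTracial IsHom)

noncomputable section

theorem dbl : S_DBL := by
  intro K _ _ _ S ζ c hc ε hε
  classical
  -- the evaluation map
  let ev : Op K →ₗ[ℂ] K :=
    { toFun := fun x => x ζ
      map_add' := fun _ _ => rfl
      map_smul' := fun _ _ => rfl }
  let M₀ : Submodule ℂ K := (Subalgebra.toSubmodule S.toSubalgebra).map ev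
  let M : Submodule ℂ K := M₀.topologicalClosure
  have hM₀ : ∀ v : K, v ∈ M₀ ↔ ∃ s ∈ S, s ζ = v := by
    intro v
    constructor
    · rintro ⟨s, hs, rfl⟩
      exact ⟨s, hs, rfl⟩
    · rintro ⟨s, hs, rfl⟩
      exact ⟨s, hs, rfl⟩
  have hclosed : IsClosed (M : Set K) := M₀.isClosed_topologicalClosure
  haveI : CompleteSpace M := hclosed.completeSpace_coe
  -- invariance
  have hinv : ∀ s ∈ S, ∀ v ∈ M, s v ∈ M := by
    intro s hs v hv
    have h1 : M₀ ≤ M.comap (s : K →ₗ[ℂ] K) := by
      intro w hw
      obtain ⟨t, ht, rfl⟩ := (hM₀ w).1 hw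
      show s (t ζ) ∈ M
      exact M₀.le_topologicalClosure ((hM₀ _).2 ⟨s * t, mul_mem hs ht, rfl⟩)
    have h2 : M ≤ M.comap (s : K →ₗ[ℂ] K) :=
      M₀.topologicalClosure_minimal h1 (hclosed.preimage s.continuous)
    exact h2 hv
  have hinv' : ∀ s ∈ S, ∀ v ∈ Mᗮ, s v ∈ Mᗮ := by
    intro s hs v hv
    rw [Submodule.mem_orthogonal] at hv ⊢
    intro u hu
    have := hv (star s u) (hinv _ (star_mem hs) u hu)
    rw [ContinuousLinearMap.star_eq_adjoint, ContinuousLinearMap.adjoint_inner_left] at this
    exact this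
  -- the projection
  let P : Op K := M.starProjection
  have hPS : ∀ s ∈ S, s * P = P * s := by
    intro s hs
    ext v
    show s (M.starProjection v) = M.starProjection (s v)
    have hv : v = M.starProjection v + (v - M.starProjection v) := by abel
    have h1 : s (M.starProjection v) ∈ M := hinv s hs _ (Submodule.starProjection_apply_mem M v)
    have h2 : s (v - M.starProjection v) ∈ Mᗮ := hinv' s hs _ (Submodule.sub_starProjection_mem_orthogonal v)
    have h3 : s v = s (M.starProjection v) + s (v - M.starProjection v) := by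
      rw [← map_add]; congr 1
    rw [h3, map_add, Submodule.starProjection_eq_self_iff.2 h1]
    rw [(Submodule.starProjection_apply_eq_zero_iff M).2 h2, add_zero]
  have hcP : c * P = P * c := by
    have hmem := hc (Pool.Agent.N859.QW.vN (S : Set (Op K))) (by
      intro s hs
      unfold Pool.Agent.N859.QW.vN
      rw [VonNeumannAlgebra.mem_commutant_iff]
      intro g hg
      have hg' : g ∈ StarSubalgebra.centralizer ℂ (S : Set (Op K)) := hg
      rw [StarSubalgebra.mem_centralizer_iff] at hg'
      exact ((hg' s hs).1).symm)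
    unfold Pool.Agent.N859.QW.vN at hmem
    rw [VonNeumannAlgebra.mem_commutant_iff] at hmem
    have hP : P ∈ StarSubalgebra.centralizer ℂ (S : Set (Op K)) := by
      rw [StarSubalgebra.mem_centralizer_iff]
      intro s hs
      exact ⟨hPS s hs, hPS _ (star_mem hs)⟩
    exact (hmem P hP).symm
  have hζ : ζ ∈ M := M₀.le_topologicalClosure ((hM₀ _).2 ⟨1, one_mem S, rfl⟩)
  have hcζ : c ζ ∈ M := by
    have h1 : P ζ = ζ := Submodule.starProjection_eq_self_iff.2 hζ
    have h2 : c (P ζ) = P (c ζ) := by
      have := congrArg (fun T : Op K => T ζ) hcP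
      exact this
    rw [h1] at h2
    rw [h2]
    exact Submodule.starProjection_apply_mem M _
  have hcl : c ζ ∈ closure (M₀ : Set K) := by
    have : c ζ ∈ (M : Set K) := hcζ
    rwa [Submodule.topologicalClosure_coe] at this
  rw [Metric.mem_closure_iff] at hcl
  obtain ⟨w, hw, hd⟩ := hcl ε hε
  obtain ⟨s, hs, rfl⟩ := (hM₀ w).1 hw
  refine ⟨s, hs, ?_⟩
  rw [dist_eq_norm] at hd
  exact hd

end

end Pool.Agent.H71RE
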