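import Pool.Agent.N557.QW.Fin
import Pool.Agent.N859.QW.Stm

/-!
# Relative embeddability of an inclusion of finite von Neumann algebras: definitions

A finite von Neumann algebra is a von Neumann algebra on a Hilbert space together with a unit vector
whose vector state is a faithful trace (`IsTracial`). `QWEP` and `IsHom` are as in
`Pool/Agent/N859/QW/Defs2.lean` and `Pool/Agent/N557/QW/Fin.lean`.
-/

set_option autoImplicit false

open Filter Topology

namespace Pool.Agent.H71RE

open Pool.Agent.N557.QWX (Op tr IsTracial IsHom)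
open Pool.Agent.N859.QX (QWEP)

section general

variable {H : Type} [NormedAddCommGroup H] [InnerProductSpace ℂ H] [CompleteSpace H]
  {L : Type} [NormedAddCommGroup L] [InnerProductSpace ℂ L] [CompleteSpace L]
  {K : Type} [NormedAddCommGroup K] [InnerProductSpace ℂ K] [CompleteSpace K]

/-- The von Neumann algebra `B` with the trace given by `ξ` is *hyperfinite*: every finite set of
elements of `B` is contained up to `ε` (in the 2-norm `x ↦ ‖x ξ‖`) in a finite-dimensional unital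
`*`-subalgebra `D` of `B`. -/
def Hyperfinite (B : VonNeumannAlgebra H) (ξ : H) : Prop :=
  ∀ F : Finset (Op H), (∀ x ∈ F, x ∈ B) → ∀ ε : ℝ, 0 < ε →
    ∃ D : StarSubalgebra ℂ (Op H), FiniteDimensional ℂ D ∧ (∀ y ∈ D, y ∈ B) ∧
      ∀ x ∈ F, ∃ y ∈ D, ‖(x - y) ξ‖ < ε

/-- `(C, ζ)` with the maps `i`, `j` is the tensor product `A ⊗̄ N` of the finite von Neumann
algebras `(A, α)` and `(N, ν)`: `i` and `j` are `*`-homomorphisms of `A` and `N` to `C` with commuting
images, the trace of `C` is the product of the traces, and the images generate `C`. -/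
structure IsTensor (A : VonNeumannAlgebra H) (α : H) (N : VonNeumannAlgebra L) (ν : L)
    (C : VonNeumannAlgebra K) (ζ : K) (i : Op H → Op K) (j : Op L → Op K) : Prop where
  tracial : IsTracial C ζ
  left : IsHom A C i
  right : IsHom N C j
  comm : ∀ a ∈ A, ∀ n ∈ N, i a * j n = j n * i a
  trace : ∀ a ∈ A, ∀ n ∈ N, tr ζ (i a * j n) = tr α a * tr ν n
  generates : ∀ P : VonNeumannAlgebra K, (∀ a ∈ A, i a ∈ P) → (∀ n ∈ N, j n ∈ P) → C ≤ P

/-- The von Neumann algebra `B ⊗̄ N` inside of `A ⊗̄ N`: the operators which belong to every von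
Neumann algebra containing `i b` for `b` in `B` and `j n` for `n` in `N`. -/
def Tens (B : VonNeumannAlgebra H) (N : VonNeumannAlgebra L) (i : Op H → Op K)
    (j : Op L → Op K) : Set (Op K) :=
  {x | ∀ P : VonNeumannAlgebra K, (∀ b ∈ B, i b ∈ P) → (∀ n ∈ N, j n ∈ P) → x ∈ P}

/-- The orthogonal projection of the Hilbert space onto the closed span of the vectors `s η`, `s` in
`S`. For a von Neumann subalgebra `S` of a finite von Neumann algebra `M` with trace vector `η` it
implements the trace preserving conditional expectation `E` of `M` onto `S`: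
`l2proj S η (x η) = E(x) η` for `x` in `M`. -/
noncomputable def l2proj (S : Set (Op H)) (η : H) : Op H :=
  (Submodule.span ℂ {v : H | ∃ s ∈ S, v = s η}).topologicalClosure.starProjection

end general

section sequences

variable {K : ℕ → Type} [∀ k, NormedAddCommGroup (K k)] [∀ k, InnerProductSpace ℂ (K k)]
  [∀ k, CompleteSpace (K k)]
  {L : Type} [NormedAddCommGroup L] [InnerProductSpace ℂ L] [CompleteSpace L]

/-- `x` is a norm bounded sequence with `x k` in `S k`. -/
structure BddIn (S : ∀ k, Set (Op (K k))) (x : ∀ k, Op (K k)) : Prop where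
  bound : ∃ R : ℝ, ∀ k, ‖x k‖ ≤ R
  mem : ∀ k, x k ∈ S k

/-- `(M, η)` is the tracial ultraproduct of the finite von Neumann algebras `(C k, ζ k)` along `U`,
and `Θ` is the quotient map: it is defined on bounded sequences, is a unital `*`-homomorphism onto
`M`, and the trace of `Θ x` is the limit along `U` of the traces of the `x k`. -/
structure IsUltraproduct (U : Ultrafilter ℕ) (C : ∀ k, VonNeumannAlgebra (K k)) (ζ : ∀ k, K k)
    (M : VonNeumannAlgebra L) (η : L) (Θ : (∀ k, Op (K k)) → Op L) : Prop where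
  tracial : IsTracial M η
  mem : ∀ x, BddIn (fun k => (C k : Set (Op (K k)))) x → Θ x ∈ M
  onto : ∀ y ∈ M, ∃ x, BddIn (fun k => (C k : Set (Op (K k)))) x ∧ Θ x = y
  one : Θ 1 = 1
  add : ∀ x y, BddIn (fun k => (C k : Set (Op (K k)))) x →
    BddIn (fun k => (C k : Set (Op (K k)))) y → Θ (x + y) = Θ x + Θ y
  smul : ∀ (c : ℂ) (x : ∀ k, Op (K k)), BddIn (fun k => (C k : Set (Op (K k)))) x →
    Θ (c • x) = c • Θ x
  mul : ∀ x y, BddIn (fun k => (C k : Set (Op (K k)))) x →
    BddIn (fun k => (C k : Set (Op (K k)))) y → Θ (x * y) = Θ x * Θ y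
  star : ∀ x, BddIn (fun k => (C k : Set (Op (K k)))) x → Θ (star x) = star (Θ x)
  trace : ∀ x, BddIn (fun k => (C k : Set (Op (K k)))) x →
    Tendsto (fun k => tr (ζ k) (x k)) U (𝓝 (tr η (Θ x)))

/-- The image of the bounded sequences with `x k` in `S k` in the ultraproduct. -/
def ultraSet (S : ∀ k, Set (Op (K k))) (Θ : (∀ k, Op (K k)) → Op L) : Set (Op L) :=
  {y | ∃ x, BddIn S x ∧ Θ x = y}

end sequences

/-- **Relative embeddability.** The inclusion `N ⊆ M` (with the trace given by `μ`) is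
`RE/N₁`: there are an ultrafilter `U`, QWEP finite von Neumann algebras `A k` with hyperfinite von
Neumann subalgebras `B k`, the ultraproduct `Mh` of the `C k = A k ⊗̄ N₁`, and a trace preserving
`*`-homomorphism `π : M → Mh` with `π(N) ⊆ Nh`, the ultraproduct of the `B k ⊗̄ N₁`, and
`E_{π(N)} = E_{Nh} E_{π(M)}` on `Mh`. -/
inductive RE {H : Type} [NormedAddCommGroup H] [InnerProductSpace ℂ H] [CompleteSpace H]
    (N M : VonNeumannAlgebra H) (μ : H)
    {L : Type} [NormedAddCommGroup L] [InnerProductSpace ℂ L] [CompleteSpace L]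
    (N₁ : VonNeumannAlgebra L) (ν : L) : Prop
  | mk (U : Ultrafilter ℕ)
      (X : ℕ → Type) [∀ k, NormedAddCommGroup (X k)] [∀ k, InnerProductSpace ℂ (X k)]
      [∀ k, CompleteSpace (X k)] (A B : ∀ k, VonNeumannAlgebra (X k)) (α : ∀ k, X k)
      (tracial : ∀ k, IsTracial (A k) (α k)) (qwep : ∀ k, QWEP (A k)) (le : ∀ k, B k ≤ A k)
      (hyperfinite : ∀ k, Hyperfinite (B k) (α k))
      (Y : ℕ → Type) [∀ k, NormedAddCommGroup (Y k)] [∀ k, InnerProductSpace ℂ (Y k)]
      [∀ k, CompleteSpace (Y k)] (C : ∀ k, VonNeumannAlgebra (Y k)) (ζ : ∀ k, Y k)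
      (i : ∀ k, Op (X k) → Op (Y k)) (j : ∀ k, Op L → Op (Y k))
      (tensor : ∀ k, IsTensor (A k) (α k) N₁ ν (C k) (ζ k) (i k) (j k))
      (Z : Type) [NormedAddCommGroup Z] [InnerProductSpace ℂ Z] [CompleteSpace Z]
      (Mh : VonNeumannAlgebra Z) (η : Z) (Θ : (∀ k, Op (Y k)) → Op Z)
      (ultra : IsUltraproduct U C ζ Mh η Θ)
      (π : Op H → Op Z) (hom : IsHom M Mh π) (trace : ∀ x ∈ M, tr η (π x) = tr μ x)
      (sub : ∀ x ∈ N, π x ∈ ultraSet (fun k => Tens (B k) N₁ (i k) (j k)) Θ)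
      (square : ∀ x ∈ Mh, l2proj (π '' (N : Set (Op H))) η (x η) =
        l2proj (ultraSet (fun k => Tens (B k) N₁ (i k) (j k)) Θ) η
          (l2proj (π '' (M : Set (Op H))) η (x η))) : RE N M μ N₁ ν

/-- The subgroup `H` of `G` is *co-amenable*: there is a `G`-invariant mean `m` on the bounded real
functions on `G ⧸ H` (only the values of `m` on bounded functions matter). -/
def CoAmenable {G : Type} [Group G] (H : Subgroup G) : Prop :=
  ∃ m : (G ⧸ H → ℝ) → ℝ, m 1 = 1 ∧
    (∀ f g : G ⧸ H → ℝ, (∃ R, ∀ x, |f x| ≤ R) → (∃ R, ∀ x, |g x| ≤ R) → m (f + g) = m f + m g) ∧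
    (∀ (c : ℝ) (f : G ⧸ H → ℝ), (∃ R, ∀ x, |f x| ≤ R) → m (c • f) = c * m f) ∧
    (∀ f : G ⧸ H → ℝ, (∃ R, ∀ x, |f x| ≤ R) → (∀ x, 0 ≤ f x) → 0 ≤ m f) ∧
    ∀ (g : G) (f : G ⧸ H → ℝ), (∃ R, ∀ x, |f x| ≤ R) → m (fun x => f (g • x)) = m f

/-- Membership in the von Neumann algebra generated by the left translations
`(λ(h) ζ)(x) = ζ(h⁻¹ x)` of `ℓ²(G)` by the elements `h` of `H`. -/
noncomputable def LH {G : Type} [Group G] (H : Subgroup G) :
    VonNeumannAlgebra (Pool.Agent.N859.QW.l2 G) :=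
  Pool.Agent.N859.QW.vN {T | ∃ h ∈ H, ∀ (ζ : Pool.Agent.N859.QW.l2 G) (x : G),
    (T ζ : ∀ _ : G, ℂ) x = (ζ : ∀ _ : G, ℂ) (h⁻¹ * x)}

end Pool.Agent.H71RE
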