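import Pool.Agent.H71RE.Stm

/-!
# Project RE, piece EX: the example

`Bs G₀` is the group of the functions `f : ℤ → G₀` with finite support, `Gs G₀` its semidirect product
with `ℤ` acting by the shift, and `Hs K₀` the subgroup of the `f` in `Bs G₀` with `f n` in `K₀` for `0 ≤ n`.
-/

set_option autoImplicit false

open Filter Topology

namespace Pool.Agent.H71RE.Ex

open Pool.Agent.N557.QW (RF)

/-- the functions with finite support -/
def Bs (G₀ : Type) [Group G₀] : Subgroup (ℤ → G₀) where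
  carrier := {f | (Function.mulSupport f).Finite}
  mul_mem' {f g} hf hg := (Set.Finite.union hf hg).subset (Function.mulSupport_mul f g)
  one_mem' := by simp
  inv_mem' {f} hf := by
    have h : Function.mulSupport (f⁻¹) = Function.mulSupport f := Function.mulSupport_inv f
    change (Function.mulSupport (f⁻¹)).Finite
    rw [h]
    exact hf

variable {G₀ : Type} [Group G₀]

lemma mem_Bs (f : ℤ → G₀) : f ∈ Bs G₀ ↔ (Function.mulSupport f).Finite := Iff.rfl

lemma shift_mem (k : ℤ) {f : ℤ → G₀} (hf : f ∈ Bs G₀) : (fun n => f (n - k)) ∈ Bs G₀ := by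
  rw [mem_Bs] at hf ⊢
  have h : Function.mulSupport (fun n => f (n - k)) = (fun n : ℤ => n - k) ⁻¹' Function.mulSupport f :=
    rfl
  rw [h]
  exact hf.preimage (fun a _ b _ hab => by simpa using hab)

/-- the shift by `k` -/
def sh (k : ℤ) : Bs G₀ →* Bs G₀ where
  toFun f := ⟨fun n => f.1 (n - k), shift_mem k f.2⟩
  map_one' := rfl
  map_mul' _ _ := rfl

/-- the action of `ℤ` -/
def ph (G₀ : Type) [Group G₀] : Multiplicative ℤ →* MulAut (Bs G₀) where
  toFun k :=
    { toFun := sh k.toAdd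
      invFun := sh (-k.toAdd)
      left_inv := fun f => by
        ext n
        exact congrArg f.1 (show n - -k.toAdd - k.toAdd = n by ring)
      right_inv := fun f => by
        ext n
        exact congrArg f.1 (show n - k.toAdd - -k.toAdd = n by ring)
      map_mul' := fun f g => (sh k.toAdd).map_mul f g }
  map_one' := by
    ext f n
    change f.1 (n - 0) = f.1 n
    rw [sub_zero]
  map_mul' j k := by
    ext f n
    exact congrArg f.1 (show n - (j.toAdd + k.toAdd) = n - j.toAdd - k.toAdd by ring)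

lemma ph_apply (k : Multiplicative ℤ) (f : Bs G₀) (n : ℤ) :
    ((ph G₀ k) f).1 n = f.1 (n - k.toAdd) := rfl

/-- the group -/
abbrev Gs (G₀ : Type) [Group G₀] := Bs G₀ ⋊[ph G₀] Multiplicative ℤ

/-- the subgroup -/
def Hs (K₀ : Subgroup G₀) : Subgroup (Gs G₀) where
  carrier := {g | g.right = 1 ∧ ∀ n : ℤ, 0 ≤ n → g.left.1 n ∈ K₀}
  mul_mem' {a b} ha hb := by
    refine ⟨by rw [SemidirectProduct.mul_right, ha.1, hb.1, one_mul], fun n hn => ?_⟩
    rw [SemidirectProduct.mul_left, ha.1, map_one]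
    exact K₀.mul_mem (ha.2 n hn) (hb.2 n hn)
  one_mem' := ⟨rfl, fun _ _ => K₀.one_mem⟩
  inv_mem' {a} ha := by
    refine ⟨by rw [SemidirectProduct.inv_right, ha.1, inv_one], fun n hn => ?_⟩
    rw [SemidirectProduct.inv_left, ha.1, inv_one, map_one]
    exact K₀.inv_mem (ha.2 n hn)

lemma mem_Hs (K₀ : Subgroup G₀) (g : Gs G₀) :
    g ∈ Hs K₀ ↔ g.right = 1 ∧ ∀ n : ℤ, 0 ≤ n → g.left.1 n ∈ K₀ := Iff.rfl

lemma countable_Bs [Countable G₀] : Countable (Bs G₀) := by
  classical
  let e : Bs G₀ → (ℤ →₀ Additive G₀) := fun f =>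
    Finsupp.ofSupportFinite (fun n => Additive.ofMul (f.1 n)) f.2
  have he : Function.Injective e := by
    intro f g h
    ext n
    have h1 := DFunLike.congr_fun h n
    exact Additive.ofMul.injective h1
  have h0 : Countable (Additive G₀) := ‹Countable G₀›
  have : Countable (ℤ →₀ Additive G₀) := inferInstance
  exact he.countable

lemma countable_Gs [Countable G₀] : Countable (Gs G₀) := by
  have := countable_Bs (G₀ := G₀)
  have h : Function.Injective fun g : Gs G₀ => (g.left, g.right) := by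
    intro a b hab
    simp only [Prod.mk.injEq] at hab
    exact SemidirectProduct.ext hab.1 hab.2
  exact h.countable

/-- the embedding at `0` -/
def io (G₀ : Type) [Group G₀] : G₀ →* Gs G₀ :=
  SemidirectProduct.inl.comp
    { toFun := fun g => (⟨Pi.mulSingle 0 g, by
        rw [mem_Bs]
        refine (Set.finite_singleton (0 : ℤ)).subset ?_
        intro n hn
        by_contra h
        exact hn (Pi.mulSingle_eq_of_ne (show n ≠ 0 from h) _)⟩ : Bs G₀)
      map_one' := by
        ext n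
        simp
      map_mul' := fun a b => by
        ext n
        simp [Pi.mulSingle_mul] }

lemma io_left (g : G₀) (n : ℤ) : ((io G₀ g).left).1 n = (Pi.mulSingle (0 : ℤ) g : ℤ → G₀) n := rfl

lemma io_mem (K₀ : Subgroup G₀) (g : G₀) : io G₀ g ∈ Hs K₀ ↔ g ∈ K₀ := by
  rw [mem_Hs]
  constructor
  · intro h
    have h1 := h.2 0 le_rfl
    rw [io_left, Pi.mulSingle_eq_same] at h1
    exact h1
  · intro h
    refine ⟨rfl, fun n _ => ?_⟩
    rw [io_left]
    by_cases hn : n = 0
    · subst hn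
      rw [Pi.mulSingle_eq_same]
      exact h
    · rw [Pi.mulSingle_eq_of_ne hn]
      exact K₀.one_mem

/-! ### residual finiteness -/

lemma RF_Bs (h : RF G₀) : RF (Bs G₀) := by
  classical
  intro F
  have hfin : ((⋃ f ∈ F, Function.mulSupport f.1) : Set ℤ).Finite :=
    Set.Finite.biUnion F.finite_toSet fun f _ => f.2
  obtain ⟨I, hI⟩ : ∃ I : Finset ℤ, ∀ f ∈ F, ∀ n, f.1 n ≠ 1 → n ∈ I := by
    refine ⟨hfin.toFinset, fun f hf n hn => ?_⟩
    rw [Set.Finite.mem_toFinset]
    exact Set.mem_biUnion hf hn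
  obtain ⟨Q, _, hQ, π, hπ⟩ := h ((F ×ˢ I).image fun p => p.1.1 p.2)
  have := hQ
  refine ⟨I → Q, inferInstance, inferInstance,
    { toFun := fun f n => π (f.1 n.1)
      map_one' := by ext n; simp
      map_mul' := fun a b => by ext n; simp }, ?_⟩
  intro f hf g hg hfg
  ext n
  by_cases hn : n ∈ I
  · refine hπ ?_ ?_ (congrFun hfg ⟨n, hn⟩)
    · exact Finset.mem_coe.2 (Finset.mem_image.2 ⟨(f, n), Finset.mem_product.2 ⟨hf, hn⟩, rfl⟩)
    · exact Finset.mem_coe.2 (Finset.mem_image.2 ⟨(g, n), Finset.mem_product.2 ⟨hg, hn⟩, rfl⟩)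
  · have h1 : f.1 n = 1 := by
      by_contra h
      exact hn (hI f hf n h)
    have h2 : g.1 n = 1 := by
      by_contra h
      exact hn (hI g hg n h)
    rw [h1, h2]

lemma RF_of_injective {A B : Type} [Group A] [Group B] (i : A →* B) (hi : Function.Injective i)
    (h : RF B) : RF A := by
  classical
  intro F
  obtain ⟨Q, _, hQ, f, hf⟩ := h (F.image i)
  refine ⟨Q, inferInstance, hQ, f.comp i, ?_⟩
  intro a ha b hb hab
  refine hi (hf ?_ ?_ hab)
  · exact Finset.mem_coe.2 (Finset.mem_image_of_mem i ha)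
  · exact Finset.mem_coe.2 (Finset.mem_image_of_mem i hb)

lemma RF_Hs (K₀ : Subgroup G₀) (h : RF G₀) : RF (Hs K₀) := by
  refine RF_of_injective (B := Bs G₀)
    { toFun := fun g => g.1.left
      map_one' := rfl
      map_mul' := fun a b => ?_ } ?_ (RF_Bs h)
  · change (a.1 * b.1).left = a.1.left * b.1.left
    rw [SemidirectProduct.mul_left, a.2.1, map_one]
    rfl
  · intro a b hab
    apply Subtype.ext
    refine SemidirectProduct.ext hab ?_
    rw [a.2.1, b.2.1]

/-! ### the mean -/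

/-- the averages -/
noncomputable def av {X : Type} (p : ℕ → X) (f : X → ℝ) (N : ℕ) : ℝ :=
  (∑ j ∈ Finset.range (N + 1), f (p j)) / ((N : ℝ) + 1)

lemma av_bound {X : Type} (p : ℕ → X) (f : X → ℝ) {R : ℝ} (hR : ∀ x, |f x| ≤ R) (N : ℕ) :
    |av p f N| ≤ R := by
  have hN : (0 : ℝ) < (N : ℝ) + 1 := by positivity
  unfold av
  rw [abs_div, abs_of_pos hN, div_le_iff₀ hN]
  calc |∑ j ∈ Finset.range (N + 1), f (p j)| ≤ ∑ j ∈ Finset.range (N + 1), |f (p j)| :=
        Finset.abs_sum_le_sum_abs _ _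
    _ ≤ ∑ j ∈ Finset.range (N + 1), R := Finset.sum_le_sum fun j _ => hR _
    _ = R * ((N : ℝ) + 1) := by
        rw [Finset.sum_const, Finset.card_range, nsmul_eq_mul]
        push_cast
        ring

/-- the ultrafilter -/
noncomputable def UU : Filter ℕ := (hyperfilter ℕ : Ultrafilter ℕ)

lemma UU_le : UU ≤ atTop := Nat.hyperfilter_le_atTop

instance UU_ne : NeBot UU := (hyperfilter ℕ : Ultrafilter ℕ).neBot'

lemma exists_lim (u : ℕ → ℝ) {R : ℝ} (hR : ∀ n, |u n| ≤ R) : ∃ L, Tendsto u UU (𝓝 L) := by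
  have hc : IsCompact (Set.Icc (-R) R) := isCompact_Icc
  obtain ⟨L, _, hL⟩ := hc.ultrafilter_le_nhds ((hyperfilter ℕ : Ultrafilter ℕ).map u) (by
    rw [le_principal_iff]
    exact Filter.mem_map.2 (Filter.univ_mem' fun n => abs_le.1 (hR n)))
  exact ⟨L, hL⟩

/-- the mean -/
noncomputable def mn {X : Type} (p : ℕ → X) (f : X → ℝ) : ℝ := limUnder UU (av p f)

lemma mn_tendsto {X : Type} (p : ℕ → X) (f : X → ℝ) (h : ∃ R, ∀ x, |f x| ≤ R) :
    Tendsto (av p f) UU (𝓝 (mn p f)) := by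
  obtain ⟨R, hR⟩ := h
  obtain ⟨L, hL⟩ := exists_lim (av p f) (av_bound p f hR)
  unfold mn
  rw [hL.limUnder_eq]
  exact hL

lemma mn_one {X : Type} (p : ℕ → X) : mn p 1 = 1 := by
  have h : av p (1 : X → ℝ) = fun _ => 1 := by
    funext N
    have hN : (0 : ℝ) < (N : ℝ) + 1 := by positivity
    unfold av
    simp only [Pi.one_apply, Finset.sum_const, Finset.card_range, nsmul_eq_mul, mul_one]
    rw [Nat.cast_add_one]
    exact div_self hN.ne'
  unfold mn
  rw [h]
  exact tendsto_const_nhds.limUnder_eq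

lemma mn_add {X : Type} (p : ℕ → X) (f g : X → ℝ) (hf : ∃ R, ∀ x, |f x| ≤ R)
    (hg : ∃ R, ∀ x, |g x| ≤ R) : mn p (f + g) = mn p f + mn p g := by
  have h : av p (f + g) = fun N => av p f N + av p g N := by
    funext N
    unfold av
    simp only [Pi.add_apply]
    rw [Finset.sum_add_distrib, add_div]
  unfold mn
  rw [h]
  exact ((mn_tendsto p f hf).add (mn_tendsto p g hg)).limUnder_eq

lemma mn_smul {X : Type} (p : ℕ → X) (c : ℝ) (f : X → ℝ) (hf : ∃ R, ∀ x, |f x| ≤ R) :
    mn p (c • f) = c * mn p f := by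
  have h : av p (c • f) = fun N => c * av p f N := by
    funext N
    unfold av
    simp only [Pi.smul_apply, smul_eq_mul]
    rw [← Finset.mul_sum, mul_div_assoc]
  unfold mn
  rw [h]
  exact ((mn_tendsto p f hf).const_mul c).limUnder_eq

lemma mn_nonneg {X : Type} (p : ℕ → X) (f : X → ℝ) (hf : ∃ R, ∀ x, |f x| ≤ R)
    (h0 : ∀ x, 0 ≤ f x) : 0 ≤ mn p f := by
  refine ge_of_tendsto' (mn_tendsto p f hf) fun N => ?_
  unfold av
  exact div_nonneg (Finset.sum_nonneg fun j _ => h0 _) (by positivity)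

/-- two functions whose averages differ by little have the same mean -/
lemma mn_congr {X : Type} (p : ℕ → X) (f g : X → ℝ) (hg : ∃ R, ∀ x, |g x| ≤ R) (C : ℝ)
    (h : ∀ N : ℕ, |∑ j ∈ Finset.range (N + 1), f (p j) - ∑ j ∈ Finset.range (N + 1), g (p j)| ≤ C) :
    mn p f = mn p g := by
  have h1 : Tendsto (fun N : ℕ => av p f N - av p g N) atTop (𝓝 0) := by
    have h2 : Tendsto (fun N : ℕ => C / ((N : ℝ) + 1)) atTop (𝓝 0) :=
      tendsto_const_nhds.div_atTop (tendsto_atTop_add_const_right _ 1 tendsto_natCast_atTop_atTop)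
    refine squeeze_zero_norm (fun N => ?_) h2
    have hN : (0 : ℝ) < (N : ℝ) + 1 := by positivity
    unfold av
    rw [← sub_div, Real.norm_eq_abs, abs_div, abs_of_pos hN]
    exact div_le_div_of_nonneg_right (h N) hN.le
  have h3 := ((h1.mono_left UU_le).add (mn_tendsto p g hg)).congr fun N => sub_add_cancel _ _
  rw [zero_add] at h3
  exact h3.limUnder_eq

/-! ### invariance -/

/-- the generator of `ℤ` -/
def tt (G₀ : Type) [Group G₀] : Gs G₀ := SemidirectProduct.inr (Multiplicative.ofAdd 1)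

/-- the points -/
def pt (K₀ : Subgroup G₀) (j : ℕ) : Gs G₀ ⧸ Hs K₀ := ((tt G₀ ^ j : Gs G₀) : Gs G₀ ⧸ Hs K₀)

lemma smul_pt (K₀ : Subgroup G₀) (g : Gs G₀) (j : ℕ) :
    g • pt K₀ j = ((g * tt G₀ ^ j : Gs G₀) : Gs G₀ ⧸ Hs K₀) := rfl

lemma tt_smul (K₀ : Subgroup G₀) (j : ℕ) : tt G₀ • pt K₀ j = pt K₀ (j + 1) := by
  rw [smul_pt, ← pow_succ']
  rfl

lemma tt_pow (j : ℕ) : tt G₀ ^ j = SemidirectProduct.inr (Multiplicative.ofAdd (j : ℤ)) := by
  unfold tt
  rw [← map_pow]
  congr 1
  rw [← ofAdd_nsmul]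
  simp

lemma inl_smul (K₀ : Subgroup G₀) (b : Bs G₀) :
    ∃ J : ℕ, ∀ j, J ≤ j → (SemidirectProduct.inl b : Gs G₀) • pt K₀ j = pt K₀ j := by
  obtain ⟨M, hM⟩ := b.2.bddAbove
  refine ⟨(M + 1).toNat, fun j hj => ?_⟩
  rw [smul_pt]
  unfold pt
  rw [eq_comm, QuotientGroup.eq, mem_Hs, tt_pow]
  have hj' : M < (j : ℤ) := by
    have h1 := Int.self_le_toNat (M + 1)
    have h2 : ((M + 1).toNat : ℤ) ≤ j := by exact_mod_cast hj
    omega
  constructor
  · simp
  · intro n hn
    have h : ((SemidirectProduct.inr (Multiplicative.ofAdd (j : ℤ)) : Gs G₀)⁻¹ *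
        ((SemidirectProduct.inl b : Gs G₀) *
          SemidirectProduct.inr (Multiplicative.ofAdd (j : ℤ)))).left.1 n = b.1 (n + j) := by
      have e1 : (SemidirectProduct.inr (Multiplicative.ofAdd (j : ℤ)) : Gs G₀)⁻¹ =
          SemidirectProduct.inr (Multiplicative.ofAdd (j : ℤ))⁻¹ := (map_inv _ _).symm
      rw [e1, SemidirectProduct.mul_left, SemidirectProduct.left_inr, SemidirectProduct.right_inr,
        one_mul, SemidirectProduct.mul_left, SemidirectProduct.left_inl,
        SemidirectProduct.left_inr, SemidirectProduct.right_inl, map_one, mul_one, ph_apply]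
      refine congrArg b.1 ?_
      rw [toAdd_inv, toAdd_ofAdd]
      ring
    rw [h]
    have h1 : b.1 (n + j) = 1 := by
      by_contra hne
      have := hM (show n + (j : ℤ) ∈ Function.mulSupport b.1 from hne)
      omega
    rw [h1]
    exact K₀.one_mem

lemma inv_tt (K₀ : Subgroup G₀) (f : Gs G₀ ⧸ Hs K₀ → ℝ) (hf : ∃ R, ∀ x, |f x| ≤ R) :
    mn (pt K₀) (fun x => f (tt G₀ • x)) = mn (pt K₀) f := by
  obtain ⟨R, hR⟩ := hf
  refine mn_congr _ _ _ ⟨R, hR⟩ (2 * R) fun N => ?_
  simp only [tt_smul]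
  rw [Finset.sum_range_succ, Finset.sum_range_succ' (fun j => f (pt K₀ j))]
  rw [add_sub_add_left_eq_sub]
  have h1 := hR (pt K₀ (N + 1))
  have h2 := hR (pt K₀ 0)
  rw [abs_le] at h1 h2 ⊢
  constructor <;> linarith [h1.1, h1.2, h2.1, h2.2]

lemma inv_inl (K₀ : Subgroup G₀) (b : Bs G₀) (f : Gs G₀ ⧸ Hs K₀ → ℝ) (hf : ∃ R, ∀ x, |f x| ≤ R) :
    mn (pt K₀) (fun x => f ((SemidirectProduct.inl b : Gs G₀) • x)) = mn (pt K₀) f := by
  obtain ⟨R, hR⟩ := hf
  obtain ⟨J, hJ⟩ := inl_smul K₀ b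
  refine mn_congr _ _ _ ⟨R, hR⟩ (J * (2 * R)) fun N => ?_
  rw [← Finset.sum_sub_distrib]
  have hR0 : 0 ≤ R := (abs_nonneg _).trans (hR (pt K₀ 0))
  calc |∑ j ∈ Finset.range (N + 1), (f ((SemidirectProduct.inl b : Gs G₀) • pt K₀ j) - f (pt K₀ j))|
      ≤ ∑ j ∈ Finset.range (N + 1),
        |f ((SemidirectProduct.inl b : Gs G₀) • pt K₀ j) - f (pt K₀ j)| :=
        Finset.abs_sum_le_sum_abs _ _
    _ ≤ ∑ j ∈ Finset.range (N + 1), (if j < J then 2 * R else 0) := by
        refine Finset.sum_le_sum fun j _ => ?_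
        split_ifs with h
        · have h1 := hR ((SemidirectProduct.inl b : Gs G₀) • pt K₀ j)
          have h2 := hR (pt K₀ j)
          rw [abs_le] at h1 h2 ⊢
          constructor <;> linarith [h1.1, h1.2, h2.1, h2.2]
        · rw [hJ j (not_lt.1 h), sub_self, abs_zero]
    _ = ((Finset.range (N + 1)).filter (fun j => j < J)).card * (2 * R) := by
        rw [← Finset.sum_filter, Finset.sum_const, nsmul_eq_mul]
    _ ≤ J * (2 * R) := by
        refine mul_le_mul_of_nonneg_right ?_ (by positivity)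
        have h : ((Finset.range (N + 1)).filter (fun j => j < J)) ⊆ Finset.range J := by
          intro j hj
          exact Finset.mem_range.2 (Finset.mem_filter.1 hj).2
        have h1 := Finset.card_le_card h
        rw [Finset.card_range] at h1
        exact_mod_cast h1

lemma bdd_smul {G X : Type} [Group G] [MulAction G X] (g : G) (f : X → ℝ)
    (hf : ∃ R, ∀ x, |f x| ≤ R) : ∃ R, ∀ x, |f (g • x)| ≤ R :=
  hf.imp fun _ h x => h _

lemma inv_all (K₀ : Subgroup G₀) (g : Gs G₀) (f : Gs G₀ ⧸ Hs K₀ → ℝ)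
    (hf : ∃ R, ∀ x, |f x| ≤ R) : mn (pt K₀) (fun x => f (g • x)) = mn (pt K₀) f := by
  let S : Subgroup (Gs G₀) :=
    { carrier := {g | ∀ f : Gs G₀ ⧸ Hs K₀ → ℝ, (∃ R, ∀ x, |f x| ≤ R) →
        mn (pt K₀) (fun x => f (g • x)) = mn (pt K₀) f}
      mul_mem' := fun {a b} ha hb f hf => by
        simp only [mul_smul]
        exact (hb (fun x => f (a • x)) (bdd_smul a f hf)).trans (ha f hf)
      one_mem' := fun f _ => by simp only [one_smul]
      inv_mem' := fun {a} ha f hf => by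
        have h := ha (fun x => f (a⁻¹ • x)) (bdd_smul a⁻¹ f hf)
        simp only [inv_smul_smul] at h
        exact h.symm }
  have h1 : ∀ b : Bs G₀, (SemidirectProduct.inl b : Gs G₀) ∈ S := fun b f hf => inv_inl K₀ b f hf
  have h2 : tt G₀ ∈ S := fun f hf => inv_tt K₀ f hf
  have h3 : g ∈ S := by
    have h4 : g = SemidirectProduct.inl g.left * tt G₀ ^ (g.right.toAdd) := by
      rw [← SemidirectProduct.inl_left_mul_inr_right g]
      simp only [SemidirectProduct.mul_left, SemidirectProduct.mul_right,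
        SemidirectProduct.left_inl, SemidirectProduct.right_inl, SemidirectProduct.left_inr,
        SemidirectProduct.right_inr, map_one, mul_one, one_mul]
      congr 1
      unfold tt
      rw [← map_zpow]
      congr 1
      rw [← ofAdd_zsmul]
      simp
    rw [h4]
    exact S.mul_mem (h1 _) (S.zpow_mem h2 _)
  exact h3 f hf

theorem coAmenable (K₀ : Subgroup G₀) : CoAmenable (Hs K₀) :=
  ⟨mn (pt K₀), mn_one _, fun f g => mn_add _ f g, fun c f => mn_smul _ c f,
    fun f => mn_nonneg _ f, fun g f => inv_all K₀ g f⟩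

end Pool.Agent.H71RE.Ex

namespace Pool.Agent.H71RE

/-- the example -/
theorem ex : S_EX := by
  intro G₀ _ K₀ hc h
  have := hc
  exact ⟨Ex.Gs G₀, inferInstance, Ex.Hs K₀, Ex.io G₀, Ex.countable_Gs, Ex.coAmenable K₀,
    Ex.RF_Hs K₀ h, Ex.io_mem K₀⟩

end Pool.Agent.H71RE
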