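import Mathlib

/-!
# Finite-dimensional C*-algebras are spanned by finite groups of unitaries (piece FING, helper53)
-/

set_option autoImplicit false

open scoped ComplexOrder CStarAlgebra
open Finset

namespace Pool.Agent.H71RE.FING

/-! ### Signed permutation matrices -/

/-- the signed permutation matrix -/
def P {m : ℕ} (σ : Equiv.Perm (Fin m)) (ε : Fin m → ℤ) : Matrix (Fin m) (Fin m) ℤ :=
  Matrix.of fun i j => if σ i = j then ε i else 0

theorem P_mem {m : ℕ} (σ : Equiv.Perm (Fin m)) (ε : Fin m → ℤ) (h : ∀ i, ε i * ε i = 1) :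
    P σ ε ∈ Matrix.unitaryGroup (Fin m) ℤ := by
  rw [Matrix.mem_unitaryGroup_iff]
  ext i k
  rw [Matrix.mul_apply, Matrix.one_apply]
  simp only [Matrix.star_apply, P, Matrix.of_apply, star_trivial]
  rw [Finset.sum_eq_single (σ i)]
  · rw [if_pos rfl]
    by_cases hik : i = k
    · subst hik
      rw [if_pos rfl, if_pos rfl, h]
    · rw [if_neg hik, if_neg (fun h' => hik (σ.injective h').symm), mul_zero]
  · intro j _ hj
    rw [if_neg (Ne.symm hj), zero_mul]
  · intro h'
    exact absurd (Finset.mem_univ _) h'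

theorem finZ (m : ℕ) : Finite (Matrix.unitaryGroup (Fin m) ℤ) := by
  have hb : ∀ (g : Matrix.unitaryGroup (Fin m) ℤ) (a b : Fin m),
      (g : Matrix (Fin m) (Fin m) ℤ) a b ∈ Set.Icc (-1 : ℤ) 1 := by
    intro g a b
    have h1 := Matrix.mem_unitaryGroup_iff.1 g.2
    have h2 := congrFun (congrFun h1 a) a
    rw [Matrix.mul_apply, Matrix.one_apply_eq] at h2
    simp only [Matrix.star_apply, star_trivial] at h2
    have h3 : (g : Matrix (Fin m) (Fin m) ℤ) a b * (g : Matrix (Fin m) (Fin m) ℤ) a b ≤ 1 := by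
      rw [← h2]
      exact Finset.single_le_sum (f := fun j => (g : Matrix (Fin m) (Fin m) ℤ) a j *
        (g : Matrix (Fin m) (Fin m) ℤ) a j) (fun j _ => mul_self_nonneg _) (Finset.mem_univ b)
    constructor
    · nlinarith
    · nlinarith
  refine Finite.of_injective (β := Fin m → Fin m → Set.Icc (-1 : ℤ) 1)
    (fun g a b => ⟨(g : Matrix _ _ ℤ) a b, hb g a b⟩) ?_
  intro g g' hgg
  apply Subtype.ext
  ext a b
  exact congrArg Subtype.val (congrFun (congrFun hgg a) b)

theorem diff_eq {m : ℕ} (a b : Fin m) :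
    (P (Equiv.swap a b) 1).map (Int.castRingHom ℂ) -
      (P (Equiv.swap a b) (fun i => if i = a then -1 else 1)).map (Int.castRingHom ℂ) =
      (2 : ℂ) • Matrix.single a b (1 : ℂ) := by
  ext i j
  simp only [Matrix.sub_apply, Matrix.map_apply, P, Matrix.of_apply, Matrix.smul_apply,
    Matrix.single_apply, Pi.one_apply]
  by_cases hi : i = a
  · subst hi
    rw [Equiv.swap_apply_left]
    by_cases hj : b = j
    · subst hj
      simp
      norm_num
    · simp [hj]
  · have hi' : a ≠ i := Ne.symm hi
    simp [hi, hi']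

theorem group_span {n : ℕ} (d : Fin n → ℕ) : ∃ (Q : Type) (_ : Group Q) (_ : Fintype Q)
    (w : Q →* Π i, Matrix (Fin (d i)) (Fin (d i)) ℂ),
      ∀ x, x ∈ Submodule.span ℂ (Set.range fun q => w q) := by
  classical
  haveI : ∀ i, Finite (Matrix.unitaryGroup (Fin (d i)) ℤ) := fun i => finZ (d i)
  let Q : Type := Π i, Matrix.unitaryGroup (Fin (d i)) ℤ
  haveI : Finite Q := Pi.finite
  letI : Fintype Q := Fintype.ofFinite Q
  let w : Q →* Π i, Matrix (Fin (d i)) (Fin (d i)) ℂ :=
    { toFun := fun q i => ((q i : Matrix (Fin (d i)) (Fin (d i)) ℤ)).map (Int.castRingHom ℂ)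
      map_one' := by
        funext i
        show ((1 : Matrix (Fin (d i)) (Fin (d i)) ℤ)).map (Int.castRingHom ℂ) = 1
        rw [Matrix.map_one _ (map_zero _) (map_one _)]
      map_mul' := by
        intro p q
        funext i
        show ((p i : Matrix (Fin (d i)) (Fin (d i)) ℤ) *
          (q i : Matrix (Fin (d i)) (Fin (d i)) ℤ)).map (Int.castRingHom ℂ) = _
        rw [Matrix.map_mul]
        rfl }
  refine ⟨Q, inferInstance, inferInstance, w, ?_⟩
  have hw : ∀ q : Q, w q ∈ Submodule.span ℂ (Set.range fun q => w q) := fun q =>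
    Submodule.subset_span ⟨q, rfl⟩
  have hs : ∀ (i : Fin n) (a b : Fin (d i)),
      (Pi.single i (Matrix.single a b (1 : ℂ)) : Π i, Matrix (Fin (d i)) (Fin (d i)) ℂ) ∈
        Submodule.span ℂ (Set.range fun q => w q) := by
    intro i a b
    let q₁ : Q := Function.update 1 i ⟨P (Equiv.swap a b) 1, P_mem _ _ fun _ => by simp⟩
    let q₂ : Q := Function.update 1 i ⟨P (Equiv.swap a b) (fun i => if i = a then -1 else 1),
      P_mem _ _ fun j => by by_cases h : j = a <;> simp [h]⟩
    have e : (Pi.single i (Matrix.single a b (1 : ℂ)) : Π i, Matrix (Fin (d i)) (Fin (d i)) ℂ) =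
        (1 / 2 : ℂ) • (w q₁ - w q₂) := by
      funext j
      by_cases hj : j = i
      · subst hj
        rw [Pi.single_eq_same, Pi.smul_apply, Pi.sub_apply]
        have e1 : w q₁ j = (P (Equiv.swap a b) 1).map (Int.castRingHom ℂ) := by
          show ((q₁ j : Matrix (Fin (d j)) (Fin (d j)) ℤ)).map (Int.castRingHom ℂ) = _
          rw [show q₁ j = _ from Function.update_self _ _ _]
        have e2 : w q₂ j = (P (Equiv.swap a b) (fun i => if i = a then -1 else 1)).map
            (Int.castRingHom ℂ) := by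
          show ((q₂ j : Matrix (Fin (d j)) (Fin (d j)) ℤ)).map (Int.castRingHom ℂ) = _
          rw [show q₂ j = _ from Function.update_self _ _ _]
        rw [e1, e2, diff_eq, smul_smul]
        norm_num
      · rw [Pi.single_eq_of_ne hj, Pi.smul_apply, Pi.sub_apply]
        have e1 : w q₁ j = w q₂ j := by
          show ((q₁ j : Matrix (Fin (d j)) (Fin (d j)) ℤ)).map (Int.castRingHom ℂ) =
            ((q₂ j : Matrix (Fin (d j)) (Fin (d j)) ℤ)).map (Int.castRingHom ℂ)
          rw [show q₁ j = _ from Function.update_of_ne hj _ _,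
            show q₂ j = _ from Function.update_of_ne hj _ _]
        rw [e1, sub_self, smul_zero]
    rw [e]
    exact Submodule.smul_mem _ _ (Submodule.sub_mem _ (hw q₁) (hw q₂))
  intro x
  have hx : x = ∑ i, ∑ a, ∑ b, x i a b •
      (Pi.single i (Matrix.single a b (1 : ℂ)) : Π i, Matrix (Fin (d i)) (Fin (d i)) ℂ) := by
    funext j
    ext a b
    rw [Finset.sum_apply, Matrix.sum_apply, Finset.sum_eq_single j]
    · rw [Finset.sum_apply, Matrix.sum_apply, Finset.sum_eq_single a]
      · rw [Finset.sum_apply, Matrix.sum_apply, Finset.sum_eq_single b]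
        · rw [Pi.smul_apply, Pi.single_eq_same, Matrix.smul_apply, Matrix.single_apply_same]
          simp
        · intro b' _ hb'
          rw [Pi.smul_apply, Pi.single_eq_same, Matrix.smul_apply, Matrix.single_apply]
          simp [hb']
        · intro h
          exact absurd (Finset.mem_univ _) h
      · intro a' _ ha'
        rw [Finset.sum_apply, Matrix.sum_apply]
        refine Finset.sum_eq_zero fun b' _ => ?_
        rw [Pi.smul_apply, Pi.single_eq_same, Matrix.smul_apply, Matrix.single_apply]
        simp [ha']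
      · intro h
        exact absurd (Finset.mem_univ _) h
    · intro i _ hi
      rw [Finset.sum_apply, Matrix.sum_apply]
      refine Finset.sum_eq_zero fun a' _ => ?_
      rw [Finset.sum_apply, Matrix.sum_apply]
      refine Finset.sum_eq_zero fun b' _ => ?_
      rw [Pi.smul_apply, Pi.single_eq_of_ne (Ne.symm hi), smul_zero, Matrix.zero_apply]
    · intro h
      exact absurd (Finset.mem_univ _) h
  rw [hx]
  exact Submodule.sum_mem _ fun i _ => Submodule.sum_mem _ fun a _ => Submodule.sum_mem _ fun b _ =>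
    Submodule.smul_mem _ _ (hs i a b)

/-! ### Semisimplicity -/

theorem semisimple (B : Type) [CStarAlgebra B] [FiniteDimensional ℂ B] : IsSemisimpleRing B := by
  haveI : IsArtinianRing B := IsArtinianRing.of_finite ℂ B
  rw [IsArtinianRing.isSemisimpleRing_iff_jacobson]
  obtain ⟨n, hn⟩ := IsSemiprimaryRing.isNilpotent (R := B)
  rw [eq_bot_iff]
  intro x hx
  have hy : star x * x ∈ Ring.jacobson B := Ideal.mul_mem_left _ _ hx
  have hp : (star x * x) ^ n = 0 := by
    have h1 := Ideal.pow_mem_pow hy n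
    rw [hn] at h1
    exact h1
  have hp2 : (star x * x) ^ 2 ^ n = 0 := pow_eq_zero_of_le (Nat.lt_two_pow_self).le hp
  have h2 := (IsSelfAdjoint.star_mul_self x).nnnorm_pow_two_pow n
  rw [hp2, nnnorm_zero] at h2
  have h3 : ‖star x * x‖₊ = 0 := pow_eq_zero_iff (by positivity) |>.1 h2.symm
  have h4 : star x * x = 0 := nnnorm_eq_zero.1 h3
  have h5 : x = 0 := CStarRing.star_mul_self_eq_zero_iff x |>.1 h4
  rw [h5]
  exact Submodule.zero_mem _

/-! ### Unitarization -/

theorem unitarize (B : Type) [CStarAlgebra B] (Q : Type) [Group Q] [Fintype Q] (w : Q →* B) :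
    ∃ (u : Q →* unitary B) (R R' : B), R * R' = 1 ∧ R' * R = 1 ∧
      ∀ q, (u q : B) = R * w q * R' := by
  letI : PartialOrder B := CStarAlgebra.spectralOrder B
  haveI : StarOrderedRing B := CStarAlgebra.spectralOrderedRing B
  set S : B := ∑ q, star (w q) * w q with hS
  have h1 : (1 : B) ≤ S := by
    have e : (1 : B) = star (w 1) * w 1 := by simp
    rw [e, hS]
    exact Finset.single_le_sum (f := fun q => star (w q) * w q)
      (fun q _ => star_mul_self_nonneg (w q)) (Finset.mem_univ 1)
  have h0 : (0 : B) ≤ S := Finset.sum_nonneg fun q _ => star_mul_self_nonneg (w q)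
  have hu : IsUnit S := CStarAlgebra.isUnit_of_le (1 : B) h1
  set R : B := CFC.sqrt S with hR
  have hRR : R * R = S := CFC.sqrt_mul_sqrt_self S h0
  have hRs : star R = R := (CFC.sqrt_nonneg S).isSelfAdjoint
  have hRu : IsUnit R := (CFC.isUnit_sqrt_iff S h0).2 hu
  obtain ⟨r, hr⟩ := hRu
  set R' : B := ((r⁻¹ : Bˣ) : B) with hR'
  have hRR' : R * R' = 1 := by rw [← hr, hR']; exact r.mul_inv
  have hR'R : R' * R = 1 := by rw [← hr, hR']; exact r.inv_mul
  have hR's : star R' = R' := by
    have h2 : star R' * R = 1 := by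
      rw [← hRs, ← star_mul, hRR', star_one]
    calc star R' = star R' * (R * R') := by rw [hRR', mul_one]
      _ = (star R' * R) * R' := by rw [mul_assoc]
      _ = R' := by rw [h2, one_mul]
  have hinv : ∀ q, star (w q) * S * w q = S := by
    intro q
    rw [hS, Finset.mul_sum, Finset.sum_mul]
    refine Fintype.sum_equiv (Equiv.mulRight q) _ _ fun p => ?_
    rw [Equiv.coe_mulRight, map_mul, star_mul]
    simp only [mul_assoc]
  have hq1 : ∀ q, star (R * w q * R') * (R * w q * R') = 1 := by
    intro q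
    rw [star_mul, star_mul, hRs, hR's]
    calc R' * (star (w q) * R) * (R * w q * R')
        = R' * (star (w q) * (R * R) * w q) * R' := by simp only [mul_assoc]
      _ = R' * S * R' := by rw [hRR, hinv]
      _ = R' * (R * R) * R' := by rw [hRR]
      _ = (R' * R) * (R * R') := by simp only [mul_assoc]
      _ = 1 := by rw [hR'R, hRR', one_mul]
  have hmul : ∀ p q, (R * w p * R') * (R * w q * R') = R * w (p * q) * R' := by
    intro p q
    rw [map_mul]
    calc (R * w p * R') * (R * w q * R') = R * w p * (R' * R) * w q * R' := by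
          simp only [mul_assoc]
      _ = R * (w p * w q) * R' := by rw [hR'R, mul_one, mul_assoc R]
  have hone : R * w 1 * R' = 1 := by rw [map_one, mul_one, hRR']
  have hq2 : ∀ q, (R * w q * R') * star (R * w q * R') = 1 := by
    intro q
    have h3 : (R * w q * R') * (R * w q⁻¹ * R') = 1 := by
      rw [hmul, mul_inv_cancel, hone]
    have h4 : star (R * w q * R') = R * w q⁻¹ * R' := by
      calc star (R * w q * R') = star (R * w q * R') * ((R * w q * R') * (R * w q⁻¹ * R')) := by
            rw [h3, mul_one]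
        _ = (star (R * w q * R') * (R * w q * R')) * (R * w q⁻¹ * R') := (mul_assoc _ _ _).symm
        _ = R * w q⁻¹ * R' := by rw [hq1, one_mul]
    rw [h4, h3]
  refine ⟨⟨⟨fun q => ⟨R * w q * R', hq1 q, hq2 q⟩, ?_⟩, ?_⟩, R, R', hRR', hR'R, fun q => rfl⟩
  · exact Subtype.ext hone
  · intro p q
    exact Subtype.ext (hmul p q).symm

/-! ### The theorem -/

theorem fin_dim (B : Type) [CStarAlgebra B] [FiniteDimensional ℂ B] :
    ∃ (Q : Type) (_ : Group Q) (_ : Fintype Q) (u : Q →* unitary B),
      ∀ x : B, x ∈ Submodule.span ℂ (Set.range fun q => (u q : B)) := by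
  haveI := semisimple B
  obtain ⟨n, d, _, ⟨e⟩⟩ := IsSemisimpleRing.exists_algEquiv_pi_matrix_of_isAlgClosed ℂ B
  obtain ⟨Q, _, _, w, hw⟩ := group_span d
  obtain ⟨u, R, R', hRR', hR'R, hu⟩ := unitarize B Q
    ((e.symm : (Π i, Matrix (Fin (d i)) (Fin (d i)) ℂ) →* B).comp w)
  refine ⟨Q, inferInstance, inferInstance, u, fun x => ?_⟩
  -- the linear map `x ↦ R x R'` after `e.symm`
  let T : (Π i, Matrix (Fin (d i)) (Fin (d i)) ℂ) →ₗ[ℂ] B :=
    (LinearMap.mulLeft ℂ R ∘ₗ LinearMap.mulRight ℂ R') ∘ₗ e.symm.toLinearMap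
  have hT : ∀ q, T (w q) = (u q : B) := by
    intro q
    rw [hu]
    show R * (e.symm (w q) * R') = R * (e.symm (w q)) * R'
    rw [mul_assoc]
  have hx : x = T (e (R' * x * R)) := by
    show x = R * (e.symm (e (R' * x * R)) * R')
    rw [AlgEquiv.symm_apply_apply]
    calc x = (R * R') * x * (R * R') := by rw [hRR', one_mul, mul_one]
      _ = R * (R' * x * R * R') := by simp only [mul_assoc]
  have h1 := hw (e (R' * x * R))
  have h2 := Submodule.mem_map_of_mem (f := T) h1
  rw [Submodule.map_span, ← hx, ← Set.range_comp] at h2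
  have e2 : (T ∘ fun q => w q) = fun q => (u q : B) := funext hT
  rw [e2] at h2
  exact h2

theorem main (A : Type) [CStarAlgebra A] (D : StarSubalgebra ℂ A) (hD : FiniteDimensional ℂ D) :
    ∃ (Q : Type) (_ : Group Q) (_ : Fintype Q) (u : Q →* unitary A), (∀ q, (u q : A) ∈ D) ∧
      ∀ x ∈ D, x ∈ Submodule.span ℂ (Set.range fun q => (u q : A)) := by
  haveI hcl : IsClosed (D : Set A) := by
    haveI : FiniteDimensional ℂ (Subalgebra.toSubmodule D.toSubalgebra) := hD
    exact Submodule.closed_of_finiteDimensional (Subalgebra.toSubmodule D.toSubalgebra)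
  obtain ⟨Q, _, _, u, hu⟩ := fin_dim D
  let v : Q →* unitary A :=
    { toFun := fun q => ⟨D.subtype ((u q : unitary D) : D), Unitary.map_mem D.subtype (u q).2⟩
      map_one' := by
        apply Subtype.ext
        show D.subtype ((u 1 : unitary D) : D) = 1
        rw [map_one]
        rfl
      map_mul' := by
        intro p q
        apply Subtype.ext
        show D.subtype ((u (p * q) : unitary D) : D) = D.subtype ((u p : unitary D) : D) *
          D.subtype ((u q : unitary D) : D)
        rw [map_mul]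
        rfl }
  refine ⟨Q, inferInstance, inferInstance, v, fun q => ?_, ?_⟩
  · exact ((u q : unitary D) : D).2
  · intro x hx
    have h1 := Submodule.mem_map_of_mem (f := D.subtype.toAlgHom.toLinearMap) (hu ⟨x, hx⟩)
    rw [Submodule.map_span, ← Set.range_comp] at h1
    exact h1

end Pool.Agent.H71RE.FING
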