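import Pool.Agent.H71RE.Stm
import Pool.Agent.H71RE.FINGa

/-!
# Piece FING (helper53): a finite-dimensional `*`-subalgebra is spanned by a finite group of unitaries
-/

set_option autoImplicit false

namespace Pool.Agent.H71RE

theorem fing : S_FING := fun A _ D hD => FING.main A D hD

end Pool.Agent.H71RE
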