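import Pool.Agent.H71RE.Stm
import Pool.Agent.Helper278.RGKap
import Pool.Agent.H71RE.BND

set_option autoImplicit false

open scoped InnerProductSpace ComplexOrder CStarAlgebra
open Filter Topology

namespace Pool.Agent.H71RE

open Pool.Agent.N557.QWX (Op IsTracial IsHom tr)

noncomputable section

theorem kap : S_KAP := by
  intro K _ _ _ C ζ hC S hS hd c hc ε hε
  have hadj' : ∀ (x : Op K) (u v : K), ⟪u, star x v⟫_ℂ = ⟪x u, v⟫_ℂ := by
    intro x u v
    rw [ContinuousLinearMap.star_eq_adjoint, ContinuousLinearMap.adjoint_inner_right]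
  have htr : ∀ x ∈ C, ∀ y ∈ C, ⟪ζ, (x * y) ζ⟫_ℂ = ⟪ζ, (y * x) ζ⟫_ℂ := hC.tracial
  have hns : ∀ x : Op K, ((‖x ζ‖ ^ 2 : ℝ) : ℂ) = ⟪ζ, (star x * x) ζ⟫_ℂ := by
    intro x
    show _ = ⟪ζ, star x (x ζ)⟫_ℂ
    rw [hadj', inner_self_eq_norm_sq_to_K]
    simp
  -- invariance under the star
  have hstar : ∀ x ∈ C, ‖(star x : Op K) ζ‖ = ‖x ζ‖ := by
    intro x hx
    have h : ((‖(star x : Op K) ζ‖ ^ 2 : ℝ) : ℂ) = ((‖x ζ‖ ^ 2 : ℝ) : ℂ) := by
      rw [hns, hns, star_star]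
      exact htr _ hx _ (star_mem hx)
    have h2 : ‖(star x : Op K) ζ‖ ^ 2 = ‖x ζ‖ ^ 2 := by exact_mod_cast h
    exact (pow_left_inj₀ (norm_nonneg _) (norm_nonneg _) two_ne_zero).1 h2
  haveI hcl : IsClosed (C.toStarSubalgebra : Set (Op K)) := vna_isClosed C
  letI : CStarAlgebra C.toStarSubalgebra := inferInstance
  let N : C.toStarSubalgebra → ℝ := fun x => ‖(x : Op K) ζ‖
  have hN : Pool.Agent.Helper278.RG.TwoNorm N :=
    { nonneg := fun x => norm_nonneg _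
      add := fun x y => norm_add_le _ _
      smul := fun z x => norm_smul _ _
      left := fun x y => (x : Op K).le_opNorm _
      right := by
        intro x y
        have h1 : N (x * y) = N (star y * star x) := by
          show ‖((x : Op K) * (y : Op K)) ζ‖ = ‖(star (y : Op K) * star (x : Op K)) ζ‖
          rw [← star_mul]
          exact (hstar _ (mul_mem x.2 y.2)).symm
        rw [h1]
        calc N (star y * star x) ≤ ‖(star (y : Op K))‖ * ‖(star (x : Op K) : Op K) ζ‖ :=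
              (star (y : Op K)).le_opNorm _
          _ = N x * ‖y‖ := by
              rw [norm_star, hstar _ x.2, mul_comm]
              rfl
      star := fun x => hstar _ x.2
      le := by
        intro x
        have := (x : Op K).le_opNorm ζ
        rw [hC.unit, mul_one] at this
        exact this }
  -- the subalgebra
  let A : StarSubalgebra ℂ C.toStarSubalgebra := S.comap C.toStarSubalgebra.subtype
  have hdA : ∀ x : C.toStarSubalgebra, ∀ ε > (0 : ℝ), ∃ a ∈ A, N (x - a) < ε := by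
    intro x ε hε
    obtain ⟨s, hs, h⟩ := hd x x.2 ε hε
    exact ⟨⟨s, hS s hs⟩, hs, h⟩
  by_cases hc0 : c = 0
  · refine ⟨0, zero_mem S, ?_, ?_⟩
    · simp
    · rw [hc0]; simpa using hε
  have hcn : 0 < ‖c‖ := norm_pos_iff.2 hc0
  let x : C.toStarSubalgebra := ⟨((‖c‖⁻¹ : ℝ) : ℂ) • c, C.toStarSubalgebra.smul_mem hc _⟩
  have hx : ‖x‖ ≤ 1 := by
    show ‖((‖c‖⁻¹ : ℝ) : ℂ) • c‖ ≤ 1
    rw [norm_smul, Complex.norm_real, norm_inv, norm_norm, inv_mul_cancel₀ hcn.ne']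
  obtain ⟨a, haA, ha, hxa⟩ := Pool.Agent.Helper278.RG.kaplansky hN A hdA x hx (ε / ‖c‖)
    (div_pos hε hcn)
  refine ⟨((‖c‖ : ℝ) : ℂ) • (a : Op K), S.smul_mem haA _, ?_, ?_⟩
  · rw [norm_smul, Complex.norm_real, norm_norm, mul_comm]
    exact mul_le_mul_of_nonneg_right ha hcn.le
  · have h1 : (c - ((‖c‖ : ℝ) : ℂ) • (a : Op K)) = ((‖c‖ : ℝ) : ℂ) • ((x : Op K) - (a : Op K)) := by
      rw [smul_sub]
      congr 1
      show c = ((‖c‖ : ℝ) : ℂ) • (((‖c‖⁻¹ : ℝ) : ℂ) • c)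
      rw [smul_smul, ← Complex.ofReal_mul, mul_inv_cancel₀ hcn.ne', Complex.ofReal_one, one_smul]
    rw [h1]
    have h2 : ‖((x : Op K) - (a : Op K)) ζ‖ < ε / ‖c‖ := hxa
    calc ‖(((‖c‖ : ℝ) : ℂ) • ((x : Op K) - (a : Op K))) ζ‖ = ‖c‖ * ‖((x : Op K) - (a : Op K)) ζ‖ := by
          rw [ContinuousLinearMap.smul_apply, norm_smul, Complex.norm_real, norm_norm]
      _ < ‖c‖ * (ε / ‖c‖) := mul_lt_mul_of_pos_left h2 hcn
      _ = ε := by field_simp

end

end Pool.Agent.H71RE
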