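import Pool.Agent.H71RE.Main
import Pool.Agent.H71RE.APP
import Pool.Agent.H71RE.DBL
import Pool.Agent.H71RE.KAP
import Pool.Agent.H71RE.BND

/-!
# The final statement of the relative embeddability counterexample
-/

set_option autoImplicit false

namespace Pool.Agent.H71RE

/-- There are a countable group `G` and a co-amenable subgroup `H` such that the inclusion
`L(H) ⊆ L(G)` does not satisfy relative embeddability. -/
theorem final : ∃ (G : Type) (_ : Group G) (H : Subgroup G), Countable G ∧
    CoAmenable H ∧ ¬ RE (LH H) (Pool.Agent.N859.QW.LG G) (Pool.Agent.N859.QW.dl G)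
      (Pool.Agent.N859.QW.LG H) (Pool.Agent.N859.QW.dl H) :=
  main (app dbl kap bnd)

end Pool.Agent.H71RE
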