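import Pool.Agent.H71RE.Stm
import Pool.Agent.N163.QW.DAY
import Pool.Agent.N664.QWP.RT

/-!
# Project RE, piece KIR: matrix models of a group of unitaries in a QWEP von Neumann algebra
-/

set_option autoImplicit false

open scoped InnerProductSpace ComplexOrder CStarAlgebra
open Filter Topology Matrix Finset

namespace Pool.Agent.H71RE

open Pool.Agent.N557.QWX (Op tr IsTracial IsHom)
open Pool.Agent.N859.QX (QWEP)
open Pool.Agent.W661.RC (Mt hs Le)

/-- the two forms of the definition of QWEP -/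
theorem qwep_conv {H : Type} [NormedAddCommGroup H] [InnerProductSpace ℂ H] [CompleteSpace H]
    {N : VonNeumannAlgebra H} (h : QWEP N) : Pool.Agent.N859.QW.QWEP N := by
  obtain ⟨K, ⟨B, hc, hw, q, ho⟩⟩ := h
  exact ⟨K, inferInstance, inferInstance, inferInstance, B, q, hc,
    fun K _ _ _ π hπ => ((hw.all K).expectation π hπ).expectation, ho⟩

/-- the two forms of the definition of a tracial vector -/
theorem tracial_conv {H : Type} [NormedAddCommGroup H] [InnerProductSpace ℂ H] [CompleteSpace H]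
    {N : VonNeumannAlgebra H} {ξ : H} (h : IsTracial N ξ) :
    Pool.Agent.N557.QW.IsTracial N ξ where
  unit := h.unit
  tracial := fun x hx y hy => h.tracial x hx y hy
  faithful := fun x hx h0 => h.faithful x hx (by
    show ⟪ξ, (star x * x) ξ⟫_ℂ = 0
    rw [ContinuousLinearMap.mul_apply, h0, map_zero, inner_zero_right])

/-- **KIR.** -/
theorem kir (h1 : S_STATE2) (h2 : S_MAT2) : S_KIR := by
  classical
  intro H _ _ _ N ξ hξ hN Γ _ u hu
  have hr : ∀ g, ∃ r : H →L[ℂ] H, (∀ x ∈ N, x * r = r * x) ∧ r ξ = (u g : H →L[ℂ] H) ξ ∧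
      (star r) ξ = (star (u g : H →L[ℂ] H)) ξ := fun g =>
    Pool.Agent.N664.QWP.t_rt H N ξ (tracial_conv hξ) _ (hu g) (Unitary.coe_star_mul_self (u g))
      (Unitary.coe_mul_star_self (u g))
  choose r hr1 hr2 hr3 using hr
  obtain ⟨K, _, _, _, b, φ, hb1, hφ1, hher, hpos, hinv, hsq, hmul, htr⟩ :=
    h1 H N Γ u r ξ (qwep_conv hN)
      { mem := hu
        com := hr1
        unit := hξ.unit
        eq1 := hr2
        eq2 := hr3 }
  set τ : Γ → ℂ := fun g => ⟪ξ, (u g : H →L[ℂ] H) ξ⟫_ℂ with hτ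
  refine h2 Γ τ fun A => ⟨∑ g ∈ A, ‖b g‖, fun ε hε => ?_⟩
  set e := A.equivFin with he
  set P : Finset (Γ × Γ) := A ×ˢ A with hP
  set eP := P.equivFin with heP
  let X : Fin A.card ⊕ (Fin P.card ⊕ Fin A.card) → (K →L[ℂ] K) := Sum.elim
    (fun i => star (1 - star (b (e.symm i)) * b (e.symm i)) *
      (1 - star (b (e.symm i)) * b (e.symm i)))
    (Sum.elim (fun i => star (b ((eP.symm i).1.1 * (eP.symm i).1.2) -
        b (eP.symm i).1.1 * b (eP.symm i).1.2) *
      (b ((eP.symm i).1.1 * (eP.symm i).1.2) - b (eP.symm i).1.1 * b (eP.symm i).1.2))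
      (fun i => b (e.symm i) - τ (e.symm i) • 1))
  let f := Fintype.equivFin (Fin A.card ⊕ (Fin P.card ⊕ Fin A.card))
  obtain ⟨N', ζ, h4, h5, h6⟩ := Pool.Agent.N163.QW.t_day K φ A.card _ (fun i => b (e.symm i))
    (X ∘ f.symm) hφ1 hher hpos
    (fun i V => hinv _ V) (by
      intro j
      rcases h : f.symm j with i | i | i
      · simp only [Function.comp, h]
        exact hsq _
      · simp only [Function.comp, h]
        exact hmul _ _
      · simp only [Function.comp, h]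
        show φ (b (e.symm i) - τ (e.symm i) • 1) = 0
        rw [map_sub, map_smul, hφ1, htr, smul_eq_mul, mul_one, sub_self]) ε hε
  have h7 : ∀ Y : K →L[ℂ] K, ∀ x : K, ⟪x, (star Y * Y) x⟫_ℂ = ((‖Y x‖ ^ 2 : ℝ) : ℂ) := by
    intro Y x
    rw [mul_apply_eq_comp, ContinuousLinearMap.star_eq_adjoint,
      ContinuousLinearMap.adjoint_inner_right, inner_self_eq_norm_sq_to_K]
    norm_cast
  have h8 : ∀ Y : K →L[ℂ] K, ‖∑ k, ⟪ζ k, (star Y * Y) (ζ k)⟫_ℂ‖ ≤ ε →
      ∑ k, ‖Y (ζ k)‖ ^ 2 ≤ ε := by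
    intro Y hY
    have : ∑ k, ⟪ζ k, (star Y * Y) (ζ k)⟫_ℂ = ((∑ k, ‖Y (ζ k)‖ ^ 2 : ℝ) : ℂ) := by
      rw [Complex.ofReal_sum]
      exact Finset.sum_congr rfl fun k _ => h7 Y (ζ k)
    rw [this, Complex.norm_real, Real.norm_eq_abs,
      abs_of_nonneg (Finset.sum_nonneg fun _ _ => sq_nonneg _)] at hY
    exact hY
  refine ⟨K, inferInstance, inferInstance, inferInstance, b, N', ζ, hb1, ?_, h4, ?_, ?_, ?_, ?_⟩
  · intro g hg
    exact Finset.single_le_sum (f := fun g => ‖b g‖) (fun _ _ => norm_nonneg _) hg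
  · intro g hg V hV
    have := h5 (e ⟨g, hg⟩) V hV
    simpa using this
  · intro g hg
    apply h8
    have := h6 (f (Sum.inl (e ⟨g, hg⟩)))
    simpa [X] using this
  · intro g hg h hh
    apply h8
    have := h6 (f (Sum.inr (Sum.inl (eP ⟨(g, h), Finset.mem_product.2 ⟨hg, hh⟩⟩))))
    simpa [X] using this
  · intro g hg
    have h9 : ‖∑ k, ⟪ζ k, (b g - τ g • (1 : K →L[ℂ] K)) (ζ k)⟫_ℂ‖ ≤ ε := by
      have := h6 (f (Sum.inr (Sum.inr (e ⟨g, hg⟩))))
      simpa only [X, Function.comp, Equiv.symm_apply_apply, Sum.elim_inr] using this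
    have h10 : ∑ k, ⟪ζ k, (b g - τ g • (1 : K →L[ℂ] K)) (ζ k)⟫_ℂ =
        ∑ k, ⟪ζ k, b g (ζ k)⟫_ℂ - τ g := by
      have h11 : ∀ k, ⟪ζ k, (b g - τ g • (1 : K →L[ℂ] K)) (ζ k)⟫_ℂ =
          ⟪ζ k, b g (ζ k)⟫_ℂ - τ g * ((‖ζ k‖ ^ 2 : ℝ) : ℂ) := by
        intro k
        have h12 : (b g - τ g • (1 : K →L[ℂ] K)) (ζ k) = b g (ζ k) - τ g • ζ k := rfl
        rw [h12, inner_sub_right, inner_smul_right, inner_self_eq_norm_sq_to_K]
        norm_cast
      rw [Finset.sum_congr rfl fun k _ => h11 k, Finset.sum_sub_distrib, ← Finset.mul_sum,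
        ← Complex.ofReal_sum, h4, Complex.ofReal_one, mul_one]
    rw [h10] at h9
    exact h9

end Pool.Agent.H71RE
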