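import Pool.Agent.H71RE.Stm
import Pool.Agent.N52.NH.BLK

/-!
# Project RE: the piece KEY (helper85)
-/

set_option autoImplicit false

open scoped InnerProductSpace ComplexOrder
open Matrix Finset

namespace Pool.Agent.H71RE.Key

open Pool.Agent.W661.RC Pool.Agent.W683.RC Pool.Agent.N303.KQ Pool.Agent.N52.NH

noncomputable section

/-! ### Finite groups have property (T) -/

theorem hasT_fin (Q : Type) [Group Q] [Fintype Q] : Pool.Agent.W661.RC.HasT Q := by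
  intro H _ _ _ π h
  obtain ⟨v, hv1, hv⟩ := h univ (1 / 2) (by norm_num)
  have hc : (0 : ℝ) < Fintype.card Q := by exact_mod_cast Fintype.card_pos
  have hc' : (Fintype.card Q : ℂ) ≠ 0 := by exact_mod_cast hc.ne'
  refine ⟨((Fintype.card Q : ℂ)⁻¹) • ∑ g, (π g : H →L[ℂ] H) v, ?_, ?_⟩
  · intro h0
    have h1 : v = ((Fintype.card Q : ℂ)⁻¹) • ∑ g : Q, (v - (π g : H →L[ℂ] H) v) := by
      rw [sum_sub_distrib, smul_sub, h0, sub_zero, sum_const, card_univ,
        ← Nat.cast_smul_eq_nsmul ℂ, smul_smul, inv_mul_cancel₀ hc', one_smul]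
    have h2 : ‖∑ g : Q, (v - (π g : H →L[ℂ] H) v)‖ ≤ Fintype.card Q * (1 / 2) := by
      refine (norm_sum_le _ _).trans ?_
      have h3 : ∀ g ∈ (univ : Finset Q), ‖v - (π g : H →L[ℂ] H) v‖ ≤ 1 / 2 := by
        intro g hg
        rw [norm_sub_rev]
        exact (hv g hg).le
      refine (sum_le_sum h3).trans ?_
      rw [sum_const, card_univ, nsmul_eq_mul]
    have h4 : ‖v‖ ≤ 1 / 2 := by
      calc ‖v‖ = ‖((Fintype.card Q : ℂ)⁻¹) • ∑ g : Q, (v - (π g : H →L[ℂ] H) v)‖ := congrArg _ h1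
        _ = (Fintype.card Q : ℝ)⁻¹ * ‖∑ g : Q, (v - (π g : H →L[ℂ] H) v)‖ := by
            rw [norm_smul, norm_inv, Complex.norm_natCast]
        _ ≤ (Fintype.card Q : ℝ)⁻¹ * (Fintype.card Q * (1 / 2)) := by gcongr
        _ = 1 / 2 := by field_simp
    rw [hv1] at h4
    norm_num at h4
  · intro g
    rw [map_smul, map_sum]
    congr 1
    refine Fintype.sum_equiv (Equiv.mulLeft g) _ _ fun x => ?_
    rw [Equiv.coe_mulLeft, map_mul]
    rfl

/-! ### Words in an almost representation -/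

theorem phi_one {Q : Type} [Group Q] {d : ℕ} {φ : Q → unitaryGroup (Fin d) ℂ} {B : ℝ}
    (h : ∀ v w, hs ((φ v : Mt d) * (φ w : Mt d) - (φ (v * w) : Mt d)) ≤ B) :
    hs ((φ 1 : Mt d) - 1) ≤ B := by
  have h1 := h 1 1
  rw [mul_one] at h1
  have e : (φ 1 : Mt d) * (φ 1 : Mt d) - (φ 1 : Mt d) = (φ 1 : Mt d) * ((φ 1 : Mt d) - 1) := by
    rw [Matrix.mul_sub, Matrix.mul_one]
  rwa [e, hs_unit_mul (un_conj (φ 1))] at h1

theorem word_near {Q : Type} [Group Q] {k : ℕ} (γ : FreeGroup (Fin k) →* Q)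
    (w : FreeGroup (Fin k)) :
    ∃ C : ℝ, 0 ≤ C ∧ ∀ (d : ℕ) (φ : Q → unitaryGroup (Fin d) ℂ) (B : ℝ), 0 ≤ B →
      (∀ v w, hs ((φ v : Mt d) * (φ w : Mt d) - (φ (v * w) : Mt d)) ≤ B) →
      hs ((FreeGroup.lift (fun s => φ (γ (FreeGroup.of s))) w : Mt d) - (φ (γ w) : Mt d)) ≤
        C * B := by
  induction w using FreeGroup.induction_on with
  | C1 =>
    refine ⟨1, zero_le_one, fun d φ B hB h => ?_⟩
    rw [map_one, map_one, hs_sub_comm, one_mul]
    exact phi_one h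
  | of s =>
    refine ⟨0, le_rfl, fun d φ B hB h => ?_⟩
    rw [FreeGroup.lift_apply_of, sub_self, hs_zero, zero_mul]
  | inv_of s _ =>
    refine ⟨4, by norm_num, fun d φ B hB h => ?_⟩
    rw [map_inv, map_inv, FreeGroup.lift_apply_of]
    set u := φ (γ (FreeGroup.of s)) with hu
    have h1 := h (γ (FreeGroup.of s)) (γ (FreeGroup.of s))⁻¹
    rw [mul_inv_cancel, ← hu] at h1
    have e : ((u⁻¹ : unitaryGroup (Fin d) ℂ) : Mt d) - (φ (γ (FreeGroup.of s))⁻¹ : Mt d) =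
        (u : Mt d)ᴴ * (1 - (u : Mt d) * (φ (γ (FreeGroup.of s))⁻¹ : Mt d)) := by
      rw [Matrix.mul_sub, ← Matrix.mul_assoc, un_conj u, Matrix.one_mul, Matrix.mul_one]
      rfl
    rw [e, hs_unit_mul (unit_conj (un_conj u))]
    have e2 : 1 - (u : Mt d) * (φ (γ (FreeGroup.of s))⁻¹ : Mt d) =
        -(((u : Mt d) * (φ (γ (FreeGroup.of s))⁻¹ : Mt d) - (φ 1 : Mt d)) + ((φ 1 : Mt d) - 1)) := by
      abel
    rw [e2, hs_neg]
    refine (hs_add_le _ _).trans ?_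
    have h2 := phi_one h
    linarith
  | mul v w hv hw =>
    obtain ⟨C1, hC1, h1⟩ := hv
    obtain ⟨C2, hC2, h2⟩ := hw
    refine ⟨4 * C1 + 4 * C2 + 2, by positivity, fun d φ B hB h => ?_⟩
    have h1 := h1 d φ B hB h
    have h2 := h2 d φ B hB h
    have h3 := h (γ v) (γ w)
    rw [map_mul, map_mul]
    set a := FreeGroup.lift (fun s => φ (γ (FreeGroup.of s))) v with ha
    set b := FreeGroup.lift (fun s => φ (γ (FreeGroup.of s))) w with hb
    have e : ((a * b : unitaryGroup (Fin d) ℂ) : Mt d) - (φ (γ v * γ w) : Mt d) =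
        ((a : Mt d) * (b : Mt d) - (φ (γ v) : Mt d) * (φ (γ w) : Mt d)) +
        ((φ (γ v) : Mt d) * (φ (γ w) : Mt d) - (φ (γ v * γ w) : Mt d)) := by
      rw [UnitaryGroup.mul_val]; abel
    rw [e]
    refine (hs_add_le _ _).trans ?_
    have h4 := hs_mul_sub_mul a (φ (γ v)) b (φ (γ w))
    nlinarith

/-! ### Averages -/

theorem hs_avg_le {ι : Type} [Fintype ι] [Nonempty ι] {d : ℕ} (f : ι → Mt d) {B : ℝ}
    (h : ∀ i, hs (f i) ≤ B) : hs (((Fintype.card ι : ℂ)⁻¹) • ∑ i, f i) ≤ B := by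
  have hc : (0 : ℝ) < Fintype.card ι := by exact_mod_cast Fintype.card_pos
  rw [hs_smul, norm_inv, Complex.norm_natCast]
  have h1 := hs_sum_le univ f
  have h2 : ∑ i, hs (f i) ≤ Fintype.card ι * B := by
    refine (sum_le_sum fun i _ => h i).trans ?_
    rw [sum_const, card_univ, nsmul_eq_mul]
  rw [card_univ] at h1
  calc ((Fintype.card ι : ℝ)⁻¹) ^ 2 * hs (∑ i, f i)
      ≤ ((Fintype.card ι : ℝ)⁻¹) ^ 2 * (Fintype.card ι * (Fintype.card ι * B)) := by
        refine mul_le_mul_of_nonneg_left (h1.trans ?_) (by positivity)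
        exact mul_le_mul_of_nonneg_left h2 hc.le
    _ = B := by field_simp

theorem Le_avg {ι : Type} [Fintype ι] [Nonempty ι] {d : ℕ} (a : ι → Mt d)
    (h : ∀ i, Le ((a i)ᴴ * a i) 1) :
    Le ((((Fintype.card ι : ℂ)⁻¹) • ∑ i, a i)ᴴ * (((Fintype.card ι : ℂ)⁻¹) • ∑ i, a i)) 1 := by
  have hc : (0 : ℝ) < Fintype.card ι := by exact_mod_cast Fintype.card_pos
  have hc' : (Fintype.card ι : ℂ) ≠ 0 := by exact_mod_cast hc.ne'
  set m : Mt d := ((Fintype.card ι : ℂ)⁻¹) • ∑ i, a i with hm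
  have hsum : ∑ i, a i = (Fintype.card ι : ℂ) • m := by
    rw [hm, smul_smul, mul_inv_cancel₀ hc', one_smul]
  have hsum' : ∑ i, (a i)ᴴ = (Fintype.card ι : ℂ) • mᴴ := by
    rw [← Matrix.conjTranspose_sum, hsum, Matrix.conjTranspose_smul]
    congr 1
    simp
  clear_value m
  have e : ∑ i, (a i - m)ᴴ * (a i - m) = ∑ i, (a i)ᴴ * a i - (Fintype.card ι : ℂ) • (mᴴ * m) := by
    have e1 : ∀ i, (a i - m)ᴴ * (a i - m) = (a i)ᴴ * a i - (a i)ᴴ * m - mᴴ * a i + mᴴ * m := by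
      intro i
      rw [Matrix.conjTranspose_sub, Matrix.sub_mul, Matrix.mul_sub, Matrix.mul_sub]
      abel
    rw [sum_congr rfl fun i _ => e1 i, sum_add_distrib, sum_sub_distrib, sum_sub_distrib,
      ← Matrix.sum_mul, ← Matrix.mul_sum, hsum, hsum', sum_const, card_univ,
      ← Nat.cast_smul_eq_nsmul ℂ, Matrix.smul_mul, Matrix.mul_smul]
    abel
  have h1 : Le ((Fintype.card ι : ℂ) • (mᴴ * m)) (∑ i, (a i)ᴴ * a i) := by
    rw [Le, ← e]
    exact Matrix.posSemidef_sum _ fun i _ => Matrix.posSemidef_conjTranspose_mul_self _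
  have h2 : Le (∑ i, (a i)ᴴ * a i) (∑ _i : ι, (1 : Mt d)) := Le_sum _ _ _ fun i _ => h i
  rw [sum_const, card_univ, ← Nat.cast_smul_eq_nsmul ℂ] at h2
  have h3 := Le_smul (Le_trans h1 h2) (c := (Fintype.card ι : ℝ)⁻¹) (by positivity)
  have e3 : (((Fintype.card ι : ℝ)⁻¹ : ℝ) : ℂ) * (Fintype.card ι : ℂ) = 1 := by
    push_cast
    exact inv_mul_cancel₀ hc'
  rwa [smul_smul, smul_smul, e3, one_smul, one_smul] at h3

theorem Le_unitary {d : ℕ} {U : Mt d} (h : Uᴴ * U = 1) : Le (Uᴴ * U) 1 := by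
  rw [h]; exact Le_refl _

theorem Le_mul {d : ℕ} {a b : Mt d} (ha : Le (aᴴ * a) 1) (hb : Le (bᴴ * b) 1) :
    Le ((a * b)ᴴ * (a * b)) 1 := by
  have h1 := Le_conj ha b
  rw [Matrix.mul_one] at h1
  have e : (a * b)ᴴ * (a * b) = bᴴ * (aᴴ * a) * b := by
    rw [Matrix.conjTranspose_mul]
    simp only [Matrix.mul_assoc]
  rw [e]
  exact Le_trans h1 hb

theorem Le_unit_adj {d : ℕ} (U : unitaryGroup (Fin d) ℂ) :
    Le (((U : Mt d)ᴴ)ᴴ * (U : Mt d)ᴴ) 1 := Le_unitary (unit_conj (un_conj U))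

section avg

variable {J : Type} [Fintype J] [Group J] {d : ℕ} (V : J →* unitaryGroup (Fin d) ℂ)

theorem Eav_contr {y : Mt d} (hy : Le (yᴴ * y) 1) : Le ((Eav V y)ᴴ * Eav V y) 1 :=
  Le_avg _ fun j => Le_mul (Le_mul (Le_unit_adj (V j)) hy) (Le_unitary (un_conj (V j)))

theorem Eav_comm (y : Mt d) (j : J) : Eav V y * (V j : Mt d) = (V j : Mt d) * Eav V y := by
  rw [Eav, Matrix.smul_mul, Matrix.mul_smul, Matrix.sum_mul, Matrix.mul_sum]
  congr 1
  refine Fintype.sum_equiv (Equiv.mulRight j) _ _ fun i => ?_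
  rw [Equiv.coe_mulRight, map_mul, UnitaryGroup.mul_val, Matrix.conjTranspose_mul]
  have h := unit_symm (un_conj (V j))
  calc (V i : Mt d)ᴴ * y * (V i : Mt d) * (V j : Mt d)
      = ((V j : Mt d) * (V j : Mt d)ᴴ) * (V i : Mt d)ᴴ * y * (V i : Mt d) * (V j : Mt d) := by
        rw [h, Matrix.one_mul]
    _ = _ := by simp only [Matrix.mul_assoc]

theorem Eav_comm_span (y : Mt d) {x : Mt d}
    (hx : x ∈ Submodule.span ℂ (Set.range fun j => (V j : Mt d))) :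
    Eav V y * x = x * Eav V y := by
  induction hx using Submodule.span_induction with
  | mem x h =>
    obtain ⟨j, rfl⟩ := h
    exact Eav_comm V y j
  | zero => rw [Matrix.mul_zero, Matrix.zero_mul]
  | add a b _ _ ha hb => rw [Matrix.mul_add, Matrix.add_mul, ha, hb]
  | smul c a _ ha => rw [Matrix.mul_smul, Matrix.smul_mul, ha]

theorem Eav_full (hd : 0 < d)
    (h : ∀ x : Mt d, x ∈ Submodule.span ℂ (Set.range fun j => (V j : Mt d))) (z : Mt d) :
    Eav V z = ntr z • (1 : Mt d) := by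
  have hc : (Fintype.card J : ℂ) ≠ 0 := by exact_mod_cast Fintype.card_ne_zero
  have hd' : (d : ℂ) ≠ 0 := by exact_mod_cast hd.ne'
  have h1 : Eav V z ∈ Set.range (Matrix.scalar (Fin d)) :=
    Matrix.mem_range_scalar_iff_commute_single'.2 fun i j => (Eav_comm_span V z (h _)).symm
  obtain ⟨c, hcz⟩ := h1
  have h2 : Matrix.trace (Eav V z) = Matrix.trace z := by
    rw [Eav, Matrix.trace_smul, Matrix.trace_sum]
    have h3 : ∀ j : J, Matrix.trace ((V j : Mt d)ᴴ * z * (V j : Mt d)) = Matrix.trace z := by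
      intro j
      rw [Matrix.trace_mul_comm, ← Matrix.mul_assoc, unit_symm (un_conj (V j)), Matrix.one_mul]
    rw [sum_congr rfl fun j _ => h3 j, sum_const, card_univ, nsmul_eq_mul, smul_eq_mul,
      ← mul_assoc, inv_mul_cancel₀ hc, one_mul]
  have h3 : Eav V z = c • (1 : Mt d) := by
    rw [← hcz, Matrix.scalar_apply, ← Matrix.smul_one_eq_diagonal]
  rw [h3, Matrix.trace_smul, Matrix.trace_one, Fintype.card_fin, smul_eq_mul] at h2
  rw [h3, ntr, ← h2, mul_div_assoc, div_self hd', mul_one]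

end avg

/-! ### The finite group of unitaries of the block algebra -/

open scoped Matrix.Norms.L2Operator in
theorem fing_mt (h : S_FING) (d : ℕ) (D : StarSubalgebra ℂ (Mt d)) :
    ∃ (Q : Type) (_ : Group Q) (_ : Fintype Q) (u : Q →* unitaryGroup (Fin d) ℂ),
      (∀ q, (u q : Mt d) ∈ D) ∧
      ∀ x ∈ D, x ∈ Submodule.span ℂ (Set.range fun q => (u q : Mt d)) :=
  h (Mt d) D (show FiniteDimensional ℂ D from
    inferInstanceAs (FiniteDimensional ℂ (Subalgebra.toSubmodule D.toSubalgebra)))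

theorem pO_mem {d : ℕ} (O : Out d) : pO O ∈ O.alg := by
  have h1 : Bm O (1 : Matrix O.I O.I ℂ) = 1 := by
    ext x y
    rw [Bm, Matrix.one_apply, Matrix.one_apply]
    by_cases h : x = y
    · subst h; simp
    · rw [if_neg h]
      split_ifs with h1 h2
      · exfalso
        apply h
        obtain ⟨i, q⟩ := x
        obtain ⟨j, r⟩ := y
        simp only at h1 h2
        subst h2
        rw [Fin.ext h1]
      · rfl
      · rfl
  have h2 : Am O 1 = pO O := by rw [Am, h1, Matrix.mul_one, pO]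
  rw [← h2]
  refine Am_mem fun i j hij => ?_
  rw [Matrix.one_apply_ne]
  rintro rfl
  exact hij rfl

theorem mul_pO {d : ℕ} {O : Out d} {a : Mt d} (ha : a ∈ O.alg) : a * pO O = a := by
  have h := congrArg Matrix.conjTranspose (pO_mul_alg (alg_conjTranspose ha))
  rwa [Matrix.conjTranspose_mul, Matrix.conjTranspose_conjTranspose, (pO_pr (O := O)).1] at h

theorem exists_D {d : ℕ} (O : Out d) : ∃ D : StarSubalgebra ℂ (Mt d), (∀ a ∈ O.alg, a ∈ D) ∧
    ∀ x ∈ D, ∃ a ∈ O.alg, ∃ c : ℂ, x = a + c • 1 := by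
  obtain ⟨A, hA⟩ := Pool.Agent.W661.RC.All.alg d O
  refine ⟨(NonUnitalStarSubalgebra.unitization A).range, ?_, ?_⟩
  · intro a ha
    rw [← hA] at ha
    refine ⟨Unitization.inr ⟨a, ha⟩, ?_⟩
    exact (NonUnitalStarSubalgebra.unitization_apply A _).trans (by simp)
  · rintro _ ⟨x, rfl⟩
    refine ⟨x.snd, by rw [← hA]; exact x.snd.2, x.fst, ?_⟩
    refine (NonUnitalStarSubalgebra.unitization_apply A _).trans ?_
    rw [Algebra.algebraMap_eq_smul_one, add_comm]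

theorem alg_add {d : ℕ} {O : Out d} {a b : Mt d} (ha : a ∈ O.alg) (hb : b ∈ O.alg) :
    a + b ∈ O.alg := by
  obtain ⟨A, hA⟩ := Pool.Agent.W661.RC.All.alg d O
  have ha' : a ∈ (A : Set (Mt d)) := by rw [hA]; exact ha
  have hb' : b ∈ (A : Set (Mt d)) := by rw [hA]; exact hb
  rw [← hA]
  exact add_mem (S := NonUnitalStarSubalgebra ℂ (Mt d)) (s := A) ha' hb'

theorem alg_smul {d : ℕ} {O : Out d} {a : Mt d} (ha : a ∈ O.alg) (c : ℂ) :
    c • a ∈ O.alg := by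
  obtain ⟨A, hA⟩ := Pool.Agent.W661.RC.All.alg d O
  have ha' : a ∈ (A : Set (Mt d)) := by rw [hA]; exact ha
  rw [← hA]
  exact SMulMemClass.smul_mem (s := A) c ha'

theorem comm_small {k d : ℕ} {u : Fin k → Mt d} {K0 ε : ℝ} {O : Out d}
    (hu : ∀ s, (u s)ᴴ * u s = 1) (hO : BlkA u K0 ε O) {U : Mt d} (hU : Uᴴ * U = 1)
    (hD : ∃ a ∈ O.alg, ∃ c : ℂ, U = a + c • 1) (s : Fin k) :
    hs (U * u s - u s * U) ≤ 10 * (ε * d) := by
  have hp : IsPr (pO O) := pO_pr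
  have hmem : U * pO O ∈ O.alg := by
    obtain ⟨a, ha, c, rfl⟩ := hD
    rw [Matrix.add_mul, mul_pO ha, Matrix.smul_mul, Matrix.one_mul]
    exact alg_add ha (alg_smul (pO_mem O) c)
  have h1 : hs (u s * (U * pO O) - (U * pO O) * u s) ≤ ε * d := by
    refine le_trans ?_ (hO.en _ hmem (Le_mul (Le_unitary hU) (pr_sq_le_one hp)))
    exact single_le_sum (f := fun s => hs (u s * (U * pO O) - (U * pO O) * u s))
      (fun i _ => hs_nonneg _) (mem_univ s)
  have h2 : hs (u s * (U * (1 - pO O)) - (U * (1 - pO O)) * u s) ≤ 4 * (ε * d) := by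
    refine (hs_sub_le _ _).trans ?_
    rw [hs_unit_mul (hu s), hs_mul_unit (hu s), hs_unit_mul hU, hs_compl]
    have := hO.size
    linarith
  have e : U * u s - u s * U = -((u s * (U * pO O) - (U * pO O) * u s) +
      (u s * (U * (1 - pO O)) - (U * (1 - pO O)) * u s)) := by
    rw [Matrix.mul_sub, Matrix.mul_one, Matrix.mul_sub, Matrix.sub_mul]
    abel
  rw [e, hs_neg]
  refine (hs_add_le _ _).trans ?_
  linarith

/-! ### The averages `P(W)` -/

section PW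

variable {Q : Type} [Group Q] [Fintype Q] {d : ℕ} (φ : Q → unitaryGroup (Fin d) ℂ)

/-- `avg_v φ(v) W φ(v)ᴴ` -/
def PW (W : Mt d) : Mt d :=
  ((Fintype.card Q : ℂ)⁻¹) • ∑ v, (φ v : Mt d) * W * (φ v : Mt d)ᴴ

theorem PW_contr {W : Mt d} (hW : Le (Wᴴ * W) 1) : Le ((PW φ W)ᴴ * PW φ W) 1 :=
  Le_avg _ fun v => Le_mul (Le_mul (Le_unitary (un_conj (φ v))) hW) (Le_unit_adj (φ v))

theorem conj_near {a b W : Mt d} (ha : aᴴ * a = 1) (hb : bᴴ * b = 1) (hW : Le (Wᴴ * W) 1) :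
    hs (a * W * aᴴ - b * W * bᴴ) ≤ 4 * hs (a - b) := by
  have e : a * W * aᴴ - b * W * bᴴ = (a - b) * W * aᴴ + b * W * (a - b)ᴴ := by
    rw [Matrix.conjTranspose_sub, Matrix.sub_mul, Matrix.sub_mul, Matrix.mul_sub]
    abel
  rw [e]
  refine (hs_add_le _ _).trans ?_
  rw [hs_mul_unit (unit_conj ha), Matrix.mul_assoc b, hs_unit_mul hb]
  have h1 := hs_mul_le_right hW (a - b)
  have h2 := hs_mul_le hW (a - b)ᴴ
  rw [hs_conjTranspose] at h2
  linarith

theorem PW_comm {B : ℝ}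
    (h : ∀ v w, hs ((φ v : Mt d) * (φ w : Mt d) - (φ (v * w) : Mt d)) ≤ B)
    {W : Mt d} (hW : Le (Wᴴ * W) 1) (g : Q) :
    hs ((φ g : Mt d) * PW φ W - PW φ W * (φ g : Mt d)) ≤ 4 * B := by
  rw [hs_comm_eq' (un_conj (φ g)), hs_sub_comm]
  have e : (φ g : Mt d) * PW φ W * (φ g : Mt d)ᴴ - PW φ W =
      ((Fintype.card Q : ℂ)⁻¹) • ∑ v, (((φ g : Mt d) * (φ v : Mt d)) * W *
        ((φ g : Mt d) * (φ v : Mt d))ᴴ - (φ (g * v) : Mt d) * W * (φ (g * v) : Mt d)ᴴ) := by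
    rw [sum_sub_distrib, smul_sub, PW, Matrix.mul_smul, Matrix.smul_mul, Matrix.mul_sum,
      Matrix.sum_mul]
    congr 1
    · congr 1
      refine sum_congr rfl fun v _ => ?_
      rw [Matrix.conjTranspose_mul]
      simp only [Matrix.mul_assoc]
    · congr 1
      exact (Fintype.sum_equiv (Equiv.mulLeft g) _ _ fun v => rfl).symm
  rw [e]
  refine hs_avg_le _ fun v => ?_
  refine (conj_near ?_ (un_conj _) hW).trans ?_
  · have := un_conj (φ g * φ v)
    rwa [UnitaryGroup.mul_val] at this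
  · have := h g v
    linarith

end PW

/-- the design identity -/
theorem design {Q J : Type} [Group Q] [Fintype Q] [Group J] [Fintype J] {d : ℕ}
    (φ : Q → unitaryGroup (Fin d) ℂ) (u : J →* unitaryGroup (Fin d) ℂ) (hd : 0 < d)
    (h : ∀ x : Mt d, x ∈ Submodule.span ℂ (Set.range fun j => (u j : Mt d))) (z : Mt d) :
    ((Fintype.card J : ℂ)⁻¹) • ∑ q, PW φ (u q : Mt d)ᴴ * z * (u q : Mt d) =
      ((Fintype.card Q : ℂ)⁻¹) • ∑ v, ntr ((φ v : Mt d)ᴴ * z) • (φ v : Mt d) := by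
  have h1 : ∀ v, ntr ((φ v : Mt d)ᴴ * z) • (φ v : Mt d) =
      (φ v : Mt d) * Eav u ((φ v : Mt d)ᴴ * z) := by
    intro v
    rw [Eav_full u hd h, Matrix.mul_smul, Matrix.mul_one]
  rw [sum_congr rfl fun v _ => h1 v]
  simp only [PW, Eav, Matrix.smul_mul, Matrix.mul_smul, Matrix.sum_mul, Matrix.mul_sum, smul_sum]
  rw [sum_comm]
  refine sum_congr rfl fun v _ => sum_congr rfl fun q _ => ?_
  rw [smul_comm]
  simp only [Matrix.mul_assoc]

theorem hs_le_of_contr {d : ℕ} {y : Mt d} (hy : Le (yᴴ * y) 1) : hs y ≤ d := by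
  rw [hs_eq_tr, ← tr_one]
  exact Le_tr hy

theorem ntr_near {J : Type} [Group J] [Fintype J] {d : ℕ} (V : J →* unitaryGroup (Fin d) ℂ)
    {B : ℝ} (hd : 0 < d) (U : unitaryGroup (Fin d) ℂ)
    (h : ∀ j, hs ((V j : Mt d) * (U : Mt d) - (U : Mt d) * (V j : Mt d)) ≤ B * d)
    {y : Mt d} (hy : Le (yᴴ * y) 1) :
    ‖ntr ((U : Mt d)ᴴ * Eav V y) - ntr ((U : Mt d)ᴴ * y)‖ ^ 2 ≤ B := by
  have hd' : (0 : ℝ) < d := by exact_mod_cast hd
  have hc : (Fintype.card J : ℂ) ≠ 0 := by exact_mod_cast Fintype.card_ne_zero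
  set Z : Mt d := ((Fintype.card J : ℂ)⁻¹) • ∑ j, ((V j : Mt d) * (U : Mt d)ᴴ * (V j : Mt d)ᴴ -
    (U : Mt d)ᴴ) with hZ
  have h1 : hs Z ≤ B * d := by
    refine hs_avg_le _ fun j => ?_
    rw [hs_sub_comm, ← hs_comm_eq' (un_conj (V j)), hs_comm_conj (un_conj (V j))]
    exact h j
  have h2 : Matrix.trace ((U : Mt d)ᴴ * Eav V y) - Matrix.trace ((U : Mt d)ᴴ * y) =
      Matrix.trace (Z * y) := by
    have e1 : ∀ j, Matrix.trace ((U : Mt d)ᴴ * ((V j : Mt d)ᴴ * y * (V j : Mt d))) =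
        Matrix.trace ((V j : Mt d) * (U : Mt d)ᴴ * (V j : Mt d)ᴴ * y) := by
      intro j
      rw [← Matrix.mul_assoc, Matrix.trace_mul_comm]
      simp only [Matrix.mul_assoc]
    rw [Eav, hZ, sum_sub_distrib, smul_sub, sum_const, card_univ, ← Nat.cast_smul_eq_nsmul ℂ,
      smul_smul, inv_mul_cancel₀ hc, one_smul, Matrix.sub_mul, Matrix.trace_sub,
      Matrix.mul_smul, Matrix.mul_sum, Matrix.smul_mul, Matrix.sum_mul, Matrix.trace_smul,
      Matrix.trace_smul, Matrix.trace_sum, Matrix.trace_sum, sum_congr rfl fun j _ => e1 j]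
  have h3 : ‖Matrix.trace (Z * y)‖ ≤ √(hs Z) * √(hs y) := by
    have := norm_trace_le Zᴴ y
    rwa [Matrix.conjTranspose_conjTranspose, hs_conjTranspose] at this
  have h4 : ‖Matrix.trace (Z * y)‖ ^ 2 ≤ (B * d) * d := by
    calc ‖Matrix.trace (Z * y)‖ ^ 2 ≤ (√(hs Z) * √(hs y)) ^ 2 := by
          gcongr
      _ = hs Z * hs y := by
          rw [mul_pow, Real.sq_sqrt (hs_nonneg _), Real.sq_sqrt (hs_nonneg _)]
      _ ≤ (B * d) * d := by
          have h5 := hs_le_of_contr hy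
          have h6 := hs_nonneg y
          have h7 := hs_nonneg Z
          calc hs Z * hs y ≤ hs Z * d := mul_le_mul_of_nonneg_left h5 h7
            _ ≤ (B * d) * d := mul_le_mul_of_nonneg_right h1 hd'.le
  have e : ntr ((U : Mt d)ᴴ * Eav V y) - ntr ((U : Mt d)ᴴ * y) = Matrix.trace (Z * y) / d := by
    rw [ntr, ntr, ← sub_div, h2]
  rw [e, norm_div, Complex.norm_natCast, div_pow, div_le_iff₀ (by positivity)]
  calc _ ≤ (B * d) * d := h4
    _ = B * (d : ℝ) ^ 2 := by ring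

/-! ### The theorem -/

theorem main (h : S_FING) : S_KEY := by
  classical
  intro Q _ _ η hη
  obtain ⟨k, hk⟩ : ∃ k : ℕ, k = Fintype.card Q := ⟨_, rfl⟩
  obtain ⟨e⟩ : Nonempty (Fin k ≃ Q) := ⟨(Fintype.equivFinOfCardEq hk.symm).symm⟩
  set γ : FreeGroup (Fin k) →* Q := FreeGroup.lift e with hγdef
  have hγ : Function.Surjective γ := fun q =>
    ⟨FreeGroup.of (e.symm q), by rw [hγdef, FreeGroup.lift_apply_of, e.apply_symm_apply]⟩
  obtain ⟨K0, hK0, hblk⟩ := Pool.Agent.N52.NH.BLK.main Q k γ (hasT_fin Q) hγ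
  have hk1 : 1 ≤ k := by rw [hk]; exact Fintype.card_pos
  have hkr : (1 : ℝ) ≤ k := by exact_mod_cast hk1
  set ε : ℝ := η / (100 * (k : ℝ) ^ 2) with hε
  have hε0 : 0 < ε := by positivity
  have hεη : ε * (100 * (k : ℝ) ^ 2) = η := by rw [hε]; field_simp
  have hεη' : 10 * ε ≤ η := by
    rw [← hεη]
    have h1 : (1 : ℝ) ≤ (k : ℝ) ^ 2 := one_le_pow₀ hkr
    have h2 := mul_le_mul_of_nonneg_left h1 hε0.le
    linarith
  obtain ⟨R, δ0, hR, hδ0, hblk⟩ := hblk ε hε0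
  choose C hC hw using word_near γ
  have hM : 0 ≤ ∑ w ∈ R, C w := sum_nonneg fun w _ => hC w
  set M : ℝ := ∑ w ∈ R, C w with hMdef
  refine ⟨min (δ0 / (2 * M + 2)) (ε / (4 * K0 * k)), lt_min (by positivity) (by positivity), ?_⟩
  intro d φ hd hφ
  have hd' : (0 : ℝ) < d := by exact_mod_cast hd
  set δ : ℝ := min (δ0 / (2 * M + 2)) (ε / (4 * K0 * k)) with hδ
  have hδpos : 0 < δ := lt_min (by positivity) (by positivity)
  have hδ1 : δ * (2 * M + 2) ≤ δ0 := by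
    have := min_le_left (δ0 / (2 * M + 2)) (ε / (4 * K0 * k))
    rwa [← hδ, le_div_iff₀ (by positivity)] at this
  have hδ2 : δ * (4 * K0 * k) ≤ ε := by
    have := min_le_right (δ0 / (2 * M + 2)) (ε / (4 * K0 * k))
    rwa [← hδ, le_div_iff₀ (by positivity)] at this
  set U : Fin k → unitaryGroup (Fin d) ℂ := fun s => φ (γ (FreeGroup.of s)) with hU
  have hUe : ∀ s, U s = φ (e s) := fun s => by rw [hU, hγdef]; simp only [FreeGroup.lift_apply_of]
  have h1 : ∀ w ∈ R, hs ((FreeGroup.lift U w : Mt d) - 1) ≤ δ0 * d := by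
    intro w hwR
    have h2 := hw w d φ (δ * d) (by positivity) hφ
    rw [hR w hwR] at h2
    have h3 := phi_one hφ
    have e1 : (FreeGroup.lift U w : Mt d) - 1 = ((FreeGroup.lift U w : Mt d) - (φ 1 : Mt d)) +
        ((φ 1 : Mt d) - 1) := by abel
    have h4 : C w ≤ M := single_le_sum (f := C) (fun i _ => hC i) hwR
    rw [e1]
    refine (hs_add_le _ _).trans ?_
    have h5 : C w * (δ * d) ≤ M * (δ * d) := mul_le_mul_of_nonneg_right h4 (by positivity)
    have h6 : δ * (2 * M + 2) * d ≤ δ0 * d := mul_le_mul_of_nonneg_right hδ1 hd'.le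
    linarith
  obtain ⟨O, hO⟩ := hblk d U hd h1
  obtain ⟨D, hD1, hD2⟩ := exists_D O
  obtain ⟨J, iJ, fJ, V, hV1, hV2⟩ := fing_mt h d D
  obtain ⟨J', iJ', fJ', u, -, hu2⟩ := fing_mt h d ⊤
  have hVφ : ∀ j v, hs ((V j : Mt d) * (φ v : Mt d) - (φ v : Mt d) * (V j : Mt d)) ≤
      10 * (ε * d) := by
    intro j v
    have h2 := comm_small (fun s => un_conj (U s)) hO (un_conj (V j)) (hD2 _ (hV1 j)) (e.symm v)
    simpa only [hUe, e.apply_symm_apply] using h2
  refine ⟨J, iJ, fJ, V, fun j v => (hVφ j v).trans ?_, fun y hy => ?_⟩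
  · calc 10 * (ε * d) = 10 * ε * d := by ring
      _ ≤ η * d := mul_le_mul_of_nonneg_right hεη' hd'.le
  -- the main estimate
  have hcomm : ∀ q, hs (Eav V y * PW φ (u q : Mt d)ᴴ - PW φ (u q : Mt d)ᴴ * Eav V y) ≤
      8 * (ε * d) := by
    intro q
    have hP := PW_contr φ (Le_unit_adj (u q))
    obtain ⟨a, ha, -, ha2⟩ := hO.near _ hP
    have h3 : Pool.Agent.W661.RC.en (fun s => (U s : Mt d)) (PW φ (u q : Mt d)ᴴ) ≤
        k * (4 * (δ * d)) := by
      have h4 : ∀ s ∈ (univ : Finset (Fin k)), hs ((U s : Mt d) * PW φ (u q : Mt d)ᴴ -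
          PW φ (u q : Mt d)ᴴ * (U s : Mt d)) ≤ 4 * (δ * d) := by
        intro s _
        rw [hUe]
        exact PW_comm φ hφ (Le_unit_adj (u q)) (e s)
      refine (sum_le_sum h4).trans ?_
      rw [sum_const, card_univ, Fintype.card_fin, nsmul_eq_mul]
    have h5 : hs (PW φ (u q : Mt d)ᴴ - a) ≤ 2 * (ε * d) := by
      have h6 : K0 * (k * (4 * (δ * d))) ≤ ε * d := by
        calc K0 * (k * (4 * (δ * d))) = δ * (4 * K0 * k) * d := by ring
          _ ≤ ε * d := mul_le_mul_of_nonneg_right hδ2 hd'.le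
      have h7 := mul_le_mul_of_nonneg_left h3 hK0.le
      linarith
    have h6 := Eav_comm_span V y (hV2 a (hD1 a ha))
    have e1 : Eav V y * PW φ (u q : Mt d)ᴴ - PW φ (u q : Mt d)ᴴ * Eav V y =
        Eav V y * (PW φ (u q : Mt d)ᴴ - a) - (PW φ (u q : Mt d)ᴴ - a) * Eav V y := by
      rw [Matrix.mul_sub, Matrix.sub_mul, h6]
      abel
    rw [e1]
    refine (hs_sub_le _ _).trans ?_
    have h8 := hs_mul_le (Eav_contr V hy) (PW φ (u q : Mt d)ᴴ - a)
    have h9 := hs_mul_le_right (Eav_contr V hy) (PW φ (u q : Mt d)ᴴ - a)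
    linarith
  have hcard : (Fintype.card Q : ℂ) ≠ 0 := by exact_mod_cast Fintype.card_ne_zero
  -- the first part
  have hX1 : hs (Eav V y * (∑ v, ntr (φ v : Mt d)ᴴ • (φ v : Mt d)) -
      ∑ v, ntr ((φ v : Mt d)ᴴ * Eav V y) • (φ v : Mt d)) ≤ (k : ℝ) ^ 2 * (8 * (ε * d)) := by
    have h2 := design φ u hd (fun x => hu2 x (StarSubalgebra.mem_top)) (1 : Mt d)
    have h3 := design φ u hd (fun x => hu2 x (StarSubalgebra.mem_top)) (Eav V y)
    simp only [Matrix.mul_one] at h2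
    have e1 : Eav V y * (∑ v, ntr (φ v : Mt d)ᴴ • (φ v : Mt d)) -
        ∑ v, ntr ((φ v : Mt d)ᴴ * Eav V y) • (φ v : Mt d) =
        (Fintype.card Q : ℂ) • (((Fintype.card J' : ℂ)⁻¹) • ∑ q,
          (Eav V y * PW φ (u q : Mt d)ᴴ - PW φ (u q : Mt d)ᴴ * Eav V y) * (u q : Mt d)) := by
      have e2 : ∑ q, (Eav V y * PW φ (u q : Mt d)ᴴ - PW φ (u q : Mt d)ᴴ * Eav V y) *
          (u q : Mt d) = Eav V y * (∑ q, PW φ (u q : Mt d)ᴴ * (u q : Mt d)) -
            ∑ q, PW φ (u q : Mt d)ᴴ * Eav V y * (u q : Mt d) := by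
        rw [Matrix.mul_sum, ← sum_sub_distrib]
        refine sum_congr rfl fun q _ => ?_
        rw [Matrix.sub_mul, Matrix.mul_assoc]
      rw [e2, smul_sub, ← Matrix.mul_smul, h2, h3, smul_sub, Matrix.mul_smul, smul_smul, smul_smul,
        mul_inv_cancel₀ hcard, one_smul, one_smul]
    rw [e1, hs_smul, Complex.norm_natCast, ← hk]
    refine mul_le_mul_of_nonneg_left (hs_avg_le _ fun q => ?_) (by positivity)
    rw [hs_mul_unit (un_conj (u q))]
    exact hcomm q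
  -- the second part
  have hX2 : hs (∑ v, ntr ((φ v : Mt d)ᴴ * Eav V y) • (φ v : Mt d) -
      ∑ v, ntr ((φ v : Mt d)ᴴ * y) • (φ v : Mt d)) ≤ (k : ℝ) ^ 2 * (10 * ε * d) := by
    rw [← sum_sub_distrib]
    refine (hs_sum_le _ _).trans ?_
    rw [card_univ, ← hk]
    have h2 : ∀ v ∈ (univ : Finset Q), hs (ntr ((φ v : Mt d)ᴴ * Eav V y) • (φ v : Mt d) -
        ntr ((φ v : Mt d)ᴴ * y) • (φ v : Mt d)) ≤ 10 * ε * d := by
      intro v _
      rw [← sub_smul, hs_smul]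
      have h3 := ntr_near V hd (φ v) (B := 10 * ε) (fun j => (hVφ j v).trans (le_of_eq (by ring)))
        hy
      have h4 : hs (φ v : Mt d) ≤ d := hs_le_of_contr (Le_unitary (un_conj (φ v)))
      calc _ ≤ 10 * ε * hs (φ v : Mt d) := mul_le_mul_of_nonneg_right h3 (hs_nonneg _)
        _ ≤ 10 * ε * d := mul_le_mul_of_nonneg_left h4 (by positivity)
    have h3 := sum_le_sum h2
    rw [sum_const, card_univ, ← hk, nsmul_eq_mul] at h3
    calc _ ≤ (k : ℝ) * (k * (10 * ε * d)) := mul_le_mul_of_nonneg_left h3 (by positivity)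
      _ = _ := by ring
  have e1 : Eav V y * (∑ v, ntr (φ v : Mt d)ᴴ • (φ v : Mt d)) -
      ∑ v, ntr ((φ v : Mt d)ᴴ * y) • (φ v : Mt d) =
      (Eav V y * (∑ v, ntr (φ v : Mt d)ᴴ • (φ v : Mt d)) -
        ∑ v, ntr ((φ v : Mt d)ᴴ * Eav V y) • (φ v : Mt d)) +
      (∑ v, ntr ((φ v : Mt d)ᴴ * Eav V y) • (φ v : Mt d) -
        ∑ v, ntr ((φ v : Mt d)ᴴ * y) • (φ v : Mt d)) := by abel
  rw [e1]
  refine (hs_add_le _ _).trans ?_
  calc 2 * _ + 2 * _ ≤ 2 * ((k : ℝ) ^ 2 * (8 * (ε * d))) + 2 * ((k : ℝ) ^ 2 * (10 * ε * d)) := by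
        linarith
    _ = 36 / 100 * (ε * (100 * (k : ℝ) ^ 2)) * d := by ring
    _ = 36 / 100 * η * d := by rw [hεη]
    _ ≤ η * d := by
        refine mul_le_mul_of_nonneg_right ?_ hd'.le
        linarith

end

end Pool.Agent.H71RE.Key

namespace Pool.Agent.H71RE

/-- **KEY** -/
theorem key (h : S_FING) : S_KEY := Key.main h

end Pool.Agent.H71RE
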