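import Pool.Agent.H71RE.Stm
import Pool.Agent.N303.KQ.Pol

/-!
# Project RE (MP_56a53b_an), piece LEV: from weights to the normalised trace
-/

set_option autoImplicit false

open scoped InnerProductSpace ComplexOrder Kronecker
open Matrix Finset

namespace Pool.Agent.H71RE

open Pool.Agent.W661.RC Pool.Agent.W683.RC

noncomputable section

namespace Lev

/-! ### Compression to a coordinate subspace -/

section comp

variable {κ : Type} [Fintype κ] [DecidableEq κ] (P : κ → Prop) [DecidablePred P]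

/-- inclusion of the coordinate subspace -/
def J : Matrix κ {p // P p} ℂ := Matrix.of fun p y => if p = y.1 then 1 else 0

theorem J_conj_mul {l : Type} (X : Matrix κ l ℂ) : (J P)ᴴ * X = X.submatrix Subtype.val id := by
  ext y b
  rw [mul_apply, Finset.sum_eq_single y.1]
  · simp [J]
  · intro p _ hp
    simp [J, hp]
  · simp

theorem mul_J {l : Type} (X : Matrix l κ ℂ) : X * J P = X.submatrix id Subtype.val := by
  ext b y
  rw [mul_apply, Finset.sum_eq_single y.1]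
  · simp [J]
  · intro p _ hp
    simp [J, hp]
  · simp

theorem J_isom : (J P)ᴴ * J P = 1 := by
  rw [J_conj_mul]
  ext y y'
  simp [J, Matrix.one_apply, Subtype.ext_iff]

theorem JJ_le : Le (J P * (J P)ᴴ) 1 :=
  contr_conj (by rw [J_isom]; exact Le_refl _)

/-- the compression -/
def T (X : Matrix κ κ ℂ) : Matrix {p // P p} {p // P p} ℂ := (J P)ᴴ * X * J P

theorem T_apply (X : Matrix κ κ ℂ) (y y' : {p // P p}) : T P X y y' = X y.1 y'.1 := by
  rw [T, mul_J, J_conj_mul]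
  rfl

/-- the loss -/
def E (X : Matrix κ κ ℂ) : ℝ := hs (X * J P) - hs (T P X)

theorem hs_compl_mul {l : Type} [Fintype l] (Z : Matrix κ l ℂ) :
    hs ((1 - J P * (J P)ᴴ) * Z) = hs Z - hs ((J P)ᴴ * Z) := by
  have hJ := J_isom P
  have hp : (J P * (J P)ᴴ) * (J P * (J P)ᴴ) = J P * (J P)ᴴ := by
    rw [Matrix.mul_assoc, ← Matrix.mul_assoc (J P)ᴴ, hJ, Matrix.one_mul]
  have hh : (J P * (J P)ᴴ)ᴴ = J P * (J P)ᴴ := by
    rw [conjTranspose_mul, conjTranspose_conjTranspose]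
  rw [hs_eq_tr, hs_eq_tr, hs_eq_tr, conjTranspose_mul, conjTranspose_mul,
    conjTranspose_conjTranspose, ← tr_sub, conjTranspose_sub, hh, conjTranspose_one]
  congr 1
  have e1 : (1 - J P * (J P)ᴴ) * (1 - J P * (J P)ᴴ) = 1 - J P * (J P)ᴴ := by
    rw [Matrix.mul_sub, Matrix.sub_mul, Matrix.sub_mul, hp]
    simp
  calc Zᴴ * (1 - J P * (J P)ᴴ) * ((1 - J P * (J P)ᴴ) * Z)
      = Zᴴ * ((1 - J P * (J P)ᴴ) * (1 - J P * (J P)ᴴ)) * Z := by simp only [Matrix.mul_assoc]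
    _ = Zᴴ * (1 - J P * (J P)ᴴ) * Z := by rw [e1]
    _ = Zᴴ * Z - Zᴴ * J P * ((J P)ᴴ * Z) := by
        rw [Matrix.mul_sub, Matrix.mul_one, Matrix.sub_mul]
        simp only [Matrix.mul_assoc]

theorem E_eq (X : Matrix κ κ ℂ) : E P X = hs ((1 - J P * (J P)ᴴ) * (X * J P)) := by
  rw [hs_compl_mul, E, T, Matrix.mul_assoc]

theorem T_contr {X : Matrix κ κ ℂ} (hX : Xᴴ * X = 1) : Le ((T P X)ᴴ * T P X) 1 := by
  have h1 : (T P X)ᴴ * T P X = (X * J P)ᴴ * (J P * (J P)ᴴ) * (X * J P) := by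
    rw [T, conjTranspose_mul, conjTranspose_mul, conjTranspose_mul, conjTranspose_conjTranspose]
    simp only [Matrix.mul_assoc]
  have h2 : (1 : Matrix {p // P p} {p // P p} ℂ) = (X * J P)ᴴ * (1 : Matrix κ κ ℂ) * (X * J P) := by
    rw [conjTranspose_mul, Matrix.mul_one, Matrix.mul_assoc, ← Matrix.mul_assoc Xᴴ, hX,
      Matrix.one_mul, J_isom]
  rw [h1]
  conv_rhs => rw [h2]
  exact Le_conj (JJ_le P) _

theorem hs_XJ {X : Matrix κ κ ℂ} (hX : Xᴴ * X = 1) :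
    hs (X * J P) = hs (1 : Matrix {p // P p} {p // P p} ℂ) := by
  rw [hs_unit_mul hX, hs_eq_tr, J_isom, hs_eq_tr, conjTranspose_one, Matrix.one_mul]

/-- the unitary part -/
theorem exists_W {X : Matrix κ κ ℂ} (hX : Xᴴ * X = 1) :
    ∃ W : unitaryGroup {p // P p} ℂ, hs (T P X - W.1) ≤ E P X := by
  obtain ⟨u, hu⟩ := Pool.Agent.N303.KQ.exists_unitary_weights (T P X) (T_contr P hX)
  refine ⟨u, ?_⟩
  have h1 := (hu 1).1
  rw [Matrix.mul_one, Matrix.mul_one] at h1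
  rw [E, hs_XJ P hX]
  exact h1

/-- the compression is almost multiplicative -/
theorem hs_T_mul {X X' : Matrix κ κ ℂ} (hX : Xᴴ * X = 1) :
    hs (T P (X * X') - T P X * T P X') ≤ E P X' := by
  have h1 : T P (X * X') - T P X * T P X' =
      ((J P)ᴴ * X) * ((1 - J P * (J P)ᴴ) * (X' * J P)) := by
    rw [T, T, T, Matrix.sub_mul, Matrix.mul_sub, Matrix.one_mul]
    simp only [Matrix.mul_assoc]
  rw [h1, E_eq]
  refine hs_mul_le ?_ _
  have h2 : ((J P)ᴴ * X)ᴴ * ((J P)ᴴ * X) = Xᴴ * (J P * (J P)ᴴ) * X := by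
    rw [conjTranspose_mul, conjTranspose_conjTranspose]
    simp only [Matrix.mul_assoc]
  have h3 : (1 : Matrix κ κ ℂ) = Xᴴ * (1 : Matrix κ κ ℂ) * X := by rw [Matrix.mul_one, hX]
  rw [h2]
  conv_rhs => rw [h3]
  exact Le_conj (JJ_le P) _

theorem hs_T_le (X : Matrix κ κ ℂ) : hs (T P X) ≤ hs (X * J P) := by
  have h1 := E_eq P X
  have h2 := hs_nonneg ((1 - J P * (J P)ᴴ) * (X * J P))
  rw [← h1, E] at h2
  linarith

theorem T_sub (X Y : Matrix κ κ ℂ) : T P (X - Y) = T P X - T P Y := by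
  rw [T, T, T, Matrix.mul_sub, Matrix.sub_mul]

/-- five terms -/
theorem hs_add5_le {m n : Type} [Fintype m] [Fintype n] (a b c d e : Matrix m n ℂ) :
    hs (a + b + c + d + e) ≤ 5 * (hs a + hs b + hs c + hs d + hs e) := by
  have h1 : ‖vc (a + b + c + d + e)‖ ≤ ‖vc a‖ + ‖vc b‖ + ‖vc c‖ + ‖vc d‖ + ‖vc e‖ := by
    rw [vc_add, vc_add, vc_add, vc_add]
    refine (norm_add_le _ _).trans ?_
    gcongr
    refine (norm_add_le _ _).trans ?_
    gcongr
    exact norm_add₃_le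
  simp only [hs_eq_norm]
  have h0 := norm_nonneg (vc (a + b + c + d + e))
  have h2 : ‖vc (a + b + c + d + e)‖ ^ 2 ≤ (‖vc a‖ + ‖vc b‖ + ‖vc c‖ + ‖vc d‖ + ‖vc e‖) ^ 2 :=
    pow_le_pow_left₀ h0 h1 2
  nlinarith [sq_nonneg (‖vc a‖ - ‖vc b‖), sq_nonneg (‖vc a‖ - ‖vc c‖), sq_nonneg (‖vc a‖ - ‖vc d‖),
    sq_nonneg (‖vc a‖ - ‖vc e‖), sq_nonneg (‖vc b‖ - ‖vc c‖), sq_nonneg (‖vc b‖ - ‖vc d‖),
    sq_nonneg (‖vc b‖ - ‖vc e‖), sq_nonneg (‖vc c‖ - ‖vc d‖), sq_nonneg (‖vc c‖ - ‖vc e‖),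
    sq_nonneg (‖vc d‖ - ‖vc e‖)]

/-- the unitary parts are almost multiplicative -/
theorem hs_W_mul {X X' X'' : Matrix κ κ ℂ} (hX : Xᴴ * X = 1) (hX' : X'ᴴ * X' = 1)
    {q : ℝ} (h1 : E P X ≤ q) (h2 : E P X' ≤ q) (h3 : E P X'' ≤ q)
    {W W' W'' : unitaryGroup {p // P p} ℂ} (hW : hs (T P X - W.1) ≤ E P X)
    (hW' : hs (T P X' - W'.1) ≤ E P X') (hW'' : hs (T P X'' - W''.1) ≤ E P X'') :
    hs (W''.1 - W.1 * W'.1) ≤ 5 * (4 * q + hs ((X'' - X * X') * J P)) := by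
  have e1 : W''.1 - W.1 * W'.1 = (W''.1 - T P X'') + T P (X'' - X * X') +
      (T P (X * X') - T P X * T P X') + (T P X - W.1) * T P X' + W.1 * (T P X' - W'.1) := by
    rw [T_sub, Matrix.sub_mul, Matrix.mul_sub]
    abel
  rw [e1]
  refine (hs_add5_le _ _ _ _ _).trans ?_
  have f1 : hs (W''.1 - T P X'') ≤ q := by
    rw [hs_sub_comm]
    exact hW''.trans h3
  have f2 : hs (T P (X'' - X * X')) ≤ hs ((X'' - X * X') * J P) := hs_T_le P _
  have f3 : hs (T P (X * X') - T P X * T P X') ≤ q := (hs_T_mul P hX).trans h2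
  have f4 : hs ((T P X - W.1) * T P X') ≤ q :=
    (hs_mul_le_right (T_contr P hX') _).trans (hW.trans h1)
  have f5 : hs (W.1 * (T P X' - W'.1)) ≤ q := by
    rw [hs_unit_mul (Pool.Agent.H80R2.HG.PSAux.uh W)]
    exact hW'.trans h2
  linarith

end comp

/-! ### The product with a large matrix algebra -/

section kr

variable {n M : ℕ} (N : Fin n → ℕ)

/-- the coordinate subspace -/
abbrev PP (M : ℕ) (N : Fin n → ℕ) : Fin n × Fin M → Prop := fun p => (p.2 : ℕ) < N p.1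

/-- the big matrix -/
def X (M : ℕ) (x : Mt n) : Matrix (Fin n × Fin M) (Fin n × Fin M) ℂ :=
  x ⊗ₖ (1 : Matrix (Fin M) (Fin M) ℂ)

theorem X_sq (x : Mt n) (p q : Fin n × Fin M) :
    ‖X M x p q‖ ^ 2 = if p.2 = q.2 then ‖x p.1 q.1‖ ^ 2 else 0 := by
  rw [X, kroneckerMap_apply, Matrix.one_apply]
  split_ifs <;> simp

theorem X_mul (x y : Mt n) : X M (x * y) = X M x * X M y := by
  rw [X, X, X, ← Matrix.mul_kronecker_mul, Matrix.one_mul]

theorem X_sub (x y : Mt n) : X M (x - y) = X M x - X M y := by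
  ext p q
  simp only [X, kroneckerMap_apply, Matrix.sub_apply]
  ring

theorem X_isom {x : Mt n} (hx : xᴴ * x = 1) : (X M x)ᴴ * X M x = 1 := by
  rw [X, conjTranspose_kronecker, ← Matrix.mul_kronecker_mul, hx, conjTranspose_one,
    Matrix.one_mul, Matrix.one_kronecker_one]

theorem sum_sub (f : Fin n × Fin M → ℝ) :
    ∑ q : {q // PP M N q}, f q.1 = ∑ q, if PP M N q then f q else 0 := by
  rw [← Finset.sum_filter]
  exact (Finset.sum_subtype (univ.filter (PP M N)) (by simp) f).symm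

theorem card_lt {k : ℕ} (hk : k ≤ M) : (∑ j : Fin M, if (j : ℕ) < k then (1 : ℝ) else 0) = k := by
  rw [← Finset.sum_filter, sum_const, nsmul_eq_mul, mul_one]
  congr 1
  rw [Fin.card_filter_val_lt]
  exact min_eq_right hk

theorem hs_XJ_eq (hN : ∀ i, N i ≤ M) (y : Mt n) :
    hs (X M y * J (PP M N)) = ∑ i, ∑ i', ‖y i i'‖ ^ 2 * N i' := by
  rw [mul_J, hs]
  simp only [Matrix.submatrix_apply, id]
  rw [Fintype.sum_prod_type]
  refine sum_congr rfl fun i _ => ?_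
  have h1 : ∀ j : Fin M, ∑ q : {q // PP M N q}, ‖X M y (i, j) q.1‖ ^ 2 =
      ∑ i', ‖y i i'‖ ^ 2 * (if (j : ℕ) < N i' then (1 : ℝ) else 0) := by
    intro j
    rw [sum_sub N (fun q => ‖X M y (i, j) q‖ ^ 2), Fintype.sum_prod_type]
    refine sum_congr rfl fun i' _ => ?_
    rw [Finset.sum_eq_single j]
    · rw [X_sq]
      simp [PP]
    · intro j' _ hj
      rw [X_sq, if_neg (Ne.symm hj), ite_self]
    · simp
  simp only [h1]
  rw [sum_comm]
  refine sum_congr rfl fun i' _ => ?_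
  rw [← mul_sum, card_lt (hN i')]

theorem hs_T_eq (hN : ∀ i, N i ≤ M) (y : Mt n) :
    hs (T (PP M N) (X M y)) = ∑ i, ∑ i', ‖y i i'‖ ^ 2 * (min (N i) (N i') : ℕ) := by
  rw [hs]
  simp only [T_apply]
  rw [sum_sub N (fun p => ∑ q : {q // PP M N q}, ‖X M y p q.1‖ ^ 2), Fintype.sum_prod_type]
  refine sum_congr rfl fun i _ => ?_
  have h1 : ∀ j : Fin M, (if PP M N (i, j) then
      ∑ q : {q // PP M N q}, ‖X M y (i, j) q.1‖ ^ 2 else 0) =
      ∑ i', ‖y i i'‖ ^ 2 * (if (j : ℕ) < min (N i) (N i') then (1 : ℝ) else 0) := by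
    intro j
    rw [sum_sub N (fun q => ‖X M y (i, j) q‖ ^ 2), Fintype.sum_prod_type]
    by_cases hij : (j : ℕ) < N i
    · rw [if_pos (show PP M N (i, j) from hij)]
      refine sum_congr rfl fun i' _ => ?_
      rw [Finset.sum_eq_single j]
      · rw [X_sq]
        simp [PP, hij]
      · intro j' _ hj
        rw [X_sq, if_neg (Ne.symm hj), ite_self]
      · simp
    · rw [if_neg (show ¬PP M N (i, j) from hij)]
      symm
      refine sum_eq_zero fun i' _ => ?_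
      rw [if_neg, mul_zero]
      intro h
      exact hij (lt_of_lt_of_le h (min_le_left _ _))
  simp only [h1]
  rw [sum_comm]
  refine sum_congr rfl fun i' _ => ?_
  rw [← mul_sum, card_lt ((min_le_left _ _).trans (hN i))]

theorem E_le (hN : ∀ i, N i ≤ M) (y : Mt n) :
    E (PP M N) (X M y) ≤ ∑ i, ∑ i', ‖y i i'‖ ^ 2 * |(N i : ℝ) - N i'| := by
  rw [E, hs_XJ_eq N hN, hs_T_eq N hN, ← sum_sub_distrib]
  refine sum_le_sum fun i _ => ?_
  rw [← sum_sub_distrib]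
  refine sum_le_sum fun i' _ => ?_
  rw [← mul_sub]
  refine mul_le_mul_of_nonneg_left ?_ (by positivity)
  rcases le_total (N i) (N i') with h | h
  · rw [min_eq_left h, abs_sub_comm]
    exact le_abs_self _
  · rw [min_eq_right h, sub_self]
    exact abs_nonneg _

theorem trace_T (hN : ∀ i, N i ≤ M) (y : Mt n) :
    trace (T (PP M N) (X M y)) = ∑ i, (N i : ℂ) * y i i := by
  rw [trace]
  simp only [diag_apply, T_apply]
  have h0 : ∀ f : Fin n × Fin M → ℂ, ∑ q : {q // PP M N q}, f q.1 =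
      ∑ q, if PP M N q then f q else 0 := by
    intro f
    rw [← Finset.sum_filter]
    exact (Finset.sum_subtype (univ.filter (PP M N)) (by simp) f).symm
  rw [h0 (fun q => X M y q q), Fintype.sum_prod_type]
  refine sum_congr rfl fun i _ => ?_
  have h1 : ∀ j : Fin M, (if PP M N (i, j) then X M y (i, j) (i, j) else 0) =
      (if (j : ℕ) < N i then (1 : ℂ) else 0) * y i i := by
    intro j
    simp [PP, X]
  simp only [h1]
  rw [← sum_mul]
  congr 1
  have h2 := card_lt (hN i)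
  have h3 := congrArg (fun r : ℝ => (r : ℂ)) h2
  push_cast at h3
  rw [← h3]
  refine sum_congr rfl fun j _ => ?_
  split_ifs <;> simp

theorem card_PP (hN : ∀ i, N i ≤ M) : (Fintype.card {q // PP M N q} : ℝ) = ∑ i, (N i : ℝ) := by
  have h1 : (Fintype.card {q // PP M N q} : ℝ) = ∑ q : {q // PP M N q}, (fun _ => (1 : ℝ)) q.1 := by
    simp
  rw [h1, sum_sub N (fun _ => (1 : ℝ)), Fintype.sum_prod_type]
  exact sum_congr rfl fun i _ => card_lt (hN i)

end kr

/-! ### Weights -/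

section wt

variable {n : ℕ} (f : Fin n → ℝ)

/-- the commutator with the weight -/
def dis (x : Mt n) : ℝ := ∑ i, ∑ i', ‖x i i'‖ ^ 2 * (f i - f i') ^ 2

theorem rows {x : Mt n} (hx : x * xᴴ = 1) (i : Fin n) : ∑ i', ‖x i i'‖ ^ 2 = 1 := by
  have h1 := congrFun (congrFun hx i) i
  rw [mul_apply, Matrix.one_apply_eq] at h1
  have h2 : ((∑ i', ‖x i i'‖ ^ 2 : ℝ) : ℂ) = 1 := by
    rw [← h1]
    push_cast
    refine sum_congr rfl fun j _ => ?_
    rw [conjTranspose_apply, Complex.star_def, Complex.mul_conj']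
  exact_mod_cast h2

theorem cols {x : Mt n} (hx : xᴴ * x = 1) (i' : Fin n) : ∑ i, ‖x i i'‖ ^ 2 = 1 := by
  have h1 := congrFun (congrFun hx i') i'
  rw [mul_apply, Matrix.one_apply_eq] at h1
  have h2 : ((∑ i, ‖x i i'‖ ^ 2 : ℝ) : ℂ) = 1 := by
    rw [← h1]
    push_cast
    refine sum_congr rfl fun j _ => ?_
    rw [conjTranspose_apply, Complex.star_def, Complex.conj_mul']
  exact_mod_cast h2

theorem norm_diag_le {x : Mt n} (hx : x * xᴴ = 1) (i : Fin n) : ‖x i i‖ ≤ 1 := by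
  have h1 := rows hx i
  have h2 : ‖x i i‖ ^ 2 ≤ 1 := by
    rw [← h1]
    exact single_le_sum (f := fun i' => ‖x i i'‖ ^ 2) (fun _ _ => by positivity) (mem_univ i)
  nlinarith [norm_nonneg (x i i)]

theorem sum_sq_abs_le (hf : ∀ i, 0 ≤ f i) (h1 : ∑ i, f i ^ 2 = 1) {x : Mt n} (hx : xᴴ * x = 1)
    (η : ℝ) (hη : 0 ≤ η) (hd : dis f x ≤ η ^ 2) :
    ∑ i, ∑ i', ‖x i i'‖ ^ 2 * |f i ^ 2 - f i' ^ 2| ≤ 2 * η := by
  have hx' : x * xᴴ = 1 := unit_symm hx
  have e1 : ∑ i, ∑ i', ‖x i i'‖ ^ 2 * |f i ^ 2 - f i' ^ 2| =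
      ∑ p : Fin n × Fin n, (‖x p.1 p.2‖ * |f p.1 - f p.2|) * (‖x p.1 p.2‖ * (f p.1 + f p.2)) := by
    rw [Fintype.sum_prod_type]
    refine sum_congr rfl fun i _ => sum_congr rfl fun i' _ => ?_
    have : |f i ^ 2 - f i' ^ 2| = |f i - f i'| * (f i + f i') := by
      rw [show f i ^ 2 - f i' ^ 2 = (f i - f i') * (f i + f i') by ring, abs_mul,
        abs_of_nonneg (add_nonneg (hf i) (hf i'))]
    rw [this]
    ring
  rw [e1]
  refine (Real.sum_mul_le_sqrt_mul_sqrt _ _ _).trans ?_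
  have e2 : ∑ p : Fin n × Fin n, (‖x p.1 p.2‖ * |f p.1 - f p.2|) ^ 2 ≤ η ^ 2 := by
    rw [Fintype.sum_prod_type]
    refine le_trans (le_of_eq ?_) hd
    unfold dis
    refine sum_congr rfl fun i _ => sum_congr rfl fun i' _ => ?_
    rw [mul_pow, sq_abs]
  have r1 : ∑ i, ∑ i', ‖x i i'‖ ^ 2 * f i ^ 2 = 1 := by
    rw [← h1]
    refine sum_congr rfl fun i _ => ?_
    rw [← sum_mul, rows hx', one_mul]
  have r2 : ∑ i, ∑ i', ‖x i i'‖ ^ 2 * f i' ^ 2 = 1 := by
    rw [sum_comm, ← h1]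
    refine sum_congr rfl fun i' _ => ?_
    rw [← sum_mul, cols hx, one_mul]
  have e3 : ∑ p : Fin n × Fin n, (‖x p.1 p.2‖ * (f p.1 + f p.2)) ^ 2 ≤ 2 ^ 2 := by
    rw [Fintype.sum_prod_type]
    have : ∑ i, ∑ i', (‖x i i'‖ * (f i + f i')) ^ 2 ≤
        2 * ∑ i, ∑ i', ‖x i i'‖ ^ 2 * f i ^ 2 + 2 * ∑ i, ∑ i', ‖x i i'‖ ^ 2 * f i' ^ 2 := by
      rw [mul_sum, mul_sum, ← sum_add_distrib]
      refine sum_le_sum fun i _ => ?_
      rw [mul_sum, mul_sum, ← sum_add_distrib]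
      refine sum_le_sum fun i' _ => ?_
      nlinarith [sq_nonneg (‖x i i'‖ * (f i - f i'))]
    linarith
  have g1 := Real.sqrt_le_sqrt e2
  have g2 := Real.sqrt_le_sqrt e3
  rw [Real.sqrt_sq hη] at g1
  rw [Real.sqrt_sq (by norm_num : (0 : ℝ) ≤ 2)] at g2
  calc _ ≤ η * 2 := mul_le_mul g1 g2 (Real.sqrt_nonneg _) hη
    _ = 2 * η := by ring

/-- the main estimates in diagonal form -/
theorem core (hf : ∀ i, 0 ≤ f i) (h1 : ∑ i, f i ^ 2 = 1) (η : ℝ) (hη : 0 < η) (hη2 : η ≤ 1 / 2) :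
    ∃ (Y : Type) (_ : Fintype Y) (_ : DecidableEq Y)
      (w : unitaryGroup (Fin n) ℂ → unitaryGroup Y ℂ), 0 < Fintype.card Y ∧
      (∀ x x' x'' : unitaryGroup (Fin n) ℂ, dis f x.1 ≤ η ^ 2 → dis f x'.1 ≤ η ^ 2 →
        dis f x''.1 ≤ η ^ 2 → ∑ i, ∑ i', ‖(x''.1 - x.1 * x'.1) i i'‖ ^ 2 * f i' ^ 2 ≤ η ^ 2 →
        hs ((w x'').1 - (w x).1 * (w x').1) ≤ 130 * η * Fintype.card Y) ∧
      ∀ x : unitaryGroup (Fin n) ℂ, dis f x.1 ≤ η ^ 2 →
        ‖trace (w x).1 / Fintype.card Y - ∑ i, ((f i ^ 2 : ℝ) : ℂ) * x.1 i i‖ ≤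
          2 * √(3 * η) + 4 * η := by
  obtain ⟨M, hM⟩ := exists_nat_ge ((n : ℝ) / η)
  have hn : 0 < n := by
    rcases Nat.eq_zero_or_pos n with h | h
    · subst h
      simp at h1
    · exact h
  have hM' : (n : ℝ) ≤ η * M := by
    rw [div_le_iff₀ hη] at hM
    linarith
  have hMpos : (0 : ℝ) < M := by
    have : (0 : ℝ) < n := by exact_mod_cast hn
    nlinarith
  set N : Fin n → ℕ := fun i => ⌊(M : ℝ) * f i ^ 2⌋₊ with hN
  have hfi : ∀ i, f i ^ 2 ≤ 1 := by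
    intro i
    rw [← h1]
    exact single_le_sum (f := fun i => f i ^ 2) (fun _ _ => by positivity) (mem_univ i)
  have hNM : ∀ i, N i ≤ M := by
    intro i
    refine Nat.floor_le_of_le ?_
    have := hfi i
    nlinarith
  have hN1 : ∀ i, (N i : ℝ) ≤ M * f i ^ 2 := fun i => Nat.floor_le (by positivity)
  have hN2 : ∀ i, (M : ℝ) * f i ^ 2 < N i + 1 := fun i => Nat.lt_floor_add_one _
  set D : ℝ := ((Fintype.card {q // PP M N q} : ℕ) : ℝ) with hD
  have hDs : D = ∑ i, (N i : ℝ) := card_PP N hNM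
  have hDM : D ≤ M := by
    rw [hDs]
    calc ∑ i, (N i : ℝ) ≤ ∑ i, M * f i ^ 2 := sum_le_sum fun i _ => hN1 i
      _ = M := by rw [← mul_sum, h1, mul_one]
  have hMD : (M : ℝ) ≤ D + n := by
    rw [hDs]
    calc (M : ℝ) = ∑ i, M * f i ^ 2 := by rw [← mul_sum, h1, mul_one]
      _ ≤ ∑ i, ((N i : ℝ) + 1) := sum_le_sum fun i _ => (hN2 i).le
      _ = _ := by rw [sum_add_distrib]; simp
  have hM2 : (M : ℝ) ≤ 2 * D := by nlinarith
  have hD0 : 0 < D := by linarith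
  have key : ∀ x : unitaryGroup (Fin n) ℂ, dis f x.1 ≤ η ^ 2 →
      E (PP M N) (X M x.1) ≤ 3 * η * M := by
    intro x hx
    have hu : (x.1)ᴴ * x.1 = 1 := Pool.Agent.H80R2.HG.PSAux.uh x
    refine (E_le N hNM x.1).trans ?_
    have h2 := sum_sq_abs_le f hf h1 hu η hη.le hx
    have h3 : ∑ i, ∑ i', ‖x.1 i i'‖ ^ 2 * |(N i : ℝ) - N i'| ≤
        M * ∑ i, ∑ i', ‖x.1 i i'‖ ^ 2 * |f i ^ 2 - f i' ^ 2| + ∑ i, ∑ i', ‖x.1 i i'‖ ^ 2 := by
      rw [mul_sum, ← sum_add_distrib]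
      refine sum_le_sum fun i _ => ?_
      rw [mul_sum, ← sum_add_distrib]
      refine sum_le_sum fun i' _ => ?_
      have h4 : |(N i : ℝ) - N i'| ≤ M * |f i ^ 2 - f i' ^ 2| + 1 := by
        rw [abs_le]
        have a1 := hN1 i
        have a2 := hN2 i
        have a3 := hN1 i'
        have a4 := hN2 i'
        have a5 := le_abs_self (f i ^ 2 - f i' ^ 2)
        have a6 := neg_abs_le (f i ^ 2 - f i' ^ 2)
        constructor <;> nlinarith
      nlinarith [sq_nonneg ‖x.1 i i'‖]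
    have h5 : ∑ i, ∑ i', ‖x.1 i i'‖ ^ 2 = (n : ℝ) := by
      rw [sum_congr rfl fun i _ => rows (unit_symm hu) i]
      simp
    rw [h5] at h3
    nlinarith
  choose w hw using fun x : unitaryGroup (Fin n) ℂ =>
    exists_W (PP M N) (X_isom (M := M) (Pool.Agent.H80R2.HG.PSAux.uh x))
  refine ⟨{q // PP M N q}, inferInstance, inferInstance, w, ?_, ?_, ?_⟩
  · have : (0 : ℝ) < Fintype.card {q // PP M N q} := hD0
    exact_mod_cast this
  · intro x x' x'' hx hx' hx'' hy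
    have g1 := hs_W_mul (PP M N) (X_isom (M := M) (Pool.Agent.H80R2.HG.PSAux.uh x))
      (X_isom (M := M) (Pool.Agent.H80R2.HG.PSAux.uh x')) (key x hx) (key x' hx') (key x'' hx'')
      (hw x) (hw x') (hw x'')
    refine g1.trans ?_
    rw [← X_mul, ← X_sub, hs_XJ_eq N hNM]
    have g2 : ∑ i, ∑ i', ‖(x''.1 - x.1 * x'.1) i i'‖ ^ 2 * (N i' : ℝ) ≤ M * η ^ 2 := by
      refine le_trans ?_ (mul_le_mul_of_nonneg_left hy hMpos.le)
      rw [mul_sum]
      refine sum_le_sum fun i _ => ?_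
      rw [mul_sum]
      refine sum_le_sum fun i' _ => ?_
      have := hN1 i'
      nlinarith [sq_nonneg ‖(x''.1 - x.1 * x'.1) i i'‖]
    have g3 : η ^ 2 ≤ η := by nlinarith
    nlinarith
  · intro x hx
    have hu : (x.1)ᴴ * x.1 = 1 := Pool.Agent.H80R2.HG.PSAux.uh x
    have hu' := unit_symm hu
    set t : ℂ := ∑ i, ((f i ^ 2 : ℝ) : ℂ) * x.1 i i with ht
    have ht1 : ‖t‖ ≤ 1 := by
      refine (norm_sum_le _ _).trans ?_
      rw [← h1]
      refine sum_le_sum fun i _ => ?_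
      rw [norm_mul, Complex.norm_real, Real.norm_eq_abs, abs_of_nonneg (sq_nonneg _)]
      exact mul_le_of_le_one_right (sq_nonneg _) (norm_diag_le hu' i)
    -- the trace of the compression
    have a1 : ‖trace (T (PP M N) (X M x.1)) - M * t‖ ≤ n := by
      rw [trace_T N hNM, ht, mul_sum, ← sum_sub_distrib]
      refine (norm_sum_le _ _).trans ?_
      have : ∀ i ∈ (univ : Finset (Fin n)),
          ‖(N i : ℂ) * x.1 i i - M * (((f i ^ 2 : ℝ) : ℂ) * x.1 i i)‖ ≤ 1 := by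
        intro i _
        have e1 : (N i : ℂ) * x.1 i i - M * (((f i ^ 2 : ℝ) : ℂ) * x.1 i i) =
            (((N i : ℝ) - M * f i ^ 2 : ℝ) : ℂ) * x.1 i i := by
          push_cast
          ring
        rw [e1, norm_mul, Complex.norm_real, Real.norm_eq_abs]
        have e2 : |(N i : ℝ) - M * f i ^ 2| ≤ 1 := by
          rw [abs_le]
          constructor <;> linarith [hN1 i, hN2 i]
        calc _ ≤ 1 * 1 := mul_le_mul e2 (norm_diag_le hu' i) (norm_nonneg _) zero_le_one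
          _ = 1 := one_mul 1
      refine (sum_le_sum this).trans ?_
      simp
    have a2 : ‖trace (w x).1 - trace (T (PP M N) (X M x.1))‖ ≤ M * √(3 * η) := by
      rw [← trace_sub]
      have b1 := norm_trace_le (1 : Matrix {q // PP M N q} {q // PP M N q} ℂ)
        ((w x).1 - T (PP M N) (X M x.1))
      rw [conjTranspose_one, Matrix.one_mul] at b1
      refine b1.trans ?_
      have b2 : hs (1 : Matrix {q // PP M N q} {q // PP M N q} ℂ) = D := by
        rw [hs_eq, conjTranspose_one, Matrix.one_mul, trace_one, hD]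
        simp
      have b3 : hs ((w x).1 - T (PP M N) (X M x.1)) ≤ 3 * η * M := by
        rw [hs_sub_comm]
        exact (hw x).trans (key x hx)
      rw [b2]
      calc √D * √(hs ((w x).1 - T (PP M N) (X M x.1))) ≤ √M * √(3 * η * M) :=
            mul_le_mul (Real.sqrt_le_sqrt hDM) (Real.sqrt_le_sqrt b3) (Real.sqrt_nonneg _)
              (Real.sqrt_nonneg _)
        _ = √M * √M * √(3 * η) := by
            rw [Real.sqrt_mul (by positivity)]
            ring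
        _ = M * √(3 * η) := by rw [Real.mul_self_sqrt hMpos.le]
    have a3 : ‖trace (w x).1 - D * t‖ ≤ M * √(3 * η) + 2 * n := by
      have e1 : trace (w x).1 - D * t = (trace (w x).1 - trace (T (PP M N) (X M x.1))) +
          (trace (T (PP M N) (X M x.1)) - M * t) + (((M : ℝ) - D : ℝ) : ℂ) * t := by
        push_cast
        ring
      rw [e1]
      refine (norm_add_le _ _).trans ?_
      have e2 : ‖(((M : ℝ) - D : ℝ) : ℂ) * t‖ ≤ n := by
        rw [norm_mul, Complex.norm_real, Real.norm_eq_abs, abs_of_nonneg (by linarith)]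
        calc _ ≤ ((M : ℝ) - D) * 1 := mul_le_mul_of_nonneg_left ht1 (by linarith)
          _ ≤ n := by linarith
      have e3 := norm_add_le (trace (w x).1 - trace (T (PP M N) (X M x.1)))
          (trace (T (PP M N) (X M x.1)) - M * t)
      linarith
    have e4 : trace (w x).1 / (Fintype.card {q // PP M N q} : ℂ) - t =
        (trace (w x).1 - D * t) / D := by
      have : (D : ℂ) ≠ 0 := by exact_mod_cast hD0.ne'
      have hc : (Fintype.card {q // PP M N q} : ℂ) = (D : ℂ) := by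
        rw [hD]
        push_cast
        rfl
      rw [hc, sub_div, mul_div_cancel_left₀ _ this]
    rw [e4, norm_div, Complex.norm_real, Real.norm_eq_abs, abs_of_pos hD0, div_le_iff₀ hD0]
    refine a3.trans ?_
    have c1 : M * √(3 * η) ≤ 2 * D * √(3 * η) := mul_le_mul_of_nonneg_right hM2 (Real.sqrt_nonneg _)
    nlinarith

end wt

/-- transfer to `Fin d` -/
theorem transfer {Y : Type} [Fintype Y] [DecidableEq Y] :
    ∃ ψ : unitaryGroup Y ℂ → unitaryGroup (Fin (Fintype.card Y)) ℂ,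
      (∀ a b c, hs ((ψ a).1 - (ψ b).1 * (ψ c).1) = hs (a.1 - b.1 * c.1)) ∧
      ∀ a, trace (ψ a).1 = trace a.1 := by
  set e : Fin (Fintype.card Y) ≃ Y := (Fintype.equivFin Y).symm with he
  refine ⟨fun a => ⟨a.1.submatrix e e, ?_⟩, ?_, ?_⟩
  · rw [mem_unitaryGroup_iff]
    show a.1.submatrix e e * (a.1.submatrix e e)ᴴ = 1
    rw [conjTranspose_submatrix, submatrix_mul_equiv]
    have : a.1 * (a.1)ᴴ = 1 := Pool.Agent.H80R2.HG.PSAux.hu a
    rw [this, submatrix_one_equiv]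
  · intro a b c
    show hs (a.1.submatrix e e - b.1.submatrix e e * c.1.submatrix e e) = _
    rw [submatrix_mul_equiv]
    unfold hs
    rw [← Equiv.sum_comp e]
    refine sum_congr rfl fun i _ => ?_
    rw [← Equiv.sum_comp e]
    rfl
  · intro a
    show trace (a.1.submatrix e e) = _
    unfold trace
    rw [← Equiv.sum_comp e]
    rfl

end Lev

open Lev Pool.Agent.H80R2.HG.PSAux in
theorem lev : S_LEV := by
  intro Γ _ A ε hε
  -- the choice of `η`
  obtain ⟨η, hη, hη2, hη3, hη4⟩ : ∃ η : ℝ, 0 < η ∧ η ≤ 1 / 2 ∧ 130 * η ≤ ε ∧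
      2 * √(3 * η) + 4 * η ≤ ε := by
    refine ⟨min (1 / 2) (min (ε / 130) (ε ^ 2 / 48)), by positivity, min_le_left _ _, ?_, ?_⟩
    · have : min (1 / 2) (min (ε / 130) (ε ^ 2 / 48)) ≤ ε / 130 :=
        (min_le_right _ _).trans (min_le_left _ _)
      linarith
    · set m := min (1 / 2) (min (ε / 130) (ε ^ 2 / 48)) with hm
      have h1 : m ≤ ε / 130 := (min_le_right _ _).trans (min_le_left _ _)
      have h2 : m ≤ ε ^ 2 / 48 := (min_le_right _ _).trans (min_le_right _ _)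
      have h3 : √(3 * m) ≤ ε / 4 := by
        rw [show ε / 4 = √((ε / 4) ^ 2) by rw [Real.sqrt_sq (by positivity)]]
        refine Real.sqrt_le_sqrt ?_
        nlinarith
      linarith
  refine ⟨η ^ 2, by positivity, ?_⟩
  intro n T u hT hT1 hc hm
  -- diagonalise
  have hTe := herm_eq T hT.1
  set V : unitaryGroup (Fin n) ℂ := hT.1.eigenvectorUnitary with hV
  set f : Fin n → ℝ := hT.1.eigenvalues with hf
  have hf0 : ∀ i, 0 ≤ f i := fun i => hT.eigenvalues_nonneg i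
  set Df : Mt n := diagonal fun i => (f i : ℂ) with hDf
  have hTe' : T = V.1 * Df * (V.1)ᴴ := hTe
  have hVV : (V.1)ᴴ * V.1 = 1 := uh V
  have hVV' : V.1 * (V.1)ᴴ = 1 := hu V
  have hVc : ((V.1)ᴴ)ᴴ * (V.1)ᴴ = 1 := unit_conj hVV
  have hconj : ∀ y : Mt n, hs ((V.1)ᴴ * y * V.1) = hs y := by
    intro y
    rw [hs_mul_unit hVV, hs_unit_mul hVc]
  have hDT : (V.1)ᴴ * T * V.1 = Df := by
    rw [hTe']
    calc (V.1)ᴴ * (V.1 * Df * (V.1)ᴴ) * V.1 = ((V.1)ᴴ * V.1) * Df * ((V.1)ᴴ * V.1) := by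
          simp only [Matrix.mul_assoc]
      _ = Df := by rw [hVV, Matrix.one_mul, Matrix.mul_one]
  have hmul : ∀ y z : Mt n, (V.1)ᴴ * (y * z) * V.1 = ((V.1)ᴴ * y * V.1) * ((V.1)ᴴ * z * V.1) := by
    intro y z
    calc (V.1)ᴴ * (y * z) * V.1 = (V.1)ᴴ * y * 1 * z * V.1 := by
          simp only [Matrix.mul_assoc, Matrix.mul_one]
      _ = _ := by
          rw [← hVV']
          simp only [Matrix.mul_assoc]
  have h1 : ∑ i, f i ^ 2 = 1 := by
    have e1 := hconj T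
    rw [hDT, hT1] at e1
    rw [← e1, hs]
    refine sum_congr rfl fun i _ => ?_
    rw [Finset.sum_eq_single i]
    · rw [hDf, diagonal_apply_eq, Complex.norm_real, Real.norm_eq_abs, sq_abs]
    · intro j _ hj
      rw [hDf, diagonal_apply_ne _ (Ne.symm hj)]
      simp
    · simp
  obtain ⟨Y, _, _, w, hY, hw1, hw2⟩ := core f hf0 h1 η hη hη2
  obtain ⟨ψ, hψ1, hψ2⟩ := transfer (Y := Y)
  -- the conjugated unitaries
  set x : Γ → unitaryGroup (Fin n) ℂ := fun g => V⁻¹ * u g * V with hx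
  have hx1 : ∀ g, (x g).1 = (V.1)ᴴ * (u g).1 * V.1 := fun g => rfl
  have hdis : ∀ g ∈ A, dis f (x g).1 ≤ η ^ 2 := by
    intro g hg
    refine le_trans (le_of_eq ?_) (hc g hg)
    rw [← hconj, Matrix.mul_sub, Matrix.sub_mul, hmul, hmul, hDT, ← hx1, hs, dis]
    refine sum_congr rfl fun i _ => sum_congr rfl fun i' _ => ?_
    rw [Matrix.sub_apply, hDf, mul_diagonal, diagonal_mul]
    have : (x g).1 i i' * (f i' : ℂ) - (f i : ℂ) * (x g).1 i i' =
        (x g).1 i i' * ((f i' - f i : ℝ) : ℂ) := by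
      push_cast
      ring
    rw [this, norm_mul, Complex.norm_real, Real.norm_eq_abs, mul_pow, sq_abs]
    ring
  refine ⟨Fintype.card Y, fun g => ψ (w (x g)), hY, ?_, ?_⟩
  · intro g hg h hh hgh
    have e1 : ∑ i, ∑ i', ‖((x (g * h)).1 - (x g).1 * (x h).1) i i'‖ ^ 2 * f i' ^ 2 ≤ η ^ 2 := by
      refine le_trans (le_of_eq ?_) (hm g hg h hh hgh)
      rw [← hconj, hmul, hDT, Matrix.mul_sub, Matrix.sub_mul, hmul, ← hx1, ← hx1, ← hx1, hs]
      refine sum_congr rfl fun i _ => sum_congr rfl fun i' _ => ?_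
      rw [hDf, mul_diagonal, norm_mul, Complex.norm_real, Real.norm_eq_abs, mul_pow, sq_abs]
    have e2 := hw1 (x g) (x h) (x (g * h)) (hdis g hg) (hdis h hh) (hdis _ hgh) e1
    show hs ((ψ (w (x (g * h)))).1 - (ψ (w (x g))).1 * (ψ (w (x h))).1) ≤ _
    rw [hψ1]
    refine e2.trans ?_
    have : (0 : ℝ) ≤ (Fintype.card Y : ℝ) := by positivity
    nlinarith
  · intro g hg
    have e1 := hw2 (x g) (hdis g hg)
    have e2 : trace (T * T * (u g).1) = ∑ i, ((f i ^ 2 : ℝ) : ℂ) * (x g).1 i i := by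
      have e3 : trace (T * T * (u g).1) = trace ((V.1)ᴴ * (T * T * (u g).1) * V.1) := by
        rw [Matrix.trace_mul_cycle (V.1)ᴴ, hVV', Matrix.one_mul]
      rw [e3, hmul, hmul, hDT, ← hx1, trace]
      refine sum_congr rfl fun i _ => ?_
      rw [diag_apply, hDf, diagonal_mul_diagonal, diagonal_mul]
      push_cast
      ring
    show ‖ntr (ψ (w (x g))).1 - trace (T * T * (u g).1)‖ ≤ ε
    rw [ntr, hψ2, e2]
    exact e1.trans hη4

end

end Pool.Agent.H71RE
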