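import Pool.Agent.H71RE.Stm
import Pool.Agent.W683.RC.Bas

/-!
# Project RE, piece LIN (helper69): linear matrix models of a QWEP finite von Neumann algebra
-/

set_option autoImplicit false

open scoped InnerProductSpace ComplexOrder CStarAlgebra
open Filter Topology Matrix Finset

namespace Pool.Agent.H71RE

open Pool.Agent.N557.QWX (Op IsTracial IsHom)
open Pool.Agent.N859.QX (QWEP)
open Pool.Agent.W661.RC Pool.Agent.W683.RC

noncomputable section

namespace LinAux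

section norms

open scoped Matrix.Norms.L2Operator MatrixOrder

lemma le_lin {d : ℕ} {ι : Type*} (s : Finset ι) (c : ι → ℂ) (U : ι → Mt d)
    (hU : ∀ i, (U i)ᴴ * U i = 1) :
    Le ((∑ i ∈ s, c i • U i)ᴴ * ∑ i ∈ s, c i • U i)
      ((((∑ i ∈ s, ‖c i‖) ^ 2 : ℝ) : ℂ) • (1 : Mt d)) := by
  have hn : ‖∑ i ∈ s, c i • U i‖ ≤ ∑ i ∈ s, ‖c i‖ := by
    refine (norm_sum_le _ _).trans (Finset.sum_le_sum fun i _ => ?_)
    rw [norm_smul]
    have h1 : ‖U i‖ ≤ 1 := by
      have h2 : ‖star (U i) * U i‖ = ‖U i‖ * ‖U i‖ := CStarRing.norm_star_mul_self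
      have h3 : star (U i) * U i = 1 := hU i
      rw [h3] at h2
      have h4 : ‖(1 : Mt d)‖ ≤ 1 := by
        rcases subsingleton_or_nontrivial (Mt d) with h | h
        · rw [Subsingleton.elim (1 : Mt d) 0, norm_zero]; exact zero_le_one
        · rw [norm_one]
      nlinarith [norm_nonneg (U i)]
    exact mul_le_of_le_one_right (norm_nonneg _) h1
  have h1 : star (∑ i ∈ s, c i • U i) * (∑ i ∈ s, c i • U i) ≤
      algebraMap ℝ (Mt d) (‖∑ i ∈ s, c i • U i‖ ^ 2) := CStarAlgebra.star_mul_le_algebraMap_norm_sq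
  have h2 : algebraMap ℝ (Mt d) (‖∑ i ∈ s, c i • U i‖ ^ 2) ≤
      algebraMap ℝ (Mt d) ((∑ i ∈ s, ‖c i‖) ^ 2) := by
    apply algebraMap_mono
    exact pow_le_pow_left₀ (norm_nonneg _) hn 2
  have h3 := h1.trans h2
  rw [Matrix.le_iff] at h3
  have e : algebraMap ℝ (Mt d) ((∑ i ∈ s, ‖c i‖) ^ 2) =
      (((∑ i ∈ s, ‖c i‖) ^ 2 : ℝ) : ℂ) • (1 : Mt d) := by
    rw [Algebra.algebraMap_eq_smul_one]
    ext i j
    simp [Matrix.smul_apply]
  rw [e] at h3
  exact h3

end norms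

section small

variable {P : Type*} {l : Filter P} {D : P → ℕ}

/-- the squared normalised norms of the matrices `X p` tend to `0` along `l` -/
def Sm (l : Filter P) (X : ∀ p, Mt (D p)) : Prop := Tendsto (fun p => hs (X p) / D p) l (𝓝 0)

lemma Sm.of_le {X : ∀ p, Mt (D p)} {f : P → ℝ} (h : ∀ p, hs (X p) / D p ≤ f p)
    (hf : Tendsto f l (𝓝 0)) : Sm l X :=
  squeeze_zero (fun p => div_nonneg (hs_nonneg _) (Nat.cast_nonneg _)) h hf

lemma Sm.add {X Y : ∀ p, Mt (D p)} (hX : Sm l X) (hY : Sm l Y) :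
    Sm l fun p => X p + Y p := by
  refine Sm.of_le (f := fun p => 2 * (hs (X p) / D p) + 2 * (hs (Y p) / D p)) (fun p => ?_) ?_
  · have h := hs_add_le (X p) (Y p)
    calc hs (X p + Y p) / D p ≤ (2 * hs (X p) + 2 * hs (Y p)) / D p :=
          div_le_div_of_nonneg_right h (Nat.cast_nonneg _)
      _ = _ := by ring
  · simpa using (Tendsto.const_mul 2 hX).add (Tendsto.const_mul 2 hY)

lemma Sm.smul {X : ∀ p, Mt (D p)} (hX : Sm l X) (c : ℂ) : Sm l fun p => c • X p := by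
  refine Sm.of_le (f := fun p => ‖c‖ ^ 2 * (hs (X p) / D p)) (fun p => ?_) ?_
  · rw [hs_smul, mul_div_assoc]
  · simpa using Tendsto.const_mul (‖c‖ ^ 2) hX

lemma Sm.neg {X : ∀ p, Mt (D p)} (hX : Sm l X) : Sm l fun p => - X p := by
  have h := hX.smul (-1)
  simpa using h

lemma Sm.sub {X Y : ∀ p, Mt (D p)} (hX : Sm l X) (hY : Sm l Y) :
    Sm l fun p => X p - Y p := by
  simpa [sub_eq_add_neg] using hX.add hY.neg

lemma Sm.zero : Sm l (fun p => (0 : Mt (D p))) := by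
  have : (fun p => hs (0 : Mt (D p)) / D p) = fun _ => (0 : ℝ) := by
    funext p; rw [hs_zero, zero_div]
  rw [Sm, this]
  exact tendsto_const_nhds

lemma Sm.congr {X Y : ∀ p, Mt (D p)} (hX : Sm l X) (h : ∀ p, X p = Y p) : Sm l Y := by
  have : X = Y := funext h
  rwa [← this]

lemma norm_ntr_le {d : ℕ} (x : Mt d) : ‖ntr x‖ ≤ √(hs x / d) := by
  rcases Nat.eq_zero_or_pos d with h | h
  · subst h
    simp [ntr]
  have hd : (0 : ℝ) < d := Nat.cast_pos.2 h
  have h1 := norm_trace_le (1 : Mt d) x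
  have h2 : hs (1 : Mt d) = d := by
    rw [hs_eq_tr, Matrix.conjTranspose_one, Matrix.one_mul, tr_one]
  rw [Matrix.conjTranspose_one, Matrix.one_mul, h2] at h1
  rw [ntr, norm_div, Complex.norm_natCast, div_le_iff₀ hd]
  refine h1.trans (le_of_eq ?_)
  rw [Real.sqrt_div (hs_nonneg _), div_mul_eq_mul_div, mul_comm (√(d : ℝ)), mul_div_assoc]
  congr 1
  rw [eq_div_iff (Real.sqrt_pos.2 hd).ne']
  exact Real.mul_self_sqrt hd.le

lemma Sm.ntr {X : ∀ p, Mt (D p)} (hX : Sm l X) : Tendsto (fun p => ntr (X p)) l (𝓝 0) := by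
  rw [tendsto_zero_iff_norm_tendsto_zero]
  refine squeeze_zero (fun p => norm_nonneg _) (fun p => norm_ntr_le (X p)) ?_
  have h := (Real.continuous_sqrt.tendsto 0).comp hX
  simpa [Function.comp_def] using h

lemma ntr_sub {d : ℕ} (x y : Mt d) : ntr (x - y) = ntr x - ntr y := by
  rw [ntr, ntr, ntr, Matrix.trace_sub, sub_div]

lemma ntr_add {d : ℕ} (x y : Mt d) : ntr (x + y) = ntr x + ntr y := by
  rw [ntr, ntr, ntr, Matrix.trace_add, add_div]

lemma ntr_smul {d : ℕ} (c : ℂ) (x : Mt d) : ntr (c • x) = c * ntr x := by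
  rw [ntr, ntr, Matrix.trace_smul, smul_eq_mul, mul_div_assoc]

lemma ntr_conj_mul_self {d : ℕ} (x : Mt d) : ntr (xᴴ * x) = ((hs x / d : ℝ) : ℂ) := by
  rw [ntr, trace_conjTranspose_mul_self]
  push_cast
  ring

lemma uni_mul {d : ℕ} (U : unitaryGroup (Fin d) ℂ) : (U : Mt d)ᴴ * (U : Mt d) = 1 :=
  Unitary.star_mul_self_of_mem U.2

lemma uni_mul' {d : ℕ} (U : unitaryGroup (Fin d) ℂ) : (U : Mt d) * (U : Mt d)ᴴ = 1 :=
  Unitary.mul_star_self_of_mem U.2

end small

section ext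

variable {P : Type*} {l : Filter P} {D : P → ℕ} {Γ : Type}
  (W : ∀ p, Γ → Mt (D p))

/-- linear extension -/
def Wl (p : P) : (Γ →₀ ℂ) →ₗ[ℂ] Mt (D p) :=
  Finsupp.linearCombination ℂ (W p)

lemma Wl_single (p : P) (g : Γ) (c : ℂ) : Wl W p (Finsupp.single g c) = c • W p g := by
  rw [Wl, Finsupp.linearCombination_single]

section

variable {A : Type} [AddCommMonoid A] [Module ℂ A]

/-- the linear combination in `A` -/
def pl (v : Γ → A) : (Γ →₀ ℂ) →ₗ[ℂ] A := Finsupp.linearCombination ℂ v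

lemma pl_single (v : Γ → A) (g : Γ) (c : ℂ) : pl v (Finsupp.single g c) = c • v g := by
  rw [pl, Finsupp.linearCombination_single]

end

lemma exists_mul {A : Type} [Ring A] [Algebra ℂ A] [Group Γ]
    (hW : ∀ g h, Sm l fun p => W p (g * h) - W p g * W p h)
    (v : Γ → A) (hv : ∀ g h, v (g * h) = v g * v h) (x y : Γ →₀ ℂ) :
    ∃ z : Γ →₀ ℂ, pl v z = pl v x * pl v y ∧ Sm l fun p => Wl W p z - Wl W p x * Wl W p y := by
  induction x using Finsupp.induction_linear with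
  | zero => exact ⟨0, by simp, by simpa using (Sm.zero (l := l) (D := D))⟩
  | add x x' hx hx' =>
    obtain ⟨z, hz, hz2⟩ := hx
    obtain ⟨z', hz', hz2'⟩ := hx'
    refine ⟨z + z', by rw [map_add, map_add, hz, hz', add_mul], (hz2.add hz2').congr fun p => ?_⟩
    rw [map_add, map_add, Matrix.add_mul]
    abel
  | single g c =>
    induction y using Finsupp.induction_linear with
    | zero => exact ⟨0, by simp, by simpa using (Sm.zero (l := l) (D := D))⟩
    | add y y' hy hy' =>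
      obtain ⟨z, hz, hz2⟩ := hy
      obtain ⟨z', hz', hz2'⟩ := hy'
      refine ⟨z + z', by rw [map_add, map_add, hz, hz', mul_add], (hz2.add hz2').congr fun p => ?_⟩
      rw [map_add, map_add, Matrix.mul_add]
      abel
    | single h e =>
      refine ⟨Finsupp.single (g * h) (c * e), ?_, ((hW g h).smul (c * e)).congr fun p => ?_⟩
      · rw [pl_single, pl_single, pl_single, hv, smul_mul_smul_comm]
      · rw [Wl_single, Wl_single, Wl_single, smul_mul_smul_comm, smul_sub]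

lemma small_one [Group Γ] (hU : ∀ p g, (W p g)ᴴ * W p g = 1)
    (hW : ∀ g h, Sm l fun p => W p (g * h) - W p g * W p h) :
    Sm l fun p => W p 1 - 1 := by
  have h := hW 1 1
  refine Sm.of_le (fun p => le_of_eq ?_) h
  congr 1
  have e : W p (1 * 1) - W p 1 * W p 1 = W p 1 * (1 - W p 1) := by
    rw [mul_one, Matrix.mul_sub, Matrix.mul_one]
  show hs _ = hs (W p (1 * 1) - W p 1 * W p 1)
  rw [e, hs_isom_mul (hU _ _), hs_sub_comm]

lemma small_star [Group Γ] (hU : ∀ p g, (W p g)ᴴ * W p g = 1)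
    (hW : ∀ g h, Sm l fun p => W p (g * h) - W p g * W p h) (g : Γ) :
    Sm l fun p => W p g⁻¹ - (W p g)ᴴ := by
  have h := (small_one W hU hW).sub (hW g g⁻¹)
  refine Sm.of_le (fun p => le_of_eq ?_) h
  congr 1
  have e : W p 1 - 1 - (W p (g * g⁻¹) - W p g * W p g⁻¹) = W p g * (W p g⁻¹ - (W p g)ᴴ) := by
    rw [mul_inv_cancel, Matrix.mul_sub, unit_symm (hU _ _)]
    abel
  show hs _ = hs (W p 1 - 1 - (W p (g * g⁻¹) - W p g * W p g⁻¹))
  rw [e, hs_isom_mul (hU _ _)]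

lemma exists_star {A : Type} [Ring A] [StarRing A] [Algebra ℂ A] [StarModule ℂ A] [Group Γ]
    (hU : ∀ p g, (W p g)ᴴ * W p g = 1)
    (hW : ∀ g h, Sm l fun p => W p (g * h) - W p g * W p h)
    (v : Γ → A) (hv : ∀ g, v g⁻¹ = star (v g)) (x : Γ →₀ ℂ) :
    ∃ z : Γ →₀ ℂ, pl v z = star (pl v x) ∧ Sm l fun p => Wl W p z - (Wl W p x)ᴴ := by
  induction x using Finsupp.induction_linear with
  | zero => exact ⟨0, by simp, by simpa using (Sm.zero (l := l) (D := D))⟩
  | add x x' hx hx' =>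
    obtain ⟨z, hz, hz2⟩ := hx
    obtain ⟨z', hz', hz2'⟩ := hx'
    refine ⟨z + z', by rw [map_add, map_add, hz, hz', star_add], (hz2.add hz2').congr fun p => ?_⟩
    rw [map_add, map_add, Matrix.conjTranspose_add]
    abel
  | single g c =>
    refine ⟨Finsupp.single g⁻¹ (star c), ?_, ((small_star W hU hW g).smul (star c)).congr fun p => ?_⟩
    · rw [pl_single, pl_single, hv, star_smul]
    · rw [Wl_single, Wl_single, Matrix.conjTranspose_smul, smul_sub]

end ext

section inner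

variable {P : Type*} {l : Filter P} {D : P → ℕ} {Γ : Type} [Group Γ]
  (W : ∀ p, Γ → Mt (D p))
  {H : Type} [NormedAddCommGroup H] [InnerProductSpace ℂ H] [CompleteSpace H]

lemma tendsto_tr {Γ : Type} (W : ∀ p, Γ → Mt (D p)) (v : Γ → Op H) (ξ : H)
    (ht : ∀ g, Tendsto (fun p => ntr (W p g)) l (𝓝 ⟪ξ, v g ξ⟫_ℂ)) (x : Γ →₀ ℂ) :
    Tendsto (fun p => ntr (Wl W p x)) l (𝓝 ⟪ξ, pl v x ξ⟫_ℂ) := by
  induction x using Finsupp.induction_linear with
  | zero => simpa [ntr] using tendsto_const_nhds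
  | add x x' hx hx' =>
    have h := hx.add hx'
    rw [map_add, _root_.add_apply, inner_add_right]
    refine h.congr fun p => ?_
    rw [map_add, ntr_add]
  | single g c =>
    rw [pl_single, _root_.smul_apply, inner_smul_right]
    refine ((ht g).const_mul c).congr fun p => ?_
    rw [Wl_single, ntr_smul]

lemma tendsto_inner (hU : ∀ p g, (W p g)ᴴ * W p g = 1)
    (hW : ∀ g h, Sm l fun p => W p (g * h) - W p g * W p h)
    (v : Γ → Op H) (hv : ∀ g h, v (g * h) = v g * v h) (hv' : ∀ g, v g⁻¹ = star (v g)) (ξ : H)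
    (ht : ∀ g, Tendsto (fun p => ntr (W p g)) l (𝓝 ⟪ξ, v g ξ⟫_ℂ)) (x y : Γ →₀ ℂ) :
    Tendsto (fun p => ntr ((Wl W p x)ᴴ * Wl W p y)) l (𝓝 ⟪pl v x ξ, pl v y ξ⟫_ℂ) := by
  induction x using Finsupp.induction_linear with
  | zero => simpa [ntr] using tendsto_const_nhds
  | add x x' hx hx' =>
    have h := hx.add hx'
    rw [map_add, _root_.add_apply, inner_add_left]
    refine h.congr fun p => ?_
    rw [map_add, Matrix.conjTranspose_add, Matrix.add_mul, ntr_add]
  | single g c =>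
    induction y using Finsupp.induction_linear with
    | zero => simpa [ntr] using tendsto_const_nhds
    | add y y' hy hy' =>
      have h := hy.add hy'
      rw [map_add, _root_.add_apply, inner_add_right]
      refine h.congr fun p => ?_
      rw [map_add, Matrix.mul_add, ntr_add]
    | single h e =>
      rw [pl_single, pl_single, _root_.smul_apply, _root_.smul_apply,
        inner_smul_left, inner_smul_right]
      have h1 : Sm l fun p => (W p g)ᴴ * W p h - W p (g⁻¹ * h) := by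
        have h2 := hW g (g⁻¹ * h)
        refine Sm.of_le (fun p => le_of_eq ?_) h2
        congr 1
        have e1 : W p (g * (g⁻¹ * h)) - W p g * W p (g⁻¹ * h) =
            W p g * ((W p g)ᴴ * W p h - W p (g⁻¹ * h)) := by
          rw [mul_inv_cancel_left, Matrix.mul_sub, ← Matrix.mul_assoc, unit_symm (hU _ _),
            Matrix.one_mul]
        show hs _ = hs (W p (g * (g⁻¹ * h)) - W p g * W p (g⁻¹ * h))
        rw [e1, hs_isom_mul (hU _ _)]
      have h3 := h1.ntr.add (ht (g⁻¹ * h))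
      have e2 : ⟪ξ, v (g⁻¹ * h) ξ⟫_ℂ = ⟪v g ξ, v h ξ⟫_ℂ := by
        rw [hv, hv']
        show ⟪ξ, star (v g) (v h ξ)⟫_ℂ = _
        rw [ContinuousLinearMap.star_eq_adjoint, ContinuousLinearMap.adjoint_inner_right]
      rw [zero_add, e2] at h3
      refine (h3.const_mul (star c * e)).congr' (Eventually.of_forall fun p => ?_) |>.trans_eq ?_
      · rw [Wl_single, Wl_single, Matrix.conjTranspose_smul, smul_mul_smul_comm, ntr_smul,
          ntr_sub, sub_add_cancel]
      · congr 1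
        simp [mul_assoc]

lemma small_of_pl (hU : ∀ p g, (W p g)ᴴ * W p g = 1)
    (hW : ∀ g h, Sm l fun p => W p (g * h) - W p g * W p h)
    (v : Γ → Op H) (hv : ∀ g h, v (g * h) = v g * v h) (hv' : ∀ g, v g⁻¹ = star (v g)) (ξ : H)
    (ht : ∀ g, Tendsto (fun p => ntr (W p g)) l (𝓝 ⟪ξ, v g ξ⟫_ℂ)) (x : Γ →₀ ℂ)
    (hx : pl v x = 0) : Sm l fun p => Wl W p x := by
  have h := tendsto_inner W hU hW v hv hv' ξ ht x x
  rw [hx, _root_.zero_apply, inner_zero_left] at h
  have h2 := (Complex.continuous_re.tendsto 0).comp h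
  rw [Sm]
  simpa [Function.comp_def, ntr_conj_mul_self] using h2

end inner

section main

variable {H : Type} [NormedAddCommGroup H] [InnerProductSpace ℂ H] [CompleteSpace H]

lemma isClosed_vN (N : VonNeumannAlgebra H) : IsClosed (N.toStarSubalgebra : Set (Op H)) := by
  have h : (N.toStarSubalgebra : Set (Op H)) = Set.centralizer (Set.centralizer (N : Set (Op H))) :=
    N.centralizer_centralizer'.symm
  rw [h]
  exact Set.isClosed_centralizer _

/-- the unitaries of `N` as unitaries of the Hilbert space -/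
def uu (N : VonNeumannAlgebra H) : unitary N.toStarSubalgebra →* unitary (Op H) where
  toFun g := ⟨((g : N.toStarSubalgebra) : Op H), by
    rw [Unitary.mem_iff]
    exact ⟨congrArg Subtype.val (Unitary.star_mul_self_of_mem g.2),
      congrArg Subtype.val (Unitary.mul_star_self_of_mem g.2)⟩⟩
  map_one' := rfl
  map_mul' _ _ := rfl

lemma exists_basis (N : VonNeumannAlgebra H) :
    ∃ (ι : Type) (b : Module.Basis ι ℂ N.toStarSubalgebra) (g : ι → unitary N.toStarSubalgebra),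
      ∀ i, b i = (g i : N.toStarSubalgebra) := by
  have : IsClosed (N.toStarSubalgebra : Set (Op H)) := isClosed_vN N
  have h : ⊤ ≤ Submodule.span ℂ (unitary N.toStarSubalgebra : Set N.toStarSubalgebra) :=
    (CStarAlgebra.span_unitary N.toStarSubalgebra).ge
  refine ⟨_, Module.Basis.ofSpan h, fun i => ⟨Module.Basis.ofSpan h i,
    Module.Basis.ofSpan_subset h ⟨i, rfl⟩⟩, fun i => rfl⟩

end main

end LinAux

open LinAux

theorem lin (hK : S_KIR) : S_LIN := by
  classical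
  intro H _ _ _ N ξ htr hQ
  let Γ := unitary N.toStarSubalgebra
  obtain ⟨ι, b, g, hb⟩ : ∃ (ι : Type) (b : Module.Basis ι ℂ N.toStarSubalgebra) (g : ι → Γ),
    ∀ i, b i = (g i : N.toStarSubalgebra) := exists_basis N
  have hk := hK H N ξ htr hQ Γ (uu N) (fun γ => (γ : N.toStarSubalgebra).2)
  -- the sequence of models
  have hk' : ∀ p : Finset Γ × ℕ, ∃ (d : ℕ) (W : Γ → unitaryGroup (Fin d) ℂ), 0 < d ∧
      (∀ g ∈ p.1, ∀ h ∈ p.1, g * h ∈ p.1 →
        hs ((W (g * h) : Mt d) - (W g : Mt d) * (W h : Mt d)) ≤ (1 / ((p.2 : ℝ) + 1)) * d) ∧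
      ∀ g ∈ p.1, ‖ntr (W g : Mt d) - ⟪ξ, (uu N g : Op H) ξ⟫_ℂ‖ ≤ 1 / ((p.2 : ℝ) + 1) :=
    fun p => hk p.1 (1 / ((p.2 : ℝ) + 1)) (by positivity)
  choose D W₀ hD hW₀ hT₀ using hk'
  let W : ∀ p, Γ → Mt (D p) := fun p γ => (W₀ p γ : Mt (D p))
  have hU : ∀ p γ, (W p γ)ᴴ * W p γ = 1 := fun p γ => uni_mul _
  have hlim : Tendsto (fun p : Finset Γ × ℕ => 1 / ((p.2 : ℝ) + 1)) atTop (𝓝 0) := by
    rw [← prod_atTop_atTop_eq]
    exact tendsto_one_div_add_atTop_nhds_zero_nat.comp tendsto_snd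
  have hev : ∀ γ : Γ, ∀ᶠ p : Finset Γ × ℕ in atTop, γ ∈ p.1 := by
    intro γ
    filter_upwards [eventually_ge_atTop (({γ} : Finset Γ), 0)] with p hp
    exact hp.1 (Finset.mem_singleton_self γ)
  have hW : ∀ γ δ, Sm atTop fun p => W p (γ * δ) - W p γ * W p δ := by
    intro γ δ
    refine squeeze_zero' (Eventually.of_forall fun p => div_nonneg (hs_nonneg _) (Nat.cast_nonneg _))
      ?_ hlim
    filter_upwards [hev γ, hev δ, hev (γ * δ)] with p h1 h2 h3
    rw [div_le_iff₀ (Nat.cast_pos.2 (hD p))]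
    exact hW₀ p γ h1 δ h2 h3
  have hT : ∀ γ, Tendsto (fun p => ntr (W p γ)) atTop (𝓝 ⟪ξ, ((γ : N.toStarSubalgebra) : Op H) ξ⟫_ℂ) := by
    intro γ
    rw [tendsto_iff_norm_sub_tendsto_zero]
    refine squeeze_zero' (Eventually.of_forall fun p => norm_nonneg _) ?_ hlim
    filter_upwards [hev γ] with p h1
    exact hT₀ p γ h1
  -- the values
  let v : Γ → N.toStarSubalgebra := fun γ => (γ : N.toStarSubalgebra)
  let v' : Γ → Op H := fun γ => ((γ : N.toStarSubalgebra) : Op H)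
  have hv : ∀ γ δ, v (γ * δ) = v γ * v δ := fun _ _ => rfl
  have hvs : ∀ γ, v γ⁻¹ = star (v γ) := fun _ => rfl
  have hv' : ∀ γ δ, v' (γ * δ) = v' γ * v' δ := fun _ _ => rfl
  have hvs' : ∀ γ, v' γ⁻¹ = star (v' γ) := fun _ => rfl
  have hvv : ∀ x : Γ →₀ ℂ, ((pl v x : N.toStarSubalgebra) : Op H) = pl v' x := by
    intro x
    induction x using Finsupp.induction_linear with
    | zero => simp
    | add x y hx hy => rw [map_add, map_add, ← hx, ← hy]; rfl
    | single γ c => rw [pl_single, pl_single]; rfl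
  -- the section
  let σ : N.toStarSubalgebra →ₗ[ℂ] (Γ →₀ ℂ) := (Finsupp.lmapDomain ℂ ℂ g) ∘ₗ b.repr.toLinearMap
  have hσ : ∀ x, pl v (σ x) = x := by
    intro x
    have : (pl v) ∘ₗ σ = LinearMap.id := by
      apply b.ext
      intro i
      show pl v (Finsupp.mapDomain g (b.repr (b i))) = b i
      rw [b.repr_self, Finsupp.mapDomain_single, pl_single, one_smul, hb]
    exact congrArg (fun f => f x) this
  let ν : N.toStarSubalgebra → ℝ := fun x => (∑ γ ∈ (σ x).support, ‖σ x γ‖) ^ 2 + 1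
  have hWl : ∀ p (z : Γ →₀ ℂ), Wl W p z = ∑ γ ∈ z.support, z γ • W p γ := by
    intro p z
    rw [Wl, Finsupp.linearCombination_apply, Finsupp.sum]
  have hsm : ∀ z : Γ →₀ ℂ, pl v z = 0 → Sm atTop fun p => Wl W p z := by
    intro z hz
    refine small_of_pl W hU hW v' hv' hvs' ξ hT z ?_
    rw [← hvv, hz]; rfl
  refine ⟨ν, fun x => by positivity, fun F ε hε => ?_⟩
  -- the claims
  have c1 : Sm atTop fun p => Wl W p (σ 1) - 1 := by
    have h1 : Sm atTop fun p => Wl W p (σ 1 - Finsupp.single 1 1) :=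
      hsm _ (by rw [map_sub, hσ, pl_single, one_smul]; exact sub_self _)
    refine (h1.add (small_one W hU hW)).congr fun p => ?_
    rw [map_sub, Wl_single, one_smul]
    abel
  have c2 : ∀ x, Sm atTop fun p => Wl W p (σ (star x)) - (Wl W p (σ x))ᴴ := by
    intro x
    obtain ⟨z, hz, hz2⟩ := exists_star W hU hW v hvs (σ x)
    have h1 : Sm atTop fun p => Wl W p (σ (star x) - z) :=
      hsm _ (by rw [map_sub, hσ, hz, hσ, sub_self])
    refine (h1.add hz2).congr fun p => ?_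
    rw [map_sub]
    abel
  have c3 : ∀ x y, Sm atTop fun p => Wl W p (σ (x * y)) - Wl W p (σ x) * Wl W p (σ y) := by
    intro x y
    obtain ⟨z, hz, hz2⟩ := exists_mul W hW v hv (σ x) (σ y)
    have h1 : Sm atTop fun p => Wl W p (σ (x * y) - z) :=
      hsm _ (by rw [map_sub, hσ, hz, hσ, hσ, sub_self])
    refine (h1.add hz2).congr fun p => ?_
    rw [map_sub]
    abel
  have c4 : ∀ x y : N.toStarSubalgebra, Tendsto (fun p => ntr ((Wl W p (σ x))ᴴ * Wl W p (σ y))) atTop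
      (𝓝 ⟪(x : Op H) ξ, (y : Op H) ξ⟫_ℂ) := by
    intro x y
    have h := tendsto_inner W hU hW v' hv' hvs' ξ hT (σ x) (σ y)
    rwa [← hvv, ← hvv, hσ, hσ] at h
  have c5 : ∀ x : N.toStarSubalgebra, Tendsto (fun p => ntr (Wl W p (σ x))) atTop
      (𝓝 ⟪ξ, (x : Op H) ξ⟫_ℂ) := by
    intro x
    have h := tendsto_tr W v' ξ hT (σ x)
    rwa [← hvv, hσ] at h
  have e1 : ∀ X : ∀ p, Mt (D p), Sm atTop X → ∀ᶠ p in atTop, hs (X p) ≤ ε * D p := by
    intro X hX
    filter_upwards [hX.eventually_le_const hε] with p hp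
    rwa [div_le_iff₀ (Nat.cast_pos.2 (hD p))] at hp
  have e2 : ∀ (f : Finset Γ × ℕ → ℂ) (c : ℂ), Tendsto f atTop (𝓝 c) → ∀ᶠ p in atTop, ‖f p - c‖ ≤ ε := by
    intro f c hf
    rw [tendsto_iff_norm_sub_tendsto_zero] at hf
    exact hf.eventually_le_const hε
  have E1 := e1 _ c1
  have E2 : ∀ᶠ p in atTop, ∀ x ∈ F, hs (Wl W p (σ (star x)) - (Wl W p (σ x))ᴴ) ≤ ε * D p :=
    (Filter.eventually_all_finset F).2 fun x _ => e1 _ (c2 x)
  have E3 : ∀ᶠ p in atTop, ∀ x ∈ F, ∀ y ∈ F,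
      hs (Wl W p (σ (x * y)) - Wl W p (σ x) * Wl W p (σ y)) ≤ ε * D p :=
    (Filter.eventually_all_finset F).2 fun x _ => (Filter.eventually_all_finset F).2 fun y _ =>
      e1 _ (c3 x y)
  have E4 : ∀ᶠ p in atTop, ∀ x ∈ F, ∀ y ∈ F,
      ‖ntr ((Wl W p (σ x))ᴴ * Wl W p (σ y)) - ⟪(x : Op H) ξ, (y : Op H) ξ⟫_ℂ‖ ≤ ε :=
    (Filter.eventually_all_finset F).2 fun x _ => (Filter.eventually_all_finset F).2 fun y _ =>
      e2 _ _ (c4 x y)
  have E5 : ∀ᶠ p in atTop, ∀ x ∈ F, ‖ntr (Wl W p (σ x)) - ⟪ξ, (x : Op H) ξ⟫_ℂ‖ ≤ ε :=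
    (Filter.eventually_all_finset F).2 fun x _ => e2 _ _ (c5 x)
  obtain ⟨p, p1, p2, p3, p4, p5⟩ := (E1.and (E2.and (E3.and (E4.and E5)))).exists
  have hle : ∀ (z : Γ →₀ ℂ), Le ((Wl W p z)ᴴ * Wl W p z)
      ((((∑ γ ∈ z.support, ‖z γ‖) ^ 2 + 1 : ℝ) : ℂ) • (1 : Mt (D p))) := by
    intro z
    have h1 := le_lin z.support (fun γ => z γ) (fun γ => W p γ) (hU p)
    rw [← hWl] at h1
    refine Le_trans h1 (Le_smul_right Matrix.PosSemidef.one ?_)
    linarith
  have hle' : ∀ (z : Γ →₀ ℂ), Le (Wl W p z * (Wl W p z)ᴴ)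
      ((((∑ γ ∈ z.support, ‖z γ‖) ^ 2 + 1 : ℝ) : ℂ) • (1 : Mt (D p))) := by
    intro z
    have h1 := le_lin z.support (fun γ => star (z γ)) (fun γ => (W p γ)ᴴ)
      (fun γ => by rw [Matrix.conjTranspose_conjTranspose]; exact unit_symm (hU p γ))
    have h2 : ∑ γ ∈ z.support, star (z γ) • (W p γ)ᴴ = (Wl W p z)ᴴ := by
      rw [hWl, Matrix.conjTranspose_sum]
      exact Finset.sum_congr rfl fun γ _ => (Matrix.conjTranspose_smul _ _).symm
    rw [h2, Matrix.conjTranspose_conjTranspose] at h1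
    simp only [norm_star] at h1
    refine Le_trans h1 (Le_smul_right Matrix.PosSemidef.one ?_)
    linarith
  exact ⟨D p, Wl W p ∘ₗ σ, hD p, ⟨fun x => hle _, fun x => hle' _, p1, p2, p3, p4, p5⟩⟩

end

end Pool.Agent.H71RE
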