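import Pool.Agent.H71RE.Stm
import Pool.Agent.N2.QW.Mat

/-!
# Project RE: from densities to matrices, keeping the trace (piece MAT2, helper78)

Adaptation of `Pool/Agent/N2/QW/Mat.lean` and `Pool/Agent/N2/QW/MatA.lean` (helper2).
-/

set_option autoImplicit false

namespace Pool.Agent.H71RE

open Matrix Finset Pool.Agent.H21R2 Pool.Agent.H80R2.HG
open Pool.Agent.N2.QW
open Pool.Agent.W661.RC (Mt hs Le)
open scoped ComplexOrder Matrix.Norms.Frobenius InnerProductSpace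

/-- the matrix data -/
structure MD2 {Γ : Type} [Group Γ] (A : Finset Γ) (M ε : ℝ) (τ : Γ → ℂ) {n N : ℕ}
    (B : Γ → Matrix (Fin n) (Fin n) ℂ) (Z : Matrix (Fin n) (Fin N) ℂ) : Prop where
  one : B 1 = 1
  op : ∀ g ∈ A, ∀ X : Matrix (Fin n) (Fin n) ℂ, ‖B g * X‖ ≤ M * ‖X‖
  nz : ‖Z‖ = 1
  inv : ∀ g ∈ A, ∀ V : unitaryGroup (Fin n) ℂ,
    ‖trace (Zᴴ * (V.1 * Z)) - trace ((B g * Z)ᴴ * (V.1 * (B g * Z)))‖ ≤ ε
  iso : ∀ g ∈ A, ‖(1 - (B g)ᴴ * B g) * Z‖ ^ 2 ≤ ε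
  mul : ∀ g ∈ A, ∀ h ∈ A, ‖(B (g * h) - B g * B h) * Z‖ ^ 2 ≤ ε
  tr : ∀ g ∈ A, ‖trace (Zᴴ * (B g * Z)) - τ g‖ ≤ ε

open Classical in
theorem toMD2 {Γ : Type} [Group Γ] (A : Finset Γ) (M ε : ℝ) (h1A : (1 : Γ) ∈ A)
    (K : Type) [NormedAddCommGroup K] [InnerProductSpace ℂ K] [CompleteSpace K]
    (b : Γ → (K →L[ℂ] K)) (N : ℕ) (ζ : Fin N → K) (hb1 : b 1 = 1) (hbM : ∀ g ∈ A, ‖b g‖ ≤ M)
    (hz : ∑ k, ‖ζ k‖ ^ 2 = 1)
    (hinv : ∀ g ∈ A, ∀ V : K →L[ℂ] K, ‖V‖ ≤ 1 →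
      ‖∑ k, (⟪ζ k, V (ζ k)⟫_ℂ - ⟪b g (ζ k), V (b g (ζ k))⟫_ℂ)‖ ≤ ε)
    (hiso : ∀ g ∈ A, ∑ k, ‖(1 - star (b g) * b g) (ζ k)‖ ^ 2 ≤ ε)
    (hmul : ∀ g ∈ A, ∀ h ∈ A, ∑ k, ‖(b (g * h) - b g * b h) (ζ k)‖ ^ 2 ≤ ε)
    (τ : Γ → ℂ) (htr : ∀ g ∈ A, ‖∑ k, ⟪ζ k, b g (ζ k)⟫_ℂ - τ g‖ ≤ ε) :
    ∃ (n N : ℕ) (B : Γ → Matrix (Fin n) (Fin n) ℂ) (Z : Matrix (Fin n) (Fin N) ℂ),
      MD2 A M ε τ B Z := by
  set s : Set K := ⋃ g ∈ A, Set.range (fun k => b g (ζ k)) with hs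
  have hfin : s.Finite := A.finite_toSet.biUnion fun g _ => Set.finite_range _
  set W : Submodule ℂ K := Submodule.span ℂ s with hW
  have : FiniteDimensional ℂ W := FiniteDimensional.span_of_finite ℂ hfin
  set bs := stdOrthonormalBasis ℂ W with hbs
  set e : Fin (Module.finrank ℂ W) → K := fun x => (bs x : K) with he'
  have he : Orthonormal ℂ e := bs.orthonormal.comp_linearIsometry W.subtypeₗᵢ
  have hsp : ∀ v ∈ W, Sp e v := by
    intro v hv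
    have h1 := congrArg (fun x : W => (x : K)) (bs.sum_repr' ⟨v, hv⟩)
    simp only [Submodule.coe_sum, Submodule.coe_smul] at h1
    exact h1.symm
  have hbW : ∀ g ∈ A, ∀ k, b g (ζ k) ∈ W := fun g hg k =>
    Submodule.subset_span (Set.mem_biUnion hg ⟨k, rfl⟩)
  have hζW : ∀ k, ζ k ∈ W := by
    intro k
    have := hbW 1 h1A k
    rwa [hb1] at this
  have hB : ∀ g, mt e (b g) * ZZ e ζ = ZZ e (fun k => b g (ζ k)) := fun g =>
    mt_mul_ZZ e (b g) ζ fun k => hsp _ (hζW k)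
  refine ⟨_, N, fun g => mt e (b g), ZZ e ζ, ?_, ?_, ?_, ?_, ?_, ?_, ?_⟩
  · show mt e (b 1) = 1
    rw [hb1, mt_one e he]
  · intro g hg X
    exact norm_mt_mul e he _ M (hbM g hg) X
  · rw [norm_eq, fro2_ZZ e ζ (fun k => hsp _ (hζW k)), hz, Real.sqrt_one]
  · intro g hg V
    rw [hB, trace_ZZ, trace_ZZ, ← sum_sub_distrib]
    exact hinv g hg _ (norm_Vop_le e he V)
  · intro g hg
    have h1 : (1 - (mt e (b g))ᴴ * mt e (b g)) * ZZ e ζ =
        ZZ e (fun k => (1 - star (b g) * b g) (ζ k)) := by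
      rw [Matrix.sub_mul, Matrix.one_mul, Matrix.mul_assoc, hB, ← mt_star,
        mt_mul_ZZ e _ _ (fun k => hsp _ (hbW g hg k)), ZZ_sub]
      rfl
    rw [norm_sq_eq, h1]
    exact (fro2_ZZ_le e he _).trans (hiso g hg)
  · intro g hg h hh
    have h1 : (mt e (b (g * h)) - mt e (b g) * mt e (b h)) * ZZ e ζ =
        ZZ e (fun k => (b (g * h) - b g * b h) (ζ k)) := by
      rw [Matrix.sub_mul, Matrix.mul_assoc, hB, hB,
        mt_mul_ZZ e _ _ (fun k => hsp _ (hbW h hh k)), ZZ_sub]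
      rfl
    rw [norm_sq_eq, h1]
    exact (fro2_ZZ_le e he _).trans (hmul g hg h hh)
  · intro g hg
    rw [hB, trace_ZZ' e _ _ (fun k => hsp _ (hbW g hg k))]
    exact htr g hg

theorem hs_eq_norm_sq {n m : ℕ} (X : Matrix (Fin n) (Fin m) ℂ) :
    Pool.Agent.W661.RC.hs X = ‖X‖ ^ 2 := by
  rw [norm_sq_eq]
  rfl

theorem mat2 (hLEV : S_LEV) : S_MAT2 := by
  classical
  intro Γ _ τ H A0 ε0 hε0
  set A : Finset Γ := insert 1 A0 with hA
  have h1A : (1 : Γ) ∈ A := mem_insert_self _ _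
  have hAA : ∀ g ∈ A0, g ∈ A := fun g hg => mem_insert_of_mem hg
  obtain ⟨M, hM⟩ := H A
  obtain ⟨δ, hδ0, hδ⟩ := hLEV Γ A (ε0 / 2) (by positivity)
  have hMp : 0 < 6 + |M| := by positivity
  have hsd : 0 < Real.sqrt δ := Real.sqrt_pos.2 hδ0
  set η : ℝ := min (min (1 / 4) (ε0 / 4)) (Real.sqrt δ / (6 + |M|)) with hη
  have hη0 : 0 < η := lt_min (lt_min (by norm_num) (by positivity)) (by positivity)
  have hη1 : η ≤ 1 / 4 := (min_le_left _ _).trans (min_le_left _ _)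
  have hη3 : η ≤ ε0 / 4 := (min_le_left _ _).trans (min_le_right _ _)
  have hη2 : (6 + |M|) * η ≤ Real.sqrt δ := by
    have : η ≤ Real.sqrt δ / (6 + |M|) := min_le_right _ _
    rw [le_div_iff₀ hMp] at this
    linarith
  have hp2 : η ^ 2 ≤ η := by nlinarith
  have hp4 : η ^ 4 ≤ η ^ 2 := by
    have : η ^ 4 = η ^ 2 * η ^ 2 := by ring
    rw [this]
    nlinarith [sq_nonneg η]
  obtain ⟨K, _, _, _, b, N, ζ, c1, c2, c3, c4, c5, c6, c7⟩ := hM (η ^ 4) (by positivity)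
  obtain ⟨n, N, B, Z, hD⟩ := toMD2 A M (η ^ 4) h1A K b N ζ c1 c2 c3 c4 c5 c6 τ c7
  have hM0 : 0 ≤ M := by
    have := c2 1 h1A
    exact (norm_nonneg _).trans this
  rw [abs_of_nonneg hM0] at hη2
  obtain ⟨T, hTp, hTT⟩ := exists_sqrt (Z * Zᴴ) (posSemidef_self_mul_conjTranspose Z)
  have hT : Tᴴ = T := hTp.1
  have hT1 := norm_T hT hTT hD.nz
  have hsq : ∀ {m : ℕ} (X : Matrix (Fin n) (Fin m) ℂ), ‖X‖ ^ 2 ≤ η ^ 4 → ‖X‖ ≤ η ^ 2 := by
    intro m X hX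
    refine le_of_sq_le_sq ?_ (by positivity)
    calc ‖X‖ ^ 2 ≤ η ^ 4 := hX
      _ = (η ^ 2) ^ 2 := by ring
  have hu : ∀ g, ∃ u : unitaryGroup (Fin n) ℂ,
      (g ∈ A → ‖u.1 * T - B g * T‖ ≤ η ∧ ‖T * u.1 - B g * T‖ ≤ η) := by
    intro g
    by_cases hgA : g ∈ A
    · obtain ⟨u, hu⟩ := exists_u hTp hTT hD.nz (B g) η hη0.le (hsq _ (hD.iso g hgA))
        (fun V => (hD.inv g hgA V).trans hp4)
      exact ⟨u, fun _ => hu⟩
    · exact ⟨1, fun h => absurd h hgA⟩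
  choose φ hφ using hu
  have hcomm : ∀ a ∈ A, ‖(φ a).1 * T - T * (φ a).1‖ ≤ 2 * η := by
    intro a ha
    have e1 : (φ a).1 * T - T * (φ a).1 = ((φ a).1 * T - B a * T) - (T * (φ a).1 - B a * T) := by
      abel
    rw [e1]
    refine (norm_sub_le _ _).trans ?_
    have := hφ a ha
    linarith [this.1, this.2]
  have hδs : ∀ x : ℝ, 0 ≤ x → x ≤ (6 + M) * η → x ^ 2 ≤ δ := by
    intro x hx0 hx
    calc x ^ 2 ≤ (Real.sqrt δ) ^ 2 := pow_le_pow_left₀ hx0 (hx.trans hη2) 2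
      _ = δ := Real.sq_sqrt hδ0.le
  have q1 : ∀ g ∈ A, Pool.Agent.W661.RC.hs ((φ g : Mt n) * T - T * (φ g : Mt n)) ≤ δ := by
    intro a ha
    rw [hs_eq_norm_sq]
    refine hδs _ (norm_nonneg _) ((hcomm a ha).trans ?_)
    nlinarith
  have q2 : ∀ g ∈ A, ∀ h ∈ A, g * h ∈ A →
      Pool.Agent.W661.RC.hs (((φ (g * h) : Mt n) - (φ g : Mt n) * (φ h : Mt n)) * T) ≤ δ := by
    intro a ha c hc hac
    rw [hs_eq_norm_sq]
    refine hδs _ (norm_nonneg _) ?_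
    have e1 : ((φ (a * c)).1 - (φ a).1 * (φ c).1) * T =
        ((φ (a * c)).1 * T - B (a * c) * T) + (B (a * c) - B a * B c) * T -
          B a * (T * (φ c).1 - B c * T) - ((φ a).1 * T - B a * T) * (φ c).1 -
          (φ a).1 * ((φ c).1 * T - T * (φ c).1) := by
      noncomm_ring
    have n1 := (hφ _ hac).1
    have n2 : ‖(B (a * c) - B a * B c) * T‖ ≤ η := by
      rw [norm_mul_T hT hTT]
      exact (hsq _ (hD.mul a ha c hc)).trans hp2
    have n3 : ‖B a * (T * (φ c).1 - B c * T)‖ ≤ M * η :=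
      (hD.op a ha _).trans (mul_le_mul_of_nonneg_left (hφ c hc).2 hM0)
    have n4 : ‖((φ a).1 * T - B a * T) * (φ c).1‖ ≤ η := by
      rw [norm_mul_unitary]
      exact (hφ a ha).1
    have n5 : ‖(φ a).1 * ((φ c).1 * T - T * (φ c).1)‖ ≤ 2 * η := by
      rw [norm_unitary_mul]
      exact hcomm c hc
    rw [e1]
    refine (norm_sub_le _ _).trans ?_
    refine (add_le_add_left (norm_sub_le _ _) _).trans ?_
    refine (add_le_add_left (add_le_add_left (norm_sub_le _ _) _) _).trans ?_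
    refine (add_le_add_left (add_le_add_left (add_le_add_left (norm_add_le _ _) _) _) _).trans ?_
    nlinarith
  obtain ⟨d, W, hd, hW1, hW2⟩ := hδ n T φ hTp (by rw [hs_eq_norm_sq, hT1, one_pow]) q1 q2
  refine ⟨d, W, hd, fun g hg h hh hgh => ?_, fun g hg => ?_⟩
  · refine (hW1 g (hAA g hg) h (hAA h hh) (hAA _ hgh)).trans ?_
    have : (0 : ℝ) ≤ (d : ℝ) := Nat.cast_nonneg d
    nlinarith
  · have h1 := hW2 g (hAA g hg)
    have h2 : ‖trace (T * T * (φ g).1) - τ g‖ ≤ 2 * η := by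
      have e1 : trace (T * T * (φ g).1) - τ g = trace (T * (T * (φ g).1 - B g * T)) +
          (trace (Zᴴ * (B g * Z)) - τ g) := by
        rw [← trace_TT hTT, Matrix.mul_sub, trace_sub]
        have : trace (T * (B g * T)) = trace (T * T * B g) := by
          rw [← Matrix.mul_assoc, Matrix.trace_mul_comm, Matrix.mul_assoc]
        rw [this, ← Matrix.mul_assoc]
        ring
      rw [e1]
      refine (norm_add_le _ _).trans ?_
      have h3 := norm_trace_mul_le T (T * (φ g).1 - B g * T)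
      rw [hT1, one_mul] at h3
      have h4 := (hφ g (hAA g hg)).2
      have h5 := (hD.tr g (hAA g hg)).trans (hp4.trans hp2)
      linarith
    have e2 : ntr (W g : Mt d) - τ g = (ntr (W g : Mt d) - trace (T * T * (φ g : Mt n))) +
        (trace (T * T * (φ g).1) - τ g) := by ring
    rw [e2]
    refine (norm_add_le _ _).trans ?_
    linarith

end Pool.Agent.H71RE
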