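import Pool.Agent.H71RE.MatL
import Pool.Agent.H71RE.Ex
import Pool.Agent.H71RE.STATE2
import Pool.Agent.H71RE.Lev
import Pool.Agent.H71RE.MAT2
import Pool.Agent.H71RE.KIR
import Pool.Agent.H71RE.Lin
import Pool.Agent.H71RE.FING
import Pool.Agent.H71RE.Key
import Pool.Agent.N52.ST.Final
import Pool.Agent.N289.SA.Pair

/-!
# A co-amenable subgroup whose von Neumann algebra inclusion is not relatively embeddable
-/

set_option autoImplicit false

namespace Pool.Agent.H71RE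

open Pool.Agent.N557.QW (RF)
open Pool.Agent.W661.RC (HasT)

/-- a subgroup of a residually finite group -/
theorem main (happ : S_APP) : ∃ (G : Type) (_ : Group G) (H : Subgroup G), Countable G ∧
    CoAmenable H ∧ ¬ RE (LH H) (Pool.Agent.N859.QW.LG G) (Pool.Agent.N859.QW.dl G)
      (Pool.Agent.N859.QW.LG H) (Pool.Agent.N859.QW.dl H) := by
  obtain ⟨G₀, _, K₀, hc, hrf, hG, hK, hgen, g₀, hg₀, k₀, hk₀, hn⟩ := Pool.Agent.N289.SA.s_pair
  obtain ⟨G, _, H, ι, hcG, hco, hrfH, hι⟩ := ex G₀ K₀ hc hrf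
  refine ⟨G, inferInstance, H, hcG, hco, fun hre => ?_⟩
  exact mat Pool.Agent.N52.ST.fm_main (lin (kir state2 (mat2 lev))) (key fing) fing G₀ K₀ hG hK hgen
    g₀ hg₀ k₀ hk₀ H hrfH fun E δ hδ => happ G₀ G K₀ H ι hι hre E _ hn δ hδ

end Pool.Agent.H71RE
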