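import Pool.Agent.W683.RC.Bas
import Pool.Agent.H80R2.HG.PS
import Pool.Agent.N52.ST.Stm

/-!
# Matrix lemmas: the weak 1-norm, words, nearest unitaries
-/

set_option autoImplicit false

open scoped ComplexOrder Kronecker
open Matrix Finset

namespace Pool.Agent.H71RE

open Pool.Agent.W661.RC (Mt hs Le HasT tr)
open Pool.Agent.W683.RC (hs_nonneg hs_add_le hs_sub_le sqrt_hs_add_le sqrt_hs_sub_le norm_trace_le
  hs_conjTranspose hs_unit_mul hs_mul_unit unit_conj hs_eq hs_sub_comm unit_symm hs_mul_le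
  hs_mul_le_right contr_conj hs_zero hs_neg hs_smul hs_sum_le)

noncomputable section

variable {ι : Type} [Fintype ι] [DecidableEq ι]

/-- the (unnormalised) 1-norm of `X` is at most `r` -/
def W1 (X : Matrix ι ι ℂ) (r : ℝ) : Prop :=
  ∀ Z : Matrix ι ι ℂ, Le (Zᴴ * Z) 1 → ‖trace (Z * X)‖ ≤ r

theorem W1.mono {X : Matrix ι ι ℂ} {r s : ℝ} (h : W1 X r) (hrs : r ≤ s) : W1 X s :=
  fun Z hZ => (h Z hZ).trans hrs

theorem W1.add {X Y : Matrix ι ι ℂ} {r s : ℝ} (h : W1 X r) (h' : W1 Y s) : W1 (X + Y) (r + s) := by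
  intro Z hZ
  rw [Matrix.mul_add, trace_add]
  exact (norm_add_le _ _).trans (add_le_add (h Z hZ) (h' Z hZ))

theorem W1.neg {X : Matrix ι ι ℂ} {r : ℝ} (h : W1 X r) : W1 (-X) r := by
  intro Z hZ
  rw [Matrix.mul_neg, trace_neg, norm_neg]
  exact h Z hZ

theorem W1.sub {X Y : Matrix ι ι ℂ} {r s : ℝ} (h : W1 X r) (h' : W1 Y s) : W1 (X - Y) (r + s) := by
  rw [sub_eq_add_neg]
  exact h.add h'.neg

theorem uh (U : unitaryGroup ι ℂ) : (U : Matrix ι ι ℂ)ᴴ * (U : Matrix ι ι ℂ) = 1 :=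
  Pool.Agent.H80R2.HG.PSAux.uh U

theorem hu (U : unitaryGroup ι ℂ) : (U : Matrix ι ι ℂ) * (U : Matrix ι ι ℂ)ᴴ = 1 :=
  Pool.Agent.H80R2.HG.PSAux.hu U

theorem le_unit {Z V : Matrix ι ι ℂ} (hZ : Le (Zᴴ * Z) 1) (hV : Vᴴ * V = 1) :
    Le ((Z * V)ᴴ * (Z * V)) 1 := by
  have h := Pool.Agent.W683.RC.Le_conj hZ V
  rw [Matrix.mul_one, hV] at h
  rw [conjTranspose_mul, Matrix.mul_assoc, ← Matrix.mul_assoc Zᴴ, ← Matrix.mul_assoc]
  exact h

theorem le_unit' {Z V : Matrix ι ι ℂ} (hZ : Le (Zᴴ * Z) 1) (hV : Vᴴ * V = 1) :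
    Le ((V * Z)ᴴ * (V * Z)) 1 := by
  rw [conjTranspose_mul, Matrix.mul_assoc, ← Matrix.mul_assoc Vᴴ, hV, Matrix.one_mul]
  exact hZ

theorem le_of_unit {V : Matrix ι ι ℂ} (hV : Vᴴ * V = 1) : Le (Vᴴ * V) 1 := by
  rw [hV]
  exact Pool.Agent.W683.RC.Le_refl _

theorem W1.unit_mul {X V : Matrix ι ι ℂ} {r : ℝ} (h : W1 X r) (hV : Vᴴ * V = 1) : W1 (V * X) r := by
  intro Z hZ
  rw [← Matrix.mul_assoc]
  exact h _ (le_unit hZ hV)

theorem W1.mul_unit {X V : Matrix ι ι ℂ} {r : ℝ} (h : W1 X r) (hV : Vᴴ * V = 1) : W1 (X * V) r := by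
  intro Z hZ
  rw [← Matrix.mul_assoc, trace_mul_comm, ← Matrix.mul_assoc]
  exact h _ (le_unit' hZ hV)

/-- product of two matrices -/
theorem W1_mul (X Y : Matrix ι ι ℂ) : W1 (X * Y) (√(hs X) * √(hs Y)) := by
  intro Z hZ
  rw [← Matrix.mul_assoc]
  have h := norm_trace_le ((Z * X)ᴴ) Y
  rw [conjTranspose_conjTranspose, hs_conjTranspose] at h
  refine h.trans ?_
  exact mul_le_mul_of_nonneg_right (Real.sqrt_le_sqrt (hs_mul_le hZ X)) (Real.sqrt_nonneg _)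

theorem hs_one : hs (1 : Matrix ι ι ℂ) = Fintype.card ι := by
  rw [hs_eq]
  simp

theorem W1_hs (X : Matrix ι ι ℂ) : W1 X (√(Fintype.card ι) * √(hs X)) := by
  have h := W1_mul (1 : Matrix ι ι ℂ) X
  rwa [Matrix.one_mul, hs_one] at h

/-- the difference of two unitaries -/
theorem W1.hs_le {A B : Matrix ι ι ℂ} {r : ℝ} (hA : Aᴴ * A = 1) (hB : Bᴴ * B = 1)
    (h : W1 (A - B) r) : hs (A - B) ≤ 2 * r := by
  have h1 := h Aᴴ (le_of_unit (unit_conj hA))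
  have h2 := h Bᴴ (le_of_unit (unit_conj hB))
  have e : trace ((A - B)ᴴ * (A - B)) = trace (Aᴴ * (A - B)) - trace (Bᴴ * (A - B)) := by
    rw [conjTranspose_sub, Matrix.sub_mul, trace_sub]
  rw [hs_eq, e]
  refine (Complex.re_le_norm _).trans ((norm_sub_le _ _).trans ?_)
  linarith

/-- nearest unitary -/
theorem near_unit (X : Matrix ι ι ℂ) :
    ∃ U : unitaryGroup ι ℂ, hs (X - (U : Matrix ι ι ℂ)) ≤ hs (Xᴴ * X - 1) := by
  obtain ⟨u, P, hP, hX, hPP⟩ := Pool.Agent.H80R2.HG.PSAux.polar X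
  refine ⟨u, ?_⟩
  have e1 : X - (u : Matrix ι ι ℂ) = (u : Matrix ι ι ℂ) * (P - 1) := by
    rw [Matrix.mul_sub, Matrix.mul_one]
    exact congrArg (· - (u : Matrix ι ι ℂ)) hX
  rw [e1, hs_unit_mul (uh u), ← hPP]
  have e2 : P * P - 1 = (P + 1) * (P - 1) := by noncomm_ring
  rw [e2]
  have e3 : hs ((P + 1) * (P - 1)) = hs (P - 1) + (hs (P * (P - 1)) +
      2 * tr ((P - 1)ᴴ * P * (P - 1))) := by
    have hPh : Pᴴ = P := hP.1
    rw [hs_eq, hs_eq, hs_eq, tr]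
    have : ((P + 1) * (P - 1))ᴴ * ((P + 1) * (P - 1)) = (P - 1)ᴴ * (P - 1) +
        ((P * (P - 1))ᴴ * (P * (P - 1)) + ((P - 1)ᴴ * P * (P - 1) + (P - 1)ᴴ * P * (P - 1))) := by
      rw [conjTranspose_mul, conjTranspose_mul, conjTranspose_add, hPh, conjTranspose_one]
      noncomm_ring
    rw [this, trace_add, trace_add, trace_add, Complex.add_re, Complex.add_re, Complex.add_re]
    ring
  have h4 : 0 ≤ tr ((P - 1)ᴴ * P * (P - 1)) :=
    Pool.Agent.W683.RC.tr_nonneg (hP.conjTranspose_mul_mul_same _)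
  rw [e3]
  have := hs_nonneg (P * (P - 1))
  linarith

/-- words in unitaries, compared with a family of matrices which is almost equivariant -/
theorem word {G : Type} [Group G] {n : ℕ} (γ : FreeGroup (Fin n) →* G) (w : FreeGroup (Fin n)) :
    ∀ g : G, ∃ (E : Finset G) (c : ℝ), 0 ≤ c ∧ ∀ (ι : Type) [Fintype ι] [DecidableEq ι]
      (U : Fin n → unitaryGroup ι ℂ) (X : G → Matrix ι ι ℂ) (r : ℝ), 0 ≤ r →
      (∀ i, ∀ h ∈ E, W1 ((U i : Matrix ι ι ℂ) * X h - X (γ (FreeGroup.of i) * h)) r) →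
      W1 ((FreeGroup.lift U w : Matrix ι ι ℂ) * X g - X (γ w * g)) (c * r) := by
  classical
  induction w using FreeGroup.induction_on with
  | C1 =>
    intro g
    refine ⟨∅, 0, le_rfl, ?_⟩
    intro ι _ _ U X r _ _ Z _
    rw [map_one, map_one, one_mul]
    simp
  | of s =>
    intro g
    refine ⟨{g}, 1, zero_le_one, ?_⟩
    intro ι _ _ U X r _ h
    rw [one_mul, FreeGroup.lift_apply_of]
    exact h s g (by simp)
  | inv_of s _ =>
    intro g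
    refine ⟨{(γ (FreeGroup.of s))⁻¹ * g}, 1, zero_le_one, ?_⟩
    intro ι _ _ U X r _ h
    have h1 := h s ((γ (FreeGroup.of s))⁻¹ * g) (by simp)
    rw [mul_inv_cancel_left] at h1
    rw [one_mul, map_inv, map_inv, FreeGroup.lift_apply_of]
    have e : ((U s)⁻¹ : unitaryGroup ι ℂ).1 * X g - X ((γ (FreeGroup.of s))⁻¹ * g) =
        -((U s).1ᴴ * ((U s).1 * X ((γ (FreeGroup.of s))⁻¹ * g) - X g)) := by
      rw [Matrix.mul_sub, ← Matrix.mul_assoc, uh, Matrix.one_mul, neg_sub]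
      rfl
    rw [e]
    exact (h1.unit_mul (unit_conj (uh (U s)))).neg
  | mul v w hv hw =>
    intro g
    obtain ⟨E1, c1, hc1, h1⟩ := hw g
    obtain ⟨E2, c2, hc2, h2⟩ := hv (γ w * g)
    refine ⟨E1 ∪ E2, c1 + c2, add_nonneg hc1 hc2, ?_⟩
    intro ι _ _ U X r hr h
    have k1 := h1 ι U X r hr fun i x hx => h i x (mem_union_left _ hx)
    have k2 := h2 ι U X r hr fun i x hx => h i x (mem_union_right _ hx)
    rw [map_mul, map_mul, mul_assoc (γ v)]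
    have e : ((FreeGroup.lift U v * FreeGroup.lift U w : unitaryGroup ι ℂ) : Matrix ι ι ℂ) * X g -
        X (γ v * (γ w * g)) =
        (FreeGroup.lift U v : Matrix ι ι ℂ) *
          ((FreeGroup.lift U w : Matrix ι ι ℂ) * X g - X (γ w * g)) +
        ((FreeGroup.lift U v : Matrix ι ι ℂ) * X (γ w * g) - X (γ v * (γ w * g))) := by
      rw [UnitaryGroup.mul_val]
      noncomm_ring
    rw [e, add_mul]
    exact (k1.unit_mul (uh _)).add k2

/-! ### The finite form of the theorem for arbitrary index types -/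

section reidx

variable {N : ℕ} (e : ι ≃ Fin N)

/-- reindexing unitaries -/
def ri : unitaryGroup ι ℂ →* unitaryGroup (Fin N) ℂ where
  toFun U := ⟨Matrix.reindexAlgEquiv ℂ ℂ e (U : Matrix ι ι ℂ), by
    rw [Matrix.mem_unitaryGroup_iff']
    have h1 : star (Matrix.reindexAlgEquiv ℂ ℂ e (U : Matrix ι ι ℂ)) =
        Matrix.reindexAlgEquiv ℂ ℂ e (U : Matrix ι ι ℂ)ᴴ := by
      simp [star_eq_conjTranspose, Matrix.conjTranspose_submatrix]
    rw [h1, ← map_mul, uh, map_one]⟩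
  map_one' := by
    apply Subtype.ext
    exact map_one (Matrix.reindexAlgEquiv ℂ ℂ e)
  map_mul' U V := by
    apply Subtype.ext
    exact map_mul (Matrix.reindexAlgEquiv ℂ ℂ e) (U : Matrix ι ι ℂ) (V : Matrix ι ι ℂ)

theorem hs_ri (X : Matrix ι ι ℂ) : hs (Matrix.reindexAlgEquiv ℂ ℂ e X) = hs X := by
  unfold hs
  rw [← e.sum_comp]
  refine sum_congr rfl fun i _ => ?_
  rw [← e.sum_comp]
  simp

theorem le_ri {X : Matrix ι ι ℂ} (h : Le (Xᴴ * X) 1) :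
    Le ((Matrix.reindexAlgEquiv ℂ ℂ e X)ᴴ * Matrix.reindexAlgEquiv ℂ ℂ e X) 1 := by
  unfold Le at *
  have h1 : (1 : Matrix (Fin N) (Fin N) ℂ) - (Matrix.reindexAlgEquiv ℂ ℂ e X)ᴴ *
      Matrix.reindexAlgEquiv ℂ ℂ e X = (1 - Xᴴ * X).submatrix e.symm e.symm := by
    have h2 : (Matrix.reindexAlgEquiv ℂ ℂ e X)ᴴ = Matrix.reindexAlgEquiv ℂ ℂ e Xᴴ := by
      simp [Matrix.conjTranspose_submatrix]
    rw [h2, ← map_mul, ← map_one (Matrix.reindexAlgEquiv ℂ ℂ e), ← map_sub]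
    simp
  rw [h1]
  exact h.submatrix _

end reidx

/-- the conclusion of `S_FM` for arbitrary finite index types -/
theorem fm_gen (hfm : Pool.Agent.N52.ST.S_FM) (G : Type) [Group G] (K : Subgroup G) (hG : HasT G)
    (hK : HasT K) (hgen : Subgroup.closure {g : G | ∀ k ∈ K, g⁻¹ * k * g ∈ K} = ⊤)
    (n : ℕ) (γ : FreeGroup (Fin n) →* G) (hγ : Function.Surjective γ)
    (g : G) (hg : ∀ k ∈ K, g⁻¹ * k * g ∈ K) (x : FreeGroup (Fin n)) (hx : g⁻¹ * γ x * g ∈ K)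
    (ε : ℝ) (hε : 0 < ε) : ∃ (δ : ℝ) (R S : Finset (FreeGroup (Fin n))), 0 < δ ∧
      (∀ w ∈ R, γ w = 1) ∧ (∀ w ∈ S, γ w ∈ K) ∧
      ∀ (ι : Type) [Fintype ι] [DecidableEq ι] [Nonempty ι] (U : Fin n → unitaryGroup ι ℂ)
        (V : Matrix ι ι ℂ),
        (∀ w ∈ R, hs ((FreeGroup.lift U w : Matrix ι ι ℂ) - 1) ≤ δ * Fintype.card ι) →
        Le (Vᴴ * V) 1 →
        (∀ w ∈ S, hs ((FreeGroup.lift U w : Matrix ι ι ℂ) * V -
          V * (FreeGroup.lift U w : Matrix ι ι ℂ)) ≤ δ * Fintype.card ι) →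
        hs ((FreeGroup.lift U x : Matrix ι ι ℂ) * V - V * (FreeGroup.lift U x : Matrix ι ι ℂ)) ≤
          ε * Fintype.card ι := by
  obtain ⟨δ, R, S, hδ, hR, hS, h⟩ := hfm G K hG hK hgen n γ hγ g hg x hx ε hε
  refine ⟨δ, R, S, hδ, hR, hS, ?_⟩
  intro ι _ _ _ U V h1 h2 h3
  set e := Fintype.equivFin ι with he
  have hl : ∀ w : FreeGroup (Fin n), ((FreeGroup.lift (fun i => ri e (U i)) w : unitaryGroup _ ℂ) :
      Matrix _ _ ℂ) = Matrix.reindexAlgEquiv ℂ ℂ e (FreeGroup.lift U w : Matrix ι ι ℂ) := by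
    intro w
    have h4 : FreeGroup.lift (fun i => ri e (U i)) = (ri e).comp (FreeGroup.lift U) := by
      ext1 i
      simp
    rw [h4]
    rfl
  have key := h (Fintype.card ι) (fun i => ri e (U i)) (Matrix.reindexAlgEquiv ℂ ℂ e V)
    Fintype.card_pos (fun w hw => ?_) (le_ri e h2) (fun w hw => ?_)
  · rw [hl, ← map_mul, ← map_mul, ← map_sub, hs_ri] at key
    exact key
  · have h5 := h1 w hw
    rw [← hs_ri e, map_sub, map_one, ← hl w] at h5
    exact h5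
  · have h5 := h3 w hw
    rw [hl, ← map_mul, ← map_mul, ← map_sub, hs_ri]
    exact h5

end

end Pool.Agent.H71RE
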