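import Pool.Agent.H71RE.Defs
import Pool.Agent.N557.QW.Stm
import Pool.Agent.W661.RC.Defs

/-!
# Project RE (MP_56a53b_an): statements of the pieces

Goal: a countable group `G` with a co-amenable subgroup `H` such that `L(H) ⊆ L(G)` is not
RE/`L(H)` (the case `N = ℂ` of the question; full negative answer).

Owner: helper71. The pieces are `theorem <name> : S_<NAME>` (or `(h : S_...) : S_<NAME>` where the
docstring says so) in the file `Pool/Agent/H71RE/<Name>.lean`, namespace `Pool.Agent.H71RE`.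
`hs` is the SQUARED, UNNORMALISED Hilbert-Schmidt norm, `Mt d` the complex `d × d` matrices and
`Le a b` means `a ≤ b` (all from `Pool/Agent/W661/RC/Defs.lean`; many lemmas on `hs` and `Le` are in
`Pool/Agent/W683/RC`, `Pool/Agent/W661/RC`, `Pool/Agent/N303/KQ/Alg.lean`).
-/

set_option autoImplicit false

open scoped InnerProductSpace ComplexOrder CStarAlgebra
open Filter Topology Matrix Finset

namespace Pool.Agent.H71RE

open Pool.Agent.N557.QWX (Op IsTracial IsHom)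
open Pool.Agent.N557.QW (RF)
open Pool.Agent.N859.QX (QWEP)
open Pool.Agent.W661.RC (Mt hs Le)

noncomputable section

/-- the normalised trace -/
def ntr {d : ℕ} (x : Mt d) : ℂ := trace x / d

/-- **EX** (pure group theory, ~200 lines). The example. Let `B` be the group of functions
`f : ℤ → G₀` with finite support (pointwise product), `G = B ⋊ ℤ` (shift), and
`H = {f ∈ B : f n ∈ K₀ for all n ≥ 0}`, `ι g` = the function with value `g` at `0`. With `t` the
shift, `t^j H t^{-j} = {f : f n ∈ K₀ for n ≥ j}` (choose the direction of the shift such that this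
holds) increases to `B`. Mean: `m f = lim_U (1/(N+1)) ∑_{j ≤ N} f (t^j H)` along an ultrafilter
`U ≤ atTop` (use `Filter.Tendsto`/`Ultrafilter.lim`, bounded sequences): for `b ∈ B` one has
`b t^j H = t^j H` for all large `j`, and the shift changes the averages by at most `2R/(N+1)`.
`G₀` is countable, so are `B` and `G`. `H` is residually finite: a finite subset of `B` is separated
by finitely many coordinates, each coordinate is in the residually finite group `G₀`. -/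
def S_EX : Prop :=
  ∀ (G₀ : Type) [Group G₀] (K₀ : Subgroup G₀), Countable G₀ → RF G₀ →
    ∃ (G : Type) (_ : Group G) (H : Subgroup G) (ι : G₀ →* G), Countable G ∧ CoAmenable H ∧
      RF H ∧ ∀ g, ι g ∈ H ↔ g ∈ K₀

/-- The data of `S_STATE` of `Pool/Agent/N859/QW/Stm.lean` without the condition on the traces. -/
structure Dt2 {H : Type} [NormedAddCommGroup H] [InnerProductSpace ℂ H] [CompleteSpace H]
    (N : VonNeumannAlgebra H) {Γ : Type} [Group Γ] (u : Γ →* unitary (H →L[ℂ] H))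
    (r : Γ → (H →L[ℂ] H)) (ξ : H) : Prop where
  mem : ∀ g, (u g : H →L[ℂ] H) ∈ N
  com : ∀ g, ∀ x ∈ N, x * r g = r g * x
  unit : ‖ξ‖ = 1
  eq1 : ∀ g, r g ξ = (u g : H →L[ℂ] H) ξ
  eq2 : ∀ g, star (r g) ξ = (star (u g : H →L[ℂ] H)) ξ

/-- **STATE2** (adaptation of an existing proof, `Pool/Agent/N286/QW/STATE.lean`, theorem
`t_state`, 259 lines, with `Pool/Agent/N833/QW/BIM.lean`): the same statement and the same proof
without the hypothesis `orth`; the last conclusion becomes `φ (b g) = ⟪ξ, u g ξ⟫`. -/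
def S_STATE2 : Prop :=
  ∀ (H : Type) [NormedAddCommGroup H] [InnerProductSpace ℂ H] [CompleteSpace H]
    (N : VonNeumannAlgebra H) (Γ : Type) [Group Γ] (u : Γ →* unitary (H →L[ℂ] H))
    (r : Γ → (H →L[ℂ] H)) (ξ : H), Pool.Agent.N859.QW.QWEP N → Dt2 N u r ξ →
    ∃ (K : Type) (_ : NormedAddCommGroup K) (_ : InnerProductSpace ℂ K) (_ : CompleteSpace K)
      (b : Γ → (K →L[ℂ] K)) (φ : (K →L[ℂ] K) →ₗ[ℂ] ℂ),
      b 1 = 1 ∧ φ 1 = 1 ∧ (∀ T, φ (star T) = star (φ T)) ∧ (∀ T, 0 ≤ (φ (star T * T)).re) ∧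
      (∀ g V, φ (star (b g) * V * b g) = φ V) ∧
      (∀ g, φ (star (1 - star (b g) * b g) * (1 - star (b g) * b g)) = 0) ∧
      (∀ g h, φ (star (b (g * h) - b g * b h) * (b (g * h) - b g * b h)) = 0) ∧
      ∀ g, φ (b g) = ⟪ξ, (u g : H →L[ℂ] H) ξ⟫_ℂ

/-- **LEV** (pure matrices, ~200 lines): from a weight `T²` to the normalised trace (Connes).
Diagonalise: `T = diag(f_i)` (conjugate everything by a unitary). For a large integer `M` put
`N_i = ⌊M f_i²⌋`, `D = ∑ N_i` (so `M - n < D ≤ M`), and for a matrix `x` let `x~` be the matrix on the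
index set `{(i,j) : j < N_i}` with entries `x_{i i'}` if `j = j'` and `0` otherwise, i.e.
`x~ = ⊕_j P_j x P_j`, `P_j` the projection on the `i` with `N_i > j`. Then
`Tr (x~) = ∑ N_i x_{ii} ≈ M Tr (T² x)`; `hs (x~) ≤ M hs (x T)` (as `min (N_i, N_i') ≤ M f_i'²`);
`hs (x~ y~ - (x y)~) ≤ ∑_{i,i'} |x_{ii'}|² (N_i - N_i')_+` for contractions `y`, and for unitary `x`
`∑ |x_{ii'}|² |f_i² - f_i'²| ≤ (∑ |x_{ii'}|² (f_i - f_i')²)^{1/2} (∑ |x_{ii'}|² (f_i + f_i')²)^{1/2}
≤ hs (x T - T x)^{1/2} * 2`, while `|N_i - N_i'| ≤ M |f_i² - f_i'²| + 1` (the `+1` costs `n` in total,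
negligible for `M → ∞`). So `u_g~` is a contraction, almost isometric; take a unitary `W_g` close
to it: for a square matrix `X` there is a unitary `W` with `hs (X - W) ≤ hs (Xᴴ X - 1)` (polar
decomposition, `Pool/Agent/H80R2/HG/PS.lean`), and for a contraction also `≤ Tr (1 - Xᴴ X)`. -/
def S_LEV : Prop :=
  ∀ (Γ : Type) [Group Γ] (A : Finset Γ) (ε : ℝ), 0 < ε → ∃ δ : ℝ, 0 < δ ∧
    ∀ (n : ℕ) (T : Mt n) (u : Γ → unitaryGroup (Fin n) ℂ), T.PosSemidef → hs T = 1 →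
      (∀ g ∈ A, hs ((u g : Mt n) * T - T * (u g : Mt n)) ≤ δ) →
      (∀ g ∈ A, ∀ h ∈ A, g * h ∈ A → hs (((u (g * h) : Mt n) - (u g : Mt n) * (u h : Mt n)) * T) ≤ δ) →
      ∃ (d : ℕ) (W : Γ → unitaryGroup (Fin d) ℂ), 0 < d ∧
        (∀ g ∈ A, ∀ h ∈ A, g * h ∈ A →
          hs ((W (g * h) : Mt d) - (W g : Mt d) * (W h : Mt d)) ≤ ε * d) ∧
        ∀ g ∈ A, ‖ntr (W g : Mt d) - trace (T * T * (u g : Mt n))‖ ≤ ε

/-- **MAT2** (~150 lines, from `S_LEV`): from densities to matrices, keeping the trace; adaptation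
of the proof of `t_mat` (`Pool/Agent/N2/QW/Mat.lean`, `MatA.lean`: `toMD`, `exists_sqrt`,
`exists_u`, `trace_TT`), where the trace values `τ g` replace the condition for `g ≠ 1` (in `MatA.lean`
the corresponding field of the structure has to be changed accordingly; copy what is needed), and
`S_LEV` replaces the criterion for hyperlinearity. File with `theorem mat2 (h : S_LEV) : S_MAT2`. -/
def S_MAT2 : Prop :=
  ∀ (Γ : Type) [Group Γ] (τ : Γ → ℂ),
    (∀ A : Finset Γ, ∃ M : ℝ, ∀ ε : ℝ, 0 < ε →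
      ∃ (K : Type) (_ : NormedAddCommGroup K) (_ : InnerProductSpace ℂ K) (_ : CompleteSpace K)
        (b : Γ → (K →L[ℂ] K)) (N : ℕ) (ζ : Fin N → K), b 1 = 1 ∧ (∀ g ∈ A, ‖b g‖ ≤ M) ∧
        ∑ k, ‖ζ k‖ ^ 2 = 1 ∧
        (∀ g ∈ A, ∀ V : K →L[ℂ] K, ‖V‖ ≤ 1 →
          ‖∑ k, (⟪ζ k, V (ζ k)⟫_ℂ - ⟪b g (ζ k), V (b g (ζ k))⟫_ℂ)‖ ≤ ε) ∧
        (∀ g ∈ A, ∑ k, ‖(1 - star (b g) * b g) (ζ k)‖ ^ 2 ≤ ε) ∧
        (∀ g ∈ A, ∀ h ∈ A, ∑ k, ‖(b (g * h) - b g * b h) (ζ k)‖ ^ 2 ≤ ε) ∧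
        ∀ g ∈ A, ‖∑ k, ⟪ζ k, b g (ζ k)⟫_ℂ - τ g‖ ≤ ε) →
    ∀ (A : Finset Γ) (ε : ℝ), 0 < ε → ∃ (d : ℕ) (W : Γ → unitaryGroup (Fin d) ℂ), 0 < d ∧
      (∀ g ∈ A, ∀ h ∈ A, g * h ∈ A →
        hs ((W (g * h) : Mt d) - (W g : Mt d) * (W h : Mt d)) ≤ ε * d) ∧
      ∀ g ∈ A, ‖ntr (W g : Mt d) - τ g‖ ≤ ε

/-- **KIR** (~100 lines, from `S_STATE2`, `S_MAT2`, the existing `Pool.Agent.N163.QW.t_day :
Pool.Agent.N859.QW.S_DAY` and the existing right multiplication `Pool.Agent.N557.QW.S_RT`, see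
`Pool/Agent/N557/QW`; the proof of `qh_of` in `Pool/Agent/N859/QW/Stm.lean` is the model, with the
`X j` for the traces replaced by `b g - ⟪ξ, u g ξ⟫ • 1`): matrix models of a group of unitaries in a
QWEP finite von Neumann algebra. `theorem kir (h1 : S_STATE2) (h2 : S_MAT2) : S_KIR`. -/
def S_KIR : Prop :=
  ∀ (H : Type) [NormedAddCommGroup H] [InnerProductSpace ℂ H] [CompleteSpace H]
    (N : VonNeumannAlgebra H) (ξ : H), IsTracial N ξ → QWEP N →
    ∀ (Γ : Type) [Group Γ] (u : Γ →* unitary (H →L[ℂ] H)), (∀ g, (u g : H →L[ℂ] H) ∈ N) →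
    ∀ (A : Finset Γ) (ε : ℝ), 0 < ε → ∃ (d : ℕ) (W : Γ → unitaryGroup (Fin d) ℂ), 0 < d ∧
      (∀ g ∈ A, ∀ h ∈ A, g * h ∈ A →
        hs ((W (g * h) : Mt d) - (W g : Mt d) * (W h : Mt d)) ≤ ε * d) ∧
      ∀ g ∈ A, ‖ntr (W g : Mt d) - ⟪ξ, (u g : H →L[ℂ] H) ξ⟫_ℂ‖ ≤ ε

/-- A linear matrix model `a` of the finite von Neumann algebra `(N, ξ)`, good up to `ε` on the
finite set `F`, with operator norm bounds `ν`. -/
structure Model {H : Type} [NormedAddCommGroup H] [InnerProductSpace ℂ H] [CompleteSpace H]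
    (N : VonNeumannAlgebra H) (ξ : H) (ν : N.toStarSubalgebra → ℝ)
    (F : Finset N.toStarSubalgebra) (ε : ℝ) {d : ℕ} (a : N.toStarSubalgebra →ₗ[ℂ] Mt d) : Prop where
  le : ∀ x, Le ((a x)ᴴ * a x) ((ν x : ℂ) • (1 : Mt d))
  le' : ∀ x, Le (a x * (a x)ᴴ) ((ν x : ℂ) • (1 : Mt d))
  one : hs (a 1 - 1) ≤ ε * d
  star : ∀ x ∈ F, hs (a (star x) - (a x)ᴴ) ≤ ε * d
  mul : ∀ x ∈ F, ∀ y ∈ F, hs (a (x * y) - a x * a y) ≤ ε * d
  trace : ∀ x ∈ F, ∀ y ∈ F, ‖ntr ((a x)ᴴ * a y) - ⟪(x : Op H) ξ, (y : Op H) ξ⟫_ℂ‖ ≤ ε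
  tr : ∀ x ∈ F, ‖ntr (a x) - ⟪ξ, (x : Op H) ξ⟫_ℂ‖ ≤ ε

/-- **LIN** (~150 lines, from `S_KIR`). `N.toStarSubalgebra` is a C*-algebra (norm closed), so it is
spanned by its unitaries (Mathlib: `CStarAlgebra.span_unitary` or the decomposition of a
self-adjoint contraction `x = (u + u*)/2`, `u = x + i √(1 - x²)`, which exists in the library too).
Choose a basis `(b_i)` of the complex vector space `N` consisting of unitaries. Put
`a (b_i) = W (b_i)` with `W` from `S_KIR` for the group `Γ` of all unitaries of `N` and a finite set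
`A` of unitaries containing `1`, all `b_i, b_i⁻¹` used by the elements of `F, F*, F F, 1` and products
of up to 4 of them; `a` is extended linearly. `ν x = (∑ |c_i|)² + 1` for `x = ∑ c_i b_i`. All errors are
values of `ntr (Pᴴ P)` for fixed linear combinations `P = ∑ c_g W g` (or with products `W g W h`),
which tend to the corresponding `‖(∑ c_g g) ξ‖²`. `theorem lin (h : S_KIR) : S_LIN`. -/
def S_LIN : Prop :=
  ∀ (H : Type) [NormedAddCommGroup H] [InnerProductSpace ℂ H] [CompleteSpace H]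
    (N : VonNeumannAlgebra H) (ξ : H), IsTracial N ξ → QWEP N →
    ∃ ν : N.toStarSubalgebra → ℝ, (∀ x, 0 < ν x) ∧
      ∀ (F : Finset N.toStarSubalgebra) (ε : ℝ), 0 < ε →
        ∃ (d : ℕ) (a : N.toStarSubalgebra →ₗ[ℂ] Mt d), 0 < d ∧ Model N ξ ν F ε a

/-- **FING** (~200 lines): a finite-dimensional unital `*`-subalgebra `D` of a C*-algebra is spanned
by a finite group of unitaries of `D`. Proof: `D` is semisimple (it has no nilpotent ideals, since
`x* x = 0` implies `x = 0`), so by Wedderburn-Artin `D ≃ₐ[ℂ] Π i, Matrix (Fin (n i)) (Fin (n i)) ℂ`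
(Mathlib: `IsSemisimpleRing.exists_algEquiv_pi_matrix_of_isAlgClosed`). The signed permutation
matrices form a finite group of invertible elements which spans the product; carry it back to `D`:
a finite group `Q` and `w : Q →* Dˣ` with span `D`. Make it unitary: `S = ∑_q (w q)* (w q)` is
positive and invertible (`S ≥ 1`), `(w q)* S (w q) = S`, so with `R = √S` the elements
`u q = R (w q) R⁻¹` are unitary, and they span `R D R⁻¹ = D`. -/
def S_FING : Prop :=
  ∀ (A : Type) [CStarAlgebra A] (D : StarSubalgebra ℂ A), FiniteDimensional ℂ D →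
    ∃ (Q : Type) (_ : Group Q) (_ : Fintype Q) (u : Q →* unitary A), (∀ q, (u q : A) ∈ D) ∧
      ∀ x ∈ D, x ∈ Submodule.span ℂ (Set.range fun q => (u q : A))

/-- The average of `Vᴴ y V` over a finite group of unitaries. -/
def Eav {J : Type} [Fintype J] [Group J] {d : ℕ} (V : J →* unitaryGroup (Fin d) ℂ) (y : Mt d) :
    Mt d :=
  ((Fintype.card J : ℂ)⁻¹) • ∑ j, (V j : Mt d)ᴴ * y * (V j : Mt d)

/-- **KEY** (~250 lines, from `S_FING`). For an almost representation `φ` of a finite group `Q` there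
is a finite group `J` of unitaries `V j` almost commuting with the `φ v`, such that for every
contraction `y` its average `E(y)` satisfies `E(y) C ≈ ∑_v tr(φ(v)* y) φ(v)`, `C = ∑_v tr(φ(v)*) φ(v)`.
Proof. Apply `Pool.Agent.N52.NH.BLK.main` (`S_BLK` of `Pool/Agent/N52/NH/Stm.lean`) to the group
`Q` (finite, so `HasT`; the library has this), with `k = card Q`, `γ` the map of the free group on
the elements of `Q` and `U v = φ v`; it gives a block algebra `O.alg` (a `*`-algebra of matrices)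
whose contractions almost commute with the `φ v` (`BlkA.en`) and which contains up to a small error
every contraction which almost commutes with them (`BlkA.near`). Let `J`, `V` be a finite group of
unitaries spanning the unital `*`-algebra `O.alg + ℂ 1` (`S_FING` for `Mt d` with the C*-norm). Then
`E` maps to the commutant of `O.alg`, and `V j` almost commutes with `φ v` (`V j = a + c 1`, norms
are bounded by 1 or 2). Let `(W ω)` be unitaries forming an orthonormal basis of `Mt d` for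
`ntr(xᴴ y)`, e.g. the products of powers of the cyclic shift and the diagonal matrix of roots of
unity (or signed shifts averaged), so that `(1/d²) ∑_ω W z Wᴴ = ntr(z) 1`. For each `ω` put
`P(W) = avg_v φ(v) W φ(v)ᴴ`; it is a contraction almost commuting with the `φ v`, hence close to
`O.alg` and almost commuting with `E(y)` (a contraction in the commutant of `O.alg`). Therefore
`0 ≈ (1/d²) ∑_ω (E(y) P(W) - P(W) E(y)) Wᴴ = E(y) avg_v φ(v) ntr(φ(v)ᴴ) - avg_v φ(v) ntr(φ(v)ᴴ E(y))`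
and `ntr(φ(v)ᴴ E(y)) ≈ ntr(φ(v)ᴴ y)` because the `V j` almost commute with `φ(v)`.
`theorem key (h : S_FING) : S_KEY`. -/
def S_KEY : Prop :=
  ∀ (Q : Type) [Group Q] [Fintype Q] (η : ℝ), 0 < η → ∃ δ : ℝ, 0 < δ ∧
    ∀ (d : ℕ) (φ : Q → unitaryGroup (Fin d) ℂ), 0 < d →
      (∀ v w, hs ((φ v : Mt d) * (φ w : Mt d) - (φ (v * w) : Mt d)) ≤ δ * d) →
      ∃ (J : Type) (_ : Group J) (_ : Fintype J) (V : J →* unitaryGroup (Fin d) ℂ),
        (∀ j v, hs ((V j : Mt d) * (φ v : Mt d) - (φ v : Mt d) * (V j : Mt d)) ≤ η * d) ∧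
        ∀ y : Mt d, Le (yᴴ * y) 1 →
          hs (Eav V y * (∑ v, ntr (φ v : Mt d)ᴴ • (φ v : Mt d)) -
            ∑ v, ntr ((φ v : Mt d)ᴴ * y) • (φ v : Mt d)) ≤ η * d


/-! ### The operator algebraic part -/

/-- **DBL** (~50 lines): 2-norm density in the double commutant. The closed subspace
`P = closure {s ζ : s ∈ S}` is invariant under `S`, so the projection onto it commutes with `S`; hence
it commutes with every `c` in the double commutant (take for `P` in the hypothesis the von Neumann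
algebra `Pool.Agent.N859.QW.vN S`), and `c ζ = c e ζ = e c ζ ∈ P`. -/
def S_DBL : Prop :=
  ∀ (K : Type) [NormedAddCommGroup K] [InnerProductSpace ℂ K] [CompleteSpace K]
    (S : StarSubalgebra ℂ (Op K)) (ζ : K) (c : Op K),
    (∀ P : VonNeumannAlgebra K, (∀ s ∈ S, s ∈ P) → c ∈ P) →
    ∀ ε : ℝ, 0 < ε → ∃ s ∈ S, ‖(c - s) ζ‖ < ε

/-- **KAP** (~80 lines): Kaplansky density for the 2-norm, from
`Pool.Agent.Helper278.RG.kaplansky` (`Pool/Agent/Helper278/RGKap.lean`) applied to the C*-algebra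
`C.toStarSubalgebra` (closed, so a `CStarAlgebra`) with `N x = ‖x ζ‖` (a `TwoNorm` because the
vector state of `ζ` is a trace on `C`), after scaling `c` to norm 1. -/
def S_KAP : Prop :=
  ∀ (K : Type) [NormedAddCommGroup K] [InnerProductSpace ℂ K] [CompleteSpace K]
    (C : VonNeumannAlgebra K) (ζ : K), IsTracial C ζ →
    ∀ (S : StarSubalgebra ℂ (Op K)), (∀ s ∈ S, s ∈ C) →
    (∀ c ∈ C, ∀ ε : ℝ, 0 < ε → ∃ s ∈ S, ‖(c - s) ζ‖ < ε) →
    ∀ c ∈ C, ∀ ε : ℝ, 0 < ε → ∃ s ∈ S, ‖s‖ ≤ 2 * ‖c‖ ∧ ‖(c - s) ζ‖ < ε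

/-- **BND** (~100 lines): the conditional expectation is contractive. If `p ∈ S` and
`⟨q ζ, (s - p) ζ⟩ = 0` for all `q ∈ S`, then `‖p‖ ≤ ‖s‖`. Proof: with the trace,
`⟨b ζ, p a ζ⟩ = ⟨b a* ζ, p ζ⟩ = ⟨b a* ζ, s ζ⟩ = ⟨b ζ, s a ζ⟩` for `a, b ∈ S`, so `p` restricted to
`P = closure (S ζ)` has norm at most `‖s‖`. The restriction to `P` is an injective (as `ζ` is
separating for `C`) `*`-homomorphism of the C*-algebra `S.topologicalClosure` to the operators on
`P`, hence isometric (Mathlib: `NonUnitalStarAlgHom.isometry` / `norm_map_of_injective`).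
(Alternatively by the functional calculus: if `t > ‖s‖²` is in the spectrum of `p* p`, take a
continuous `f ≥ 0` near `t` with `f(p* p) ≠ 0` and compare `‖p f(p* p) ζ‖` with `‖s‖ ‖f(p* p) ζ‖`.) -/
def S_BND : Prop :=
  ∀ (K : Type) [NormedAddCommGroup K] [InnerProductSpace ℂ K] [CompleteSpace K]
    (C : VonNeumannAlgebra K) (ζ : K), IsTracial C ζ →
    ∀ (S : StarSubalgebra ℂ (Op K)), (∀ s ∈ S, s ∈ C) →
    ∀ p ∈ S, ∀ s ∈ C, (∀ q ∈ S, ⟪q ζ, (s - p) ζ⟫_ℂ = 0) → ‖p‖ ≤ ‖s‖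

section nn

variable {X : Type} [NormedAddCommGroup X] [InnerProductSpace ℂ X] [CompleteSpace X]
  {A : VonNeumannAlgebra X} {Γ : Type} [Group Γ]

/-- The squared 2-norm of an element of the group ring `A[Γ]`. -/
def n2 (α : X) (s : MonoidAlgebra A.toStarSubalgebra Γ) : ℝ :=
  ∑ h ∈ s.coeff.support, ‖((s.coeff h : A.toStarSubalgebra) : Op X) α‖ ^ 2

/-- The adjoint `∑ x_h h ↦ ∑ x_h* h⁻¹` in the group ring `A[Γ]`. -/
def adj (s : MonoidAlgebra A.toStarSubalgebra Γ) : MonoidAlgebra A.toStarSubalgebra Γ :=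
  s.coeff.sum fun h x => MonoidAlgebra.single h⁻¹ (star x)

/-- What relative embeddability gives: approximations `s g` of the unitaries of `g ∈ E` by elements of
`A[H]`, for `g ∈ K₀` close to elements with coefficients in the finite-dimensional algebra `D`, and
for `g₁` almost orthogonal to such elements. -/
structure App {G₀ : Type} [Group G₀] (K₀ : Subgroup G₀) (E : Finset G₀) (g₁ : G₀) (δ : ℝ)
    (A : VonNeumannAlgebra X) (α : X) (D : StarSubalgebra ℂ (Op X))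
    (s : G₀ → MonoidAlgebra A.toStarSubalgebra Γ) (e o : MonoidAlgebra A.toStarSubalgebra Γ) :
    Prop where
  tracial : IsTracial A α
  qwep : QWEP A
  fin : FiniteDimensional ℂ D
  mem : ∀ y ∈ D, y ∈ A
  one : n2 α (s 1 - 1) ≤ δ
  le : ∀ g ∈ E, n2 α (s g) ≤ 1 + δ
  mul : ∀ g ∈ E, ∀ h ∈ E, n2 α (s g * s h - s (g * h)) ≤ δ
  iso : ∀ g ∈ E, n2 α (adj (s g) * s g - 1) ≤ δ
  sub : ∀ g ∈ E, g ∈ K₀ → ∃ b : MonoidAlgebra A.toStarSubalgebra Γ,
    (∀ h, ((b.coeff h : A.toStarSubalgebra) : Op X) ∈ D) ∧ n2 α (s g - b) ≤ δ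
  dec : s g₁ = e + o
  emem : ∀ h, ((e.coeff h : A.toStarSubalgebra) : Op X) ∈ D
  ele : n2 α e ≤ δ
  orth : ∀ h, ∀ y ∈ D, ⟪y α, ((o.coeff h : A.toStarSubalgebra) : Op X) α⟫_ℂ = 0

end nn

/-- **APP** (~300 lines, from `S_DBL`, `S_KAP`, `S_BND`); owner helper71. -/
def S_APP : Prop :=
  ∀ (G₀ G : Type) [Group G₀] [Group G] (K₀ : Subgroup G₀) (H : Subgroup G) (ι : G₀ →* G),
    (∀ g, ι g ∈ H ↔ g ∈ K₀) →
    RE (LH H) (Pool.Agent.N859.QW.LG G) (Pool.Agent.N859.QW.dl G)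
      (Pool.Agent.N859.QW.LG H) (Pool.Agent.N859.QW.dl H) →
    ∀ (E : Finset G₀) (g₁ : G₀), g₁ ∉ K₀ → ∀ δ : ℝ, 0 < δ →
    ∃ (X : Type) (_ : NormedAddCommGroup X) (_ : InnerProductSpace ℂ X) (_ : CompleteSpace X)
      (A : VonNeumannAlgebra X) (α : X) (D : StarSubalgebra ℂ (Op X))
      (s : G₀ → MonoidAlgebra A.toStarSubalgebra H) (e o : MonoidAlgebra A.toStarSubalgebra H),
      App K₀ E g₁ δ A α D s e o

end

end Pool.Agent.H71RE
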