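import Pool.Agent.H71RE.MatK
import Pool.Agent.H71RE.Stm

/-!
# The filter of linear matrix models, negligible families
-/

set_option autoImplicit false
set_option linter.unusedSectionVars false

open scoped ComplexOrder Kronecker InnerProductSpace
open Matrix Finset Filter Topology

namespace Pool.Agent.H71RE

open Pool.Agent.N557.QWX (Op IsTracial IsHom)
open Pool.Agent.W661.RC (Mt hs Le HasT tr)
open Pool.Agent.W683.RC (hs_nonneg hs_add_le hs_sub_le sqrt_hs_add_le sqrt_hs_sub_le norm_trace_le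
  hs_conjTranspose hs_unit_mul hs_mul_unit unit_conj hs_eq hs_sub_comm unit_symm hs_mul_le
  hs_mul_le_right contr_conj hs_zero hs_neg hs_smul hs_sum_le hs_mul_le_of hs_mul_le_right_of)

noncomputable section

variable {X : Type} [NormedAddCommGroup X] [InnerProductSpace ℂ X] [CompleteSpace X]
  {N : VonNeumannAlgebra X} {ξ : X} {ν : N.toStarSubalgebra → ℝ}

/-- a linear map to matrices with operator norm bounds -/
structure Md (N : VonNeumannAlgebra X) (ν : N.toStarSubalgebra → ℝ) where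
  d : ℕ
  pos : 0 < d
  a : N.toStarSubalgebra →ₗ[ℂ] Mt d
  le : ∀ x, Le ((a x)ᴴ * a x) ((ν x : ℂ) • (1 : Mt d))
  le' : ∀ x, Le (a x * (a x)ᴴ) ((ν x : ℂ) • (1 : Mt d))

/-- quality of a model -/
structure GoodM (ξ : X) (F : Finset N.toStarSubalgebra) (ε : ℝ) (M : Md N ν) : Prop where
  one : hs (M.a 1 - 1) ≤ ε * M.d
  star : ∀ x ∈ F, hs (M.a (star x) - (M.a x)ᴴ) ≤ ε * M.d
  mul : ∀ x ∈ F, ∀ y ∈ F, hs (M.a (x * y) - M.a x * M.a y) ≤ ε * M.d
  trace : ∀ x ∈ F, ∀ y ∈ F, ‖ntr ((M.a x)ᴴ * M.a y) - ⟪(x : Op X) ξ, (y : Op X) ξ⟫_ℂ‖ ≤ ε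
  tr : ∀ x ∈ F, ‖ntr (M.a x) - ⟪ξ, (x : Op X) ξ⟫_ℂ‖ ≤ ε

theorem GoodM.mono {F F' : Finset N.toStarSubalgebra} {ε ε' : ℝ} {M : Md N ν}
    (h : GoodM ξ F' ε' M) (hF : F ⊆ F') (hε : ε' ≤ ε) : GoodM ξ F ε M := by
  have h1 : ε' * M.d ≤ ε * M.d := mul_le_mul_of_nonneg_right hε (Nat.cast_nonneg _)
  exact ⟨h.one.trans h1, fun x hx => (h.star x (hF hx)).trans h1,
    fun x hx y hy => (h.mul x (hF hx) y (hF hy)).trans h1,
    fun x hx y hy => (h.trace x (hF hx) y (hF hy)).trans hε, fun x hx => (h.tr x (hF hx)).trans hε⟩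

/-- the filter of good models -/
def modF (ξ : X) (ν : N.toStarSubalgebra → ℝ) : Filter (Md N ν) where
  sets := {s | ∃ (F : Finset N.toStarSubalgebra) (ε : ℝ), 0 < ε ∧ ∀ M, GoodM ξ F ε M → M ∈ s}
  univ_sets := ⟨∅, 1, one_pos, fun _ _ => Set.mem_univ _⟩
  sets_of_superset := by
    rintro s t ⟨F, ε, hε, h⟩ hst
    exact ⟨F, ε, hε, fun x hx => hst (h x hx)⟩
  inter_sets := by
    classical
    rintro s t ⟨A, ε, hε, h⟩ ⟨B, δ, hδ, h'⟩
    refine ⟨A ∪ B, min ε δ, lt_min hε hδ, fun x hx => ⟨h x ?_, h' x ?_⟩⟩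
    · exact hx.mono subset_union_left (min_le_left _ _)
    · exact hx.mono subset_union_right (min_le_right _ _)

theorem ev_modF {p : Md N ν → Prop} : (∀ᶠ M in modF ξ ν, p M) ↔
    ∃ (F : Finset N.toStarSubalgebra) (ε : ℝ), 0 < ε ∧ ∀ M, GoodM ξ F ε M → p M := Iff.rfl

theorem modF_neBot (h : ∀ (F : Finset N.toStarSubalgebra) (ε : ℝ), 0 < ε →
    ∃ (d : ℕ) (a : N.toStarSubalgebra →ₗ[ℂ] Mt d), 0 < d ∧ Model N ξ ν F ε a) :
    (modF ξ ν).NeBot := by
  rw [neBot_iff]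
  intro hbot
  have h1 : ∀ᶠ x in modF ξ ν, False := by rw [hbot]; exact mem_bot
  obtain ⟨F, ε, hε, h2⟩ := ev_modF.1 h1
  obtain ⟨d, a, hd, ha⟩ := h F ε hε
  exact h2 ⟨d, hd, a, ha.le, ha.le'⟩ ⟨ha.one, ha.star, ha.mul, ha.trace, ha.tr⟩

/-! ### Negligible families -/

/-- negligible families of `d × d` matrices -/
def Ng (ξ : X) (ν : N.toStarSubalgebra → ℝ) (f : ∀ M : Md N ν, Mt M.d) : Prop :=
  ∀ ε : ℝ, 0 < ε → ∀ᶠ M in modF ξ ν, hs (f M) ≤ ε * M.d

theorem Ng.add {f g : ∀ M : Md N ν, Mt M.d} (hf : Ng ξ ν f) (hg : Ng ξ ν g) :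
    Ng ξ ν fun M => f M + g M := by
  intro ε hε
  filter_upwards [hf (ε / 4) (by positivity), hg (ε / 4) (by positivity)] with M h1 h2
  have := hs_add_le (f M) (g M)
  linarith

theorem Ng.neg {f : ∀ M : Md N ν, Mt M.d} (hf : Ng ξ ν f) : Ng ξ ν fun M => -f M := by
  intro ε hε
  filter_upwards [hf ε hε] with M h1
  rwa [hs_neg]

theorem Ng.sub {f g : ∀ M : Md N ν, Mt M.d} (hf : Ng ξ ν f) (hg : Ng ξ ν g) :
    Ng ξ ν fun M => f M - g M := by
  simp only [sub_eq_add_neg]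
  exact hf.add hg.neg

theorem Ng.conj {f : ∀ M : Md N ν, Mt M.d} (hf : Ng ξ ν f) : Ng ξ ν fun M => (f M)ᴴ := by
  intro ε hε
  filter_upwards [hf ε hε] with M h1
  rwa [hs_conjTranspose]

theorem Ng.zero : Ng ξ ν fun M : Md N ν => (0 : Mt M.d) := by
  intro ε hε
  refine Eventually.of_forall fun M => ?_
  rw [hs_zero]
  positivity

theorem Ng.congr {f g : ∀ M : Md N ν, Mt M.d} (hf : Ng ξ ν f) (h : ∀ M, g M = f M) :
    Ng ξ ν g := by
  have : g = f := funext h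
  rw [this]
  exact hf

theorem Ng.sum {J : Type*} (s : Finset J) {f : J → ∀ M : Md N ν, Mt M.d}
    (hf : ∀ j ∈ s, Ng ξ ν (f j)) : Ng ξ ν fun M => ∑ j ∈ s, f j M := by
  classical
  induction s using Finset.induction_on with
  | empty => simpa using Ng.zero
  | insert a s ha ih =>
    refine ((hf a (mem_insert_self _ _)).add (ih fun j hj => hf j (mem_insert_of_mem hj))).congr ?_
    intro M
    rw [sum_insert ha]

/-- multiplication by bounded factors -/
theorem Ng.bdd {f g : ∀ M : Md N ν, Mt M.d} (C : ℝ) (hf : Ng ξ ν f)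
    (h : ∀ᶠ M in modF ξ ν, hs (g M) ≤ C * hs (f M)) : Ng ξ ν g := by
  intro ε hε
  have hC : 0 < |C| + 1 := by positivity
  filter_upwards [hf (ε / (|C| + 1)) (by positivity), h] with M h1 h2
  have h3 := hs_nonneg (f M)
  have h4 : C * hs (f M) ≤ (|C| + 1) * hs (f M) :=
    mul_le_mul_of_nonneg_right (by linarith [le_abs_self C]) h3
  have h5 : (|C| + 1) * hs (f M) ≤ (|C| + 1) * (ε / (|C| + 1) * M.d) :=
    mul_le_mul_of_nonneg_left h1 hC.le
  have h6 : (|C| + 1) * (ε / (|C| + 1) * M.d) = ε * M.d := by field_simp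
  linarith

theorem Ng.mulL {f : ∀ M : Md N ν, Mt M.d} (hf : Ng ξ ν f) (x : N.toStarSubalgebra) :
    Ng ξ ν fun M => M.a x * f M :=
  hf.bdd (ν x) (Eventually.of_forall fun M => hs_mul_le_of (M.le x) _)

theorem Ng.mulR {f : ∀ M : Md N ν, Mt M.d} (hf : Ng ξ ν f) (x : N.toStarSubalgebra) :
    Ng ξ ν fun M => f M * M.a x :=
  hf.bdd (ν x) (Eventually.of_forall fun M => hs_mul_le_right_of (M.le' x) _)

theorem Ng.smul {f : ∀ M : Md N ν, Mt M.d} (hf : Ng ξ ν f) (c : ℂ) :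
    Ng ξ ν fun M => c • f M :=
  hf.bdd (‖c‖ ^ 2) (Eventually.of_forall fun M => (hs_smul c _).le)

/-! ### The properties of the model in the limit -/

theorem ng_one : Ng ξ ν fun M => M.a 1 - 1 := fun ε hε =>
  ev_modF.2 ⟨∅, ε, hε, fun _ h => h.one⟩

theorem ng_star (x : N.toStarSubalgebra) : Ng ξ ν fun M => M.a (star x) - (M.a x)ᴴ := fun ε hε =>
  ev_modF.2 ⟨{x}, ε, hε, fun _ h => h.star x (by simp)⟩

theorem ng_mul (x y : N.toStarSubalgebra) : Ng ξ ν fun M => M.a (x * y) - M.a x * M.a y := by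
  classical
  exact fun ε hε => ev_modF.2 ⟨{x, y}, ε, hε, fun _ h => h.mul x (by simp) y (by simp)⟩

theorem ev_tr2 (x y : N.toStarSubalgebra) (ε : ℝ) (hε : 0 < ε) : ∀ᶠ M in modF ξ ν,
    ‖ntr ((M.a x)ᴴ * M.a y) - ⟪(x : Op X) ξ, (y : Op X) ξ⟫_ℂ‖ ≤ ε := by
  classical
  exact ev_modF.2 ⟨{x, y}, ε, hε, fun _ h => h.trace x (by simp) y (by simp)⟩

theorem ev_tr (x : N.toStarSubalgebra) (ε : ℝ) (hε : 0 < ε) : ∀ᶠ M in modF ξ ν,
    ‖ntr (M.a x) - ⟪ξ, (x : Op X) ξ⟫_ℂ‖ ≤ ε :=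
  ev_modF.2 ⟨{x}, ε, hε, fun _ h => h.tr x (by simp)⟩

/-- `(a x)* a y ≈ a (x* y)` -/
theorem ng_star_mul (x y : N.toStarSubalgebra) :
    Ng ξ ν fun M => (M.a x)ᴴ * M.a y - M.a (star x * y) := by
  have h1 := (ng_star (ξ := ξ) (ν := ν) x).mulR y
  have h2 := ng_mul (ξ := ξ) (ν := ν) (star x) y
  refine (h1.add h2).neg.congr fun M => ?_
  noncomm_ring

/-- the squared 2-norm -/
theorem ev_hs (x : N.toStarSubalgebra) (ε : ℝ) (hε : 0 < ε) : ∀ᶠ M in modF ξ ν,
    hs (M.a x) ≤ (‖(x : Op X) ξ‖ ^ 2 + ε) * M.d := by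
  filter_upwards [ev_tr2 (ξ := ξ) (ν := ν) x x ε hε] with M h
  have hd : (0 : ℝ) < M.d := by exact_mod_cast M.pos
  rw [inner_self_eq_norm_sq_to_K] at h
  have h1 := (Complex.abs_re_le_norm _).trans h
  have h2 : (ntr ((M.a x)ᴴ * M.a x)).re = hs (M.a x) / M.d := by
    rw [ntr, Complex.div_natCast_re, ← hs_eq]
  rw [Complex.sub_re, h2] at h1
  have h3 : ((‖(x : Op X) ξ‖ : ℂ) ^ 2).re = ‖(x : Op X) ξ‖ ^ 2 := by
    rw [← Complex.ofReal_pow, Complex.ofReal_re]
  have h4 : hs (M.a x) / M.d - (((‖(x : Op X) ξ‖ : ℝ) : ℂ) ^ 2).re ≤ ε := (abs_le.1 h1).2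
  rw [h3] at h4
  have h5 : hs (M.a x) / M.d ≤ ‖(x : Op X) ξ‖ ^ 2 + ε := by linarith
  rwa [div_le_iff₀ hd] at h5

/-! ### Negligible families on `ℂ^d ⊗ ℓ²(Q)` -/

variable {Q : Type} [Group Q] [Fintype Q] [DecidableEq Q]

/-- negligible families -/
def Nq (ξ : X) (ν : N.toStarSubalgebra → ℝ) (Q : Type) [Fintype Q]
    (f : ∀ M : Md N ν, Matrix (Fin M.d × Q) (Fin M.d × Q) ℂ) : Prop :=
  ∀ ε : ℝ, 0 < ε → ∀ᶠ M in modF ξ ν, hs (f M) ≤ ε * (Fintype.card Q * M.d)

theorem Nq.add {f g : ∀ M : Md N ν, Matrix (Fin M.d × Q) (Fin M.d × Q) ℂ} (hf : Nq ξ ν Q f)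
    (hg : Nq ξ ν Q g) : Nq ξ ν Q fun M => f M + g M := by
  intro ε hε
  filter_upwards [hf (ε / 4) (by positivity), hg (ε / 4) (by positivity)] with M h1 h2
  have := hs_add_le (f M) (g M)
  linarith

theorem Nq.neg {f : ∀ M : Md N ν, Matrix (Fin M.d × Q) (Fin M.d × Q) ℂ} (hf : Nq ξ ν Q f) :
    Nq ξ ν Q fun M => -f M := by
  intro ε hε
  filter_upwards [hf ε hε] with M h1
  rwa [hs_neg]

theorem Nq.zero : Nq ξ ν Q fun M : Md N ν => (0 : Matrix (Fin M.d × Q) (Fin M.d × Q) ℂ) := by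
  intro ε hε
  refine Eventually.of_forall fun M => ?_
  rw [hs_zero]
  positivity

theorem Nq.congr {f g : ∀ M : Md N ν, Matrix (Fin M.d × Q) (Fin M.d × Q) ℂ} (hf : Nq ξ ν Q f)
    (h : ∀ M, g M = f M) : Nq ξ ν Q g := by
  have : g = f := funext h
  rw [this]
  exact hf

theorem Nq.sum {J : Type*} (s : Finset J)
    {f : J → ∀ M : Md N ν, Matrix (Fin M.d × Q) (Fin M.d × Q) ℂ}
    (hf : ∀ j ∈ s, Nq ξ ν Q (f j)) : Nq ξ ν Q fun M => ∑ j ∈ s, f j M := by
  classical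
  induction s using Finset.induction_on with
  | empty => simpa using Nq.zero
  | insert a s ha ih =>
    refine ((hf a (mem_insert_self _ _)).add (ih fun j hj => hf j (mem_insert_of_mem hj))).congr ?_
    intro M
    rw [sum_insert ha]

theorem Ng.kr {f : ∀ M : Md N ν, Mt M.d} (hf : Ng ξ ν f) (q : Q) :
    Nq ξ ν Q fun M => kr (f M) q := by
  intro ε hε
  filter_upwards [hf ε hε] with M h
  rw [hs_kr]
  have : (0 : ℝ) ≤ Fintype.card Q := Nat.cast_nonneg _
  nlinarith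

/-! ### The map on the group ring -/

variable {Γ : Type} [Group Γ]

/-- the model of the group ring -/
def ah (M : Md N ν) (σ : Γ →* Q) (s : MonoidAlgebra N.toStarSubalgebra Γ) :
    Matrix (Fin M.d × Q) (Fin M.d × Q) ℂ :=
  s.coeff.sum fun h x => kr (M.a x) (σ h)

omit [Fintype Q] in
theorem ah_single (M : Md N ν) (σ : Γ →* Q) (h : Γ) (x : N.toStarSubalgebra) :
    ah M σ (MonoidAlgebra.single h x) = kr (M.a x) (σ h) := by
  rw [ah, MonoidAlgebra.coeff_single, Finsupp.sum_single_index]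
  rw [map_zero, kr_zero]

omit [Fintype Q] in
theorem ah_add (M : Md N ν) (σ : Γ →* Q) (s t : MonoidAlgebra N.toStarSubalgebra Γ) :
    ah M σ (s + t) = ah M σ s + ah M σ t := by
  classical
  rw [ah, ah, ah, MonoidAlgebra.coeff_add]
  refine Finsupp.sum_add_index' (fun h => ?_) (fun h x y => ?_)
  · rw [map_zero, kr_zero]
  · rw [map_add, kr_add]

omit [Fintype Q] in
theorem ah_zero (M : Md N ν) (σ : Γ →* Q) :
    ah M σ (0 : MonoidAlgebra N.toStarSubalgebra Γ) = 0 := by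
  rw [ah]
  exact Finsupp.sum_zero_index

omit [Fintype Q] in
theorem ah_sub (M : Md N ν) (σ : Γ →* Q) (s t : MonoidAlgebra N.toStarSubalgebra Γ) :
    ah M σ (s - t) = ah M σ s - ah M σ t := by
  have h := ah_add M σ (s - t) t
  rw [sub_add_cancel] at h
  rw [h, add_sub_cancel_right]

omit [Fintype Q] in
theorem ah_eq_sum (M : Md N ν) (σ : Γ →* Q) (s : MonoidAlgebra N.toStarSubalgebra Γ)
    (T : Finset Γ) (hT : s.coeff.support ⊆ T) :
    ah M σ s = ∑ h ∈ T, kr (M.a (s.coeff h)) (σ h) := by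
  rw [ah]
  refine Finsupp.sum_of_support_subset _ hT _ fun h _ => ?_
  rw [map_zero, kr_zero]

theorem adj_add (s t : MonoidAlgebra N.toStarSubalgebra Γ) : adj (s + t) = adj s + adj t := by
  classical
  rw [adj, adj, adj, MonoidAlgebra.coeff_add]
  refine Finsupp.sum_add_index' (fun h => ?_) (fun h x y => ?_)
  · rw [star_zero, MonoidAlgebra.single_zero]
  · rw [star_add, MonoidAlgebra.single_add]

theorem adj_zero : adj (0 : MonoidAlgebra N.toStarSubalgebra Γ) = 0 := by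
  rw [adj]
  exact Finsupp.sum_zero_index

theorem adj_single (h : Γ) (x : N.toStarSubalgebra) :
    adj (MonoidAlgebra.single h x) = MonoidAlgebra.single h⁻¹ (star x) := by
  rw [adj, MonoidAlgebra.coeff_single, Finsupp.sum_single_index]
  rw [star_zero, MonoidAlgebra.single_zero]

theorem nq_one (σ : Γ →* Q) :
    Nq ξ ν Q fun M => ah M σ (1 : MonoidAlgebra N.toStarSubalgebra Γ) - 1 := by
  refine ((ng_one (ξ := ξ) (ν := ν)).kr (1 : Q)).congr fun M => ?_
  rw [MonoidAlgebra.one_def, ah_single, map_one σ, kr_sub, kr_one]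

theorem nq_mul (σ : Γ →* Q) (s t : MonoidAlgebra N.toStarSubalgebra Γ) :
    Nq ξ ν Q fun M => ah M σ (s * t) - ah M σ s * ah M σ t := by
  induction s using MonoidAlgebra.induction_linear with
  | zero =>
    refine Nq.zero.congr fun M => ?_
    rw [zero_mul, ah_zero, Matrix.zero_mul, sub_zero]
  | add s s' hs hs' =>
    refine (hs.add hs').congr fun M => ?_
    rw [add_mul, ah_add, ah_add]
    noncomm_ring
  | single h x =>
    induction t using MonoidAlgebra.induction_linear with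
    | zero =>
      refine Nq.zero.congr fun M => ?_
      rw [mul_zero, ah_zero, Matrix.mul_zero, sub_zero]
    | add t t' ht ht' =>
      refine (ht.add ht').congr fun M => ?_
      rw [mul_add, ah_add, ah_add]
      noncomm_ring
    | single k y =>
      refine ((ng_mul (ξ := ξ) (ν := ν) x y).kr (σ (h * k))).congr fun M => ?_
      rw [MonoidAlgebra.single_mul_single, ah_single, ah_single, ah_single, kr_mul, kr_sub,
        map_mul σ]

theorem nq_adj_mul (σ : Γ →* Q) (s t : MonoidAlgebra N.toStarSubalgebra Γ) :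
    Nq ξ ν Q fun M => (ah M σ s)ᴴ * ah M σ t - ah M σ (adj s * t) := by
  induction s using MonoidAlgebra.induction_linear with
  | zero =>
    refine Nq.zero.congr fun M => ?_
    rw [adj_zero, zero_mul, ah_zero, conjTranspose_zero, Matrix.zero_mul, sub_zero]
  | add s s' hs hs' =>
    refine (hs.add hs').congr fun M => ?_
    rw [adj_add, add_mul, ah_add, ah_add, conjTranspose_add]
    noncomm_ring
  | single h x =>
    induction t using MonoidAlgebra.induction_linear with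
    | zero =>
      refine Nq.zero.congr fun M => ?_
      rw [mul_zero, ah_zero, Matrix.mul_zero, sub_zero]
    | add t t' ht ht' =>
      refine (ht.add ht').congr fun M => ?_
      rw [mul_add, ah_add, ah_add]
      noncomm_ring
    | single k y =>
      refine ((ng_star_mul (ξ := ξ) (ν := ν) x y).kr (σ (h⁻¹ * k))).congr fun M => ?_
      rw [adj_single, MonoidAlgebra.single_mul_single, ah_single, ah_single, ah_single, kr_conj,
        kr_mul, kr_sub, map_mul σ, map_inv σ]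

/-- the 2-norm in the model -/
theorem ev_ah (σ : Γ →* Q) (s : MonoidAlgebra N.toStarSubalgebra Γ)
    (hσ : Set.InjOn σ (s.coeff.support : Set Γ)) (ε : ℝ) (hε : 0 < ε) :
    ∀ᶠ M in modF ξ ν, hs (ah M σ s) ≤ (n2 ξ s + ε) * (Fintype.card Q * M.d) := by
  classical
  have h1 : ∀ᶠ M in modF ξ ν, ∀ h ∈ s.coeff.support, hs (M.a (s.coeff h)) ≤
      (‖((s.coeff h : N.toStarSubalgebra) : Op X) ξ‖ ^ 2 + ε / (s.coeff.support.card + 1)) * M.d := by
    rw [eventually_all_finset]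
    intro h _
    exact ev_hs _ _ (by positivity)
  filter_upwards [h1] with M hM
  have hd : (0 : ℝ) ≤ M.d := Nat.cast_nonneg _
  have hq : (0 : ℝ) ≤ Fintype.card Q := Nat.cast_nonneg _
  rw [ah_eq_sum M σ s _ (Finset.Subset.refl _), hs_sum_kr _ _ hσ]
  have h2 : ∑ h ∈ s.coeff.support, hs (M.a (s.coeff h)) ≤ (n2 ξ s + ε) * M.d := by
    refine (sum_le_sum hM).trans ?_
    rw [← sum_mul, sum_add_distrib, sum_const, nsmul_eq_mul]
    refine mul_le_mul_of_nonneg_right ?_ hd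
    rw [n2]
    have h3 : (s.coeff.support.card : ℝ) * (ε / (s.coeff.support.card + 1)) ≤ ε := by
      rw [mul_div_assoc', div_le_iff₀ (by positivity)]
      nlinarith
    linarith
  calc (Fintype.card Q : ℝ) * ∑ h ∈ s.coeff.support, hs (M.a (s.coeff h))
      ≤ Fintype.card Q * ((n2 ξ s + ε) * M.d) := mul_le_mul_of_nonneg_left h2 hq
    _ = (n2 ξ s + ε) * (Fintype.card Q * M.d) := by ring

end

end Pool.Agent.H71RE
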