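import Pool.Agent.H71RE.MatF

/-!
# Finite groups of unitaries in the models
-/

set_option autoImplicit false
set_option linter.unusedSectionVars false

open scoped ComplexOrder Kronecker InnerProductSpace
open Matrix Finset Filter Topology

namespace Pool.Agent.H71RE

open Pool.Agent.N557.QWX (Op IsTracial IsHom)
open Pool.Agent.W661.RC (Mt hs Le HasT tr)
open Pool.Agent.W683.RC (hs_nonneg hs_add_le hs_sub_le sqrt_hs_add_le sqrt_hs_sub_le norm_trace_le
  hs_conjTranspose hs_unit_mul hs_mul_unit unit_conj hs_eq hs_sub_comm unit_symm hs_mul_le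
  hs_mul_le_right contr_conj hs_zero hs_neg hs_smul hs_sum_le hs_mul_le_of hs_mul_le_right_of)

noncomputable section

variable {X : Type} [NormedAddCommGroup X] [InnerProductSpace ℂ X] [CompleteSpace X]
  {N : VonNeumannAlgebra X} {ξ : X} {ν : N.toStarSubalgebra → ℝ}

/-! ### Small scalars -/

/-- small families of scalars -/
def Sm (ξ : X) (ν : N.toStarSubalgebra → ℝ) (c : Md N ν → ℂ) : Prop :=
  ∀ ε : ℝ, 0 < ε → ∀ᶠ M in modF ξ ν, ‖c M‖ ≤ ε

theorem Sm.add {c e : Md N ν → ℂ} (hc : Sm ξ ν c) (he : Sm ξ ν e) : Sm ξ ν fun M => c M + e M := by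
  intro ε hε
  filter_upwards [hc (ε / 2) (by positivity), he (ε / 2) (by positivity)] with M h1 h2
  exact (norm_add_le _ _).trans (by linarith)

theorem Sm.congr {c e : Md N ν → ℂ} (hc : Sm ξ ν c) (h : ∀ M, e M = c M) : Sm ξ ν e := by
  have : e = c := funext h
  rw [this]; exact hc

theorem norm_ntr_le {d : ℕ} (hd : 0 < d) (Z : Mt d) (ε : ℝ) (hε : 0 ≤ ε)
    (h : hs Z ≤ ε ^ 2 * d) : ‖ntr Z‖ ≤ ε := by
  have hd' : (0 : ℝ) < d := by exact_mod_cast hd
  have h1 := norm_trace_le (1 : Mt d) Z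
  rw [conjTranspose_one, Matrix.one_mul, hs_one, Fintype.card_fin] at h1
  have h2 : √(hs Z) ≤ ε * √d := by
    rw [Real.sqrt_le_left (by positivity), mul_pow, Real.sq_sqrt hd'.le]
    exact h
  rw [ntr, norm_div, Complex.norm_natCast, div_le_iff₀ hd']
  calc ‖trace Z‖ ≤ √d * √(hs Z) := h1
    _ ≤ √d * (ε * √d) := mul_le_mul_of_nonneg_left h2 (Real.sqrt_nonneg _)
    _ = ε * (√d * √d) := by ring
    _ = ε * d := by rw [Real.mul_self_sqrt hd'.le]

theorem Ng.ntr {f : ∀ M : Md N ν, Mt M.d} (hf : Ng ξ ν f) : Sm ξ ν fun M => ntr (f M) := by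
  intro ε hε
  filter_upwards [hf (ε ^ 2) (by positivity)] with M h
  exact norm_ntr_le M.pos _ ε hε.le h

theorem hs_unit {d : ℕ} (U : unitaryGroup (Fin d) ℂ) : hs (U : Mt d) = d := by
  have := hs_unit_mul (uh U) (1 : Mt d)
  rw [Matrix.mul_one, hs_one, Fintype.card_fin] at this
  exact this

theorem Sm.unit {c : Md N ν → ℂ} (hc : Sm ξ ν c) (U : ∀ M : Md N ν, unitaryGroup (Fin M.d) ℂ) :
    Ng ξ ν fun M => c M • (U M : Mt M.d) := by
  intro ε hε
  filter_upwards [hc (√ε) (Real.sqrt_pos.2 hε)] with M h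
  rw [hs_smul, hs_unit]
  refine mul_le_mul_of_nonneg_right ?_ (Nat.cast_nonneg _)
  calc ‖c M‖ ^ 2 ≤ √ε ^ 2 := pow_le_pow_left₀ (norm_nonneg _) h 2
    _ = ε := Real.sq_sqrt hε.le

theorem ntr_add {d : ℕ} (x y : Mt d) : ntr (x + y) = ntr x + ntr y := by
  rw [ntr, ntr, ntr, trace_add, add_div]

theorem ntr_sub {d : ℕ} (x y : Mt d) : ntr (x - y) = ntr x - ntr y := by
  rw [ntr, ntr, ntr, trace_sub, sub_div]

theorem ntr_smul {d : ℕ} (c : ℂ) (x : Mt d) : ntr (c • x) = c * ntr x := by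
  rw [ntr, ntr, trace_smul, smul_eq_mul, mul_div_assoc]

theorem ntr_conj {d : ℕ} (x : Mt d) : ntr xᴴ = star (ntr x) := by
  rw [ntr, ntr, trace_conjTranspose, star_div₀]
  simp

/-! ### The unitaries close to the images of a finite group -/

variable {W : Type} [Group W] [Fintype W]

/-- data of a finite group of unitaries in `N` -/
structure FG (N : VonNeumannAlgebra X) (W : Type) [Group W] where
  u : W →* unitary (Op X)
  mem : ∀ w, (u w : Op X) ∈ N

/-- the element of `N` -/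
def FG.v (g : FG N W) (w : W) : N.toStarSubalgebra := ⟨g.u w, g.mem w⟩

theorem FG.v_mul (g : FG N W) (w w' : W) : g.v (w * w') = g.v w * g.v w' := by
  apply Subtype.ext
  change ((g.u (w * w') : unitary (Op X)) : Op X) = (g.u w : Op X) * (g.u w' : Op X)
  rw [map_mul]
  rfl

theorem FG.v_star (g : FG N W) (w : W) : star (g.v w) * g.v w = 1 := by
  apply Subtype.ext
  exact Unitary.coe_star_mul_self (g.u w)

/-- unitaries close to the models of the group elements -/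
def ph (g : FG N W) (M : Md N ν) (w : W) : unitaryGroup (Fin M.d) ℂ :=
  (near_unit (M.a (g.v w))).choose

theorem ng_ph (g : FG N W) (w : W) :
    Ng ξ ν fun M => M.a (g.v w) - (ph g M w : Mt M.d) := by
  have h1 : Ng ξ ν fun M => (M.a (g.v w))ᴴ * M.a (g.v w) - 1 := by
    refine ((ng_star_mul (ξ := ξ) (ν := ν) (g.v w) (g.v w)).add (ng_one (ξ := ξ))).congr
      fun M => ?_
    rw [g.v_star]
    abel
  exact h1.bdd 1 (Eventually.of_forall fun M => by
    rw [one_mul]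
    exact (near_unit (M.a (g.v w))).choose_spec)

theorem ng_ph_mul (g : FG N W) (w w' : W) : Ng ξ ν fun M =>
    (ph g M w : Mt M.d) * (ph g M w' : Mt M.d) - (ph g M (w * w') : Mt M.d) := by
  have h1 : Ng ξ ν fun M => (M.a (g.v w) - (ph g M w : Mt M.d)) * (ph g M w' : Mt M.d) :=
    (ng_ph (ξ := ξ) (ν := ν) g w).bdd 1 (Eventually.of_forall fun M => by
      rw [one_mul, hs_mul_unit (uh _)])
  have h2 := (ng_ph (ξ := ξ) (ν := ν) g w').mulL (g.v w)
  have h3 := ng_mul (ξ := ξ) (ν := ν) (g.v w) (g.v w')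
  have h4 := ng_ph (ξ := ξ) (ν := ν) g (w * w')
  refine (((h1.add h2).add h3).neg.add h4).congr fun M => ?_
  rw [← g.v_mul]
  noncomm_ring

/-- the approximate central element -/
def CM (g : FG N W) (M : Md N ν) : Mt M.d :=
  ∑ w, ntr (ph g M w : Mt M.d)ᴴ • (ph g M w : Mt M.d)

/-- `∑_w τ(u_w*) u_w` -/
def cDm (ξ : X) (g : FG N W) : N.toStarSubalgebra :=
  ∑ w, star ⟪ξ, ((g.v w : N.toStarSubalgebra) : Op X) ξ⟫_ℂ • g.v w

theorem ng_C (g : FG N W) : Ng ξ ν fun M => CM g M - M.a (cDm ξ g) := by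
  have h1 : ∀ w ∈ (univ : Finset W), Ng ξ ν fun M =>
      ntr (ph g M w : Mt M.d)ᴴ • (ph g M w : Mt M.d) -
        star ⟪ξ, ((g.v w : N.toStarSubalgebra) : Op X) ξ⟫_ℂ • M.a (g.v w) := by
    intro w _
    have h2 : Sm ξ ν fun M => ntr (ph g M w : Mt M.d)ᴴ -
        star ⟪ξ, ((g.v w : N.toStarSubalgebra) : Op X) ξ⟫_ℂ := by
      have h3 := (ng_ph (ξ := ξ) (ν := ν) g w).neg.ntr
      have h4 : Sm ξ ν fun M => ntr (ph g M w : Mt M.d) -
          ⟪ξ, ((g.v w : N.toStarSubalgebra) : Op X) ξ⟫_ℂ := by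
        have h5 : Sm ξ ν fun M => ntr (M.a (g.v w)) -
            ⟪ξ, ((g.v w : N.toStarSubalgebra) : Op X) ξ⟫_ℂ := fun ε hε => ev_tr _ ε hε
        refine (h3.add h5).congr fun M => ?_
        rw [neg_sub, ntr_sub]
        ring
      intro ε hε
      filter_upwards [h4 ε hε] with M h
      rw [ntr_conj, ← star_sub, norm_star]
      exact h
    refine ((h2.unit fun M => ph g M w).add ((ng_ph (ξ := ξ) (ν := ν) g w).neg.smul
      (star ⟪ξ, ((g.v w : N.toStarSubalgebra) : Op X) ξ⟫_ℂ))).congr fun M => ?_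
    rw [sub_smul, smul_neg, smul_sub]
    abel
  refine (Ng.sum univ h1).congr fun M => ?_
  rw [CM, cDm, map_sum, sum_sub_distrib]
  congr 1
  exact sum_congr rfl fun w _ => map_smul _ _ _

/-- elements orthogonal to the group -/
theorem ng_orth (g : FG N W) (x : N.toStarSubalgebra)
    (hx : ∀ w, ⟪((g.v w : N.toStarSubalgebra) : Op X) ξ, (x : Op X) ξ⟫_ℂ = 0) :
    Ng ξ ν fun M => ∑ w, ntr ((ph g M w : Mt M.d)ᴴ * M.a x) • (ph g M w : Mt M.d) := by
  refine Ng.sum univ fun w _ => ?_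
  have h1 : Ng ξ ν fun M => (M.a (g.v w) - (ph g M w : Mt M.d))ᴴ * M.a x :=
    (ng_ph (ξ := ξ) (ν := ν) g w).conj.mulR x
  have h2 : Sm ξ ν fun M => ntr ((M.a (g.v w))ᴴ * M.a x) := by
    intro ε hε
    filter_upwards [ev_tr2 (ξ := ξ) (ν := ν) (g.v w) x ε hε] with M h
    rw [hx, sub_zero] at h
    exact h
  have h3 : Sm ξ ν fun M => ntr ((ph g M w : Mt M.d)ᴴ * M.a x) := by
    refine (h1.neg.ntr.add h2).congr fun M => ?_
    rw [← ntr_add]
    congr 1
    rw [conjTranspose_sub, Matrix.sub_mul]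
    abel
  exact h3.unit fun M => ph g M w

/-! ### Averages -/

section avg

variable {J : Type} [Fintype J] [Group J] {d : ℕ} (V : J →* unitaryGroup (Fin d) ℂ)

theorem Eav_smul (c : ℂ) (y : Mt d) : Eav V (c • y) = c • Eav V y := by
  have h : ∑ j, (V j : Mt d)ᴴ * (c • y) * (V j : Mt d) =
      c • ∑ j, (V j : Mt d)ᴴ * y * (V j : Mt d) := by
    rw [smul_sum]
    refine sum_congr rfl fun j _ => ?_
    rw [Matrix.mul_smul, Matrix.smul_mul]
  rw [Eav, Eav, h, smul_comm]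

theorem Eav_add (x y : Mt d) : Eav V (x + y) = Eav V x + Eav V y := by
  rw [Eav, Eav, Eav, ← smul_add, ← sum_add_distrib]
  congr 1
  refine sum_congr rfl fun j _ => ?_
  rw [Matrix.mul_add, Matrix.add_mul]

theorem hs_avg_le (f : J → Mt d) (c : ℝ) (h : ∀ j, hs (f j) ≤ c) :
    hs (((Fintype.card J : ℂ)⁻¹) • ∑ j, f j) ≤ c := by
  have hJ : (0 : ℝ) < Fintype.card J := by exact_mod_cast Fintype.card_pos
  rw [hs_smul]
  have h1 := hs_sum_le univ f
  have h2 : ∑ j, hs (f j) ≤ Fintype.card J * c := by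
    refine (sum_le_sum fun j _ => h j).trans ?_
    rw [sum_const, nsmul_eq_mul, card_univ]
  rw [norm_inv, Complex.norm_natCast]
  rw [card_univ] at h1
  have h3 : hs (∑ j, f j) ≤ Fintype.card J * (Fintype.card J * c) :=
    h1.trans (mul_le_mul_of_nonneg_left h2 hJ.le)
  calc ((Fintype.card J : ℝ)⁻¹) ^ 2 * hs (∑ j, f j)
      ≤ ((Fintype.card J : ℝ)⁻¹) ^ 2 * (Fintype.card J * (Fintype.card J * c)) :=
        mul_le_mul_of_nonneg_left h3 (by positivity)
    _ = c := by field_simp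

theorem hs_Eav_mul_le {y : Mt d} {c : ℝ} (hy : Le (yᴴ * y) ((c : ℂ) • (1 : Mt d))) (Z : Mt d) :
    hs (Eav V y * Z) ≤ c * hs Z := by
  rw [Eav, Matrix.smul_mul, sum_mul]
  refine hs_avg_le _ _ fun j => ?_
  rw [Matrix.mul_assoc, Matrix.mul_assoc, hs_unit_mul (unit_conj (uh (V j)))]
  refine (hs_mul_le_of hy _).trans ?_
  rw [hs_unit_mul (uh (V j))]

theorem hs_Eav_le (y : Mt d) : hs (Eav V y) ≤ hs y := by
  rw [Eav]
  refine hs_avg_le _ _ fun j => ?_
  rw [hs_mul_unit (uh (V j)), hs_unit_mul (unit_conj (uh (V j)))]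

/-- `⟨y, E y⟩ = |E y|²` -/
theorem trace_Eav (y : Mt d) : trace (yᴴ * Eav V y) = trace ((Eav V y)ᴴ * Eav V y) := by
  have hJ : (Fintype.card J : ℂ) ≠ 0 := by
    exact_mod_cast Fintype.card_ne_zero
  have hc : ∀ j, (V j : Mt d)ᴴ * Eav V y * (V j : Mt d) = Eav V y := by
    intro j
    rw [Eav, Matrix.mul_smul, Matrix.smul_mul, mul_sum, sum_mul]
    congr 1
    conv_rhs => rw [← Equiv.sum_comp (Equiv.mulRight j)]
    refine sum_congr rfl fun i _ => ?_
    have e : ((V (Equiv.mulRight j i) : unitaryGroup (Fin d) ℂ) : Mt d) =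
        (V i : Mt d) * (V j : Mt d) := by
      rw [Equiv.coe_mulRight, map_mul]
      rfl
    rw [e, conjTranspose_mul]
    simp only [Matrix.mul_assoc]
  have h2 : trace ((Eav V y)ᴴ * Eav V y) =
      (Fintype.card J : ℂ)⁻¹ * ∑ j, trace (((V j : Mt d)ᴴ * y * (V j : Mt d))ᴴ * Eav V y) := by
    conv_lhs => rw [show (Eav V y)ᴴ = (Fintype.card J : ℂ)⁻¹ •
      ∑ j, ((V j : Mt d)ᴴ * y * (V j : Mt d))ᴴ from by
        rw [Eav, conjTranspose_smul, conjTranspose_sum]; simp]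
    rw [Matrix.smul_mul, sum_mul, trace_smul, trace_sum, smul_eq_mul]
  have h3 : ∀ j, trace (((V j : Mt d)ᴴ * y * (V j : Mt d))ᴴ * Eav V y) =
      trace (yᴴ * Eav V y) := by
    intro j
    conv_lhs => rw [← hc j]
    rw [conjTranspose_mul, conjTranspose_mul, conjTranspose_conjTranspose]
    have e : (V j : Mt d)ᴴ * (yᴴ * (V j : Mt d)) * ((V j : Mt d)ᴴ * Eav V y * (V j : Mt d)) =
        (V j : Mt d)ᴴ * (yᴴ * Eav V y * (V j : Mt d)) := by
      have e1 : (V j : Mt d)ᴴ * (yᴴ * (V j : Mt d)) * ((V j : Mt d)ᴴ * Eav V y * (V j : Mt d)) =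
          (V j : Mt d)ᴴ * (yᴴ * ((V j : Mt d) * (V j : Mt d)ᴴ) * Eav V y * (V j : Mt d)) := by
        simp only [Matrix.mul_assoc]
      rw [e1, hu, Matrix.mul_one]
    rw [e, trace_mul_comm, Matrix.mul_assoc, hu, Matrix.mul_one]
  rw [h2, sum_congr rfl fun j _ => h3 j, sum_const, card_univ, nsmul_eq_mul, ← mul_assoc,
    inv_mul_cancel₀ hJ, one_mul]

theorem re_trace_Eav (y : Mt d) : (trace (yᴴ * Eav V y)).re = hs (Eav V y) := by
  rw [trace_Eav, hs_eq]

end avg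

/-! ### The filter of models with a finite group of unitaries in the commutant -/

/-- a model with a finite group of unitaries -/
structure MV (N : VonNeumannAlgebra X) (ν : N.toStarSubalgebra → ℝ) where
  M : Md N ν
  J : Type
  [gJ : Group J]
  [fJ : Fintype J]
  V : J →* unitaryGroup (Fin M.d) ℂ

attribute [instance] MV.gJ MV.fJ

/-- the conclusion of `S_KEY` -/
structure KeyP (g : FG N W) (η : ℝ) (z : MV N ν) : Prop where
  com : ∀ j v, hs ((z.V j : Mt z.M.d) * (ph g z.M v : Mt z.M.d) -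
    (ph g z.M v : Mt z.M.d) * (z.V j : Mt z.M.d)) ≤ η * z.M.d
  avg : ∀ y : Mt z.M.d, Le (yᴴ * y) 1 →
    hs (Eav z.V y * CM g z.M -
      ∑ v, ntr ((ph g z.M v : Mt z.M.d)ᴴ * y) • (ph g z.M v : Mt z.M.d)) ≤ η * z.M.d

theorem KeyP.mono {g : FG N W} {η η' : ℝ} {z : MV N ν} (h : KeyP g η z) (hη : η ≤ η') :
    KeyP g η' z := by
  have h1 : η * z.M.d ≤ η' * z.M.d := mul_le_mul_of_nonneg_right hη (Nat.cast_nonneg _)
  exact ⟨fun j v => (h.com j v).trans h1, fun y hy => (h.avg y hy).trans h1⟩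

/-- the filter -/
def mvF (ξ : X) (ν : N.toStarSubalgebra → ℝ) (g : FG N W) : Filter (MV N ν) where
  sets := {s | ∃ η : ℝ, 0 < η ∧ ∀ᶠ M in modF ξ ν, ∀ z : MV N ν, z.M = M → KeyP g η z → z ∈ s}
  univ_sets := ⟨1, one_pos, Eventually.of_forall fun _ _ _ _ => Set.mem_univ _⟩
  sets_of_superset := by
    rintro s t ⟨η, hη, h⟩ hst
    exact ⟨η, hη, h.mono fun M hM z hz hk => hst (hM z hz hk)⟩
  inter_sets := by
    rintro s t ⟨η, hη, h⟩ ⟨η', hη', h'⟩
    refine ⟨min η η', lt_min hη hη', ?_⟩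
    filter_upwards [h, h'] with M h1 h2 z hz hk
    exact ⟨h1 z hz (hk.mono (min_le_left _ _)), h2 z hz (hk.mono (min_le_right _ _))⟩

theorem ev_of_mod {g : FG N W} {p : Md N ν → Prop} (h : ∀ᶠ M in modF ξ ν, p M) :
    ∀ᶠ z in mvF ξ ν g, p z.M :=
  ⟨1, one_pos, h.mono fun M hM z hz _ => by
    show p z.M
    rw [hz]; exact hM⟩

theorem ev_key (g : FG N W) (η : ℝ) (hη : 0 < η) : ∀ᶠ z in mvF ξ ν g, KeyP g η z :=
  ⟨η, hη, Eventually.of_forall fun _ _ _ h => h⟩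

theorem mvF_neBot (hkey : S_KEY) (g : FG N W) (h0 : (modF ξ ν).NeBot) : (mvF ξ ν g).NeBot := by
  rw [neBot_iff]
  intro hbot
  have h1 : ∀ᶠ x in mvF ξ ν g, False := by rw [hbot]; exact mem_bot
  obtain ⟨η, hη, h2⟩ := h1
  obtain ⟨δ, hδ, hk⟩ := hkey W η hη
  have h3 : ∀ᶠ M in modF ξ ν, ∀ v ∈ (univ : Finset W), ∀ w ∈ (univ : Finset W),
      hs ((ph g M v : Mt M.d) * (ph g M w : Mt M.d) - (ph g M (v * w) : Mt M.d)) ≤ δ * M.d := by
    rw [eventually_all_finset]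
    intro v _
    rw [eventually_all_finset]
    intro w _
    exact ng_ph_mul g v w δ hδ
  obtain ⟨M, hM2, hM3⟩ := (h2.and h3).exists
  obtain ⟨J, _, _, V, hV1, hV2⟩ := hk M.d (ph g M) M.pos fun v w =>
    hM3 v (mem_univ _) w (mem_univ _)
  exact hM2 ⟨M, J, V⟩ rfl ⟨hV1, hV2⟩

end

end Pool.Agent.H71RE
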