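import Pool.Agent.H71RE.MatG

/-!
# The finite-dimensional algebra in the models
-/

set_option autoImplicit false
set_option linter.unusedSectionVars false
set_option linter.deprecated false
set_option linter.style.haveILetI false

open scoped ComplexOrder Kronecker InnerProductSpace
open Matrix Finset Filter Topology

namespace Pool.Agent.H71RE

open Pool.Agent.N557.QWX (Op IsTracial IsHom)
open Pool.Agent.W661.RC (Mt hs Le HasT tr)
open Pool.Agent.W683.RC (hs_nonneg hs_add_le hs_sub_le sqrt_hs_add_le sqrt_hs_sub_le norm_trace_le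
  hs_conjTranspose hs_unit_mul hs_mul_unit unit_conj hs_eq hs_sub_comm unit_symm hs_mul_le
  hs_mul_le_right contr_conj hs_zero hs_neg hs_smul hs_sum_le hs_mul_le_of hs_mul_le_right_of
  hs_add3_le)

noncomputable section

variable {X : Type} [NormedAddCommGroup X] [InnerProductSpace ℂ X] [CompleteSpace X]
  {N : VonNeumannAlgebra X} {ξ : X} {ν : N.toStarSubalgebra → ℝ}
  {W : Type} [Group W] [Fintype W]

/-- the group spans the finite-dimensional algebra `D` -/
structure Sp (g : FG N W) (D : StarSubalgebra ℂ (Op X)) : Prop where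
  fin : FiniteDimensional ℂ D
  sub : ∀ y ∈ D, y ∈ N
  mem : ∀ w, (g.u w : Op X) ∈ D
  span : ∀ x ∈ D, x ∈ Submodule.span ℂ (Set.range fun w => (g.u w : Op X))

variable {g : FG N W} {D : StarSubalgebra ℂ (Op X)}

theorem coe_cD (ξ : X) (g : FG N W) : ((cDm ξ g : N.toStarSubalgebra) : Op X) =
    ∑ w, star ⟪ξ, (g.u w : Op X) ξ⟫_ℂ • (g.u w : Op X) := by
  rw [cDm, AddSubmonoidClass.coe_finsetSum]
  rfl

theorem cD_mem (h : Sp g D) : ((cDm ξ g : N.toStarSubalgebra) : Op X) ∈ D := by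
  rw [coe_cD]
  exact sum_mem fun w _ => D.smul_mem (h.mem w) _

theorem mul_cD (ξ : X) (g : FG N W) (y : Op X)
    (hy : y ∈ Submodule.span ℂ (Set.range fun w => (g.u w : Op X))) :
    y * ((cDm ξ g : N.toStarSubalgebra) : Op X) =
      ∑ v, ⟪(g.u v : Op X) ξ, y ξ⟫_ℂ • (g.u v : Op X) := by
  rw [coe_cD]
  induction hy using Submodule.span_induction with
  | mem x hx =>
    obtain ⟨w, rfl⟩ := hx
    rw [mul_sum, ← Equiv.sum_comp (Equiv.mulLeft w) (fun v => ⟪(g.u v : Op X) ξ, (g.u w : Op X) ξ⟫_ℂ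
      • (g.u v : Op X))]
    refine sum_congr rfl fun t _ => ?_
    have e1 : (g.u (Equiv.mulLeft w t) : Op X) = (g.u w : Op X) * (g.u t : Op X) := by
      rw [Equiv.coe_mulLeft, map_mul]
      rfl
    rw [e1, mul_smul_comm]
    congr 1
    have e2 : ⟪((g.u w : Op X) * (g.u t : Op X)) ξ, (g.u w : Op X) ξ⟫_ℂ =
        ⟪(g.u t : Op X) ξ, ξ⟫_ℂ := by
      change ⟪(g.u w : Op X) ((g.u t : Op X) ξ), (g.u w : Op X) ξ⟫_ℂ = _
      rw [← ContinuousLinearMap.adjoint_inner_right, ← ContinuousLinearMap.star_eq_adjoint]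
      congr 1
      change (star (g.u w : Op X) * (g.u w : Op X)) ξ = ξ
      rw [Unitary.coe_star_mul_self]
      rfl
    rw [e2, ← inner_conj_symm]
    exact Complex.conj_conj _
  | zero => simp
  | add x y _ _ hx hy =>
    rw [add_mul, hx, hy, ← sum_add_distrib]
    refine sum_congr rfl fun v _ => ?_
    rw [ContinuousLinearMap.add_apply, inner_add_right, add_smul]
  | smul c x _ hx =>
    rw [smul_mul_assoc, hx, smul_sum]
    refine sum_congr rfl fun v _ => ?_
    rw [ContinuousLinearMap.smul_apply, inner_smul_right, mul_smul]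

theorem eq_zero_of_mul_cD (ht : IsTracial N ξ) (h : Sp g D) (y : Op X) (hy : y ∈ D)
    (h0 : y * ((cDm ξ g : N.toStarSubalgebra) : Op X) = 0) : y = 0 := by
  rw [mul_cD ξ g y (h.span y hy)] at h0
  have h1 : ∑ v, ‖⟪(g.u v : Op X) ξ, y ξ⟫_ℂ‖ ^ 2 = 0 := by
    have h2 := congrArg (fun T : Op X => ⟪y ξ, T ξ⟫_ℂ) h0
    simp only [ContinuousLinearMap.sum_apply, ContinuousLinearMap.smul_apply, inner_sum,
      inner_smul_right, ContinuousLinearMap.zero_apply, inner_zero_right] at h2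
    have h3 : ∀ v, ⟪(g.u v : Op X) ξ, y ξ⟫_ℂ * ⟪y ξ, (g.u v : Op X) ξ⟫_ℂ =
        ((‖⟪(g.u v : Op X) ξ, y ξ⟫_ℂ‖ ^ 2 : ℝ) : ℂ) := by
      intro v
      rw [← inner_conj_symm (y ξ), Complex.mul_conj, Complex.normSq_eq_norm_sq]
    rw [sum_congr rfl fun v _ => h3 v, ← Complex.ofReal_sum] at h2
    exact_mod_cast h2
  have h2 : ∀ v, ⟪(g.u v : Op X) ξ, y ξ⟫_ℂ = 0 := by
    intro v
    have := (sum_eq_zero_iff_of_nonneg (fun v _ => by positivity)).1 h1 v (mem_univ _)
    rw [pow_eq_zero_iff (by norm_num), norm_eq_zero] at this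
    exact this
  have h3 : ∀ z ∈ Submodule.span ℂ (Set.range fun w => (g.u w : Op X)), ⟪z ξ, y ξ⟫_ℂ = 0 := by
    intro z hz
    induction hz using Submodule.span_induction with
    | mem x hx =>
      obtain ⟨w, rfl⟩ := hx
      exact h2 w
    | zero => simp
    | add x y _ _ hx hy => rw [ContinuousLinearMap.add_apply, inner_add_left, hx, hy, add_zero]
    | smul c x _ hx => rw [ContinuousLinearMap.smul_apply, inner_smul_left, hx, mul_zero]
  have h4 := h3 y (h.span y hy)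
  refine ht.faithful y (h.sub y hy) ?_
  change ⟪ξ, star y (y ξ)⟫_ℂ = 0
  rw [ContinuousLinearMap.star_eq_adjoint, ContinuousLinearMap.adjoint_inner_right]
  exact h4

theorem exists_inv (ht : IsTracial N ξ) (h : Sp g D) :
    ∃ c : N.toStarSubalgebra, cDm ξ g * c = 1 := by
  haveI := h.fin
  set e : D := ⟨((cDm ξ g : N.toStarSubalgebra) : Op X), cD_mem h⟩ with he
  have hinj : Function.Injective (LinearMap.mulRight ℂ e) := by
    rw [← LinearMap.ker_eq_bot, LinearMap.ker_eq_bot']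
    intro y hy
    apply Subtype.ext
    exact eq_zero_of_mul_cD ht h y y.2 (congrArg Subtype.val hy)
  have hsurj := LinearMap.injective_iff_surjective.1 hinj
  obtain ⟨c, hc⟩ := hsurj 1
  have hc1 : c * e = 1 := hc
  have hc2 : e * c = 1 := by
    have h1 : (e * c - 1) * e = 0 := by
      rw [sub_mul, mul_assoc, hc1, mul_one, one_mul, sub_self]
    have h2 := hinj (a₁ := e * c - 1) (a₂ := 0) (by
      change (e * c - 1) * e = 0 * e
      rw [h1, zero_mul])
    exact sub_eq_zero.1 h2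
  refine ⟨⟨(c : Op X), h.sub _ c.2⟩, Subtype.ext ?_⟩
  exact congrArg (Subtype.val : D → Op X) hc2

/-- the average of an element orthogonal to `D` -/
theorem ev_E (hν : ∀ x, 0 < ν x) (ht : IsTracial N ξ) (h : Sp g D) (x : N.toStarSubalgebra)
    (hx : ∀ y ∈ D, ⟪y ξ, (x : Op X) ξ⟫_ℂ = 0) (κ : ℝ) (hκ : 0 < κ) :
    ∀ᶠ z in mvF ξ ν g, hs (Eav z.V (z.M.a x)) ≤ κ * z.M.d := by
  obtain ⟨c, hc⟩ := exists_inv ht h
  have n1 : Ng ξ ν fun M => 1 - CM g M * M.a c := by
    have h1 := (ng_one (ξ := ξ) (ν := ν)).neg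
    have h2 := ng_mul (ξ := ξ) (ν := ν) (cDm ξ g) c
    have h3 := ((ng_C (ξ := ξ) (ν := ν) g).mulR c).neg
    refine ((h1.add h2).add h3).congr fun M => ?_
    rw [hc]
    noncomm_ring
  have n2 := ng_orth (ν := ν) g x fun w => hx _ (h.mem w)
  have hνx := hν x
  have hνc := hν c
  have e1 := ev_of_mod (g := g) (n1 (κ / (9 * ν x)) (by positivity))
  have e2 := ev_of_mod (g := g) (n2 (κ / (9 * ν c)) (by positivity))
  have e3 := ev_key (ξ := ξ) (ν := ν) g (κ / (9 * (ν x * ν c))) (by positivity)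
  filter_upwards [e1, e2, e3] with z h1 h2 h3
  have hd : (0 : ℝ) < z.M.d := by exact_mod_cast z.M.pos
  set y := z.M.a x with hy
  set C := CM g z.M with hC
  set S := ∑ v, ntr ((ph g z.M v : Mt z.M.d)ᴴ * y) • (ph g z.M v : Mt z.M.d) with hS
  -- scaled form
  have hk : hs (Eav z.V y * C - S) ≤ ν x * (κ / (9 * (ν x * ν c)) * z.M.d) := by
    set r : ℂ := ((√(ν x) : ℝ) : ℂ) with hr
    have hr0 : r ≠ 0 := by
      rw [hr, Complex.ofReal_ne_zero]
      exact (Real.sqrt_pos.2 hνx).ne'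
    have hrr : star r * r = ν x := by
      rw [hr, Complex.star_def, Complex.conj_ofReal, ← Complex.ofReal_mul,
        Real.mul_self_sqrt hνx.le]
    have hle : Le ((r⁻¹ • y)ᴴ * (r⁻¹ • y)) 1 := by
      have h4 := z.M.le x
      have h5 := Pool.Agent.W683.RC.Le_smul h4 (inv_nonneg.2 hνx.le)
      have e : (((ν x)⁻¹ : ℝ) : ℂ) • ((ν x : ℂ) • (1 : Mt z.M.d)) = 1 := by
        rw [smul_smul, ← Complex.ofReal_mul, inv_mul_cancel₀ hνx.ne', Complex.ofReal_one, one_smul]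
      rw [e] at h5
      have e' : (r⁻¹ • y)ᴴ * (r⁻¹ • y) = (((ν x)⁻¹ : ℝ) : ℂ) • ((z.M.a x)ᴴ * z.M.a x) := by
        rw [conjTranspose_smul, Matrix.smul_mul, Matrix.mul_smul, smul_smul, star_inv₀,
          ← mul_inv, hrr, ← Complex.ofReal_inv]
      rw [e']
      exact h5
    have h6 := h3.avg (r⁻¹ • y) hle
    have h7 : Eav z.V (r⁻¹ • y) * C - ∑ v, ntr ((ph g z.M v : Mt z.M.d)ᴴ * (r⁻¹ • y)) •
        (ph g z.M v : Mt z.M.d) = r⁻¹ • (Eav z.V y * C - S) := by
      rw [Eav_smul, Matrix.smul_mul, smul_sub, hS, smul_sum]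
      congr 1
      refine sum_congr rfl fun v _ => ?_
      rw [Matrix.mul_smul, ntr_smul, smul_smul]
    rw [h7, hs_smul] at h6
    have h8 : ‖r⁻¹‖ ^ 2 = (ν x)⁻¹ := by
      rw [norm_inv, hr, Complex.norm_real, Real.norm_eq_abs, abs_of_nonneg (Real.sqrt_nonneg _),
        inv_pow, Real.sq_sqrt hνx.le]
    rw [h8, inv_mul_le_iff₀ hνx] at h6
    exact h6
  have t1 : hs (Eav z.V y * (1 - C * z.M.a c)) ≤ κ / 9 * z.M.d := by
    refine (hs_Eav_mul_le z.V (z.M.le x) _).trans ?_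
    refine (mul_le_mul_of_nonneg_left h1 hνx.le).trans (le_of_eq ?_)
    field_simp
  have t2 : hs ((Eav z.V y * C - S) * z.M.a c) ≤ κ / 9 * z.M.d := by
    refine (hs_mul_le_right_of (z.M.le' c) _).trans ?_
    refine (mul_le_mul_of_nonneg_left hk hνc.le).trans (le_of_eq ?_)
    field_simp
  have t3 : hs (S * z.M.a c) ≤ κ / 9 * z.M.d := by
    refine (hs_mul_le_right_of (z.M.le' c) _).trans ?_
    refine (mul_le_mul_of_nonneg_left h2 hνc.le).trans (le_of_eq ?_)
    field_simp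
  have e : Eav z.V y = Eav z.V y * (1 - C * z.M.a c) + (Eav z.V y * C - S) * z.M.a c +
      S * z.M.a c := by
    noncomm_ring
  rw [e]
  refine (hs_add3_le _ _ _).trans ?_
  linarith

/-- elements of `D` almost commute with the group -/
theorem ev_com (h : Sp g D) (y : N.toStarSubalgebra) (hy : (y : Op X) ∈ D) (κ : ℝ) (hκ : 0 < κ) :
    ∀ᶠ z in mvF ξ ν g, ∀ j, hs ((z.V j : Mt z.M.d) * z.M.a y - z.M.a y * (z.V j : Mt z.M.d)) ≤
      κ * z.M.d := by
  obtain ⟨c, hc⟩ := (Submodule.mem_span_range_iff_exists_fun ℂ).1 (h.span _ hy)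
  have hc' : y = ∑ w, c w • g.v w := by
    apply Subtype.ext
    rw [← hc, AddSubmonoidClass.coe_finsetSum]
    rfl
  have n1 : Ng ξ ν fun M => ∑ w, c w • (M.a (g.v w) - (ph g M w : Mt M.d)) :=
    Ng.sum univ fun w _ => (ng_ph g w).smul (c w)
  set K : ℝ := Fintype.card W * ∑ w, ‖c w‖ ^ 2 with hK
  have hK0 : 0 ≤ K := by positivity
  have e1 := ev_of_mod (g := g) (n1 (κ / 16) (by positivity))
  have e2 := ev_key (ξ := ξ) (ν := ν) g (κ / (4 * (K + 1))) (by positivity)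
  filter_upwards [e1, e2] with z h1 h2 j
  have hd : (0 : ℝ) < z.M.d := by exact_mod_cast z.M.pos
  set Z := ∑ w, c w • (z.M.a (g.v w) - (ph g z.M w : Mt z.M.d)) with hZ
  set V := (z.V j : Mt z.M.d) with hV
  have ea : z.M.a y = (∑ w, c w • (ph g z.M w : Mt z.M.d)) + Z := by
    rw [hc', map_sum, hZ, ← sum_add_distrib]
    refine sum_congr rfl fun w _ => ?_
    rw [map_smul, ← smul_add]
    congr 1
    abel
  have t1 : hs (V * Z - Z * V) ≤ 4 * (κ / 16 * z.M.d) := by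
    refine (hs_sub_le _ _).trans ?_
    rw [hs_unit_mul (uh _), hs_mul_unit (uh _)]
    linarith
  have t2 : hs (V * (∑ w, c w • (ph g z.M w : Mt z.M.d)) -
      (∑ w, c w • (ph g z.M w : Mt z.M.d)) * V) ≤ K * (κ / (4 * (K + 1)) * z.M.d) := by
    have e3 : V * (∑ w, c w • (ph g z.M w : Mt z.M.d)) -
        (∑ w, c w • (ph g z.M w : Mt z.M.d)) * V =
        ∑ w, c w • (V * (ph g z.M w : Mt z.M.d) - (ph g z.M w : Mt z.M.d) * V) := by
      rw [mul_sum, sum_mul, ← sum_sub_distrib]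
      refine sum_congr rfl fun w _ => ?_
      rw [Matrix.mul_smul, Matrix.smul_mul, smul_sub]
    rw [e3]
    refine (hs_sum_le _ _).trans ?_
    rw [card_univ, hK, mul_assoc]
    refine mul_le_mul_of_nonneg_left ?_ (Nat.cast_nonneg _)
    rw [sum_mul]
    refine sum_le_sum fun w _ => ?_
    rw [hs_smul]
    exact mul_le_mul_of_nonneg_left (h2.com j w) (by positivity)
  have t3 : K * (κ / (4 * (K + 1)) * z.M.d) ≤ κ / 4 * z.M.d := by
    rw [← mul_assoc]
    refine mul_le_mul_of_nonneg_right ?_ hd.le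
    rw [mul_div_assoc', div_le_div_iff₀ (by positivity) (by norm_num)]
    nlinarith
  have e4 : V * z.M.a y - z.M.a y * V =
      (V * (∑ w, c w • (ph g z.M w : Mt z.M.d)) - (∑ w, c w • (ph g z.M w : Mt z.M.d)) * V) +
      (V * Z - Z * V) := by
    rw [ea]
    noncomm_ring
  rw [e4]
  refine (hs_add_le _ _).trans ?_
  linarith

variable {Q : Type} [Group Q] [Fintype Q] [DecidableEq Q] {Γ : Type} [Group Γ]

/-- the same for the group ring -/
theorem ev_comb (h : Sp g D) (σ : Γ →* Q) (b : MonoidAlgebra N.toStarSubalgebra Γ)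
    (hb : ∀ k, ((b.coeff k : N.toStarSubalgebra) : Op X) ∈ D) (κ : ℝ) (hκ : 0 < κ) :
    ∀ᶠ z in mvF ξ ν g, ∀ j, hs (kr (z.V j : Mt z.M.d) (1 : Q) * ah z.M σ b -
      ah z.M σ b * kr (z.V j : Mt z.M.d) (1 : Q)) ≤ κ * (Fintype.card Q * z.M.d) := by
  set T := b.coeff.support with hT
  have e1 : ∀ᶠ z in mvF ξ ν g, ∀ k ∈ T, ∀ j, hs ((z.V j : Mt z.M.d) * z.M.a (b.coeff k) -
      z.M.a (b.coeff k) * (z.V j : Mt z.M.d)) ≤ κ / (T.card ^ 2 + 1) * z.M.d := by
    rw [eventually_all_finset]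
    intro k _
    exact ev_com h _ (hb k) _ (by positivity)
  filter_upwards [e1] with z h1 j
  have hd : (0 : ℝ) < z.M.d := by exact_mod_cast z.M.pos
  have hq : (0 : ℝ) ≤ Fintype.card Q := Nat.cast_nonneg _
  have e2 : kr (z.V j : Mt z.M.d) (1 : Q) * ah z.M σ b - ah z.M σ b * kr (z.V j : Mt z.M.d) (1 : Q) =
      ∑ k ∈ T, kr ((z.V j : Mt z.M.d) * z.M.a (b.coeff k) -
        z.M.a (b.coeff k) * (z.V j : Mt z.M.d)) (σ k) := by
    rw [ah_eq_sum z.M σ b T (Finset.Subset.refl _), mul_sum, sum_mul, ← sum_sub_distrib]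
    refine sum_congr rfl fun k _ => ?_
    rw [kr_mul, kr_mul, one_mul, mul_one, kr_sub]
  rw [e2]
  refine (hs_sum_le _ _).trans ?_
  have h3 : ∑ k ∈ T, hs (kr ((z.V j : Mt z.M.d) * z.M.a (b.coeff k) -
      z.M.a (b.coeff k) * (z.V j : Mt z.M.d)) (σ k)) ≤
      T.card * (Fintype.card Q * (κ / (T.card ^ 2 + 1) * z.M.d)) := by
    rw [← nsmul_eq_mul]
    refine sum_le_card_nsmul _ _ _ fun k hk => ?_
    rw [hs_kr]
    exact mul_le_mul_of_nonneg_left (h1 k hk j) hq
  refine (mul_le_mul_of_nonneg_left h3 (Nat.cast_nonneg _)).trans ?_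
  have h4 : (T.card : ℝ) * (T.card * (Fintype.card Q * (κ / (T.card ^ 2 + 1) * z.M.d))) =
      (T.card ^ 2 / (T.card ^ 2 + 1)) * (κ * (Fintype.card Q * z.M.d)) := by
    field_simp
  rw [h4]
  have h5 : (T.card : ℝ) ^ 2 / (T.card ^ 2 + 1) ≤ 1 := by
    rw [div_le_one (by positivity)]; linarith
  calc _ ≤ 1 * (κ * (Fintype.card Q * z.M.d)) :=
        mul_le_mul_of_nonneg_right h5 (by positivity)
    _ = _ := one_mul _

end

end Pool.Agent.H71RE
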