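import Pool.Agent.H71RE.MatH
import Pool.Agent.N303.KQ.FG

/-!
# The final matrix argument
-/

set_option autoImplicit false
set_option linter.unusedSectionVars false
set_option linter.style.haveILetI false

open scoped ComplexOrder Kronecker InnerProductSpace
open Matrix Finset Filter Topology

namespace Pool.Agent.H71RE

open Pool.Agent.N557.QWX (Op IsTracial IsHom)
open Pool.Agent.N557.QW (RF)
open Pool.Agent.W661.RC (Mt hs Le HasT tr)
open Pool.Agent.W683.RC (hs_nonneg hs_add_le hs_sub_le sqrt_hs_add_le sqrt_hs_sub_le norm_trace_le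
  hs_conjTranspose hs_unit_mul hs_mul_unit unit_conj hs_eq hs_sub_comm unit_symm hs_mul_le
  hs_mul_le_right contr_conj hs_zero hs_neg hs_smul hs_sum_le hs_mul_le_of hs_mul_le_right_of
  hs_add3_le)

noncomputable section

section det

variable {ι : Type} [Fintype ι] [DecidableEq ι]

theorem sqrt_le {Y : Matrix ι ι ℂ} {b DD : ℝ} (hb : 0 ≤ b) (hD : 0 ≤ DD)
    (h : hs Y ≤ b ^ 2 * DD) : √(hs Y) ≤ b * √DD := by
  rw [Real.sqrt_le_left (by positivity), mul_pow, Real.sq_sqrt hD]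
  exact h

theorem W1_of_hs {Y : Matrix ι ι ℂ} {b : ℝ} (hb : 0 ≤ b)
    (h : hs Y ≤ b ^ 2 * (Fintype.card ι : ℝ)) : W1 Y (b * (Fintype.card ι : ℝ)) := by
  have h1 := W1_hs Y
  have h2 := sqrt_le hb (Nat.cast_nonneg _) h
  refine h1.mono ?_
  calc √(Fintype.card ι : ℝ) * √(hs Y) ≤ √(Fintype.card ι : ℝ) * (b * √(Fintype.card ι : ℝ)) :=
        mul_le_mul_of_nonneg_left h2 (Real.sqrt_nonneg _)
    _ = b * (√(Fintype.card ι : ℝ) * √(Fintype.card ι : ℝ)) := by ring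
    _ = b * (Fintype.card ι : ℝ) := by rw [Real.mul_self_sqrt (Nat.cast_nonneg _)]

/-- 1-norm closeness to a unitary and the norm bound give 2-norm closeness -/
theorem hs_of_W1 {U Y : Matrix ι ι ℂ} (hU : Uᴴ * U = 1) {r b : ℝ} (h : W1 (U - Y) r)
    (hY : hs Y ≤ (1 + b) * (Fintype.card ι : ℝ)) :
    hs (U - Y) ≤ b * (Fintype.card ι : ℝ) + 2 * r := by
  have h1 := h Uᴴ (le_of_unit (unit_conj hU))
  have e1 : trace (Uᴴ * (U - Y)) = (Fintype.card ι : ℂ) - trace (Uᴴ * Y) := by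
    rw [Matrix.mul_sub, hU, trace_sub, trace_one]
  have h2 : (Fintype.card ι : ℝ) - r ≤ (trace (Uᴴ * Y)).re := by
    have h3 := (Complex.abs_re_le_norm _).trans h1
    rw [e1, Complex.sub_re, Complex.natCast_re] at h3
    linarith [(abs_le.1 h3).2]
  have e2 : hs (U - Y) = (Fintype.card ι : ℝ) + hs Y - 2 * (trace (Uᴴ * Y)).re := by
    have e3 : (U - Y)ᴴ * (U - Y) = Uᴴ * U - Uᴴ * Y - (Yᴴ * U) + Yᴴ * Y := by
      rw [conjTranspose_sub]
      noncomm_ring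
    have e4 : (trace (Yᴴ * U)).re = (trace (Uᴴ * Y)).re := by
      have : Yᴴ * U = (Uᴴ * Y)ᴴ := by
        rw [conjTranspose_mul, conjTranspose_conjTranspose]
      rw [this, trace_conjTranspose]
      exact Complex.conj_re _
    rw [hs_eq, e3, hU, trace_add, trace_sub, trace_sub, trace_one, Complex.add_re, Complex.sub_re,
      Complex.sub_re, e4, hs_eq, Complex.natCast_re]
    ring
  rw [e2]
  linarith

/-- commutator with a unitary -/
theorem re_trace_comm {V Y : Matrix ι ι ℂ} (hV : Vᴴ * V = 1) :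
    (trace (Yᴴ * (Vᴴ * Y * V))).re = hs Y - hs (Y * V - V * Y) / 2 := by
  have h1 : hs (Y * V - V * Y) = hs (Vᴴ * Y * V - Y) := by
    rw [← hs_unit_mul (unit_conj hV) (Y * V - V * Y)]
    congr 1
    rw [Matrix.mul_sub, ← Matrix.mul_assoc Vᴴ V, hV, Matrix.one_mul, Matrix.mul_assoc]
  have h2 : hs (Vᴴ * Y * V) = hs Y := by
    rw [hs_mul_unit hV, hs_unit_mul (unit_conj hV)]
  have h3 : hs (Vᴴ * Y * V - Y) = hs (Vᴴ * Y * V) + hs Y - 2 * (trace (Yᴴ * (Vᴴ * Y * V))).re := by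
    set Z := Vᴴ * Y * V with hZ
    have e3 : (Z - Y)ᴴ * (Z - Y) = Zᴴ * Z - Yᴴ * Z - (Zᴴ * Y) + Yᴴ * Y := by
      rw [conjTranspose_sub]
      noncomm_ring
    have e4 : (trace (Zᴴ * Y)).re = (trace (Yᴴ * Z)).re := by
      have : Zᴴ * Y = (Yᴴ * Z)ᴴ := by
        rw [conjTranspose_mul Yᴴ Z, conjTranspose_conjTranspose]
      rw [this, trace_conjTranspose]
      exact Complex.conj_re _
    rw [hs_eq, e3, trace_add, trace_sub, trace_sub, Complex.add_re, Complex.sub_re,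
      Complex.sub_re, e4, hs_eq, hs_eq]
    ring
  rw [h1, h3, h2]
  ring

end det


/-- unitaries for the words -/
theorem step_words {G : Type} [Group G] {n : ℕ} (γ : FreeGroup (Fin n) →* G)
    (T : Finset (FreeGroup (Fin n))) : ∃ (c : ℝ) (EW : Finset G), 0 ≤ c ∧
    ∀ (ι : Type) [Fintype ι] [DecidableEq ι] (θ : ℝ) (Xg : G → Matrix ι ι ℂ), 0 < θ →
      0 < (Fintype.card ι : ℝ) →
      (∀ i, hs ((Xg (γ (FreeGroup.of i)))ᴴ * Xg (γ (FreeGroup.of i)) - 1) ≤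
        (4 * θ) ^ 2 * (Fintype.card ι : ℝ)) →
      (∀ i, ∀ h ∈ EW, W1 (Xg (γ (FreeGroup.of i)) * Xg h - Xg (γ (FreeGroup.of i) * h))
        (5 / 2 * θ * (Fintype.card ι : ℝ))) →
      (∀ h ∈ EW, hs (Xg h) ≤ (11 / 10) ^ 2 * (Fintype.card ι : ℝ)) →
      hs (Xg 1 - 1) ≤ (5 / 2 * θ) ^ 2 * (Fintype.card ι : ℝ) →
      ∃ U : Fin n → unitaryGroup ι ℂ, ∀ w ∈ T,
        W1 ((FreeGroup.lift U w : Matrix ι ι ℂ) - Xg (γ w))
          ((7 * c + 3) * θ * (Fintype.card ι : ℝ)) := by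
  classical
  choose Ew cw hcw hw using fun w : FreeGroup (Fin n) => word γ w 1
  set c : ℝ := ∑ w ∈ T, cw w with hc
  have hc0 : 0 ≤ c := sum_nonneg fun w _ => hcw w
  have hcle : ∀ w ∈ T, cw w ≤ c := fun w hw => single_le_sum (fun w _ => hcw w) hw
  refine ⟨c, T.biUnion Ew, hc0, ?_⟩
  intro ι _ _ θ Xg hθ0 hDD0 h1 h2 h3 h4
  set DD : ℝ := (Fintype.card ι : ℝ) with hDD
  choose U hU using fun i : Fin n => near_unit (Xg (γ (FreeGroup.of i)))
  refine ⟨U, ?_⟩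
  have r2 : ∀ i, ∀ h ∈ T.biUnion Ew,
      W1 ((U i : Matrix ι ι ℂ) * Xg h - Xg (γ (FreeGroup.of i) * h)) (7 * θ * DD) := by
    intro i h hh
    have e1 : (U i : Matrix ι ι ℂ) * Xg h - Xg (γ (FreeGroup.of i) * h) =
        -((Xg (γ (FreeGroup.of i)) - (U i : Matrix ι ι ℂ)) * Xg h) +
        (Xg (γ (FreeGroup.of i)) * Xg h - Xg (γ (FreeGroup.of i) * h)) := by
      noncomm_ring
    rw [e1]
    have k1 := (W1_mul (Xg (γ (FreeGroup.of i)) - (U i : Matrix ι ι ℂ)) (Xg h)).neg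
    refine (k1.add (h2 i h hh)).mono ?_
    have k4 := sqrt_le (b := 4 * θ) (by positivity) hDD0.le ((hU i).trans (h1 i))
    have k5 : √(hs (Xg h)) ≤ 11 / 10 * √DD := sqrt_le (by norm_num) hDD0.le (h3 h hh)
    have k6 : √(hs (Xg (γ (FreeGroup.of i)) - (U i : Matrix ι ι ℂ))) * √(hs (Xg h)) ≤
        (4 * θ * √DD) * (11 / 10 * √DD) :=
      mul_le_mul k4 k5 (Real.sqrt_nonneg _) (by positivity)
    have k7 : (4 * θ * √DD) * (11 / 10 * √DD) = 44 / 10 * θ * DD := by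
      have := Real.mul_self_sqrt hDD0.le
      calc (4 * θ * √DD) * (11 / 10 * √DD) = 44 / 10 * θ * (√DD * √DD) := by ring
        _ = _ := by rw [this]
    nlinarith [mul_pos hθ0 hDD0]
  have r3 : W1 (Xg 1 - 1) (5 / 2 * θ * DD) := W1_of_hs (b := 5 / 2 * θ) (by positivity) h4
  intro w hwT
  have k1 := hw w ι U Xg (7 * θ * DD) (by positivity) fun i h hh =>
    r2 i h (mem_biUnion.2 ⟨w, hwT, hh⟩)
  rw [mul_one] at k1
  have k2 := (r3.unit_mul (uh (FreeGroup.lift U w))).neg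
  have e1 : (FreeGroup.lift U w : Matrix ι ι ℂ) - Xg (γ w) =
      -((FreeGroup.lift U w : Matrix ι ι ℂ) * (Xg 1 - 1)) +
      ((FreeGroup.lift U w : Matrix ι ι ℂ) * Xg 1 - Xg (γ w)) := by
    rw [Matrix.mul_sub, Matrix.mul_one]
    abel
  rw [e1]
  refine (k2.add k1).mono ?_
  have k3 : cw w * (7 * θ * DD) ≤ c * (7 * θ * DD) :=
    mul_le_mul_of_nonneg_right (hcle w hwT) (by positivity)
  nlinarith [mul_pos hθ0 hDD0]

/-- the hypothesis of the finite form for relations -/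
theorem step_rel {ι : Type} [Fintype ι] [DecidableEq ι] {U X1 : Matrix ι ι ℂ} {θ c : ℝ}
    (hU : Uᴴ * U = 1) (hθ : 0 < θ) (h : W1 (U - X1) ((7 * c + 3) * θ * (Fintype.card ι : ℝ)))
    (h1 : hs (X1 - 1) ≤ (5 / 2 * θ) ^ 2 * (Fintype.card ι : ℝ)) :
    hs (U - 1) ≤ (14 * c + 11) * θ * (Fintype.card ι : ℝ) := by
  have r3 : W1 (X1 - 1) (5 / 2 * θ * (Fintype.card ι : ℝ)) :=
    W1_of_hs (b := 5 / 2 * θ) (by positivity) h1
  have k2 := h.add r3
  rw [sub_add_sub_cancel] at k2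
  refine (W1.hs_le hU (by rw [conjTranspose_one, Matrix.one_mul]) k2).trans (le_of_eq ?_)
  ring

/-- the hypothesis of the finite form for the commutation relations -/
theorem step_com {ι : Type} [Fintype ι] [DecidableEq ι] {U Xw B V : Matrix ι ι ℂ} {θ c : ℝ}
    (hU : Uᴴ * U = 1) (hV : Vᴴ * V = 1) (hθ : 0 < θ)
    (h : W1 (U - Xw) ((7 * c + 3) * θ * (Fintype.card ι : ℝ)))
    (h1 : hs (Xw - B) ≤ (3 / 2 * θ) ^ 2 * (Fintype.card ι : ℝ))
    (h2 : hs (V * B - B * V) ≤ θ ^ 2 * (Fintype.card ι : ℝ)) :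
    hs (U * V - V * U) ≤ (28 * c + 20) * θ * (Fintype.card ι : ℝ) := by
  have k2 : W1 (Xw - B) (3 / 2 * θ * (Fintype.card ι : ℝ)) :=
    W1_of_hs (b := 3 / 2 * θ) (by positivity) h1
  have k3 := h.add k2
  rw [sub_add_sub_cancel] at k3
  have k4 : W1 (V * B - B * V) (θ * (Fintype.card ι : ℝ)) := W1_of_hs hθ.le h2
  have e1 : U * V - V * U = (U - B) * V - V * (U - B) - (V * B - B * V) := by
    noncomm_ring
  have k5 := ((k3.mul_unit hV).sub (k3.unit_mul hV)).sub k4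
  rw [← e1] at k5
  have u1 : (U * V)ᴴ * (U * V) = 1 := by
    rw [conjTranspose_mul, Matrix.mul_assoc, ← Matrix.mul_assoc Uᴴ, hU, Matrix.one_mul, hV]
  have u2 : (V * U)ᴴ * (V * U) = 1 := by
    rw [conjTranspose_mul, Matrix.mul_assoc, ← Matrix.mul_assoc Vᴴ, hV, Matrix.one_mul, hU]
  refine (W1.hs_le u1 u2 k5).trans (le_of_eq ?_)
  ring

/-- the lower bound for the correlations -/
theorem step_low {ι : Type} [Fintype ι] [DecidableEq ι] {U Y V : Matrix ι ι ℂ}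
    (hU : Uᴴ * U = 1) (hV : Vᴴ * V = 1)
    (h1 : hs (U - Y) ≤ (Fintype.card ι : ℝ) / 1000)
    (h2 : hs (U * V - V * U) ≤ 1 / 100 * (Fintype.card ι : ℝ)) :
    48 / 100 * (Fintype.card ι : ℝ) ≤ (trace (Yᴴ * (Vᴴ * Y * V))).re := by
  have k4 : (Fintype.card ι : ℝ) / 2 - (Fintype.card ι : ℝ) / 1000 ≤ hs Y := by
    have h5 : hs U = (Fintype.card ι : ℝ) := by
      have := hs_unit_mul hU (1 : Matrix ι ι ℂ)
      rw [Matrix.mul_one, hs_one] at this
      exact this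
    have h6 := hs_add_le (U - Y) Y
    rw [sub_add_cancel, h5] at h6
    linarith
  have k5 : hs (Y * V - V * Y) ≤ 28 / 1000 * (Fintype.card ι : ℝ) := by
    have e1 : Y * V - V * Y = (U * V - V * U) - ((U - Y) * V - V * (U - Y)) := by
      noncomm_ring
    rw [e1]
    refine (hs_sub_le _ _).trans ?_
    have h5 := hs_sub_le ((U - Y) * V) (V * (U - Y))
    rw [hs_mul_unit hV, hs_unit_mul hV] at h5
    linarith
  rw [re_trace_comm hV]
  have : (0 : ℝ) ≤ (Fintype.card ι : ℝ) := Nat.cast_nonneg _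
  linarith

/-- the average over the group -/
theorem step_avg {Q : Type} [Group Q] [Fintype Q] [DecidableEq Q] {Γ : Type} {d : ℕ} {J : Type}
    [Group J] [Fintype J] (V : J →* unitaryGroup (Fin d) ℂ) (TH : Finset Γ) (σ : Γ → Q)
    (hσ : Set.InjOn σ TH) (y : Γ → Mt d) (r : ℝ)
    (h : ∀ j, r ≤ (trace ((∑ h ∈ TH, kr (y h) (σ h))ᴴ * ((kr (V j : Mt d) (1 : Q))ᴴ *
      (∑ h ∈ TH, kr (y h) (σ h)) * kr (V j : Mt d) (1 : Q)))).re) :
    r ≤ Fintype.card Q * ∑ h ∈ TH, hs (Eav V (y h)) := by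
  have k7 : (Fintype.card J : ℂ)⁻¹ * ∑ j, trace ((∑ h ∈ TH, kr (y h) (σ h))ᴴ *
      ((kr (V j : Mt d) (1 : Q))ᴴ * (∑ h ∈ TH, kr (y h) (σ h)) * kr (V j : Mt d) (1 : Q))) =
      (Fintype.card Q : ℂ) * ∑ h ∈ TH, trace ((y h)ᴴ * Eav V (y h)) := by
    have e1 : ∀ j, (kr (V j : Mt d) (1 : Q))ᴴ * (∑ h ∈ TH, kr (y h) (σ h)) *
        kr (V j : Mt d) (1 : Q) =
        ∑ h ∈ TH, kr ((V j : Mt d)ᴴ * y h * (V j : Mt d)) (σ h) := by
      intro j
      rw [mul_sum, sum_mul]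
      refine sum_congr rfl fun h _ => ?_
      rw [kr_conj, kr_mul, kr_mul, inv_one, one_mul, mul_one]
    have e2 : ∀ j, trace ((∑ h ∈ TH, kr (y h) (σ h))ᴴ * ((kr (V j : Mt d) (1 : Q))ᴴ *
        (∑ h ∈ TH, kr (y h) (σ h)) * kr (V j : Mt d) (1 : Q))) = (Fintype.card Q : ℂ) *
          ∑ h ∈ TH, trace ((y h)ᴴ * ((V j : Mt d)ᴴ * y h * (V j : Mt d))) := by
      intro j
      rw [e1 j]
      exact trace_sum_kr TH σ hσ _ _
    rw [sum_congr rfl fun j _ => e2 j, ← mul_sum, ← mul_assoc, mul_comm (Fintype.card J : ℂ)⁻¹,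
      mul_assoc, sum_comm, mul_sum]
    congr 1
    refine sum_congr rfl fun h _ => ?_
    rw [Eav, Matrix.mul_smul, trace_smul, smul_eq_mul]
    congr 1
    rw [mul_sum, trace_sum]
  have e1 := congrArg Complex.re k7
  have e2 : ((Fintype.card Q : ℂ) * ∑ h ∈ TH, trace ((y h)ᴴ * Eav V (y h))).re =
      Fintype.card Q * ∑ h ∈ TH, hs (Eav V (y h)) := by
    rw [← Complex.ofReal_natCast, Complex.re_ofReal_mul, Complex.re_sum]
    congr 1
    exact sum_congr rfl fun h _ => re_trace_Eav _ _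
  rw [e2] at e1
  rw [← e1, ← Complex.ofReal_natCast, ← Complex.ofReal_inv, Complex.re_ofReal_mul,
    Complex.re_sum]
  have hJ : (0 : ℝ) < Fintype.card J := by exact_mod_cast Fintype.card_pos
  rw [le_inv_mul_iff₀ hJ]
  have := card_nsmul_le_sum (univ : Finset J) _ _ fun j _ => h j
  rwa [nsmul_eq_mul, card_univ] at this

end

end Pool.Agent.H71RE
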