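import Pool.Agent.H71RE.MatI

/-!
# The matrices given by the approximations
-/

set_option autoImplicit false
set_option linter.unusedSectionVars false
set_option linter.style.haveILetI false

open scoped ComplexOrder Kronecker InnerProductSpace
open Matrix Finset Filter Topology

namespace Pool.Agent.H71RE

open Pool.Agent.N557.QWX (Op IsTracial IsHom)
open Pool.Agent.N557.QW (RF)
open Pool.Agent.W661.RC (Mt hs Le HasT tr)
open Pool.Agent.W683.RC (hs_nonneg hs_add_le hs_sub_le sqrt_hs_add_le sqrt_hs_sub_le norm_trace_le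
  hs_conjTranspose hs_unit_mul hs_mul_unit unit_conj hs_eq hs_sub_comm unit_symm hs_mul_le
  hs_mul_le_right contr_conj hs_zero hs_neg hs_smul hs_sum_le hs_mul_le_of hs_mul_le_right_of
  hs_add3_le)

noncomputable section

/-- The matrices obtained from an approximation. -/
structure Pk {G₀ : Type} [Group G₀] (K₀ : Subgroup G₀) (E : Finset G₀) (g₁ : G₀) (θ : ℝ)
    (Γ : Type) where
  Q : Type
  [gQ : Group Q]
  [fQ : Fintype Q]
  [dQ : DecidableEq Q]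
  d : ℕ
  pos : 0 < d
  J : Type
  [gJ : Group J]
  [fJ : Fintype J]
  V : J →* unitaryGroup (Fin d) ℂ
  Xg : G₀ → Matrix (Fin d × Q) (Fin d × Q) ℂ
  B : G₀ → Matrix (Fin d × Q) (Fin d × Q) ℂ
  TH : Finset Γ
  σ : Γ → Q
  inj : Set.InjOn σ TH
  y : Γ → Mt d
  p1 : hs (Xg 1 - 1) ≤ (5 / 2 * θ) ^ 2 * (Fintype.card (Fin d × Q) : ℝ)
  p2 : ∀ k ∈ E, hs (Xg k) ≤ (1 + 2 * θ ^ 2) * (Fintype.card (Fin d × Q) : ℝ)
  p3 : ∀ k ∈ E, hs ((Xg k)ᴴ * Xg k - 1) ≤ (4 * θ) ^ 2 * (Fintype.card (Fin d × Q) : ℝ)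
  p4 : ∀ k ∈ E, ∀ h ∈ E, W1 (Xg k * Xg h - Xg (k * h))
    (5 / 2 * θ * (Fintype.card (Fin d × Q) : ℝ))
  p5 : ∀ k ∈ E, k ∈ K₀ → hs (Xg k - B k) ≤ (3 / 2 * θ) ^ 2 * (Fintype.card (Fin d × Q) : ℝ)
  p6 : ∀ k ∈ E, k ∈ K₀ → ∀ j, hs (kr (V j : Mt d) (1 : Q) * B k - B k * kr (V j : Mt d) (1 : Q)) ≤
    θ ^ 2 * (Fintype.card (Fin d × Q) : ℝ)
  p7 : Xg g₁ = ∑ h ∈ TH, kr (y h) (σ h)
  p8 : Fintype.card Q * ∑ h ∈ TH, hs (Eav V (y h)) ≤
    6 * θ ^ 2 * (Fintype.card (Fin d × Q) : ℝ)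

attribute [instance] Pk.gQ Pk.fQ Pk.dQ Pk.gJ Pk.fJ

section ev

variable {X : Type} [NormedAddCommGroup X] [InnerProductSpace ℂ X] [CompleteSpace X]
  {A : VonNeumannAlgebra X} {α : X} {ν : A.toStarSubalgebra → ℝ}
  {W : Type} [Group W] [Fintype W] {g : FG A W}
  {Q : Type} [Group Q] [Fintype Q] [DecidableEq Q] {Γ : Type} [Group Γ]

theorem ev_ah' (σ : Γ →* Q) (t : MonoidAlgebra A.toStarSubalgebra Γ)
    (ht : Set.InjOn σ (t.coeff.support : Set Γ)) (r δ : ℝ) (hδ : 0 < δ) (h : n2 α t ≤ r) :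
    ∀ᶠ z in mvF α ν g, hs (ah z.M σ t) ≤ (r + δ) * (Fintype.card Q * z.M.d) := by
  filter_upwards [ev_of_mod (g := g) (ev_ah (ξ := α) (ν := ν) σ t ht _ hδ)] with z hz
  refine hz.trans (mul_le_mul_of_nonneg_right ?_ (by positivity))
  linarith

/-- the bound for the averages -/
theorem avg_bound {J : Type} [Fintype J] [Group J] {d : ℕ} (V : J →* unitaryGroup (Fin d) ℂ)
    (TH : Finset Γ) (ye yo y : Γ → Mt d) (ne : Γ → ℝ) (κ δ : ℝ) (hκT : TH.card * κ ≤ δ)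
    (hy : ∀ h ∈ TH, y h = ye h + yo h) (he : ∀ h ∈ TH, hs (ye h) ≤ (ne h + κ) * d)
    (ho : ∀ h ∈ TH, hs (Eav V (yo h)) ≤ κ * d) (hne : ∑ h ∈ TH, ne h ≤ δ) :
    ∑ h ∈ TH, hs (Eav V (y h)) ≤ 6 * δ * d := by
  have k9 : ∀ h ∈ TH, hs (Eav V (y h)) ≤ 2 * ((ne h + κ) * d) + 2 * (κ * d) := by
    intro h hh
    rw [hy h hh, Eav_add]
    refine (hs_add_le _ _).trans ?_
    have := hs_Eav_le V (ye h)
    have := he h hh
    have := ho h hh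
    linarith
  refine (sum_le_sum k9).trans ?_
  have e2 : ∑ h ∈ TH, (2 * ((ne h + κ) * d) + 2 * (κ * d)) =
      2 * (∑ h ∈ TH, ne h + TH.card * κ) * d + 2 * (TH.card * κ) * d := by
    rw [sum_add_distrib, ← mul_sum, ← sum_mul, sum_add_distrib, sum_const, sum_const,
      nsmul_eq_mul, nsmul_eq_mul]
    ring
  rw [e2]
  have hd : (0 : ℝ) ≤ d := Nat.cast_nonneg _
  nlinarith

end ev

section main

variable {G₀ : Type} [Group G₀] {K₀ : Subgroup G₀} {E : Finset G₀} {g₁ : G₀} {θ : ℝ}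
  {X : Type} [NormedAddCommGroup X] [InnerProductSpace ℂ X] [CompleteSpace X]
  {A : VonNeumannAlgebra X} {α : X} {D : StarSubalgebra ℂ (Op X)}
  {Γ : Type} [Group Γ]
  {s : G₀ → MonoidAlgebra A.toStarSubalgebra Γ} {e o : MonoidAlgebra A.toStarSubalgebra Γ}

theorem events1 {ν : A.toStarSubalgebra → ℝ} {W : Type} [Group W] [Fintype W] (g : FG A W)
    (hsp : Sp g D) (hθ : 0 < θ)
    (hA : App K₀ E g₁ (θ ^ 2) A α D s e o) (b : G₀ → MonoidAlgebra A.toStarSubalgebra Γ)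
    (hb : ∀ k ∈ E, k ∈ K₀ → (∀ h, (((b k).coeff h : A.toStarSubalgebra) : Op X) ∈ D) ∧
      n2 α (s k - b k) ≤ θ ^ 2)
    {Q : Type} [Group Q] [Fintype Q] [DecidableEq Q] (σ : Γ →* Q)
    (i1 : Set.InjOn σ ((s 1 - 1).coeff.support : Set Γ))
    (i2 : ∀ k ∈ E, Set.InjOn σ ((s k).coeff.support : Set Γ))
    (i3 : ∀ k ∈ E, ∀ h ∈ E, Set.InjOn σ ((s k * s h - s (k * h)).coeff.support : Set Γ))
    (i4 : ∀ k ∈ E, Set.InjOn σ ((adj (s k) * s k - 1).coeff.support : Set Γ))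
    (i5 : ∀ k ∈ E, Set.InjOn σ ((s k - b k).coeff.support : Set Γ)) :
    ∀ᶠ z in mvF α ν g,
      hs (ah z.M σ (s 1 - 1)) ≤ (θ ^ 2 + θ ^ 2) * (Fintype.card Q * z.M.d) ∧
      (∀ k ∈ E, hs (ah z.M σ (s k)) ≤ (1 + θ ^ 2 + θ ^ 2) * (Fintype.card Q * z.M.d)) ∧
      (∀ k ∈ E, ∀ h ∈ E, hs (ah z.M σ (s k * s h - s (k * h))) ≤
        (θ ^ 2 + θ ^ 2) * (Fintype.card Q * z.M.d)) ∧
      (∀ k ∈ E, hs (ah z.M σ (adj (s k) * s k - 1)) ≤
        (θ ^ 2 + θ ^ 2) * (Fintype.card Q * z.M.d)) ∧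
      (∀ k ∈ E, k ∈ K₀ → hs (ah z.M σ (s k - b k)) ≤
        (θ ^ 2 + θ ^ 2) * (Fintype.card Q * z.M.d)) ∧
      (∀ k ∈ E, k ∈ K₀ → ∀ j, hs (kr (z.V j : Mt z.M.d) (1 : Q) * ah z.M σ (b k) -
        ah z.M σ (b k) * kr (z.V j : Mt z.M.d) (1 : Q)) ≤ θ ^ 2 * (Fintype.card Q * z.M.d)) := by
  have hδ : 0 < θ ^ 2 := by positivity
  have v1 : ∀ᶠ z in mvF α ν g, hs (ah z.M σ (s 1 - 1)) ≤
      (θ ^ 2 + θ ^ 2) * (Fintype.card Q * z.M.d) := ev_ah' σ _ i1 _ _ hδ hA.one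
  have v2 : ∀ᶠ z in mvF α ν g, ∀ k ∈ E,
      hs (ah z.M σ (s k)) ≤ (1 + θ ^ 2 + θ ^ 2) * (Fintype.card Q * z.M.d) := by
    rw [eventually_all_finset]
    intro k hk
    exact ev_ah' σ _ (i2 k hk) _ _ hδ (hA.le k hk)
  have v3 : ∀ᶠ z in mvF α ν g, ∀ k ∈ E, ∀ h ∈ E,
      hs (ah z.M σ (s k * s h - s (k * h))) ≤ (θ ^ 2 + θ ^ 2) * (Fintype.card Q * z.M.d) := by
    rw [eventually_all_finset]
    intro k hk
    rw [eventually_all_finset]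
    intro h hh
    exact ev_ah' σ _ (i3 k hk h hh) _ _ hδ (hA.mul k hk h hh)
  have v4 : ∀ᶠ z in mvF α ν g, ∀ k ∈ E,
      hs (ah z.M σ (adj (s k) * s k - 1)) ≤ (θ ^ 2 + θ ^ 2) * (Fintype.card Q * z.M.d) := by
    rw [eventually_all_finset]
    intro k hk
    exact ev_ah' σ _ (i4 k hk) _ _ hδ (hA.iso k hk)
  have v5 : ∀ᶠ z in mvF α ν g, ∀ k ∈ E, k ∈ K₀ →
      hs (ah z.M σ (s k - b k)) ≤ (θ ^ 2 + θ ^ 2) * (Fintype.card Q * z.M.d) := by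
    rw [eventually_all_finset]
    intro k hk
    by_cases hkK : k ∈ K₀
    · filter_upwards [ev_ah' (g := g) (ν := ν) σ _ (i5 k hk) _ _ hδ (hb k hk hkK).2] with z hz _
      exact hz
    · exact Eventually.of_forall fun z h => absurd h hkK
  have v9 : ∀ᶠ z in mvF α ν g, ∀ k ∈ E, k ∈ K₀ → ∀ j,
      hs (kr (z.V j : Mt z.M.d) (1 : Q) * ah z.M σ (b k) -
        ah z.M σ (b k) * kr (z.V j : Mt z.M.d) (1 : Q)) ≤ θ ^ 2 * (Fintype.card Q * z.M.d) := by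
    rw [eventually_all_finset]
    intro k hk
    by_cases hkK : k ∈ K₀
    · filter_upwards [ev_comb (ξ := α) (ν := ν) hsp σ (b k) (hb k hk hkK).1 _ hδ] with z hz _
      exact hz
    · exact Eventually.of_forall fun z h => absurd h hkK
  filter_upwards [v1, v2, v3, v4, v5, v9] with z w1 w2 w3 w4 w5 w9
  exact ⟨w1, w2, w3, w4, w5, w9⟩

theorem events2 {ν : A.toStarSubalgebra → ℝ} {W : Type} [Group W] [Fintype W] (g : FG A W)
    (hθ : 0 < θ) (s : G₀ → MonoidAlgebra A.toStarSubalgebra Γ)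
    {Q : Type} [Group Q] [Fintype Q] [DecidableEq Q] (σ : Γ →* Q) :
    ∀ᶠ z in mvF α ν g,
      hs (ah z.M σ (1 : MonoidAlgebra A.toStarSubalgebra Γ) - 1) ≤
        θ ^ 2 * (Fintype.card Q * z.M.d) ∧
      (∀ k ∈ E, ∀ h ∈ E, hs (ah z.M σ (s k * s h) - ah z.M σ (s k) * ah z.M σ (s h)) ≤
        θ ^ 2 * (Fintype.card Q * z.M.d)) ∧
      (∀ k ∈ E, hs ((ah z.M σ (s k))ᴴ * ah z.M σ (s k) - ah z.M σ (adj (s k) * s k)) ≤
        θ ^ 2 * (Fintype.card Q * z.M.d)) := by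
  have hδ : 0 < θ ^ 2 := by positivity
  have v6 : ∀ᶠ z in mvF α ν g, hs (ah z.M σ (1 : MonoidAlgebra A.toStarSubalgebra Γ) - 1) ≤
      θ ^ 2 * (Fintype.card Q * z.M.d) := ev_of_mod (nq_one (ξ := α) (ν := ν) σ _ hδ)
  have v7 : ∀ᶠ z in mvF α ν g, ∀ k ∈ E, ∀ h ∈ E,
      hs (ah z.M σ (s k * s h) - ah z.M σ (s k) * ah z.M σ (s h)) ≤
        θ ^ 2 * (Fintype.card Q * z.M.d) := by
    rw [eventually_all_finset]
    intro k hk
    rw [eventually_all_finset]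
    intro h hh
    exact ev_of_mod (nq_mul (ξ := α) (ν := ν) σ _ _ _ hδ)
  have v8 : ∀ᶠ z in mvF α ν g, ∀ k ∈ E,
      hs ((ah z.M σ (s k))ᴴ * ah z.M σ (s k) - ah z.M σ (adj (s k) * s k)) ≤
        θ ^ 2 * (Fintype.card Q * z.M.d) := by
    rw [eventually_all_finset]
    intro k hk
    exact ev_of_mod (nq_adj_mul (ξ := α) (ν := ν) σ _ _ _ hδ)
  filter_upwards [v6, v7, v8] with z w6 w7 w8
  exact ⟨w6, w7, w8⟩

theorem events3 {ν : A.toStarSubalgebra → ℝ} {W : Type} [Group W] [Fintype W] (g : FG A W)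
    (hν : ∀ x, 0 < ν x) (hsp : Sp g D) (hθ : 0 < θ)
    (hA : App K₀ E g₁ (θ ^ 2) A α D s e o) (TH : Finset Γ)
    (he : e.coeff.support ⊆ TH) :
    ∀ᶠ z in mvF α ν g, ∑ h ∈ TH, hs (Eav z.V (z.M.a ((s g₁).coeff h))) ≤ 6 * θ ^ 2 * z.M.d := by
  set κ : ℝ := θ ^ 2 / (TH.card + 1) with hκ
  have hκ0 : 0 < κ := by positivity
  have hκT : TH.card * κ ≤ θ ^ 2 := by
    rw [hκ, mul_div_assoc', div_le_iff₀ (by positivity)]
    nlinarith [sq_nonneg θ]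
  have v10 : ∀ᶠ z in mvF α ν g, ∀ h ∈ TH, hs (z.M.a (e.coeff h)) ≤
      (‖((e.coeff h : A.toStarSubalgebra) : Op X) α‖ ^ 2 + κ) * z.M.d := by
    rw [eventually_all_finset]
    intro h _
    exact ev_of_mod (ev_hs _ _ hκ0)
  have v11 : ∀ᶠ z in mvF α ν g, ∀ h ∈ TH, hs (Eav z.V (z.M.a (o.coeff h))) ≤ κ * z.M.d := by
    rw [eventually_all_finset]
    intro h _
    exact ev_E hν hA.tracial hsp _ (hA.orth h) _ hκ0
  filter_upwards [v10, v11] with z w10 w11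
  refine avg_bound z.V TH (fun h => z.M.a (e.coeff h)) (fun h => z.M.a (o.coeff h)) _
    (fun h => ‖((e.coeff h : A.toStarSubalgebra) : Op X) α‖ ^ 2) κ _ hκT (fun h _ => ?_)
    w10 w11 ?_
  · have e1 : (s g₁).coeff h = e.coeff h + o.coeff h := by
      rw [hA.dec]
      rfl
    rw [e1, map_add]
  · have e1 : ∑ h ∈ TH, ‖((e.coeff h : A.toStarSubalgebra) : Op X) α‖ ^ 2 = n2 α e := by
      rw [n2]
      symm
      refine sum_subset he fun y _ hy => ?_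
      rw [Finsupp.notMem_support_iff.1 hy]
      simp
    rw [e1]
    exact hA.ele

end main

end

end Pool.Agent.H71RE
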