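import Pool.Agent.H71RE.MatA

/-!
# Kronecker products with permutation matrices of a finite group
-/

set_option autoImplicit false

open scoped ComplexOrder Kronecker
open Matrix Finset

namespace Pool.Agent.H71RE

open Pool.Agent.W661.RC (Mt hs Le HasT tr)
open Pool.Agent.W683.RC (hs_nonneg hs_add_le hs_sub_le sqrt_hs_add_le sqrt_hs_sub_le norm_trace_le
  hs_conjTranspose hs_unit_mul hs_mul_unit unit_conj hs_eq hs_sub_comm unit_symm hs_mul_le
  hs_mul_le_right contr_conj hs_zero hs_neg hs_smul hs_sum_le)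

noncomputable section

variable {Q : Type} [Group Q] [Fintype Q] [DecidableEq Q] {d : ℕ}

/-- the left regular permutation matrices -/
def rho (q : Q) : Matrix Q Q ℂ := Matrix.of fun x y => if x = q * y then 1 else 0

omit [Fintype Q] in
theorem rho_apply (q x y : Q) : rho q x y = if x = q * y then 1 else 0 := rfl

omit [Fintype Q] in
theorem rho_one : rho (1 : Q) = 1 := by
  ext x y
  rw [rho_apply, one_mul, Matrix.one_apply]

theorem rho_mul (q r : Q) : rho q * rho r = rho (q * r) := by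
  ext x y
  rw [Matrix.mul_apply, sum_eq_single (r * y)]
  · rw [rho_apply, rho_apply, rho_apply, if_pos rfl, mul_one, mul_assoc]
  · intro z _ hz
    rw [rho_apply r, if_neg hz, mul_zero]
  · intro h
    exact absurd (mem_univ _) h

omit [Fintype Q] in
theorem rho_conj (q : Q) : (rho q)ᴴ = rho q⁻¹ := by
  ext x y
  rw [Matrix.conjTranspose_apply, rho_apply, rho_apply]
  have : y = q * x ↔ x = q⁻¹ * y := by
    rw [eq_inv_mul_iff_mul_eq, eq_comm]
  by_cases h : y = q * x
  · rw [if_pos h, if_pos (this.1 h), star_one]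
  · rw [if_neg h, if_neg (fun h' => h (this.2 h')), star_zero]

theorem trace_rho (q : Q) : trace (rho q) = if q = 1 then (Fintype.card Q : ℂ) else 0 := by
  rw [trace]
  by_cases h : q = 1
  · subst h
    rw [if_pos rfl]
    simp [rho_one]
  · rw [if_neg h]
    refine sum_eq_zero fun x _ => ?_
    rw [diag_apply, rho_apply, if_neg]
    intro h2
    exact h (mul_eq_right.1 h2.symm)

/-- `A ⊗ ρ(q)` -/
def kr (A : Mt d) (q : Q) : Matrix (Fin d × Q) (Fin d × Q) ℂ := A ⊗ₖ rho q

theorem kr_mul (A B : Mt d) (q r : Q) : kr A q * kr B r = kr (A * B) (q * r) := by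
  rw [kr, kr, kr, ← rho_mul, Matrix.mul_kronecker_mul]

omit [Fintype Q] in
theorem kr_conj (A : Mt d) (q : Q) : (kr A q)ᴴ = kr Aᴴ q⁻¹ := by
  rw [kr, kr, ← rho_conj, Matrix.conjTranspose_kronecker]

omit [Fintype Q] in
theorem kr_add (A B : Mt d) (q : Q) : kr (A + B) q = kr A q + kr B q :=
  Matrix.add_kronecker _ _ _

omit [Fintype Q] in
theorem kr_zero (q : Q) : kr (0 : Mt d) q = 0 := Matrix.zero_kronecker _

omit [Fintype Q] in
theorem kr_smul (c : ℂ) (A : Mt d) (q : Q) : kr (c • A) q = c • kr A q :=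
  Matrix.smul_kronecker _ _ _

omit [Fintype Q] in
theorem kr_sub (A B : Mt d) (q : Q) : kr (A - B) q = kr A q - kr B q := by
  rw [sub_eq_add_neg, kr_add, sub_eq_add_neg]
  congr 1
  have := kr_smul (-1) B q
  rwa [neg_one_smul, neg_one_smul] at this

omit [Fintype Q] in
theorem kr_sum {J : Type*} (s : Finset J) (f : J → Mt d) (q : Q) :
    kr (∑ j ∈ s, f j) q = ∑ j ∈ s, kr (f j) q := by
  classical
  induction s using Finset.induction_on with
  | empty => simp [kr_zero]
  | insert a s ha ih => rw [sum_insert ha, sum_insert ha, kr_add, ih]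

omit [Fintype Q] in
theorem kr_one : kr (1 : Mt d) (1 : Q) = 1 := by
  rw [kr, rho_one]
  exact Matrix.one_kronecker_one

theorem trace_kr (A : Mt d) (q : Q) :
    trace (kr A q) = if q = 1 then trace A * (Fintype.card Q : ℂ) else 0 := by
  rw [kr, Matrix.trace_kronecker, trace_rho]
  split_ifs
  · rfl
  · rw [mul_zero]

/-- inner products of sums -/
theorem trace_sum_kr {Γ : Type} (T : Finset Γ) (σ : Γ → Q) (hσ : Set.InjOn σ T) (A B : Γ → Mt d) :
    trace ((∑ h ∈ T, kr (A h) (σ h))ᴴ * ∑ h ∈ T, kr (B h) (σ h)) =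
      (Fintype.card Q : ℂ) * ∑ h ∈ T, trace ((A h)ᴴ * B h) := by
  rw [conjTranspose_sum, sum_mul, trace_sum, mul_sum]
  refine sum_congr rfl fun h hh => ?_
  rw [mul_sum, trace_sum, sum_eq_single h]
  · rw [kr_conj, kr_mul, inv_mul_cancel, trace_kr, if_pos rfl, mul_comm]
  · intro k hk hkh
    rw [kr_conj, kr_mul, trace_kr, if_neg]
    intro h2
    exact hkh (hσ hk hh (inv_mul_eq_one.1 h2).symm)
  · intro h3
    exact absurd hh h3

theorem hs_sum_kr {Γ : Type} (T : Finset Γ) (σ : Γ → Q) (hσ : Set.InjOn σ T) (A : Γ → Mt d) :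
    hs (∑ h ∈ T, kr (A h) (σ h)) = Fintype.card Q * ∑ h ∈ T, hs (A h) := by
  rw [hs_eq, trace_sum_kr T σ hσ, ← Complex.ofReal_natCast, Complex.re_ofReal_mul, Complex.re_sum]
  congr 1
  exact sum_congr rfl fun h _ => (hs_eq _).symm

theorem hs_kr (A : Mt d) (q : Q) : hs (kr A q) = Fintype.card Q * hs A := by
  have h := hs_sum_kr {()} (fun _ : Unit => q) (fun _ _ _ _ _ => rfl) (fun _ => A)
  simpa using h

/-- the unitary `V ⊗ 1` -/
def kru (V : unitaryGroup (Fin d) ℂ) : unitaryGroup (Fin d × Q) ℂ :=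
  ⟨kr (V : Mt d) (1 : Q), by
    rw [Matrix.mem_unitaryGroup_iff', star_eq_conjTranspose, kr_conj, kr_mul, uh, inv_one, one_mul,
      kr_one]⟩

end

end Pool.Agent.H71RE
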