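import Pool.Agent.H71RE.MatJ

/-!
# The package of matrices
-/

set_option autoImplicit false
set_option linter.unusedSectionVars false
set_option linter.style.haveILetI false

open scoped ComplexOrder Kronecker InnerProductSpace
open Matrix Finset Filter Topology

namespace Pool.Agent.H71RE

open Pool.Agent.N557.QWX (Op IsTracial IsHom)
open Pool.Agent.N557.QW (RF)
open Pool.Agent.W661.RC (Mt hs Le HasT tr)
open Pool.Agent.W683.RC (hs_nonneg hs_add_le hs_sub_le sqrt_hs_add_le sqrt_hs_sub_le norm_trace_le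
  hs_conjTranspose hs_unit_mul hs_mul_unit unit_conj hs_eq hs_sub_comm unit_symm hs_mul_le
  hs_mul_le_right contr_conj hs_zero hs_neg hs_smul hs_sum_le hs_mul_le_of hs_mul_le_right_of
  hs_add3_le)

noncomputable section

section small

variable {ι : Type} [Fintype ι] [DecidableEq ι]

theorem sm1 {a b : Matrix ι ι ℂ} {θ : ℝ}
    (h1 : hs a ≤ (θ ^ 2 + θ ^ 2) * (Fintype.card ι : ℝ))
    (h2 : hs b ≤ θ ^ 2 * (Fintype.card ι : ℝ)) :
    hs (a + b) ≤ (5 / 2 * θ) ^ 2 * (Fintype.card ι : ℝ) := by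
  refine (hs_add_le _ _).trans ?_
  have : 0 ≤ θ ^ 2 * (Fintype.card ι : ℝ) := by positivity
  nlinarith

theorem sm2 {a b c : Matrix ι ι ℂ} {θ : ℝ}
    (h1 : hs a ≤ θ ^ 2 * (Fintype.card ι : ℝ))
    (h2 : hs b ≤ (θ ^ 2 + θ ^ 2) * (Fintype.card ι : ℝ))
    (h3 : hs c ≤ θ ^ 2 * (Fintype.card ι : ℝ)) :
    hs (a + b + c) ≤ (4 * θ) ^ 2 * (Fintype.card ι : ℝ) := by
  refine (hs_add3_le _ _ _).trans ?_
  have : 0 ≤ θ ^ 2 * (Fintype.card ι : ℝ) := by positivity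
  nlinarith

theorem sm3 {a b : Matrix ι ι ℂ} {θ : ℝ} (hθ : 0 < θ)
    (h1 : hs a ≤ θ ^ 2 * (Fintype.card ι : ℝ))
    (h2 : hs b ≤ (θ ^ 2 + θ ^ 2) * (Fintype.card ι : ℝ)) :
    W1 (-a + b) (5 / 2 * θ * (Fintype.card ι : ℝ)) := by
  have k1 : W1 a (θ * (Fintype.card ι : ℝ)) := W1_of_hs hθ.le h1
  have k2 : W1 b (3 / 2 * θ * (Fintype.card ι : ℝ)) := by
    refine W1_of_hs (b := 3 / 2 * θ) (by positivity) (h2.trans ?_)
    have : 0 ≤ θ ^ 2 * (Fintype.card ι : ℝ) := by positivity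
    nlinarith
  refine (k1.neg.add k2).mono (le_of_eq ?_)
  ring

theorem sm4 {a : Matrix ι ι ℂ} {θ : ℝ}
    (h1 : hs a ≤ (θ ^ 2 + θ ^ 2) * (Fintype.card ι : ℝ)) :
    hs a ≤ (3 / 2 * θ) ^ 2 * (Fintype.card ι : ℝ) := by
  refine h1.trans ?_
  have : 0 ≤ θ ^ 2 * (Fintype.card ι : ℝ) := by positivity
  nlinarith

end small

section main

variable {G₀ : Type} [Group G₀] {K₀ : Subgroup G₀} {E : Finset G₀} {g₁ : G₀} {θ : ℝ}
  {X : Type} [NormedAddCommGroup X] [InnerProductSpace ℂ X] [CompleteSpace X]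
  {A : VonNeumannAlgebra X} {α : X} {D : StarSubalgebra ℂ (Op X)}
  {Γ : Type} [Group Γ]
  {s : G₀ → MonoidAlgebra A.toStarSubalgebra Γ} {e o : MonoidAlgebra A.toStarSubalgebra Γ}

theorem pack (hlin : S_LIN) (hkey : S_KEY) (hfing : S_FING) (hΓ : RF Γ) (hθ : 0 < θ)
    (hA : App K₀ E g₁ (θ ^ 2) A α D s e o) : Nonempty (Pk K₀ E g₁ θ Γ) := by
  classical
  obtain ⟨W, _, _, u, hu1, hu2⟩ := hfing (Op X) D hA.fin
  let g : FG A W := ⟨u, fun w => hA.mem _ (hu1 w)⟩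
  have hsp : Sp g D := ⟨hA.fin, hA.mem, hu1, hu2⟩
  obtain ⟨ν, hν, hmod⟩ := hlin X A α hA.tracial hA.qwep
  haveI h0 : (modF α ν).NeBot := modF_neBot hmod
  haveI h1 : (mvF α ν g).NeBot := mvF_neBot hkey g h0
  have hb : ∀ k : G₀, ∃ b : MonoidAlgebra A.toStarSubalgebra Γ, k ∈ E → k ∈ K₀ →
      (∀ h, ((b.coeff h : A.toStarSubalgebra) : Op X) ∈ D) ∧ n2 α (s k - b) ≤ θ ^ 2 := by
    intro k
    by_cases hk : k ∈ E ∧ k ∈ K₀
    · obtain ⟨b, hb1, hb2⟩ := hA.sub k hk.1 hk.2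
      exact ⟨b, fun _ _ => ⟨hb1, hb2⟩⟩
    · exact ⟨0, fun h1 h2 => absurd ⟨h1, h2⟩ hk⟩
  choose b hb using hb
  -- the finite quotient
  set TH : Finset Γ := (s 1 - 1).coeff.support ∪ E.biUnion (fun k => (s k).coeff.support) ∪
    (E ×ˢ E).biUnion (fun p => (s p.1 * s p.2 - s (p.1 * p.2)).coeff.support) ∪
    E.biUnion (fun k => (adj (s k) * s k - 1).coeff.support) ∪
    E.biUnion (fun k => (s k - b k).coeff.support) ∪
    (e.coeff.support ∪ o.coeff.support ∪ (s g₁).coeff.support) with hTH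
  obtain ⟨Q, _, _, σ, hσ⟩ := hΓ TH
  haveI : Fintype Q := Fintype.ofFinite Q
  have inj : ∀ t : MonoidAlgebra A.toStarSubalgebra Γ, t.coeff.support ⊆ TH →
      Set.InjOn σ (t.coeff.support : Set Γ) := fun t ht => hσ.mono (by exact_mod_cast ht)
  have s1 : (s 1 - 1).coeff.support ⊆ TH := by
    intro y hy; simp only [hTH, mem_union]; tauto
  have s2 : ∀ k ∈ E, (s k).coeff.support ⊆ TH := by
    intro k hk y hy
    simp only [hTH, mem_union, mem_biUnion]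
    exact Or.inl (Or.inl (Or.inl (Or.inl (Or.inr ⟨k, hk, hy⟩))))
  have s3 : ∀ k ∈ E, ∀ h ∈ E, (s k * s h - s (k * h)).coeff.support ⊆ TH := by
    intro k hk h hh y hy
    simp only [hTH, mem_union, mem_biUnion]
    exact Or.inl (Or.inl (Or.inl (Or.inr ⟨(k, h), mem_product.2 ⟨hk, hh⟩, hy⟩)))
  have s4 : ∀ k ∈ E, (adj (s k) * s k - 1).coeff.support ⊆ TH := by
    intro k hk y hy
    simp only [hTH, mem_union, mem_biUnion]
    exact Or.inl (Or.inl (Or.inr ⟨k, hk, hy⟩))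
  have s5 : ∀ k ∈ E, (s k - b k).coeff.support ⊆ TH := by
    intro k hk y hy
    simp only [hTH, mem_union, mem_biUnion]
    exact Or.inl (Or.inr ⟨k, hk, hy⟩)
  have s6 : e.coeff.support ⊆ TH := by
    intro y hy; simp only [hTH, mem_union]; tauto
  have s7 : (s g₁).coeff.support ⊆ TH := by
    intro y hy; simp only [hTH, mem_union]; tauto
  obtain ⟨z, ⟨⟨w1, w2, w3, w4, w5, w9⟩, w6, w7, w8⟩, w10⟩ := (((events1 g hsp hθ hA b hb σ (inj _ s1)
    (fun k hk => inj _ (s2 k hk)) (fun k hk h hh => inj _ (s3 k hk h hh))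
    (fun k hk => inj _ (s4 k hk)) (fun k hk => inj _ (s5 k hk))).and
    (events2 (E := E) g hθ s σ)).and (events3 g hν hsp hθ hA TH s6)).exists
  have hcard : (Fintype.card Q * z.M.d : ℝ) = (Fintype.card (Fin z.M.d × Q) : ℝ) := by
    rw [Fintype.card_prod, Fintype.card_fin]
    push_cast
    ring
  rw [hcard] at w1 w6
  simp only [hcard] at w2 w3 w4 w5 w7 w8 w9
  refine ⟨⟨Q, z.M.d, z.M.pos, z.J, z.V, fun k => ah z.M σ (s k), fun k => ah z.M σ (b k), TH, σ, hσ,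
    fun h => z.M.a ((s g₁).coeff h), ?_, ?_, ?_, ?_, ?_, ?_, ?_, ?_⟩⟩
  · have e1 : ah z.M σ (s 1) - 1 = ah z.M σ (s 1 - 1) + (ah z.M σ 1 - 1) := by
      rw [ah_sub]
      abel
    rw [e1]
    exact sm1 w1 w6
  · intro k hk
    refine (w2 k hk).trans (le_of_eq ?_)
    ring
  · intro k hk
    have e1 : (ah z.M σ (s k))ᴴ * ah z.M σ (s k) - 1 =
        ((ah z.M σ (s k))ᴴ * ah z.M σ (s k) - ah z.M σ (adj (s k) * s k)) +
        ah z.M σ (adj (s k) * s k - 1) + (ah z.M σ 1 - 1) := by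
      rw [ah_sub]
      abel
    rw [e1]
    exact sm2 (w8 k hk) (w4 k hk) w6
  · intro k hk h hh
    have e1 : ah z.M σ (s k) * ah z.M σ (s h) - ah z.M σ (s (k * h)) =
        -(ah z.M σ (s k * s h) - ah z.M σ (s k) * ah z.M σ (s h)) +
        ah z.M σ (s k * s h - s (k * h)) := by
      rw [ah_sub]
      abel
    rw [e1]
    exact sm3 hθ (w7 k hk h hh) (w3 k hk h hh)
  · intro k hk hkK
    rw [← ah_sub]
    exact sm4 (w5 k hk hkK)
  · intro k hk hkK j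
    exact w9 k hk hkK j
  · exact ah_eq_sum z.M σ (s g₁) TH s7
  · rw [← hcard]
    calc _ ≤ (Fintype.card Q : ℝ) * (6 * θ ^ 2 * z.M.d) :=
          mul_le_mul_of_nonneg_left w10 (Nat.cast_nonneg _)
      _ = _ := by ring

theorem mat (hfm : Pool.Agent.N52.ST.S_FM) (hlin : S_LIN) (hkey : S_KEY) (hfing : S_FING)
    (G₀ : Type) [Group G₀] (K₀ : Subgroup G₀) (hG : HasT G₀) (hK : HasT K₀)
    (hgen : Subgroup.closure {g : G₀ | ∀ k ∈ K₀, g⁻¹ * k * g ∈ K₀} = ⊤)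
    (g₀ : G₀) (hg₀ : ∀ k ∈ K₀, g₀⁻¹ * k * g₀ ∈ K₀) (k₀ : G₀) (hk₀ : k₀ ∈ K₀)
    (Γ : Type) [Group Γ] (hΓ : RF Γ)
    (happ : ∀ (E : Finset G₀) (δ : ℝ), 0 < δ → ∃ (X : Type) (_ : NormedAddCommGroup X)
      (_ : InnerProductSpace ℂ X) (_ : CompleteSpace X)
      (A : VonNeumannAlgebra X) (α : X) (D : StarSubalgebra ℂ (Op X))
      (s : G₀ → MonoidAlgebra A.toStarSubalgebra Γ) (e o : MonoidAlgebra A.toStarSubalgebra Γ),
      App K₀ E (g₀ * k₀ * g₀⁻¹) δ A α D s e o) : False := by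
  classical
  obtain ⟨n, γ, hγ⟩ := Pool.Agent.N303.KQ.exists_free hG
  obtain ⟨x, hx⟩ := hγ (g₀ * k₀ * g₀⁻¹)
  set g₁ := g₀ * k₀ * g₀⁻¹ with hg₁
  have hx' : g₀⁻¹ * γ x * g₀ ∈ K₀ := by
    rw [hx, hg₁]
    have : g₀⁻¹ * (g₀ * k₀ * g₀⁻¹) * g₀ = k₀ := by group
    rw [this]
    exact hk₀
  obtain ⟨δ₀, R, S, hδ₀, hR, hS, hFM⟩ :=
    fm_gen hfm G₀ K₀ hG hK hgen n γ hγ g₀ hg₀ x hx' (1 / 100) (by norm_num)
  set T : Finset (FreeGroup (Fin n)) := insert x (R ∪ S) with hT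
  obtain ⟨c, EW, hc0, hwords⟩ := step_words γ T
  set E : Finset G₀ := insert 1 (T.image γ ∪ EW ∪ univ.image (fun i : Fin n => γ (FreeGroup.of i)))
    with hE
  set m : ℝ := min δ₀ (1 / 1000) with hm
  have hm0 : 0 < m := lt_min hδ₀ (by norm_num)
  set θ : ℝ := m / (28 * c + 28) with hθ
  have hc28 : 0 < 28 * c + 28 := by positivity
  have hθ0 : 0 < θ := by positivity
  have hθm : (28 * c + 28) * θ = m := by rw [hθ]; field_simp
  have hm1 : m ≤ δ₀ := min_le_left _ _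
  have hm2 : m ≤ 1 / 1000 := min_le_right _ _
  have hcθ : 0 ≤ c * θ := by positivity
  have hθ1 : θ ≤ 1 / 28000 := by nlinarith
  have hδ : 0 < θ ^ 2 := by positivity
  have hδθ : θ ^ 2 ≤ θ / 28000 := by nlinarith
  obtain ⟨X, _, _, _, A, α, D, s, e, o, hA⟩ := happ E (θ ^ 2) hδ
  obtain ⟨z⟩ := pack hlin hkey hfing hΓ hθ0 hA
  have hd : (0 : ℝ) < z.d := by exact_mod_cast z.pos
  haveI : Nonempty (Fin z.d) := ⟨⟨0, z.pos⟩⟩
  have hDD0 : 0 < (Fintype.card (Fin z.d × z.Q) : ℝ) := by exact_mod_cast Fintype.card_pos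
  have mE1 : (1 : G₀) ∈ E := mem_insert_self _ _
  have mEi : ∀ i : Fin n, γ (FreeGroup.of i) ∈ E := fun i =>
    mem_insert_of_mem (mem_union_right _ (mem_image_of_mem _ (mem_univ i)))
  have mEW : ∀ k ∈ EW, k ∈ E := fun k hk =>
    mem_insert_of_mem (mem_union_left _ (mem_union_right _ hk))
  have mET : ∀ w ∈ T, γ w ∈ E := fun w hw =>
    mem_insert_of_mem (mem_union_left _ (mem_union_left _ (mem_image_of_mem _ hw)))
  obtain ⟨U, hU⟩ := hwords (Fin z.d × z.Q) θ z.Xg hθ0 hDD0 (fun i => z.p3 _ (mEi i))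
    (fun i h hh => z.p4 _ (mEi i) h (mEW h hh))
    (fun h hh => (z.p2 h (mEW h hh)).trans
      (mul_le_mul_of_nonneg_right (by nlinarith) hDD0.le)) z.p1
  have hbound : ∀ q : ℝ, q ≤ 28 * c + 28 → q * θ * (Fintype.card (Fin z.d × z.Q) : ℝ) ≤
      δ₀ * (Fintype.card (Fin z.d × z.Q) : ℝ) := by
    intro q hq
    refine mul_le_mul_of_nonneg_right ?_ hDD0.le
    have : q * θ ≤ (28 * c + 28) * θ := mul_le_mul_of_nonneg_right hq hθ0.le
    linarith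
  -- the hypotheses of the finite form
  have f1 : ∀ w ∈ R, hs ((FreeGroup.lift U w : Matrix (Fin z.d × z.Q) (Fin z.d × z.Q) ℂ) - 1) ≤
      δ₀ * (Fintype.card (Fin z.d × z.Q) : ℝ) := by
    intro w hwR
    have hwT : w ∈ T := mem_insert_of_mem (mem_union_left _ hwR)
    have k1 := hU w hwT
    rw [hR w hwR] at k1
    exact (step_rel (uh _) hθ0 k1 z.p1).trans (hbound (14 * c + 11) (by linarith))
  have f2 : ∀ j, ∀ w ∈ S, hs ((FreeGroup.lift U w : Matrix (Fin z.d × z.Q) (Fin z.d × z.Q) ℂ) *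
      kr (z.V j : Mt z.d) (1 : z.Q) -
      kr (z.V j : Mt z.d) (1 : z.Q) *
        (FreeGroup.lift U w : Matrix (Fin z.d × z.Q) (Fin z.d × z.Q) ℂ)) ≤
      δ₀ * (Fintype.card (Fin z.d × z.Q) : ℝ) := by
    intro j w hwS
    have hwT : w ∈ T := mem_insert_of_mem (mem_union_right _ hwS)
    exact (step_com (uh _) (uh (kru (z.V j))) hθ0 (hU w hwT) (z.p5 _ (mET w hwT) (hS w hwS))
      (z.p6 _ (mET w hwT) (hS w hwS) j)).trans (hbound (28 * c + 20) (by linarith))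
  have f3 : ∀ j, hs ((FreeGroup.lift U x : Matrix (Fin z.d × z.Q) (Fin z.d × z.Q) ℂ) *
      kr (z.V j : Mt z.d) (1 : z.Q) -
      kr (z.V j : Mt z.d) (1 : z.Q) *
        (FreeGroup.lift U x : Matrix (Fin z.d × z.Q) (Fin z.d × z.Q) ℂ)) ≤
      1 / 100 * (Fintype.card (Fin z.d × z.Q) : ℝ) :=
    fun j => hFM _ U _ f1 (le_of_unit (uh (kru (z.V j)))) (f2 j)
  -- the contradiction
  have hxT : x ∈ T := mem_insert_self _ _
  have hgE : g₁ ∈ E := by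
    have := mET x hxT
    rwa [hx] at this
  have k1 : W1 ((FreeGroup.lift U x : Matrix (Fin z.d × z.Q) (Fin z.d × z.Q) ℂ) - z.Xg g₁)
      ((7 * c + 3) * θ * (Fintype.card (Fin z.d × z.Q) : ℝ)) := by
    have := hU x hxT
    rwa [hx] at this
  have k2 := hs_of_W1 (uh (FreeGroup.lift U x)) k1 (b := 2 * θ ^ 2) (z.p2 g₁ hgE)
  have k3 : hs ((FreeGroup.lift U x : Matrix (Fin z.d × z.Q) (Fin z.d × z.Q) ℂ) - z.Xg g₁) ≤
      (Fintype.card (Fin z.d × z.Q) : ℝ) / 1000 := by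
    refine k2.trans ?_
    have h5 : 2 * θ ^ 2 + 2 * ((7 * c + 3) * θ) ≤ 1 / 1000 := by
      have : 2 * θ ^ 2 ≤ θ := by nlinarith
      have h6 : (14 * c + 7) * θ ≤ (28 * c + 28) * θ :=
        mul_le_mul_of_nonneg_right (by linarith) hθ0.le
      linarith
    have := mul_le_mul_of_nonneg_right h5 hDD0.le
    linarith
  have k6 : ∀ j, 48 / 100 * (Fintype.card (Fin z.d × z.Q) : ℝ) ≤
      (trace ((z.Xg g₁)ᴴ * ((kr (z.V j : Mt z.d) (1 : z.Q))ᴴ * z.Xg g₁ *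
        kr (z.V j : Mt z.d) (1 : z.Q)))).re :=
    fun j => step_low (uh _) (uh (kru (z.V j))) k3 (f3 j)
  rw [z.p7] at k6
  have k7 := step_avg z.V z.TH z.σ z.inj z.y _ k6
  have k8 := z.p8
  have k12 : 6 * θ ^ 2 ≤ 1 / 100 := by nlinarith
  have k13 := mul_le_mul_of_nonneg_right k12 hDD0.le
  linarith

end main

end

end Pool.Agent.H71RE
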